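import Pool.Agent.CT.Stmts

/-!
# Section 4: bad pairs are rare under the null law
-/

namespace Pool.Agent.CT

open Finset Matrix

lemma bad_log_ineq {x : ℝ} (hx : 0 < x) (hx2 : x < 1 / 2) : (1 - x) + 1 / 8 ≤ - Real.log x := by
  have h1 : Real.log (2 * x) ≤ 2 * x - 1 := Real.log_le_sub_one_of_pos (by positivity)
  have h2 : Real.log (2 * x) = Real.log 2 + Real.log x := Real.log_mul (by norm_num) hx.ne'
  have h3 : (0.6931471803 : ℝ) < Real.log 2 := Real.log_two_gt_d9
  linarith

lemma bad_sum_cf_W {L A : Type} [Fintype L] [Nonempty L] [Fintype A] {k : ℕ}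
    (F : L → NodeFun A (Fin (k + 2))) (h1 : S_WT) (h2 : S_CF) :
    ∀ s (f : Tr A s → ℝ), (∀ y, 0 ≤ f y) → ∑ y, cf s f y * W F s (swap y) ≤ 1
  | 0, f, _ => by
      rw [sum_tr_zero]
      simp [cf, W]
  | s + 1, f, hf => by
      obtain ⟨w0, -, w3, -⟩ := h1 L A k F
      obtain ⟨c1, -⟩ := h2 A
      rw [sum_tr_succ]
      have hm : ∀ y, 0 ≤ marg f y := fun y =>
        Finset.sum_nonneg fun o _ => Finset.sum_nonneg fun i _ => hf _
      refine le_trans (Finset.sum_le_sum fun y _ => ?_) (bad_sum_cf_W F h1 h2 s (marg f) hm)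
      have hc : 0 ≤ cf s (marg f) y := c1 _ _ hm _
      have hW : 0 ≤ W F s (swap y) := w0 _ _
      calc ∑ o, ∑ i, cf (s + 1) f (y.snoc o i) * W F (s + 1) (swap (y.snoc o i))
          = ∑ o, cf s (marg f) y * ((∑ i, f (y.snoc o i)) / marg f y) * W F s (swap y) := by
            refine Finset.sum_congr rfl fun o _ => ?_
            rw [← w3 s (swap y) o, Finset.mul_sum]
            rfl
        _ = cf s (marg f) y * ((∑ o, ∑ i, f (y.snoc o i)) / marg f y) * W F s (swap y) := by
            rw [Finset.sum_div, Finset.mul_sum, Finset.sum_mul]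
        _ ≤ cf s (marg f) y * 1 * W F s (swap y) := by
            refine mul_le_mul_of_nonneg_right (mul_le_mul_of_nonneg_left ?_ hc) hW
            exact div_self_le_one (marg f y)
        _ = cf s (marg f) y * W F s (swap y) := by rw [mul_one]

open Classical in
/-- The pointwise inequality. -/
lemma bad_pointwise {L A : Type} [Fintype L] [Nonempty L] [Fintype A] {k : ℕ}
    (F : L → NodeFun A (Fin (k + 2))) (h1 : S_WT) (h2 : S_CF) (s : ℕ) (p y : Tr A s) :
    nu F s p y - W F s (swap p) * W F s p * (cf s (Rw F s p) y * W F s (swap y)) +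
        (if Bad F s p y then nu F s p y else 0) / 8 ≤
      nu F s p y * Real.log (beta F s p y / (W F s p * cf s (Rw F s p) y)) := by
  obtain ⟨w0, -, w3, w4, b0, -, -, b5, -⟩ := h1 L A k F
  obtain ⟨c1, c2, -⟩ := h2 A
  have hR : ∀ y, 0 ≤ Rw F s p y := fun y => mul_nonneg (b0 _ _ _) (w0 _ _)
  have hcf : 0 ≤ cf s (Rw F s p) y := c1 _ _ hR _
  have hnu : 0 ≤ nu F s p y := mul_nonneg (mul_nonneg (w0 _ _) (b0 _ _ _)) (w0 _ _)
  rcases hnu.eq_or_lt with h0 | hpos
  · rw [← h0]
    have : 0 ≤ W F s (swap p) * W F s p * (cf s (Rw F s p) y * W F s (swap y)) :=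
      mul_nonneg (mul_nonneg (w0 _ _) (w0 _ _)) (mul_nonneg hcf (w0 _ _))
    simp only [ite_self, zero_sub, zero_div, add_zero, zero_mul]
    linarith
  · have hne : nu F s p y ≠ 0 := hpos.ne'
    unfold nu at hne
    have hWp : W F s (swap p) ≠ 0 := left_ne_zero_of_mul (left_ne_zero_of_mul hne)
    have hbne : beta F s p y ≠ 0 := right_ne_zero_of_mul (left_ne_zero_of_mul hne)
    have hWyne : W F s (swap y) ≠ 0 := right_ne_zero_of_mul hne
    have hb : 0 < beta F s p y := lt_of_le_of_ne (b0 _ _ _) (Ne.symm hbne)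
    have hWy : 0 < W F s (swap y) := lt_of_le_of_ne (w0 _ _) (Ne.symm hWyne)
    have hc : 0 < cf s (Rw F s p) y := c2 s _ hR y (mul_pos hb hWy)
    have hW : 0 < W F s p := by
      rw [← b5 s p]
      exact lt_of_lt_of_le (mul_pos hb hWy)
        (Finset.single_le_sum (f := fun y => beta F s p y * W F s (swap y))
          (fun y _ => hR y) (Finset.mem_univ y))
    set x : ℝ := W F s p * cf s (Rw F s p) y / beta F s p y with hx
    have hx0 : 0 < x := div_pos (mul_pos hW hc) hb
    have hlog : Real.log (beta F s p y / (W F s p * cf s (Rw F s p) y)) = - Real.log x := by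
      rw [hx, ← Real.log_inv, inv_div]
    have hnx : W F s (swap p) * W F s p * (cf s (Rw F s p) y * W F s (swap y)) =
        nu F s p y * x := by
      rw [hx]
      unfold nu
      field_simp
    rw [hlog, hnx]
    by_cases hB : Bad F s p y
    · rw [if_pos hB]
      have hx2 : x < 1 / 2 := by
        rw [hx, div_lt_iff₀ hb]
        unfold Bad at hB
        linarith
      have h := mul_le_mul_of_nonneg_left (bad_log_ineq hx0 hx2) hnu
      linarith
    · rw [if_neg hB]
      have h3 : 1 - x ≤ - Real.log x := by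
        have := Real.log_le_sub_one_of_pos hx0
        linarith
      have h := mul_le_mul_of_nonneg_left h3 hnu
      linarith

theorem bad (h1 : S_WT) (h2 : S_CF) : S_BAD := by
  intro L A _ _ _ k F s κ hκ
  obtain ⟨w0, -, w3, w4, b0, -, -, b5, -⟩ := h1 L A k F
  have hsum := Finset.sum_le_sum fun (p : Tr A s) (_ : p ∈ Finset.univ) =>
    Finset.sum_le_sum fun (y : Tr A s) (_ : y ∈ Finset.univ) => bad_pointwise F h1 h2 s p y
  have e1 : ∑ p : Tr A s, ∑ y : Tr A s, nu F s p y = 1 := by
    rw [← w4 s]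
    refine Finset.sum_congr rfl fun p _ => ?_
    unfold nu
    simp only [mul_assoc]
    rw [← Finset.mul_sum, b5 s p, mul_comm]
  have e2 : ∑ p : Tr A s, ∑ y : Tr A s,
      W F s (swap p) * W F s p * (cf s (Rw F s p) y * W F s (swap y)) ≤ 1 := by
    rw [← w4 s]
    refine Finset.sum_le_sum fun p _ => ?_
    rw [← Finset.mul_sum]
    have h3 := bad_sum_cf_W F h1 h2 s (Rw F s p) fun y => mul_nonneg (b0 _ _ _) (w0 _ _)
    have h4 : 0 ≤ W F s (swap p) * W F s p := mul_nonneg (w0 _ _) (w0 _ _)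
    calc W F s (swap p) * W F s p * ∑ y, cf s (Rw F s p) y * W F s (swap y)
        ≤ W F s (swap p) * W F s p * 1 := mul_le_mul_of_nonneg_left h3 h4
      _ = W F s p * W F s (swap p) := by rw [mul_one, mul_comm]
  simp only [Finset.sum_add_distrib, Finset.sum_sub_distrib, ← Finset.sum_div] at hsum
  rw [e1] at hsum
  unfold nullBad
  linarith

end Pool.Agent.CT
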