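import Pool.Agent.CT.Core

/-!
# Basic lemmas: finite probabilities, consistent transcripts
-/

namespace Pool.Agent.CT

open Finset Matrix

/-! ### Probabilities -/

section pr
variable {Ω : Type} [Fintype Ω]

open Classical in
lemma pr_def (p : Ω → Prop) :
    pr p = ((Finset.univ.filter p).card : ℝ) / Fintype.card Ω := rfl

open Classical in
/-- `pr` as a normalised sum of indicators. -/
lemma pr_eq_sum (p : Ω → Prop) : pr p = (∑ ω, if p ω then (1 : ℝ) else 0) / Fintype.card Ω := by
  rw [pr_def, Finset.card_filter]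
  push_cast
  rfl

open Classical in
lemma pr_eq_ex (p : Ω → Prop) : pr p = ex (fun ω => if p ω then (1 : ℝ) else 0) := pr_eq_sum p

lemma pr_nonneg (p : Ω → Prop) : 0 ≤ pr p := by
  rw [pr_def]; positivity

lemma pr_le_one (p : Ω → Prop) : pr p ≤ 1 := by
  classical
  rw [pr_def]
  rcases Nat.eq_zero_or_pos (Fintype.card Ω) with h | h
  · simp [h]
  · rw [div_le_one (by exact_mod_cast h)]
    exact_mod_cast Finset.card_le_univ _

lemma pr_mono {p q : Ω → Prop} (h : ∀ ω, p ω → q ω) : pr p ≤ pr q := by
  classical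
  rw [pr_def, pr_def]
  have : (Finset.univ.filter p) ⊆ (Finset.univ.filter q) := by
    intro ω hω
    simp only [Finset.mem_filter, Finset.mem_univ, true_and] at hω ⊢
    exact h ω hω
  have h2 : ((Finset.univ.filter p).card : ℝ) ≤ (Finset.univ.filter q).card := by
    exact_mod_cast Finset.card_le_card this
  exact div_le_div_of_nonneg_right h2 (Nat.cast_nonneg _)

lemma pr_congr {p q : Ω → Prop} (h : ∀ ω, p ω ↔ q ω) : pr p = pr q := by
  have : p = q := funext fun ω => propext (h ω)
  rw [this]

lemma pr_true [Nonempty Ω] : pr (fun _ : Ω => True) = 1 := by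
  classical
  rw [pr_eq_sum]
  simp

lemma pr_false : pr (fun _ : Ω => False) = 0 := by
  classical
  rw [pr_eq_sum]
  simp

lemma pr_pos {p : Ω → Prop} {ω : Ω} (h : p ω) : 0 < pr p := by
  classical
  rw [pr_def]
  have h1 : 0 < (Finset.univ.filter p).card := Finset.card_pos.mpr ⟨ω, by simpa using h⟩
  have h2 : 0 < Fintype.card Ω := Fintype.card_pos_iff.mpr ⟨ω⟩
  positivity

lemma pv_pos {α : Type} (X : Ω → α) (ω : Ω) : 0 < pv X ω := pr_pos (ω := ω) rfl

lemma pr_not [Nonempty Ω] (p : Ω → Prop) : pr (fun ω => ¬ p ω) = 1 - pr p := by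
  classical
  have hc : (Fintype.card Ω : ℝ) ≠ 0 := by
    have := Fintype.card_pos (α := Ω)
    positivity
  rw [pr_eq_sum, pr_eq_sum, eq_sub_iff_add_eq, ← add_div, ← Finset.sum_add_distrib]
  rw [div_eq_one_iff_eq hc]
  refine (Finset.sum_congr rfl (g := fun _ => (1 : ℝ)) fun ω _ => ?_).trans (by simp)
  by_cases h : p ω <;> simp [h]

lemma pr_or_le (p q : Ω → Prop) : pr (fun ω => p ω ∨ q ω) ≤ pr p + pr q := by
  classical
  rw [pr_eq_sum, pr_eq_sum, pr_eq_sum, ← add_div, ← Finset.sum_add_distrib]
  refine div_le_div_of_nonneg_right (Finset.sum_le_sum fun ω _ => ?_) (Nat.cast_nonneg _)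
  by_cases h1 : p ω <;> by_cases h2 : q ω <;> simp [h1, h2]

/-- Union bound. -/
lemma pr_exists_le {ι : Type} [Fintype ι] (p : ι → Ω → Prop) :
    pr (fun ω => ∃ i, p i ω) ≤ ∑ i, pr (p i) := by
  classical
  simp only [pr_eq_sum]
  rw [← Finset.sum_div, Finset.sum_comm]
  refine div_le_div_of_nonneg_right (Finset.sum_le_sum fun ω _ => ?_) (Nat.cast_nonneg _)
  by_cases h : ∃ i, p i ω
  · obtain ⟨i, hi⟩ := h
    rw [if_pos ⟨i, hi⟩]
    calc (1 : ℝ) = if p i ω then 1 else 0 := by simp [hi]
      _ ≤ _ := Finset.single_le_sum (f := fun i => if p i ω then (1 : ℝ) else 0)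
          (fun j _ => by split_ifs <;> norm_num) (Finset.mem_univ i)
  · rw [if_neg h]
    exact Finset.sum_nonneg fun j _ => by split_ifs <;> norm_num

/-- Additivity over disjoint events. -/
lemma pr_exists_eq {ι : Type} [Fintype ι] (p : ι → Ω → Prop)
    (h : ∀ ω i j, p i ω → p j ω → i = j) : pr (fun ω => ∃ i, p i ω) = ∑ i, pr (p i) := by
  classical
  simp only [pr_eq_sum]
  rw [← Finset.sum_div, Finset.sum_comm]
  congr 1
  refine Finset.sum_congr rfl fun ω _ => ?_
  by_cases h' : ∃ i, p i ω
  · obtain ⟨i, hi⟩ := h'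
    rw [if_pos ⟨i, hi⟩, Finset.sum_eq_single i]
    · simp [hi]
    · intro j _ hj
      rw [if_neg]
      exact fun hj' => hj (h ω j i hj' hi)
    · simp
  · rw [if_neg h', Finset.sum_eq_zero]
    intro j _
    rw [if_neg]
    exact fun hj => h' ⟨j, hj⟩

/-- Decomposition according to the value of a random variable. -/
lemma sum_pr_and {α : Type} [Fintype α] (X : Ω → α) (p : Ω → Prop) :
    ∑ a, pr (fun ω => X ω = a ∧ p ω) = pr p := by
  rw [← pr_exists_eq]
  · exact pr_congr fun ω => ⟨fun ⟨_, _, h⟩ => h, fun h => ⟨X ω, rfl, h⟩⟩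
  · intro ω i j hi hj
    rw [← hi.1, ← hj.1]

/-- Expectation of a function of a random variable. -/
lemma ex_comp {α : Type} [Fintype α] (X : Ω → α) (g : α → ℝ) :
    ex (fun ω => g (X ω)) = ∑ a, pr (fun ω => X ω = a) * g a := by
  classical
  simp only [pr_eq_sum, ex]
  have h : ∀ a, (∑ ω, if X ω = a then (1 : ℝ) else 0) / Fintype.card Ω * g a =
      (∑ ω, if X ω = a then g a else 0) / Fintype.card Ω := by
    intro a
    rw [div_mul_eq_mul_div, Finset.sum_mul]
    congr 1
    refine Finset.sum_congr rfl fun ω _ => ?_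
    split_ifs <;> simp
  rw [Finset.sum_congr rfl fun a _ => h a, ← Finset.sum_div, Finset.sum_comm]
  congr 1
  refine Finset.sum_congr rfl fun ω _ => ?_
  simp

/-- Invariance under bijections. -/
lemma pr_equiv {Ω' : Type} [Fintype Ω'] (e : Ω ≃ Ω') (p : Ω' → Prop) :
    pr (fun ω => p (e ω)) = pr p := by
  classical
  rw [pr_eq_sum, pr_eq_sum, e.sum_comp (fun ω => if p ω then (1 : ℝ) else 0), Fintype.card_congr e]

lemma ex_equiv {Ω' : Type} [Fintype Ω'] (e : Ω ≃ Ω') (f : Ω' → ℝ) :
    ex (fun ω => f (e ω)) = ex f := by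
  rw [ex, ex, e.sum_comp f, Fintype.card_congr e]

lemma ex_add (f g : Ω → ℝ) : ex (fun ω => f ω + g ω) = ex f + ex g := by
  rw [ex, ex, ex, Finset.sum_add_distrib, add_div]

lemma ex_sub (f g : Ω → ℝ) : ex (fun ω => f ω - g ω) = ex f - ex g := by
  rw [ex, ex, ex, Finset.sum_sub_distrib, sub_div]

lemma ex_sum {ι : Type} (s : Finset ι) (f : ι → Ω → ℝ) :
    ex (fun ω => ∑ i ∈ s, f i ω) = ∑ i ∈ s, ex (f i) := by
  simp only [ex]
  rw [Finset.sum_comm, Finset.sum_div]

lemma ex_const [Nonempty Ω] (c : ℝ) : ex (fun _ : Ω => c) = c := by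
  have hc : (Fintype.card Ω : ℝ) ≠ 0 := by
    have := Fintype.card_pos (α := Ω)
    positivity
  rw [ex, Finset.sum_const, Finset.card_univ, nsmul_eq_mul, mul_div_cancel_left₀ _ hc]

lemma ex_mono {f g : Ω → ℝ} (h : ∀ ω, f ω ≤ g ω) : ex f ≤ ex g :=
  div_le_div_of_nonneg_right (Finset.sum_le_sum fun ω _ => h ω) (Nat.cast_nonneg _)

/-- Independence, two factors. -/
lemma pr_prod {Ω' : Type} [Fintype Ω'] (p : Ω → Prop) (q : Ω' → Prop) :
    pr (fun ω : Ω × Ω' => p ω.1 ∧ q ω.2) = pr p * pr q := by
  classical
  rw [pr_eq_sum, pr_eq_sum, pr_eq_sum, div_mul_div_comm, Fintype.card_prod, Fintype.sum_prod_type,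
    Finset.sum_mul_sum]
  push_cast
  congr 1
  refine Finset.sum_congr rfl fun ω _ => Finset.sum_congr rfl fun ω' _ => ?_
  by_cases h1 : p ω <;> by_cases h2 : q ω' <;> simp [h1, h2]

/-- Averaging over the first factor. -/
lemma pr_fst {Ω' : Type} [Fintype Ω'] (p : Ω → Ω' → Prop) :
    pr (fun ω : Ω × Ω' => p ω.1 ω.2) = (∑ b, pr (p b)) / Fintype.card Ω := by
  classical
  simp only [pr_eq_sum]
  rw [← Finset.sum_div, div_div, Fintype.card_prod, Fintype.sum_prod_type]
  push_cast
  rw [mul_comm]

/-- Independence over a finite family. -/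
lemma pr_pi {J : Type} [Fintype J] [DecidableEq J] (q : J → Ω → Prop) :
    pr (fun x : J → Ω => ∀ j, q j (x j)) = ∏ j, pr (q j) := by
  classical
  simp only [pr_eq_sum]
  rw [Finset.prod_div_distrib, Finset.prod_const, Finset.card_univ, Fintype.card_fun,
    prod_sum_pi]
  push_cast
  congr 1
  refine Finset.sum_congr rfl fun x _ => ?_
  by_cases h : ∀ j, q j (x j)
  · rw [if_pos h, Finset.prod_eq_one]
    intro j _
    simp [h j]
  · rw [if_neg h]
    push Not at h
    obtain ⟨j, hj⟩ := h
    rw [Finset.prod_eq_zero (Finset.mem_univ j)]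
    simp [hj]

end pr

/-! ### Consistent transcripts -/

section con
variable {A J : Type}

/-- The run is the only family of transcripts consistent with the node and all strategies. -/
lemma run_eq_iff (f : NodeFun A J) (σ : J → Strat A) : ∀ s (z : J → Tr A s),
    run f σ s = z ↔ NodeCon f s z ∧ ∀ j, Con (σ j) s (swap (z j))
  | 0, z => by
      constructor
      · intro _
        exact ⟨trivial, fun _ => trivial⟩
      · intro _
        funext j
        exact Subsingleton.elim (α := Unit) _ _
  | s + 1, z => by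
      have ih := run_eq_iff f σ s (fun j => (z j).init)
      constructor
      · rintro rfl
        have h1 : (fun j => (run f σ (s + 1) j).init) = run f σ s := rfl
        rw [h1] at ih
        obtain ⟨h2, h3⟩ := ih.mp rfl
        refine ⟨⟨?_, ?_⟩, ?_⟩
        · rw [h1]; exact h2
        · intro j
          rw [h1]; rfl
        · intro j
          exact ⟨h3 j, rfl⟩
      · rintro ⟨⟨h1, h2⟩, h3⟩
        have h4 : run f σ s = fun j => (z j).init := ih.mpr ⟨h1, fun j => (h3 j).1⟩
        funext j
        refine tr_ext ?_ ?_ ?_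
        · exact congrFun h4 j
        · rw [h2 j, ← h4]; rfl
        · have h5 := (h3 j).2
          have h6 : (z j).inn = σ j s (swap ((z j).init)) := h5
          rw [h6, ← congrFun h4 j]; rfl

/-- Uniqueness of consistent transcripts when some slots `E` are given. -/
lemma nodeCon_unique (f : NodeFun A J) (E : J → Prop) (σ : J → Strat A) :
    ∀ s (z z' : J → Tr A s), NodeCon f s z → NodeCon f s z' → (∀ j, E j → z j = z' j) →
      (∀ j, ¬ E j → Con (σ j) s (swap (z j)) ∧ Con (σ j) s (swap (z' j))) → z = z'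
  | 0, z, z', _, _, _, _ => by
      funext j
      exact Subsingleton.elim (α := Unit) _ _
  | s + 1, z, z', h1, h2, h3, h4 => by
      have ih : (fun j => (z j).init) = fun j => (z' j).init :=
        nodeCon_unique f E σ s _ _ h1.1 h2.1 (fun j hj => by rw [h3 j hj])
          (fun j hj => ⟨(h4 j hj).1.1, (h4 j hj).2.1⟩)
      funext j
      by_cases hj : E j
      · exact h3 j hj
      · refine tr_ext (congrFun ih j) ?_ ?_
        · rw [h1.2 j, h2.2 j, ih]
        · have a1 : (z j).inn = σ j s (swap ((z j).init)) := (h4 j hj).1.2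
          have a2 : (z' j).inn = σ j s (swap ((z' j).init)) := (h4 j hj).2.2
          have a3 : (z j).init = (z' j).init := congrFun ih j
          rw [a1, a2, a3]

/-- Transcripts on the child edges, given the transcript on the parent edge. -/
def childTr {m : ℕ} (f : NodeFun A (Fin (m + 1))) (σ : Fin m → Strat A) :
    ∀ s, Tr A s → Fin m → Tr A s
  | 0, _, _ => ()
  | s + 1, y, j => (childTr f σ s y.init j).snoc (f s (vecCons y.init (childTr f σ s y.init)) j.succ)
      (σ j s (swap (childTr f σ s y.init j)))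

/-- The strategy of a node with strategies attached to all its slots but the first. -/
def comp {m : ℕ} (f : NodeFun A (Fin (m + 1))) (σ : Fin m → Strat A) : Strat A :=
  fun s y => f s (vecCons y (childTr f σ s y)) 0

/-- Consistency with the composed strategy. -/
lemma comp_con_iff {m : ℕ} (f : NodeFun A (Fin (m + 1))) (σ : Fin m → Strat A) :
    ∀ s (y : Tr A s) (z : Fin m → Tr A s),
      (Con (comp f σ) s y ∧ childTr f σ s y = z) ↔
        (NodeCon f s (vecCons y z) ∧ ∀ j, Con (σ j) s (swap (z j)))
  | 0, y, z => by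
      constructor
      · intro _
        exact ⟨trivial, fun _ => trivial⟩
      · intro _
        exact ⟨trivial, funext fun j => Subsingleton.elim (α := Unit) _ _⟩
  | s + 1, y, z => by
      have ih := comp_con_iff f σ s y.init (fun j => (z j).init)
      have hinit : (fun j => (vecCons y z j).init) =
          (vecCons y.init (fun j => (z j).init) : Fin (m + 1) → Tr A s) := by
        funext j
        refine Fin.cases ?_ (fun j => ?_) j
        · rfl
        · rfl
      constructor
      · rintro ⟨⟨h1, h2⟩, h3⟩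
        have h4 : childTr f σ s y.init = fun j => (z j).init := by
          rw [← h3]; rfl
        obtain ⟨h5, h6⟩ := ih.mp ⟨h1, h4⟩
        refine ⟨⟨?_, ?_⟩, ?_⟩
        · rw [hinit]; exact h5
        · rw [hinit]
          intro j
          refine Fin.cases ?_ (fun j => ?_) j
          · change y.out = _
            rw [h2]
            change f s (vecCons y.init (childTr f σ s y.init)) 0 = _
            rw [h4]
          · change (z j).out = _
            rw [← congrFun h3 j]
            change f s (vecCons y.init (childTr f σ s y.init)) j.succ = _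
            rw [h4]
        · intro j
          refine ⟨h6 j, ?_⟩
          change (z j).inn = σ j s (swap ((z j).init))
          rw [← congrFun h3 j]
          rfl
      · rintro ⟨⟨h1, h2⟩, h3⟩
        rw [hinit] at h1 h2
        obtain ⟨h5, h6⟩ := ih.mpr ⟨h1, fun j => (h3 j).1⟩
        refine ⟨⟨h5, ?_⟩, ?_⟩
        · have := h2 0
          change y.out = _ at this
          rw [this, ← h6]
          rfl
        · funext j
          refine tr_ext (congrFun h6 j) ?_ ?_
          · have := h2 j.succ
            change (z j).out = _ at this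
            rw [this, ← h6]
            rfl
          · have a1 : (z j).inn = σ j s (swap ((z j).init)) := (h3 j).2
            rw [a1, ← congrFun h6 j]
            rfl

/-- A strategy against a strategy: exactly one consistent message each round. -/
lemma con_snoc (σ : Strat A) {s : ℕ} (y : Tr A s) (o i : A) :
    Con σ (s + 1) (y.snoc o i) ↔ Con σ s y ∧ o = σ s y := Iff.rfl

end con

end Pool.Agent.CT
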