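import Pool.Agent.CT.Depth

/-!
# Mean curvature of the parallel tori
-/

namespace Pool.Agent.CT

open MeasureTheory Metric Set Filter Topology Real
open scoped ContDiff

variable {L : ℝ}

/-- distance to the axis -/
noncomputable def ax (p : E3) : ℝ := √(p 0 ^ 2 + p 1 ^ 2)

lemma rad_def (p : E3) : rad L p = √((ax p - L) ^ 2 + p 2 ^ 2) := rfl

/-- coordinate functional -/
noncomputable abbrev pr (i : Fin 3) : E3 →L[ℝ] ℝ := EuclideanSpace.proj i

lemma hasFDerivAt_pr (i : Fin 3) (x : E3) : HasFDerivAt (fun p : E3 => p i) (pr i) x :=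
  (pr i).hasFDerivAt

lemma hasFDerivAt_ax {x : E3} (hx : 0 < ax x) :
    HasFDerivAt ax ((1 / ax x) • (x 0 • pr 0 + x 1 • pr 1)) x := by
  have h1 := ((hasFDerivAt_pr 0 x).pow 2).add ((hasFDerivAt_pr 1 x).pow 2)
  have h2 : x 0 ^ 2 + x 1 ^ 2 ≠ 0 := by
    intro h; rw [ax, h, Real.sqrt_zero] at hx; exact lt_irrefl _ hx
  have h3 := h1.sqrt h2
  refine h3.congr_fderiv ?_
  ext v
  simp [ax]
  field_simp

lemma hasFDerivAt_rad {x : E3} (hx : 0 < ax x) (hr : 0 < rad L x) :
    HasFDerivAt (rad L)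
      ((1 / rad L x) • ((ax x - L) • ((1 / ax x) • (x 0 • pr 0 + x 1 • pr 1)) + x 2 • pr 2)) x := by
  have h1 := (((hasFDerivAt_ax hx).sub_const L).pow 2).add ((hasFDerivAt_pr 2 x).pow 2)
  have h2 : (ax x - L) ^ 2 + x 2 ^ 2 ≠ 0 := by
    intro h; rw [rad_def, h, Real.sqrt_zero] at hr; exact lt_irrefl _ hr
  have h3 := h1.sqrt h2
  refine h3.congr_fderiv ?_
  ext v
  simp [rad_def]
  field_simp

lemma contDiffAt_ax {x : E3} (hx : 0 < ax x) : ContDiffAt ℝ ∞ ax x := by
  have h2 : x 0 ^ 2 + x 1 ^ 2 ≠ 0 := by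
    intro h; rw [ax, h, Real.sqrt_zero] at hx; exact lt_irrefl _ hx
  refine ContDiffAt.sqrt ?_ h2
  exact ContDiff.contDiffAt (by fun_prop)

lemma contDiffAt_rad {x : E3} (hx : 0 < ax x) (hr : 0 < rad L x) : ContDiffAt ℝ ∞ (rad L) x := by
  have h2 : (ax x - L) ^ 2 + x 2 ^ 2 ≠ 0 := by
    intro h; rw [rad_def, h, Real.sqrt_zero] at hr; exact lt_irrefl _ hr
  refine ContDiffAt.sqrt ?_ h2
  refine ContDiffAt.add ?_ ?_
  · exact ((contDiffAt_ax hx).sub contDiffAt_const).pow 2
  · exact ContDiff.contDiffAt (by fun_prop)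

lemma continuous_ax : Continuous ax := by unfold ax; fun_prop

lemma continuous_rad : Continuous (rad L) := by unfold rad; fun_prop

/-- second derivatives from the first ones -/
lemma second_deriv {f : E3 → ℝ} {x e : E3} {g : E3 → ℝ} {c : ℝ} (hf : ContDiffAt ℝ 2 f x)
    (hg : ∀ᶠ y in 𝓝 x, fderiv ℝ f y e = g y)
    (h : HasDerivAt (fun t : ℝ => g (x + t • e)) c 0) :
    iteratedFDeriv ℝ 2 f x ![e, e] = c := by
  rw [iteratedFDeriv_two_apply]
  simp only [Matrix.cons_val_zero, Matrix.cons_val_one]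
  have h1 : DifferentiableAt ℝ (fderiv ℝ f) x :=
    (hf.fderiv_right (m := 1) (by norm_num)).differentiableAt (by norm_num)
  have h2 : HasFDerivAt (fun y => fderiv ℝ f y e) ((fderiv ℝ (fderiv ℝ f) x).flip e) x := by
    have := h1.hasFDerivAt.clm_apply (hasFDerivAt_const e x)
    simpa using this
  have h3 : HasDerivAt (fun t : ℝ => fderiv ℝ f (x + t • e) e)
      ((fderiv ℝ (fderiv ℝ f) x).flip e e) 0 := by
    have h4 : HasDerivAt (fun t : ℝ => x + t • e) e 0 := by
      simpa using ((hasDerivAt_id (0 : ℝ)).smul_const e).const_add x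
    have h5 : HasFDerivAt (fun y => fderiv ℝ f y e) ((fderiv ℝ (fderiv ℝ f) x).flip e)
      (x + (0 : ℝ) • e) := by simpa using h2
    exact h5.comp_hasDerivAt (0 : ℝ) h4
  have h6 : (fun t : ℝ => fderiv ℝ f (x + t • e) e) =ᶠ[𝓝 0] fun t : ℝ => g (x + t • e) := by
    have h7 : Tendsto (fun t : ℝ => x + t • e) (𝓝 0) (𝓝 x) := by
      have : Continuous fun t : ℝ => x + t • e := by fun_prop
      simpa using this.tendsto 0
    exact h7.eventually hg
  have h8 := (h3.congr_of_eventuallyEq h6.symm).unique h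
  simpa using h8

lemma laplacian_rad {x : E3} (hx : 0 < ax x) (hr : 0 < rad L x) :
    Laplacian.laplacian (rad L) x = (2 - L / ax x) / rad L x := by
  have hC : ContDiffAt ℝ 2 (rad L) x := (contDiffAt_rad hx hr).of_le ENat.LEInfty.out
  have hev : ∀ᶠ y in 𝓝 x, 0 < ax y ∧ 0 < rad L y :=
    (continuous_ax.continuousAt.eventually (lt_mem_nhds hx)).and
      (continuous_rad.continuousAt.eventually (lt_mem_nhds hr))
  have hline : ∀ i : Fin 3, HasDerivAt (fun t : ℝ => x + t • EuclideanSpace.single i (1 : ℝ))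
      (EuclideanSpace.single i 1) 0 := fun i => by
    simpa using ((hasDerivAt_id (0 : ℝ)).smul_const (EuclideanSpace.single i (1 : ℝ))).const_add x
  have hax : ∀ i : Fin 3, HasDerivAt (fun t : ℝ => ax (x + t • EuclideanSpace.single i (1 : ℝ)))
      (((1 / ax x) • (x 0 • pr 0 + x 1 • pr 1)) (EuclideanSpace.single i 1)) 0 := fun i => by
    have h5 : HasFDerivAt ax ((1 / ax x) • (x 0 • pr 0 + x 1 • pr 1))
      (x + (0 : ℝ) • EuclideanSpace.single i (1 : ℝ)) := by simpa using hasFDerivAt_ax hx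
    exact h5.comp_hasDerivAt (0 : ℝ) (hline i)
  have hrad : ∀ i : Fin 3, HasDerivAt (fun t : ℝ => rad L (x + t • EuclideanSpace.single i (1 : ℝ)))
      (((1 / rad L x) • ((ax x - L) • ((1 / ax x) • (x 0 • pr 0 + x 1 • pr 1)) + x 2 • pr 2))
        (EuclideanSpace.single i 1)) 0 := fun i => by
    have h5 : HasFDerivAt (rad L)
      ((1 / rad L x) • ((ax x - L) • ((1 / ax x) • (x 0 • pr 0 + x 1 • pr 1)) + x 2 • pr 2))
      (x + (0 : ℝ) • EuclideanSpace.single i (1 : ℝ)) := by simpa using hasFDerivAt_rad hx hr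
    exact h5.comp_hasDerivAt (0 : ℝ) (hline i)
  have hpr : ∀ i j : Fin 3, HasDerivAt (fun t : ℝ => (x + t • EuclideanSpace.single i (1 : ℝ)) j)
      (pr j (EuclideanSpace.single i 1)) 0 := fun i j => by
    have h5 : HasFDerivAt (fun p : E3 => p j) (pr j)
      (x + (0 : ℝ) • EuclideanSpace.single i (1 : ℝ)) := hasFDerivAt_pr j _
    exact h5.comp_hasDerivAt (0 : ℝ) (hline i)
  have hax0 : ax (x + (0 : ℝ) • EuclideanSpace.single (0 : Fin 3) (1 : ℝ)) = ax x := by simp
  have d0 : iteratedFDeriv ℝ 2 (rad L) x ![EuclideanSpace.single 0 1, EuclideanSpace.single 0 1] =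
      ((1 - L / ax x) + L * x 0 ^ 2 / ax x ^ 3) / rad L x -
        (x 0 * (1 - L / ax x)) ^ 2 / rad L x ^ 3 := by
    refine second_deriv (g := fun y => (ax y - L) * y 0 / (ax y * rad L y)) hC ?_ ?_
    · filter_upwards [hev] with y hy
      rw [(hasFDerivAt_rad hy.1 hy.2).fderiv]
      have := hy.1; have := hy.2
      simp
      field_simp
    · have hn : ax (x + (0 : ℝ) • EuclideanSpace.single (0 : Fin 3) (1 : ℝ)) *
        rad L (x + (0 : ℝ) • EuclideanSpace.single (0 : Fin 3) (1 : ℝ)) ≠ 0 := by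
        simp [hx.ne', hr.ne']
      have := ((((hax 0).sub_const L).mul (hpr 0 0)).div ((hax 0).mul (hrad 0)) hn)
      refine this.congr_deriv ?_
      simp
      field_simp
      ring
  have d1 : iteratedFDeriv ℝ 2 (rad L) x ![EuclideanSpace.single 1 1, EuclideanSpace.single 1 1] =
      ((1 - L / ax x) + L * x 1 ^ 2 / ax x ^ 3) / rad L x -
        (x 1 * (1 - L / ax x)) ^ 2 / rad L x ^ 3 := by
    refine second_deriv (g := fun y => (ax y - L) * y 1 / (ax y * rad L y)) hC ?_ ?_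
    · filter_upwards [hev] with y hy
      rw [(hasFDerivAt_rad hy.1 hy.2).fderiv]
      have := hy.1; have := hy.2
      simp
      field_simp
    · have hn : ax (x + (0 : ℝ) • EuclideanSpace.single (1 : Fin 3) (1 : ℝ)) *
        rad L (x + (0 : ℝ) • EuclideanSpace.single (1 : Fin 3) (1 : ℝ)) ≠ 0 := by
        simp [hx.ne', hr.ne']
      have := ((((hax 1).sub_const L).mul (hpr 1 1)).div ((hax 1).mul (hrad 1)) hn)
      refine this.congr_deriv ?_
      simp
      field_simp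
      ring
  have d2 : iteratedFDeriv ℝ 2 (rad L) x ![EuclideanSpace.single 2 1, EuclideanSpace.single 2 1] =
      1 / rad L x - x 2 ^ 2 / rad L x ^ 3 := by
    refine second_deriv (g := fun y => y 2 / rad L y) hC ?_ ?_
    · filter_upwards [hev] with y hy
      rw [(hasFDerivAt_rad hy.1 hy.2).fderiv]
      have := hy.1; have := hy.2
      simp
      field_simp
    · have hn : rad L (x + (0 : ℝ) • EuclideanSpace.single (2 : Fin 3) (1 : ℝ)) ≠ 0 := by
        simp [hr.ne']
      have := ((hpr 2 2).div (hrad 2) hn)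
      refine this.congr_deriv ?_
      simp
      field_simp
  rw [InnerProductSpace.laplacian_eq_iteratedFDeriv_orthonormalBasis (rad L)
    (EuclideanSpace.basisFun (Fin 3) ℝ)]
  simp only [Fin.sum_univ_three, EuclideanSpace.basisFun_apply]
  rw [d0, d1, d2]
  have hs2 : ax x ^ 2 = x 0 ^ 2 + x 1 ^ 2 := Real.sq_sqrt (by positivity)
  have hr2 : rad L x ^ 2 = (ax x - L) ^ 2 + x 2 ^ 2 := Real.sq_sqrt (by positivity)
  have e1 : x 1 ^ 2 = ax x ^ 2 - x 0 ^ 2 := by rw [hs2]; ring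
  have e2 : x 2 ^ 2 = rad L x ^ 2 - (ax x - L) ^ 2 := by rw [hr2]; ring
  field_simp
  rw [e1, e2]
  ring

lemma meanCurv_torus (hL : 1 < L) {x : E3} (hx : x ∈ torus L) (hr : 0 < rad L x) :
    meanCurv (torus L) x = (2 - L / ax x) / rad L x := by
  have hax : 0 < ax x := by
    have : (ax x - L) ^ 2 + x 2 ^ 2 < 1 := hx
    nlinarith [sq_nonneg (x 2)]
  rw [meanCurv]
  have h1 : depth (torus L) =ᶠ[𝓝 x] fun y => -(rad L y) + 1 := by
    filter_upwards [isOpen_torus.mem_nhds hx] with y hy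
    rw [depth_torus hL hy]; ring
  have h2 := (InnerProductSpace.laplacian_congr_nhds h1).eq_of_nhds
  rw [h2, ← laplacian_rad hax hr]
  have h3 : ContDiffAt ℝ 2 (rad L) x := (contDiffAt_rad hax hr).of_le ENat.LEInfty.out
  have h4 : (fun y => -(rad L y) + 1) = (-(rad L)) + fun _ => (1 : ℝ) := by ext y; simp
  have h3' : ContDiffAt ℝ 2 (-(rad L)) x := h3.neg
  have h5 := h3'.laplacian_add (f₂ := fun _ => (1 : ℝ)) contDiffAt_const
  rw [h4, h5, InnerProductSpace.laplacian_neg]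
  simp

end Pool.Agent.CT
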