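import Pool.Agent.CT.Pull
import Pool.Agent.CT.Curv

/-!
# The boundary integral for the torus
-/

namespace Pool.Agent.CT

open MeasureTheory Metric Set Filter Topology Real
open scoped ContDiff

variable {L : ℝ}

/-- annulus -/
def Ann (ε : ℝ) : Set (ℝ × ℝ) := {y | y ∈ D ∧ (1 - ε) ^ 2 < y.1 ^ 2 + y.2 ^ 2}

lemma measurableSet_Ann (ε : ℝ) : MeasurableSet (Ann ε) := by
  have : Measurable fun x : ℝ × ℝ => x.1 ^ 2 + x.2 ^ 2 := by fun_prop
  exact measurableSet_D.inter (this measurableSet_Ioi)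

lemma shell_eq (hL : 1 < L) {ε : ℝ} (h1 : ε < 1) :
    {x | x ∈ torus L ∧ depth (torus L) x < ε} =
      {x : E3 | (√(x 0 ^ 2 + x 1 ^ 2) - L, x 2) ∈ Ann ε} := by
  ext x
  constructor
  · rintro ⟨hx, hd⟩
    rw [depth_torus hL hx] at hd
    refine ⟨hx, ?_⟩
    have h2 : 1 - ε < rad L x := by linarith
    have h3 : rad L x ^ 2 = (√(x 0 ^ 2 + x 1 ^ 2) - L) ^ 2 + x 2 ^ 2 :=
      Real.sq_sqrt (by positivity)
    show (1 - ε) ^ 2 < (√(x 0 ^ 2 + x 1 ^ 2) - L) ^ 2 + x 2 ^ 2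
    rw [← h3]
    exact pow_lt_pow_left₀ h2 (by linarith) (by norm_num)
  · rintro ⟨hx, hd⟩
    have hx' : x ∈ torus L := hx
    refine ⟨hx', ?_⟩
    rw [depth_torus hL hx']
    have h3 : rad L x ^ 2 = (√(x 0 ^ 2 + x 1 ^ 2) - L) ^ 2 + x 2 ^ 2 :=
      Real.sq_sqrt (by positivity)
    have hd' : (1 - ε) ^ 2 < rad L x ^ 2 := by rw [h3]; exact hd
    have := lt_of_pow_lt_pow_left₀ 2 (rad_nonneg x) hd'
    linarith

lemma shell_integral (hL : 1 < L) {ε : ℝ} (h0 : 0 < ε) (h1 : ε < 1) (u : E3 → ℝ)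
    (U : (ℝ × ℝ) × ℝ → ℝ) (hUu : ∀ q : (ℝ × ℝ) × ℝ, q.1 ∈ D → U q = u (Psi L q)) :
    ∫ x in {x | x ∈ torus L ∧ depth (torus L) x < ε}, meanCurv (torus L) x * u x ^ 2 =
      ∫ p in (Ioo (1 - ε) 1 ×ˢ Ioo (-π) π) ×ˢ Ioo (-π) π,
        (L + 2 * (p.1.1 * cos p.1.2)) * U ((p.1.1 * cos p.1.2, p.1.1 * sin p.1.2), p.2) ^ 2 := by
  rw [shell_eq hL h1, setIntegral_Psi hL (Ann ε) (measurableSet_Ann ε) (fun y hy => hy.1)]
  have e1 : ∫ q in Ann ε ×ˢ Ioo (-π) π,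
      (L + q.1.1) * (meanCurv (torus L) (Psi L q) * u (Psi L q) ^ 2) =
      ∫ q in Ann ε ×ˢ Ioo (-π) π, (L + 2 * q.1.1) / √(q.1.1 ^ 2 + q.1.2 ^ 2) * U q ^ 2 := by
    refine setIntegral_congr_fun ((measurableSet_Ann ε).prod measurableSet_Ioo) fun q hq => ?_
    have hqD : q.1 ∈ D := hq.1.1
    have hpos := Psi_pos hL (D_subset hqD)
    have hr : rad L (Psi L q) = √(q.1.1 ^ 2 + q.1.2 ^ 2) := rad_Psi hL (D_subset hqD)
    have hr0 : 0 < √(q.1.1 ^ 2 + q.1.2 ^ 2) := by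
      apply Real.sqrt_pos.2
      have := hq.1.2
      nlinarith
    have hm := meanCurv_torus hL (Psi_mem hL hqD) (by rw [hr]; exact hr0)
    have hax : ax (Psi L q) = L + q.1.1 := Psi_s q hpos.le
    rw [hm, hr, hax, ← hUu q hqD]
    field_simp
    ring
  rw [e1, integral_cyl (Ann ε ×ˢ Ioo (-π) π) ((measurableSet_Ann ε).prod measurableSet_Ioo)]
  have hset : {p : (ℝ × ℝ) × ℝ | p.1 ∈ polarCoord.target ∧
      (polarCoord.symm p.1, p.2) ∈ Ann ε ×ˢ Ioo (-π) π} =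
      (Ioo (1 - ε) 1 ×ˢ Ioo (-π) π) ×ˢ Ioo (-π) π := by
    ext p
    simp only [mem_ofPred_eq, polarCoord_target, mem_prod, mem_Ioi, polarCoord_symm_apply, Ann, D]
    have e2 : (p.1.1 * cos p.1.2) ^ 2 + (p.1.1 * sin p.1.2) ^ 2 = p.1.1 ^ 2 := by
      rw [mul_pow, mul_pow, ← mul_add, cos_sq_add_sin_sq, mul_one]
    rw [e2]
    constructor
    · rintro ⟨⟨h1, h2⟩, ⟨h3, h4⟩, h5⟩
      refine ⟨⟨⟨?_, ?_⟩, h2⟩, h5⟩
      · exact lt_of_pow_lt_pow_left₀ 2 h1.le h4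
      · nlinarith
    · rintro ⟨⟨⟨h1, h2⟩, h3⟩, h5⟩
      refine ⟨⟨by linarith, h3⟩, ⟨by nlinarith, ?_⟩, h5⟩
      exact pow_lt_pow_left₀ h1 (by linarith) (by norm_num)
  rw [hset]
  refine setIntegral_congr_fun ((measurableSet_Ioo.prod measurableSet_Ioo).prod
    measurableSet_Ioo) fun p hp => ?_
  simp only [polarCoord_symm_apply]
  have e2 : (p.1.1 * cos p.1.2) ^ 2 + (p.1.1 * sin p.1.2) ^ 2 = p.1.1 ^ 2 := by
    rw [mul_pow, mul_pow, ← mul_add, cos_sq_add_sin_sq, mul_one]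
  have hp0 : 0 < p.1.1 := by have := hp.1.1.1; linarith
  rw [e2, Real.sqrt_sq hp0.le]
  field_simp

/-- Fubini for continuous functions on a box -/
lemma fubini_box {f : (ℝ × ℝ) × ℝ → ℝ} (hf : Continuous f) {a b c d e g : ℝ} (hab : a ≤ b)
    (hcd : c ≤ d) (heg : e ≤ g) :
    ∫ p in (Ioo a b ×ˢ Ioo c d) ×ˢ Ioo e g, f p =
      ∫ x in a..b, ∫ y in c..d, ∫ z in e..g, f ((x, y), z) := by
  have hint : IntegrableOn f ((Icc a b ×ˢ Icc c d) ×ˢ Icc e g) :=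
    hf.continuousOn.integrableOn_compact ((isCompact_Icc.prod isCompact_Icc).prod isCompact_Icc)
  have hsub : ((Ioo a b ×ˢ Ioo c d) ×ˢ Ioo e g : Set ((ℝ × ℝ) × ℝ)) ⊆
      (Icc a b ×ˢ Icc c d) ×ˢ Icc e g :=
    prod_mono (prod_mono Ioo_subset_Icc_self Ioo_subset_Icc_self) Ioo_subset_Icc_self
  have hint2 := hint.mono_set hsub
  rw [Measure.volume_eq_prod] at hint2 ⊢
  rw [setIntegral_prod _ hint2]
  have hg : Continuous fun x : ℝ × ℝ => ∫ z in e..g, f (x, z) := by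
    apply intervalIntegral.continuous_parametric_intervalIntegral_of_continuous'
    exact hf
  have e1 : ∀ x : ℝ × ℝ, ∫ z in Ioo e g, f (x, z) = ∫ z in e..g, f (x, z) := fun x => by
    rw [intervalIntegral.integral_of_le heg, integral_Ioc_eq_integral_Ioo]
  simp only [e1]
  have hint3 : IntegrableOn (fun x : ℝ × ℝ => ∫ z in e..g, f (x, z)) (Icc a b ×ˢ Icc c d) :=
    hg.continuousOn.integrableOn_compact (isCompact_Icc.prod isCompact_Icc)
  have hint4 := hint3.mono_set (prod_mono Ioo_subset_Icc_self Ioo_subset_Icc_self :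
    Ioo a b ×ˢ Ioo c d ⊆ _)
  rw [Measure.volume_eq_prod] at hint4 ⊢
  rw [setIntegral_prod _ hint4, intervalIntegral.integral_of_le hab, integral_Ioc_eq_integral_Ioo]
  refine setIntegral_congr_fun measurableSet_Ioo fun x _ => ?_
  rw [intervalIntegral.integral_of_le hcd, integral_Ioc_eq_integral_Ioo]

lemma tendsto_avg {J : ℝ → ℝ} (hJ : Continuous J) :
    Tendsto (fun ε : ℝ => ε⁻¹ * ∫ r in (1 - ε)..1, J r) (𝓝[>] 0) (𝓝 (J 1)) := by
  have h1 : HasDerivAt (fun x : ℝ => ∫ r in x..1, J r) (- J 1) 1 :=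
    intervalIntegral.integral_hasDerivAt_left (hJ.intervalIntegrable _ _)
      hJ.stronglyMeasurable.stronglyMeasurableAtFilter hJ.continuousAt
  have h2 : HasDerivAt (fun ε : ℝ => 1 - ε) (-1) 0 := by
    simpa using (hasDerivAt_id (0 : ℝ)).const_sub 1
  have h3 : HasDerivAt (fun ε : ℝ => ∫ r in (1 - ε)..1, J r) (J 1) 0 := by
    have h4 : HasDerivAt (fun x : ℝ => ∫ r in x..1, J r) (- J 1) (1 - 0) := by simpa using h1
    exact (h4.comp 0 h2).congr_deriv (by simp)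
  have h5 := hasDerivAt_iff_tendsto_slope.1 h3
  have h6 : Tendsto (slope (fun ε : ℝ => ∫ r in (1 - ε)..1, J r) 0) (𝓝[>] 0) (𝓝 (J 1)) :=
    h5.mono_left (nhdsWithin_mono _ fun x hx => ne_of_gt hx)
  refine h6.congr fun ε => ?_
  simp [slope_def_module]

theorem bdryInt_torus (hL : 1 < L) (u : E3 → ℝ) (U : (ℝ × ℝ) × ℝ → ℝ) (hU : Continuous U)
    (hUu : ∀ q : (ℝ × ℝ) × ℝ, q.1 ∈ D → U q = u (Psi L q)) :
    bdryInt (torus L) (fun x => meanCurv (torus L) x * u x ^ 2) =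
      ∫ t in (-π)..π, ∫ θ in (-π)..π, (L + 2 * cos θ) * U ((cos θ, sin θ), t) ^ 2 := by
  set f : (ℝ × ℝ) × ℝ → ℝ := fun p =>
    (L + 2 * (p.1.1 * cos p.1.2)) * U ((p.1.1 * cos p.1.2, p.1.1 * sin p.1.2), p.2) ^ 2 with hf
  have hfc : Continuous f := by fun_prop
  set J : ℝ → ℝ := fun r => ∫ y in (-π)..π, ∫ z in (-π)..π, f ((r, y), z) with hJ
  have hJc : Continuous J := by
    apply intervalIntegral.continuous_parametric_intervalIntegral_of_continuous'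
    have : Continuous fun x : ℝ × ℝ => ∫ z in (-π)..π, f (x, z) := by
      apply intervalIntegral.continuous_parametric_intervalIntegral_of_continuous'
      exact hfc
    exact this
  have hpi : -π ≤ π := by linarith [pi_pos]
  have h1 : (fun ε : ℝ => ε⁻¹ * ∫ x in {x | x ∈ torus L ∧ depth (torus L) x < ε},
      meanCurv (torus L) x * u x ^ 2) =ᶠ[𝓝[>] 0] fun ε : ℝ => ε⁻¹ * ∫ r in (1 - ε)..1, J r := by
    filter_upwards [Ioo_mem_nhdsGT (show (0 : ℝ) < 1 by norm_num)] with ε hε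
    rw [shell_integral hL hε.1 hε.2 u U hUu]
    rw [fubini_box hfc (by linarith [hε.1]) hpi hpi]
  have h2 : Tendsto (fun ε : ℝ => ε⁻¹ * ∫ x in {x | x ∈ torus L ∧ depth (torus L) x < ε},
      meanCurv (torus L) x * u x ^ 2) (𝓝[>] 0) (𝓝 (J 1)) := (tendsto_avg hJc).congr' h1.symm
  rw [bdryInt, h2.limUnder_eq]
  simp only [hJ, hf]
  rw [intervalIntegral_intervalIntegral_swap]
  · simp only [one_mul]
  · have h3 : Continuous (Function.uncurry fun (y z : ℝ) =>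
        (L + 2 * (1 * cos y)) * U ((1 * cos y, 1 * sin y), z) ^ 2) := by
      simp only [Function.uncurry_def]
      fun_prop
    rw [Measure.volume_eq_prod]
    have h4 : IntegrableOn (Function.uncurry fun (y z : ℝ) =>
        (L + 2 * (1 * cos y)) * U ((1 * cos y, 1 * sin y), z) ^ 2)
        (Icc (-π) π ×ˢ Icc (-π) π) :=
      h3.continuousOn.integrableOn_compact (isCompact_Icc.prod isCompact_Icc)
    rw [uIoc_of_le hpi]
    exact h4.mono_set (prod_mono Ioc_subset_Icc_self Ioc_subset_Icc_self)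

end Pool.Agent.CT
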