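import Pool.Agent.CT.Stmts

/-!
# Branches realise the universal weights
-/

namespace Pool.Agent.CT

open Finset Matrix

section br
variable {L A : Type} {k : ℕ}

/-- Leaves: consistency at the only slot is consistency with a strategy. -/
lemma br_leaf (f : NodeFun A (Fin 1)) : ∀ s (y : Tr A s),
    NodeCon f s (fun _ => y) ↔ Con (fun s y => f s (fun _ => y) 0) s y
  | 0, _ => Iff.rfl
  | s + 1, y => by
      have ih := br_leaf f s y.init
      constructor
      · rintro ⟨h1, h2⟩
        exact ⟨ih.mp h1, h2 0⟩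
      · rintro ⟨h1, h2⟩
        refine ⟨ih.mpr h1, fun j => ?_⟩
        have hj : j = 0 := Subsingleton.elim _ _
        rw [hj]
        exact h2

/-- The strategies of the branches. -/
def brStrat (N : Node L A k) : ∀ h, Br L k h → Strat A
  | 0, b => fun s y => N.F0 b s (fun _ => y) 0
  | h + 1, c => comp (N.F c.1) (fun j => brStrat N h (c.2 j))

lemma br_sat (N : Node L A k) : ∀ h s (c : Br L k h) (y : Tr A s),
    Sat N.free h c s y ↔ Con (brStrat N h c) s y
  | 0, s, b, y => by
      have h1 := br_leaf (N.F0 b) s y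
      constructor
      · rintro ⟨h2, _⟩
        exact h1.mp h2
      · intro h2
        exact ⟨h1.mpr h2, trivial⟩
  | h + 1, s, c, y => by
      constructor
      · rintro ⟨z, h1, _, h2⟩
        have h3 := (comp_con_iff (N.F c.1) (fun j => brStrat N h (c.2 j)) s y z).mpr
          ⟨h1, fun j => (br_sat N h s (c.2 j) (swap (z j))).mp (h2 j)⟩
        exact h3.1
      · intro h1
        obtain ⟨h2, h3⟩ := (comp_con_iff (N.F c.1) (fun j => brStrat N h (c.2 j)) s y
          (childTr (N.F c.1) (fun j => brStrat N h (c.2 j)) s y)).mp ⟨h1, rfl⟩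
        exact ⟨_, h2, trivial, fun j => (br_sat N h s (c.2 j) _).mpr (h3 j)⟩

/-- one more round of a composed strategy -/
lemma br_comp_succ {m : ℕ} (f : NodeFun A (Fin (m + 1))) (σ : Fin m → Strat A) (s : ℕ)
    (y : Tr A (s + 1)) : Con (comp f σ) (s + 1) y ↔
      ∃ z : Fin m → Tr A s, (NodeCon f s (vecCons y.init z) ∧ f s (vecCons y.init z) 0 = y.out) ∧
        ∀ j, Con (σ j) s (swap (z j)) := by
  constructor
  · rintro ⟨h1, h2⟩
    obtain ⟨h3, h4⟩ := (comp_con_iff f σ s y.init (childTr f σ s y.init)).mp ⟨h1, rfl⟩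
    exact ⟨_, ⟨h3, h2.symm⟩, h4⟩
  · rintro ⟨z, ⟨h1, h2⟩, h3⟩
    obtain ⟨h4, h5⟩ := (comp_con_iff f σ s y.init z).mpr ⟨h1, h3⟩
    refine ⟨h4, ?_⟩
    rw [← h2, ← h5]
    rfl

variable [Fintype L] [Fintype A]

lemma br_pr_succ (h : ℕ) (p : L → (Fin (k + 1) → Br L k h) → Prop) :
    pr (fun c : Br L k (h + 1) => p c.1 c.2) = (∑ b, pr (p b)) / Fintype.card L :=
  pr_fst (Ω := L) (Ω' := Fin (k + 1) → Br L k h) p

lemma br_node {X : Type} [Fintype X] (f : NodeFun A (Fin (k + 2))) (σ : X → Strat A) (s : ℕ)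
    (y : Tr A (s + 1)) (w : Tr A s → ℝ) (hw : ∀ y, pr (fun x => Con (σ x) s y) = w y) :
    pr (fun x : Fin (k + 1) → X => Con (comp f (fun j => σ (x j))) (s + 1) y) =
      ∑ z : Fin (k + 1) → Tr A s, open Classical in
        if NodeCon f s (vecCons y.init z) ∧ f s (vecCons y.init z) 0 = y.out then
          ∏ j, w (swap (z j)) else 0 := by
  classical
  have h1 : pr (fun x : Fin (k + 1) → X => Con (comp f (fun j => σ (x j))) (s + 1) y) =
      pr (fun x : Fin (k + 1) → X => ∃ z : Fin (k + 1) → Tr A s,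
        (NodeCon f s (vecCons y.init z) ∧ f s (vecCons y.init z) 0 = y.out) ∧
          ∀ j, Con (σ (x j)) s (swap (z j))) :=
    pr_congr fun x => br_comp_succ f (fun j => σ (x j)) s y
  rw [h1, pr_exists_eq]
  · refine Finset.sum_congr rfl fun z _ => ?_
    split_ifs with hz
    · have h2 : pr (fun x : Fin (k + 1) → X =>
          (NodeCon f s (vecCons y.init z) ∧ f s (vecCons y.init z) 0 = y.out) ∧
          ∀ j, Con (σ (x j)) s (swap (z j))) =
          pr (fun x : Fin (k + 1) → X => ∀ j, Con (σ (x j)) s (swap (z j))) :=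
        pr_congr fun x => ⟨fun h => h.2, fun h => ⟨hz, h⟩⟩
      rw [h2, pr_pi (fun j x => Con (σ x) s (swap (z j)))]
      exact Finset.prod_congr rfl fun j _ => hw _
    · have h2 : pr (fun x : Fin (k + 1) → X =>
          (NodeCon f s (vecCons y.init z) ∧ f s (vecCons y.init z) 0 = y.out) ∧
          ∀ j, Con (σ (x j)) s (swap (z j))) = pr (fun _ : Fin (k + 1) → X => False) :=
        pr_congr fun x => ⟨fun h => hz h.1, False.elim⟩
      rw [h2, pr_false]
  · intro x z z' h2 h3
    have h4 := ((comp_con_iff f (fun j => σ (x j)) s y.init z).mpr ⟨h2.1.1, h2.2⟩).2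
    have h5 := ((comp_con_iff f (fun j => σ (x j)) s y.init z').mpr ⟨h3.1.1, h3.2⟩).2
    rw [← h4, h5]

lemma br_univ [Nonempty L] (N : Node L A k) (hN : N.Start) : ∀ h s, s ≤ h + 1 → ∀ y : Tr A s,
    pr (fun c : Br L k h => Con (brStrat N h c) s y) = W N.F s y := by
  classical
  intro h
  induction h with
  | zero =>
    intro s hs y
    match s, hs, y with
    | 0, _, y =>
      have h1 : pr (fun c : Br L k 0 => Con (brStrat N 0 c) 0 y) = pr (fun _ : L => True) := rfl
      rw [h1, pr_true]
      rfl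
    | 1, _, y =>
      have h1 : pr (fun c : Br L k 0 => Con (brStrat N 0 c) 1 y) =
          pr (fun b : L => True ∧ y.out = N.F0 b 0 (fun _ => y.init) 0) := rfl
      rw [h1, pr_eq_sum]
      have h2 : W N.F 1 y = (∑ b : L, ∑ z : Fin (k + 1) → Tr A 0,
          if NodeCon (N.F b) 0 (vecCons y.init z) ∧ N.F b 0 (vecCons y.init z) 0 = y.out then
            ∏ j, W N.F 0 (swap (z j)) else 0) / Fintype.card L := rfl
      rw [h2]
      congr 1
      refine Finset.sum_congr rfl fun b _ => ?_
      rw [Fintype.sum_unique]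
      have h3 := hN b (fun _ => y.init) (vecCons y.init (default : Fin (k + 1) → Tr A 0)) 0
      rw [h3]
      have h4 : ∏ j, W N.F 0 (swap ((default : Fin (k + 1) → Tr A 0) j)) = 1 :=
        Finset.prod_eq_one fun j _ => rfl
      rw [h4]
      by_cases hb : y.out = N.F b 0 (vecCons y.init (default : Fin (k + 1) → Tr A 0)) 0
      · rw [if_pos ⟨trivial, hb⟩, if_pos ⟨trivial, hb.symm⟩]
      · rw [if_neg (fun h => hb h.2), if_neg (fun h => hb h.2.symm)]
    | s + 2, hs, _ => omega
  | succ h ih =>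
    intro s hs y
    match s, hs, y with
    | 0, _, y =>
      have h1 : pr (fun c : Br L k (h + 1) => Con (brStrat N (h + 1) c) 0 y) =
          pr (fun _ : Br L k (h + 1) => True) := rfl
      rw [h1, pr_true]
      rfl
    | s + 1, hs, y =>
      have h1 := br_pr_succ (L := L) (k := k) h (fun b x =>
        Con (comp (N.F b) (fun j => brStrat N h (x j))) (s + 1) y)
      have h2 : pr (fun c : Br L k (h + 1) => Con (brStrat N (h + 1) c) (s + 1) y) =
          pr (fun c : Br L k (h + 1) =>
            Con (comp (N.F c.1) (fun j => brStrat N h (c.2 j))) (s + 1) y) := rfl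
      rw [h2, h1]
      have h3 : W N.F (s + 1) y = (∑ b : L, ∑ z : Fin (k + 1) → Tr A s,
          if NodeCon (N.F b) s (vecCons y.init z) ∧ N.F b s (vecCons y.init z) 0 = y.out then
            ∏ j, W N.F s (swap (z j)) else 0) / Fintype.card L := rfl
      rw [h3]
      congr 1
      refine Finset.sum_congr rfl fun b _ => ?_
      exact br_node (N.F b) (brStrat N h) s y (W N.F s) (ih s (by omega))

end br

/-- Branches realise the universal weights. -/
theorem br (_h : S_WT) : S_BR := by
  intro L A _ _ _ k N hN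
  refine ⟨fun h => ⟨brStrat N h, fun s c y => br_sat N h s c y⟩, fun h s hs y => ?_⟩
  rw [← br_univ N hN h s hs y]
  exact pr_congr fun c => br_sat N h s c y

end Pool.Agent.CT
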