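import Pool.Agent.CT.Model

/-!
# Algorithms with a fixed number of rounds (auxiliary model of the proof)
-/

namespace Pool.Agent.CT

open MeasureTheory

/-- A deterministic algorithm on `n`-vertex graphs with messages of `B` bits.
`send r u N h v` is the message that the node `u` with neighbour set `N` sends to its neighbour `v`
in round `r`, where `h s w` is the message received from `w` in round `s`;
`rejects u N h` tells whether `u` finally rejects.  Both are arbitrary functions. -/
structure Alg (n B : ℕ) where
  send : ℕ → Fin n → Finset (Fin n) → (ℕ → Fin n → Msg B) → Fin n → Msg B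
  rejects : Fin n → Finset (Fin n) → (ℕ → Fin n → Msg B) → Bool

open Classical in
/-- The messages of the first `r` rounds: `tab P G r s u v` is the message that `u` sends to `v` in
round `s` if `s < r` and `u`, `v` are adjacent (and the all-zero message otherwise). -/
noncomputable def tab {n B : ℕ} (P : Alg n B) (G : SimpleGraph (Fin n)) :
    ℕ → ℕ → Fin n → Fin n → Msg B
  | 0 => fun _ _ _ _ => false
  | r + 1 => fun s u v =>
      if s = r then
        if G.Adj u v then P.send r u (nbr G u) (fun s' w => tab P G r s' w u) v
        else fun _ => false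
      else tab P G r s u v

/-- The node `u` rejects after `t` rounds. -/
def rejectsAt {n B : ℕ} (P : Alg n B) (G : SimpleGraph (Fin n)) (t : ℕ) (u : Fin n) : Prop :=
  P.rejects u (nbr G u) (fun s w => tab P G t s w u) = true

/-- Some node rejects after `t` rounds. -/
def Rejects {n B : ℕ} (P : Alg n B) (t : ℕ) (G : SimpleGraph (Fin n)) : Prop :=
  ∃ u, rejectsAt P G t u

/-- On every graph with at most `n` edges the random algorithm `P ω` errs with probability at most
`11/30` after `t` rounds: it should reject exactly the graphs with a triangle. -/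
def ErrLE {n B : ℕ} {Ω : Type*} [MeasurableSpace Ω] (μ : Measure Ω)
    (P : Ω → Alg n B) (t : ℕ) : Prop :=
  ∀ G : SimpleGraph (Fin n), G.edgeSet.ncard ≤ n →
    MeasurableSet {ω | Rejects (P ω) t G} ∧
    (¬ G.CliqueFree 3 → μ {ω | ¬ Rejects (P ω) t G} ≤ 11 / 30) ∧
    (G.CliqueFree 3 → μ {ω | Rejects (P ω) t G} ≤ 11 / 30)

end Pool.Agent.CT
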