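import Pool.Agent.CT.Stmts

/-!
# The causal strategy
-/

namespace Pool.Agent.CT

open Finset

section CF
variable {A : Type} [Fintype A]

lemma cf_marg_nonneg {s : ℕ} {f : Tr A (s + 1) → ℝ} (hf : ∀ y, 0 ≤ f y) (y : Tr A s) :
    0 ≤ marg f y :=
  Finset.sum_nonneg fun _ _ => Finset.sum_nonneg fun _ _ => hf _

lemma cf_nonneg : ∀ s (f : Tr A s → ℝ), (∀ y, 0 ≤ f y) → ∀ y, 0 ≤ cf s f y
  | 0, _, _, _ => zero_le_one
  | s + 1, f, hf, y => by
      refine mul_nonneg (cf_nonneg s (marg f) (cf_marg_nonneg hf) _) (div_nonneg ?_ ?_)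
      · exact Finset.sum_nonneg fun _ _ => hf _
      · exact cf_marg_nonneg hf _

lemma cf_pos : ∀ s (f : Tr A s → ℝ), (∀ y, 0 ≤ f y) → ∀ y, 0 < f y → 0 < cf s f y
  | 0, _, _, _, _ => zero_lt_one
  | s + 1, f, hf, y, hy => by
      have h1 : f y ≤ ∑ i : A, f (y.init.snoc y.out i) := by
        have := Finset.single_le_sum (f := fun i : A => f (y.init.snoc y.out i))
          (fun i _ => hf _) (Finset.mem_univ y.inn)
        exact this
      have h2 : ∑ i : A, f (y.init.snoc y.out i) ≤ marg f y.init := by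
        have := Finset.single_le_sum (f := fun o : A => ∑ i : A, f (y.init.snoc o i))
          (fun o _ => Finset.sum_nonneg fun _ _ => hf _) (Finset.mem_univ y.out)
        exact this
      have h3 : 0 < ∑ i : A, f (y.init.snoc y.out i) := lt_of_lt_of_le hy h1
      have h4 : 0 < marg f y.init := lt_of_lt_of_le h3 h2
      exact mul_pos (cf_pos s (marg f) (cf_marg_nonneg hf) _ h4) (div_pos h3 h4)

/-- The conditional probabilities have sum at most one. -/
lemma cf_ratio {s : ℕ} {f : Tr A (s + 1) → ℝ} (hf : ∀ y, 0 ≤ f y) (y : Tr A s) :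
    0 ≤ ∑ o : A, (∑ i : A, f (y.snoc o i)) / marg f y ∧
      ∑ o : A, (∑ i : A, f (y.snoc o i)) / marg f y ≤ 1 := by
  constructor
  · exact Finset.sum_nonneg fun _ _ => div_nonneg (Finset.sum_nonneg fun _ _ => hf _)
      (cf_marg_nonneg hf _)
  · rw [← Finset.sum_div]
    exact div_self_le_one _

lemma cf_sum_le : ∀ s (f g : Tr A s → ℝ), (∀ y, 0 ≤ f y) → (∀ y, 0 ≤ g y) →
    ∑ y, cf s f y * cf s g (swap y) ≤ 1
  | 0, f, g, _, _ => by
      rw [sum_tr_zero]
      show (1 : ℝ) * 1 ≤ 1
      norm_num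
  | s + 1, f, g, hf, hg => by
      have hF := cf_marg_nonneg hf
      have hG := cf_marg_nonneg hg
      have ih := cf_sum_le s (marg f) (marg g) hF hG
      rw [sum_tr_succ]
      refine le_trans (Finset.sum_le_sum fun y _ => ?_) ih
      have e : ∑ o : A, ∑ i : A, cf (s + 1) f (y.snoc o i) * cf (s + 1) g (swap (y.snoc o i)) =
          cf s (marg f) y * cf s (marg g) (swap y) *
            ((∑ o : A, (∑ i : A, f (y.snoc o i)) / marg f y) *
              ∑ o : A, (∑ i : A, g ((swap y).snoc o i)) / marg g (swap y)) := by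
        rw [Finset.sum_mul_sum, Finset.mul_sum]
        refine Finset.sum_congr rfl fun o _ => ?_
        rw [Finset.mul_sum]
        refine Finset.sum_congr rfl fun i _ => ?_
        have e1 : cf (s + 1) f (y.snoc o i) =
            cf s (marg f) y * ((∑ i' : A, f (y.snoc o i')) / marg f y) := rfl
        have e2 : cf (s + 1) g (swap (y.snoc o i)) =
            cf s (marg g) (swap y) *
              ((∑ i' : A, g ((swap y).snoc i i')) / marg g (swap y)) := rfl
        rw [e1, e2]
        ring
      rw [e]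
      have h1 := cf_ratio hf y
      have h2 := cf_ratio hg (swap y)
      have h3 : 0 ≤ cf s (marg f) y * cf s (marg g) (swap y) :=
        mul_nonneg (cf_nonneg s _ hF _) (cf_nonneg s _ hG _)
      refine mul_le_of_le_one_right h3 ?_
      exact mul_le_one₀ h1.2 h2.1 h2.2

lemma cf_scale : ∀ s (f : Tr A s → ℝ) (a : ℝ), a ≠ 0 → ∀ y,
    cf s (fun z => a * f z) y = cf s f y
  | 0, _, _, _, _ => rfl
  | s + 1, f, a, ha, y => by
      have hm : marg (fun z => a * f z) = fun z => a * marg f z := by
        funext z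
        simp only [marg, Finset.mul_sum]
      have e1 : cf (s + 1) (fun z => a * f z) y =
          cf s (marg (fun z => a * f z)) y.init *
            ((∑ i : A, a * f (y.init.snoc y.out i)) / marg (fun z => a * f z) y.init) := rfl
      have e2 : cf (s + 1) f y = cf s (marg f) y.init *
            ((∑ i : A, f (y.init.snoc y.out i)) / marg f y.init) := rfl
      rw [e1, e2, hm, cf_scale s (marg f) a ha, ← Finset.mul_sum, mul_div_mul_left _ _ ha]

end CF

theorem cfp : S_CF := by
  intro A _
  exact ⟨cf_nonneg, cf_pos, cf_sum_le, fun _ _ _ _ _ _ => rfl, cf_scale⟩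

end Pool.Agent.CT
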