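import Pool.Agent.CT.Stmts

/-!
# Module CLOSE: closure (section 5 of the paper)
-/

namespace Pool.Agent.CT

open Finset Matrix

section close

variable {L A : Type} [Fintype L] [Nonempty L] [Fintype A] {k : ℕ}
  (F : L → NodeFun A (Fin (k + 2)))

/-- The law of the transcripts on the three edges of the triangle. -/
noncomputable def closeT (s : ℕ) (p y q : Tr A s) : ℝ :=
  beta F s p (swap q) * beta F s y (swap p) * beta F s q (swap y)

/-- One of the two ordered pairs at a node is bad. -/
def closeD (s : ℕ) (x z : Tr A s) : Prop := Bad F s x z ∨ Bad F s z x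

/-- Some pair of transcripts at a node of the triangle is bad. -/
def closeE (s : ℕ) (p y q : Tr A s) : Prop :=
  closeD F s p (swap q) ∨ closeD F s y (swap p) ∨ closeD F s q (swap y)

lemma closeE_rot (s : ℕ) (p y q : Tr A s) : closeE F s p y q ↔ closeE F s y q p := by
  unfold closeE
  tauto

lemma close_reindex {s : ℕ} (f : Tr A (s + 1) → Tr A (s + 1) → Tr A (s + 1) → ℝ) :
    ∑ p, ∑ y, ∑ q, f p y q = ∑ p : Tr A s, ∑ y : Tr A s, ∑ q : Tr A s,
      ∑ a : A × A, ∑ b : A × A, ∑ c : A × A,
        f (p.snoc a.1 b.2) (y.snoc b.1 c.2) (q.snoc c.1 a.2) := by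
  have h1 := (Fintype.sum_equiv
    ({ toFun := fun x => (x.1.snoc x.2.2.2.1.1 x.2.2.2.2.1.2, x.2.1.snoc x.2.2.2.2.1.1 x.2.2.2.2.2.2,
          x.2.2.1.snoc x.2.2.2.2.2.1 x.2.2.2.1.2)
       invFun := fun z => (z.1.init, z.2.1.init, z.2.2.init, (z.1.out, z.2.2.inn),
          (z.2.1.out, z.1.inn), (z.2.2.out, z.2.1.inn))
       left_inv := fun x => rfl
       right_inv := fun z => rfl } :
      (Tr A s × Tr A s × Tr A s × (A × A) × (A × A) × (A × A)) ≃
        (Tr A (s + 1) × Tr A (s + 1) × Tr A (s + 1)))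
    (fun x => f (x.1.snoc x.2.2.2.1.1 x.2.2.2.2.1.2) (x.2.1.snoc x.2.2.2.2.1.1 x.2.2.2.2.2.2)
          (x.2.2.1.snoc x.2.2.2.2.2.1 x.2.2.2.1.2)) (fun z => f z.1 z.2.1 z.2.2) (fun x => rfl)).symm
  simp only [Fintype.sum_prod_type] at h1 ⊢
  exact h1

lemma close_reindex2 {s : ℕ} (f : Tr A (s + 1) → Tr A (s + 1) → ℝ) :
    ∑ p, ∑ y, f p y = ∑ p : Tr A s, ∑ y : Tr A s, ∑ m : A × A, ∑ n : A × A,
        f (p.snoc m.1 n.1) (y.snoc m.2 n.2) := by
  have h1 := (Fintype.sum_equiv
    ({ toFun := fun x => (x.1.snoc x.2.2.1.1 x.2.2.2.1, x.2.1.snoc x.2.2.1.2 x.2.2.2.2)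
       invFun := fun z => (z.1.init, z.2.init, (z.1.out, z.2.out), (z.1.inn, z.2.inn))
       left_inv := fun x => rfl
       right_inv := fun z => rfl } :
      (Tr A s × Tr A s × (A × A) × (A × A)) ≃ (Tr A (s + 1) × Tr A (s + 1)))
    (fun x => f (x.1.snoc x.2.2.1.1 x.2.2.2.1) (x.2.1.snoc x.2.2.1.2 x.2.2.2.2))
    (fun z => f z.1 z.2) (fun x => rfl)).symm
  simp only [Fintype.sum_prod_type] at h1 ⊢
  exact h1

lemma close_Bad_indep (h1 : S_WT) (h2 : S_CF) (s : ℕ) (p y : Tr A s) (o i o' i' j j' : A) :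
    Bad F (s + 1) (p.snoc o i) (y.snoc o' i') ↔ Bad F (s + 1) (p.snoc o j) (y.snoc o' j') := by
  obtain ⟨_, w2, _, _, _, b2, _, _, _⟩ := h1 L A k F
  obtain ⟨_, _, _, c4, _⟩ := h2 A
  unfold Bad
  have e1 : Rw F (s + 1) (p.snoc o i) = Rw F (s + 1) (p.snoc o j) := by
    funext z
    unfold Rw
    rw [← snoc_eta z, b2 s p z.init o i z.out z.inn j z.inn]
  rw [w2 s p o i j, e1, c4 s _ y o' i' j', b2 s p y o i o' i' j j']

lemma close_beta_symm (h1 : S_WT) (hF : Equivar F) (s : ℕ) (p y : Tr A s) :
    beta F s p y = beta F s y p := (h1 L A k F).2.2.2.2.2.2.2.2 hF s p y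

lemma close_Rw_nonneg (h1 : S_WT) (s : ℕ) (p y : Tr A s) : 0 ≤ Rw F s p y :=
  mul_nonneg ((h1 L A k F).2.2.2.2.1 s p y) ((h1 L A k F).1 s _)

open Classical in
/-- Closure at the node `A`. -/
lemma close_A (h1 : S_WT) (h2 : S_CF) (hF : Equivar F) (s : ℕ) (η : Tr A s → Tr A s → ℝ)
    (hη : ∀ p x, 0 ≤ η p x) :
    ∑ p : Tr A s, ∑ y : Tr A s, ∑ q : Tr A s, (if closeE F s p y q then 0 else
        η p (swap q) * beta F s y (swap p) * beta F s q (swap y)) ≤
      4 * ∑ p : Tr A s, ∑ x : Tr A s, η p x * W F s (swap p) * W F s (swap x) := by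
  obtain ⟨w1, w2, w3, w4, b1, b2, b3, b5, b4⟩ := h1 L A k F
  obtain ⟨c1, c2, c3, c4, c5⟩ := h2 A
  have hcf : ∀ p y : Tr A s, 0 ≤ cf s (Rw F s p) y := fun p y =>
    c1 s _ (close_Rw_nonneg F h1 s p) y
  rw [Finset.mul_sum]
  refine Finset.sum_le_sum fun p _ => ?_
  calc ∑ y : Tr A s, ∑ q : Tr A s, (if closeE F s p y q then 0 else
        η p (swap q) * beta F s y (swap p) * beta F s q (swap y))
      ≤ ∑ y : Tr A s, ∑ q : Tr A s, (4 * (η p (swap q) * W F s (swap p) * W F s q)) *
          (cf s (Rw F s (swap p)) y * cf s (Rw F s q) (swap y)) := by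
        refine Finset.sum_le_sum fun y _ => Finset.sum_le_sum fun q _ => ?_
        split_ifs with hE
        · have := hη p (swap q)
          have := w1 s (swap p)
          have := w1 s q
          have := hcf (swap p) y
          have := hcf q (swap y)
          positivity
        · unfold closeE closeD at hE
          push Not at hE
          obtain ⟨-, ⟨-, hB⟩, ⟨hC, -⟩⟩ := hE
          unfold Bad at hB hC
          rw [not_lt] at hB hC
          have e1 : beta F s y (swap p) ≤ 2 * (W F s (swap p) * cf s (Rw F s (swap p)) y) := by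
            rw [close_beta_symm F h1 hF s y (swap p)]
            linarith
          have e2 : beta F s q (swap y) ≤ 2 * (W F s q * cf s (Rw F s q) (swap y)) := by
            linarith
          have e3 : beta F s y (swap p) * beta F s q (swap y) ≤
              (2 * (W F s (swap p) * cf s (Rw F s (swap p)) y)) *
                (2 * (W F s q * cf s (Rw F s q) (swap y))) :=
            mul_le_mul e1 e2 (b1 s _ _) (by
              have := w1 s (swap p)
              have := hcf (swap p) y
              positivity)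
          calc η p (swap q) * beta F s y (swap p) * beta F s q (swap y)
              = η p (swap q) * (beta F s y (swap p) * beta F s q (swap y)) := by ring
            _ ≤ η p (swap q) * ((2 * (W F s (swap p) * cf s (Rw F s (swap p)) y)) *
                (2 * (W F s q * cf s (Rw F s q) (swap y)))) :=
                mul_le_mul_of_nonneg_left e3 (hη _ _)
            _ = _ := by ring
    _ = ∑ q : Tr A s, (4 * (η p (swap q) * W F s (swap p) * W F s q)) *
          ∑ y : Tr A s, (cf s (Rw F s (swap p)) y * cf s (Rw F s q) (swap y)) := by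
        rw [Finset.sum_comm]
        refine Finset.sum_congr rfl fun q _ => ?_
        rw [Finset.mul_sum]
    _ ≤ ∑ q : Tr A s, (4 * (η p (swap q) * W F s (swap p) * W F s q)) * 1 := by
        refine Finset.sum_le_sum fun q _ => ?_
        refine mul_le_mul_of_nonneg_left (c3 s _ _ (close_Rw_nonneg F h1 s _)
          (close_Rw_nonneg F h1 s _)) ?_
        have := hη p (swap q)
        have := w1 s (swap p)
        have := w1 s q
        positivity
    _ = 4 * ∑ x : Tr A s, η p x * W F s (swap p) * W F s (swap x) := by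
        rw [Finset.mul_sum, ← sum_swap]
        refine Finset.sum_congr rfl fun q _ => ?_
        rw [swap_swap, mul_one]

lemma close_rot3 {X : Type} [Fintype X] (f : X → X → X → ℝ) :
    ∑ p, ∑ y, ∑ q, f y q p = ∑ p, ∑ y, ∑ q, f p y q := by
  calc ∑ p, ∑ y, ∑ q, f y q p = ∑ y, ∑ p, ∑ q, f y q p := Finset.sum_comm
    _ = ∑ y, ∑ q, ∑ p, f y q p := by
        refine Finset.sum_congr rfl fun y _ => Finset.sum_comm

open Classical in
/-- Closure at all three nodes. -/
lemma close_ABC (h1 : S_WT) (h2 : S_CF) (hF : Equivar F) (s : ℕ) (η : Tr A s → Tr A s → ℝ)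
    (hη : ∀ p x, 0 ≤ η p x) :
    ∑ p : Tr A s, ∑ y : Tr A s, ∑ q : Tr A s, (if closeE F s p y q then 0 else
        (η p (swap q) * beta F s y (swap p) * beta F s q (swap y) +
          beta F s p (swap q) * η y (swap p) * beta F s q (swap y) +
          beta F s p (swap q) * beta F s y (swap p) * η q (swap y))) ≤
      12 * ∑ p : Tr A s, ∑ x : Tr A s, η p x * W F s (swap p) * W F s (swap x) := by
  have hA := close_A F h1 h2 hF s η hη
  set g : Tr A s → Tr A s → Tr A s → ℝ := fun p y q => if closeE F s p y q then 0 else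
        η p (swap q) * beta F s y (swap p) * beta F s q (swap y) with hg
  have hr1 := close_rot3 g
  have hr2 := close_rot3 (fun p y q => g y q p)
  have e : ∀ p y q : Tr A s, (if closeE F s p y q then 0 else
        (η p (swap q) * beta F s y (swap p) * beta F s q (swap y) +
          beta F s p (swap q) * η y (swap p) * beta F s q (swap y) +
          beta F s p (swap q) * beta F s y (swap p) * η q (swap y))) =
      g p y q + g y q p + g q p y := by
    intro p y q
    simp only [hg, ← closeE_rot F s p y q, closeE_rot F s q p y]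
    split_ifs
    · ring
    · ring
  simp only [e, Finset.sum_add_distrib]
  rw [hr2, hr1]
  change ∑ p, ∑ y, ∑ q, g p y q ≤ _ at hA
  linarith

open Classical in
/-- The probability of the event `E`. -/
noncomputable def closeP (s : ℕ) : ℝ :=
  ∑ p : Tr A s, ∑ y : Tr A s, ∑ q : Tr A s, if closeE F s p y q then closeT F s p y q else 0

/-- The messages of one node in the last round. -/
noncomputable def closeB (d : A) (s : ℕ) (x z : Tr A s) (m : A × A) : ℝ :=
  beta F (s + 1) (x.snoc m.1 d) (z.snoc m.2 d)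

lemma closeT_succ (h1 : S_WT) (d : A) (s : ℕ) (p y q : Tr A s) (a b c : A × A) :
    closeT F (s + 1) (p.snoc a.1 b.2) (y.snoc b.1 c.2) (q.snoc c.1 a.2) =
      closeB F d s p (swap q) a * closeB F d s y (swap p) b * closeB F d s q (swap y) c := by
  obtain ⟨_, _, _, _, _, b2, _, _, _⟩ := h1 L A k F
  unfold closeT closeB
  simp only [swap_snoc]
  rw [b2 s p (swap q) a.1 b.2 a.2 c.1 d d, b2 s y (swap p) b.1 c.2 b.2 a.1 d d,
    b2 s q (swap y) c.1 a.2 c.2 b.1 d d]

lemma closeD_succ (h1 : S_WT) (h2 : S_CF) (d : A) (s : ℕ) (x z : Tr A s) (o i o' i' : A) :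
    closeD F (s + 1) (x.snoc o i) (z.snoc o' i') ↔
      closeD F (s + 1) (x.snoc o d) (z.snoc o' d) := by
  unfold closeD
  rw [close_Bad_indep F h1 h2 s x z o i o' i' d d, close_Bad_indep F h1 h2 s z x o' i' o i d d]

lemma closeE_succ (h1 : S_WT) (h2 : S_CF) (d : A) (s : ℕ) (p y q : Tr A s) (a b c : A × A) :
    closeE F (s + 1) (p.snoc a.1 b.2) (y.snoc b.1 c.2) (q.snoc c.1 a.2) ↔
      (closeD F (s + 1) (p.snoc a.1 d) ((swap q).snoc a.2 d) ∨
        closeD F (s + 1) (y.snoc b.1 d) ((swap p).snoc b.2 d) ∨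
        closeD F (s + 1) (q.snoc c.1 d) ((swap y).snoc c.2 d)) := by
  unfold closeE
  simp only [swap_snoc]
  rw [closeD_succ F h1 h2 d s p (swap q), closeD_succ F h1 h2 d s y (swap p),
    closeD_succ F h1 h2 d s q (swap y)]

lemma closeB_sum (h1 : S_WT) (d : A) (s : ℕ) (x z : Tr A s) :
    ∑ m, closeB F d s x z m = beta F s x z := by
  obtain ⟨_, _, _, _, _, _, b3, _, _⟩ := h1 L A k F
  rw [← b3 s x z d d, Fintype.sum_prod_type]
  rfl

lemma closeB_nonneg (h1 : S_WT) (d : A) (s : ℕ) (x z : Tr A s) (m : A × A) :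
    0 ≤ closeB F d s x z m := (h1 L A k F).2.2.2.2.1 _ _ _

lemma close_prod2 {X : Type} [Fintype X] (c : ℝ) (f g : X → ℝ) :
    ∑ a, ∑ b, c * f a * g b = c * (∑ a, f a) * (∑ b, g b) := by
  rw [mul_assoc, Finset.sum_mul_sum, Finset.mul_sum]
  refine Finset.sum_congr rfl fun a _ => ?_
  rw [Finset.mul_sum]
  refine Finset.sum_congr rfl fun b _ => ?_
  ring

lemma close_prod3 {X : Type} [Fintype X] (f g h : X → ℝ) :
    ∑ a, ∑ b, ∑ c, f a * g b * h c = (∑ a, f a) * (∑ b, g b) * (∑ c, h c) := by
  rw [Finset.sum_mul_sum, Finset.sum_mul]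
  refine Finset.sum_congr rfl fun a _ => ?_
  rw [Finset.sum_mul]
  refine Finset.sum_congr rfl fun b _ => ?_
  rw [Finset.mul_sum]

open Classical in
/-- The bad part at one node at the next stage. -/
noncomputable def closeEta (d : A) (s : ℕ) (x z : Tr A s) : ℝ :=
  ∑ m : A × A, if closeD F (s + 1) (x.snoc m.1 d) (z.snoc m.2 d) then closeB F d s x z m else 0

lemma closeEta_nonneg (h1 : S_WT) (d : A) (s : ℕ) (x z : Tr A s) : 0 ≤ closeEta F d s x z := by
  classical
  unfold closeEta
  refine Finset.sum_nonneg fun m _ => ?_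
  split_ifs
  · exact closeB_nonneg F h1 d s x z m
  · exact le_rfl

lemma close_step (h1 : S_WT) (h2 : S_CF) (hF : Equivar F) (d : A) (s : ℕ) :
    closeP F (s + 1) ≤ closeP F s +
      12 * ∑ p : Tr A s, ∑ x : Tr A s, closeEta F d s p x * W F s (swap p) * W F s (swap x) := by
  classical
  have hABC := close_ABC F h1 h2 hF s (closeEta F d s) (closeEta_nonneg F h1 d s)
  refine le_trans ?_ (add_le_add_right hABC (closeP F s))
  unfold closeP
  rw [close_reindex]
  simp only [← Finset.sum_add_distrib]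
  refine Finset.sum_le_sum fun p _ => Finset.sum_le_sum fun y _ => Finset.sum_le_sum fun q _ => ?_
  have hB := closeB_nonneg F h1 d s
  by_cases hE : closeE F s p y q
  · rw [if_pos hE, if_pos hE, add_zero]
    calc _ ≤ ∑ a : A × A, ∑ b : A × A, ∑ c : A × A,
          closeB F d s p (swap q) a * closeB F d s y (swap p) b * closeB F d s q (swap y) c := by
          refine Finset.sum_le_sum fun a _ => Finset.sum_le_sum fun b _ =>
            Finset.sum_le_sum fun c _ => ?_
          rw [closeT_succ F h1 d]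
          split_ifs
          · exact le_rfl
          · exact mul_nonneg (mul_nonneg (hB _ _ _) (hB _ _ _)) (hB _ _ _)
      _ = closeT F s p y q := by
          rw [close_prod3, closeB_sum F h1, closeB_sum F h1, closeB_sum F h1]
          rfl
  · rw [if_neg hE, if_neg hE, zero_add]
    have hs := closeB_sum F h1 d s
    calc _ ≤ ∑ a : A × A, ∑ b : A × A, ∑ c : A × A,
          ((if closeD F (s + 1) (p.snoc a.1 d) ((swap q).snoc a.2 d) then
              closeB F d s p (swap q) a else 0) *
              closeB F d s y (swap p) b * closeB F d s q (swap y) c +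
            closeB F d s p (swap q) a *
              (if closeD F (s + 1) (y.snoc b.1 d) ((swap p).snoc b.2 d) then
                closeB F d s y (swap p) b else 0) * closeB F d s q (swap y) c +
            closeB F d s p (swap q) a * closeB F d s y (swap p) b *
              (if closeD F (s + 1) (q.snoc c.1 d) ((swap y).snoc c.2 d) then
                closeB F d s q (swap y) c else 0)) := by
          refine Finset.sum_le_sum fun a _ => Finset.sum_le_sum fun b _ =>
            Finset.sum_le_sum fun c _ => ?_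
          rw [closeT_succ F h1 d, closeE_succ F h1 h2 d]
          have hn := mul_nonneg (mul_nonneg (hB p (swap q) a) (hB y (swap p) b))
            (hB q (swap y) c)
          by_cases ha : closeD F (s + 1) (p.snoc a.1 d) ((swap q).snoc a.2 d) <;>
          by_cases hb : closeD F (s + 1) (y.snoc b.1 d) ((swap p).snoc b.2 d) <;>
          by_cases hc : closeD F (s + 1) (q.snoc c.1 d) ((swap y).snoc c.2 d) <;>
          simp only [ha, hb, hc, or_true, true_or, or_false, false_or, if_true, if_false,
            zero_mul, mul_zero, add_zero, zero_add, or_self] <;>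
          linarith
      _ = _ := by
          simp only [Finset.sum_add_distrib]
          rw [close_prod3, close_prod3, close_prod3, hs, hs, hs]
          rfl

open Classical in
lemma close_nullBad_succ (h1 : S_WT) (h2 : S_CF) (d : A) (s : ℕ) :
    nullBad F (s + 1) = ∑ p : Tr A s, ∑ x : Tr A s,
      (∑ m : A × A, if Bad F (s + 1) (p.snoc m.1 d) (x.snoc m.2 d) then closeB F d s p x m
        else 0) * W F s (swap p) * W F s (swap x) := by
  obtain ⟨w1, w2, w3, w4, b1, b2, b3, b5, b4⟩ := h1 L A k F
  unfold nullBad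
  rw [close_reindex2]
  refine Finset.sum_congr rfl fun p _ => Finset.sum_congr rfl fun x _ => ?_
  rw [Finset.sum_mul, Finset.sum_mul]
  refine Finset.sum_congr rfl fun m _ => ?_
  rw [Fintype.sum_prod_type, ← w3 s (swap p) m.1, ← w3 s (swap x) m.2, ← close_prod2]
  refine Finset.sum_congr rfl fun i _ => Finset.sum_congr rfl fun i' _ => ?_
  rw [close_Bad_indep F h1 h2 s p x m.1 i m.2 i' d d]
  unfold nu closeB
  simp only [swap_snoc]
  rw [b2 s p x m.1 i m.2 i' d d]
  split_ifs
  · ring
  · ring

lemma close_eta_le (h1 : S_WT) (h2 : S_CF) (hF : Equivar F) (d : A) (s : ℕ) :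
    ∑ p : Tr A s, ∑ x : Tr A s, closeEta F d s p x * W F s (swap p) * W F s (swap x) ≤
      2 * nullBad F (s + 1) := by
  classical
  obtain ⟨w1, w2, w3, w4, b1, b2, b3, b5, b4⟩ := h1 L A k F
  have e1 := close_nullBad_succ F h1 h2 d s
  have e2 : nullBad F (s + 1) = ∑ p : Tr A s, ∑ x : Tr A s,
      (∑ m : A × A, if Bad F (s + 1) (x.snoc m.2 d) (p.snoc m.1 d) then closeB F d s p x m
        else 0) * W F s (swap p) * W F s (swap x) := by
    rw [e1, Finset.sum_comm]
    refine Finset.sum_congr rfl fun p _ => Finset.sum_congr rfl fun x _ => ?_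
    have e3 : (∑ m : A × A, if Bad F (s + 1) (x.snoc m.1 d) (p.snoc m.2 d) then
        closeB F d s x p m else 0) = (∑ m : A × A, if Bad F (s + 1) (x.snoc m.2 d) (p.snoc m.1 d)
          then closeB F d s p x m else 0) := by
      rw [← (Equiv.prodComm A A).sum_comp]
      refine Finset.sum_congr rfl fun m _ => ?_
      have e4 : closeB F d s x p (Equiv.prodComm A A m) = closeB F d s p x m := by
        unfold closeB
        exact b4 hF (s + 1) _ _
      rw [e4]
      rfl
    rw [e3]
    ring
  rw [two_mul]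
  nth_rw 1 [e1]
  rw [e2, ← Finset.sum_add_distrib]
  refine Finset.sum_le_sum fun p _ => ?_
  rw [← Finset.sum_add_distrib]
  refine Finset.sum_le_sum fun x _ => ?_
  rw [← add_mul, ← add_mul, ← Finset.sum_add_distrib]
  refine mul_le_mul_of_nonneg_right (mul_le_mul_of_nonneg_right ?_ (w1 _ _)) (w1 _ _)
  unfold closeEta
  refine Finset.sum_le_sum fun m _ => ?_
  have hB := closeB_nonneg F h1 d s p x m
  unfold closeD
  by_cases ha : Bad F (s + 1) (p.snoc m.1 d) (x.snoc m.2 d) <;>
  by_cases hb : Bad F (s + 1) (x.snoc m.2 d) (p.snoc m.1 d) <;>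
  simp only [ha, hb, or_true, true_or, or_false, false_or, if_true, if_false, add_zero, zero_add,
    or_self] <;>
  linarith

lemma close_nullBad_nonneg (h1 : S_WT) (s : ℕ) : 0 ≤ nullBad F s := by
  classical
  obtain ⟨w1, w2, w3, w4, b1, b2, b3, b5, b4⟩ := h1 L A k F
  unfold nullBad
  refine Finset.sum_nonneg fun p _ => Finset.sum_nonneg fun y _ => ?_
  split_ifs
  · unfold nu
    exact mul_nonneg (mul_nonneg (w1 _ _) (b1 _ _ _)) (w1 _ _)
  · exact le_rfl

lemma close_beta_zero (h1 : S_WT) (p y : Tr A 0) : beta F 0 p y = 1 := by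
  obtain ⟨w1, w2, w3, w4, b1, b2, b3, b5, b4⟩ := h1 L A k F
  have h := b5 0 p
  rw [sum_tr_zero] at h
  have hy : y = () := rfl
  rw [hy]
  have e1 : W F 0 (swap (() : Tr A 0)) = 1 := rfl
  have e2 : W F 0 p = 1 := rfl
  rw [e2, e1, mul_one] at h
  exact h

lemma close_Bad_zero (h1 : S_WT) (p y : Tr A 0) : ¬ Bad F 0 p y := by
  unfold Bad
  rw [close_beta_zero F h1]
  have e1 : W F 0 p = 1 := rfl
  have e2 : cf 0 (Rw F 0 p) y = 1 := rfl
  rw [e1, e2]
  norm_num

lemma close_P_zero (h1 : S_WT) : closeP F 0 = 0 := by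
  classical
  unfold closeP
  refine Finset.sum_eq_zero fun p _ => Finset.sum_eq_zero fun y _ =>
    Finset.sum_eq_zero fun q _ => ?_
  rw [if_neg]
  unfold closeE closeD
  have h := close_Bad_zero F h1
  simp [h]

lemma close_P_le (h1 : S_WT) (h2 : S_CF) (hF : Equivar F) (d : A) (s : ℕ) :
    closeP F s ≤ 24 * ∑ j ∈ range (s + 1), nullBad F j := by
  induction s with
  | zero =>
    rw [close_P_zero F h1]
    have := close_nullBad_nonneg F h1 0
    simp only [zero_add, Finset.sum_range_one]
    linarith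
  | succ s ih =>
    rw [Finset.sum_range_succ]
    have e1 := close_step F h1 h2 hF d s
    have e2 := close_eta_le F h1 h2 hF d s
    linarith

lemma close_total (h1 : S_WT) (d : A) (s : ℕ) :
    ∑ p : Tr A s, ∑ y : Tr A s, ∑ q : Tr A s, closeT F s p y q = 1 := by
  induction s with
  | zero =>
    rw [sum_tr_zero, sum_tr_zero, sum_tr_zero]
    unfold closeT
    rw [close_beta_zero F h1]
    norm_num
  | succ s ih =>
    rw [close_reindex, ← ih]
    refine Finset.sum_congr rfl fun p _ => Finset.sum_congr rfl fun y _ =>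
      Finset.sum_congr rfl fun q _ => ?_
    simp only [closeT_succ F h1 d]
    rw [close_prod3, closeB_sum F h1, closeB_sum F h1, closeB_sum F h1]
    rfl

lemma close_betaWW (h1 : S_WT) (s : ℕ) :
    ∑ p : Tr A s, ∑ q : Tr A s, beta F s p q * W F s (swap p) * W F s (swap q) = 1 := by
  obtain ⟨w1, w2, w3, w4, b1, b2, b3, b5, b4⟩ := h1 L A k F
  rw [← w4 s]
  refine Finset.sum_congr rfl fun p _ => ?_
  rw [← b5 s p, Finset.sum_mul]
  refine Finset.sum_congr rfl fun q _ => ?_
  ring

end close

/-- Module CLOSE. -/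
theorem close (h1 : S_WT) (h2 : S_CF) : S_CLOSE := by
  classical
  intro L A _ _ _ k F hF s η h0 hle
  obtain ⟨b⟩ := ‹Nonempty L›
  have d : A := F b 0 (fun _ => ()) 0
  obtain ⟨w1, w2, w3, w4, b1, b2, b3, b5, b4⟩ := h1 L A k F
  have hP := close_P_le F h1 h2 hF d s
  have hT := close_total F h1 d s
  have hABC := close_ABC F h1 h2 hF s (fun p x => beta F s p x - η p x)
    (fun p x => sub_nonneg.mpr (hle p x))
  have hsum : ∑ p : Tr A s, ∑ x : Tr A s,
      (beta F s p x - η p x) * W F s (swap p) * W F s (swap x) =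
      1 - ∑ p : Tr A s, ∑ q : Tr A s, η p q * W F s (swap p) * W F s (swap q) := by
    rw [← close_betaWW F h1 s, ← Finset.sum_sub_distrib]
    refine Finset.sum_congr rfl fun p _ => ?_
    rw [← Finset.sum_sub_distrib]
    refine Finset.sum_congr rfl fun q _ => ?_
    ring
  rw [hsum] at hABC
  have hmain : ∑ p : Tr A s, ∑ y : Tr A s, ∑ q : Tr A s, closeT F s p y q ≤
      closeP F s + (∑ p : Tr A s, ∑ y : Tr A s, ∑ q : Tr A s, (if closeE F s p y q then 0 else
        ((beta F s p (swap q) - η p (swap q)) * beta F s y (swap p) * beta F s q (swap y) +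
          beta F s p (swap q) * (beta F s y (swap p) - η y (swap p)) * beta F s q (swap y) +
          beta F s p (swap q) * beta F s y (swap p) *
            (beta F s q (swap y) - η q (swap y))))) +
        ∑ p : Tr A s, ∑ y : Tr A s, ∑ q : Tr A s,
          η p (swap q) * η y (swap p) * η q (swap y) := by
    unfold closeP
    simp only [← Finset.sum_add_distrib]
    refine Finset.sum_le_sum fun p _ => Finset.sum_le_sum fun y _ =>
      Finset.sum_le_sum fun q _ => ?_
    unfold closeT
    have x1 := h0 p (swap q)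
    have x2 := h0 y (swap p)
    have x3 := h0 q (swap y)
    have y1 := hle p (swap q)
    have y2 := hle y (swap p)
    have y3 := hle q (swap y)
    generalize beta F s p (swap q) = B1 at *
    generalize beta F s y (swap p) = B2 at *
    generalize beta F s q (swap y) = B3 at *
    generalize η p (swap q) = E1 at *
    generalize η y (swap p) = E2 at *
    generalize η q (swap y) = E3 at *
    have hn : 0 ≤ E1 * E2 * E3 := mul_nonneg (mul_nonneg x1 x2) x3
    split_ifs
    · linarith
    · have z1 : B1 * (B2 - E2) * B3 ≥ E1 * (B2 - E2) * B3 := by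
        have : 0 ≤ (B1 - E1) * ((B2 - E2) * B3) :=
          mul_nonneg (by linarith) (mul_nonneg (by linarith) (by linarith))
        nlinarith
      have z2 : B1 * B2 * (B3 - E3) ≥ E1 * E2 * (B3 - E3) := by
        have e : E1 * E2 ≤ B1 * B2 := mul_le_mul y1 y2 x2 (by linarith)
        have : 0 ≤ (B1 * B2 - E1 * E2) * (B3 - E3) :=
          mul_nonneg (by linarith) (by linarith)
        nlinarith
      nlinarith
  rw [hT] at hmain
  linarith

end Pool.Agent.CT
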