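import Pool.Agent.CT.Stmts

/-!
# Module CONTENT
-/

namespace Pool.Agent.CT

open Finset Matrix MeasureTheory

lemma content_sum_sq : ∀ s : ℕ, ∑ j ∈ range (s + 1), (j : ℝ) ^ 2 ≤ (s : ℝ) ^ 3
  | 0 => by simp
  | s + 1 => by
      rw [Finset.sum_range_succ]
      have ih := content_sum_sq s
      have hs : (0 : ℝ) ≤ s := Nat.cast_nonneg s
      push_cast
      nlinarith [ih, hs, mul_nonneg hs hs]

lemma content_realise {L A : Type} [Fintype L] [Nonempty L] [Fintype A] {k : ℕ} {N : Node L A k}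
    (h5 : S_BR) (hS : N.Start) (h : ℕ) :
    ∃ σ : Br L k h → Strat A, Realise N.F σ (h + 1) := by
  obtain ⟨h6, h7⟩ := h5 L A k N hS
  obtain ⟨σ, hσ⟩ := h6 h
  refine ⟨σ, fun s hs y => ?_⟩
  rw [← h7 h s hs y]
  exact pr_congr fun c => hσ s c y

theorem content (_h1 : S_WT) (h2 : S_CLOSE) (h3 : S_KL) (h4 : S_BAD) (h5 : S_BR) (h6 : S_SUM) :
    S_CONTENT := by
  intro L A _ _ _ k K N hS hE hR hK h s hs
  obtain ⟨g1, g2, g3⟩ := h6 L A k N hS h s hs
  obtain ⟨σ, hσ⟩ := content_realise (L := L) (A := A) h5 hS h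
  have hc := h2 L A k N.F hE s (fun p q => pr (fun c : Hang L k h k => SatY N h s c p q))
    (fun p y => pr_nonneg _) g1
  have hnb : ∀ j ∈ range (s + 1), nullBad N.F j ≤ 8 * ((j : ℝ) ^ 2 * Real.log K / (k + 1)) := by
    intro j hj
    have hj' : j ≤ h + 1 := le_trans (Nat.lt_succ_iff.mp (Finset.mem_range.mp hj)) hs
    exact h4 L A k N.F j _ (h3 L A (Br L k h) k K (h + 1) N.F σ hE hR hK hσ j hj')
  have hlog : 0 ≤ Real.log K := Real.log_nonneg (by exact_mod_cast hK)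
  have hk : (0 : ℝ) < (k : ℝ) + 1 := by positivity
  have hsum : ∑ j ∈ range (s + 1), nullBad N.F j ≤ 8 * ((s : ℝ) ^ 3 * Real.log K / (k + 1)) := by
    refine (Finset.sum_le_sum hnb).trans ?_
    rw [← Finset.mul_sum, ← Finset.sum_div, ← Finset.sum_mul]
    have h8 : (∑ j ∈ range (s + 1), (j : ℝ) ^ 2) * Real.log K ≤ (s : ℝ) ^ 3 * Real.log K :=
      mul_le_mul_of_nonneg_right (content_sum_sq s) hlog
    have h9 := div_le_div_of_nonneg_right h8 hk.le
    linarith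
  have h10 : 192 * (s : ℝ) ^ 3 * Real.log K / (k + 1) =
      24 * (8 * ((s : ℝ) ^ 3 * Real.log K / (k + 1))) := by ring
  rw [g3, h10]
  refine le_trans ?_ hc
  linarith

end Pool.Agent.CT
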