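import Mathlib

/-!
# Transcripts, node functions and universal branch weights (definitions and sum lemmas)
-/

namespace Pool.Agent.CT

open Finset Matrix

/-! ### Transcripts -/

/-- Transcripts of `s` rounds on an edge, seen from one of its ends: for each round the message
sent and the message received. -/
def Tr (A : Type) : ℕ → Type
  | 0 => Unit
  | s + 1 => Tr A s × (A × A)

instance instFintypeTr {A : Type} [Fintype A] : ∀ s, Fintype (Tr A s)
  | 0 => inferInstanceAs (Fintype Unit)
  | s + 1 => @instFintypeProd _ _ (instFintypeTr s) _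

instance instNonemptyTr {A : Type} [Nonempty A] : ∀ s, Nonempty (Tr A s)
  | 0 => inferInstanceAs (Nonempty Unit)
  | s + 1 => by
      obtain ⟨y⟩ := instNonemptyTr (A := A) s
      obtain ⟨a⟩ := ‹Nonempty A›
      exact ⟨(y, (a, a))⟩

instance instUniqueTr {A : Type} : Unique (Tr A 0) := inferInstanceAs (Unique Unit)

/-- One more round: message `o` sent, message `i` received. -/
def Tr.snoc {A : Type} {s : ℕ} (y : Tr A s) (o i : A) : Tr A (s + 1) := (y, (o, i))
/-- The transcript without its last round. -/
def Tr.init {A : Type} {s : ℕ} (y : Tr A (s + 1)) : Tr A s := y.1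
/-- The message sent in the last round. -/
def Tr.out {A : Type} {s : ℕ} (y : Tr A (s + 1)) : A := y.2.1
/-- The message received in the last round. -/
def Tr.inn {A : Type} {s : ℕ} (y : Tr A (s + 1)) : A := y.2.2

/-- The transcript seen from the other end. -/
def swap {A : Type} : ∀ {s : ℕ}, Tr A s → Tr A s
  | 0, _ => ()
  | _ + 1, y => ((swap y.init).snoc y.inn y.out)

section basic
variable {A : Type} {s : ℕ}

@[simp] lemma init_snoc (y : Tr A s) (o i : A) : (y.snoc o i).init = y := rfl
@[simp] lemma out_snoc (y : Tr A s) (o i : A) : (y.snoc o i).out = o := rfl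
@[simp] lemma inn_snoc (y : Tr A s) (o i : A) : (y.snoc o i).inn = i := rfl
@[simp] lemma snoc_eta (y : Tr A (s + 1)) : y.init.snoc y.out y.inn = y := rfl
@[simp] lemma swap_snoc (y : Tr A s) (o i : A) : swap (y.snoc o i) = (swap y).snoc i o := rfl
@[simp] lemma swap_init (y : Tr A (s + 1)) : (swap y).init = swap y.init := rfl
@[simp] lemma swap_out (y : Tr A (s + 1)) : (swap y).out = y.inn := rfl
@[simp] lemma swap_inn (y : Tr A (s + 1)) : (swap y).inn = y.out := rfl

@[simp] lemma swap_swap : ∀ {s : ℕ} (y : Tr A s), swap (swap y) = y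
  | 0, _ => rfl
  | s + 1, y => by
      have h := swap_swap y.init
      calc swap (swap y) = (swap (swap y.init)).snoc y.out y.inn := rfl
        _ = y := by rw [h]; rfl

lemma snoc_inj {y y' : Tr A s} {o i o' i' : A} :
    y.snoc o i = y'.snoc o' i' ↔ y = y' ∧ o = o' ∧ i = i' := by
  constructor
  · intro h
    exact ⟨congrArg Tr.init h, congrArg Tr.out h, congrArg Tr.inn h⟩
  · rintro ⟨rfl, rfl, rfl⟩
    rfl

lemma tr_ext {y y' : Tr A (s + 1)} (h : y.init = y'.init) (ho : y.out = y'.out)
    (hi : y.inn = y'.inn) : y = y' := by
  rw [← snoc_eta y, ← snoc_eta y', h, ho, hi]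

/-- `swap` as a bijection. -/
def swapEquiv (A : Type) (s : ℕ) : Tr A s ≃ Tr A s := ⟨swap, swap, swap_swap, swap_swap⟩

lemma sum_swap [Fintype A] {M : Type*} [AddCommMonoid M] (f : Tr A s → M) :
    ∑ y, f (swap y) = ∑ y, f y := (swapEquiv A s).sum_comp f

/-- Splitting off the last round in a sum over transcripts. -/
lemma sum_tr_succ [Fintype A] {M : Type*} [AddCommMonoid M] (f : Tr A (s + 1) → M) :
    ∑ y, f y = ∑ y : Tr A s, ∑ o : A, ∑ i : A, f (y.snoc o i) := by
  have h := Fintype.sum_prod_type (fun x : Tr A s × (A × A) => f x)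
  refine h.trans ?_
  refine Finset.sum_congr rfl fun y _ => ?_
  exact Fintype.sum_prod_type _

lemma sum_tr_zero [Fintype A] {M : Type*} [AddCommMonoid M] (f : Tr A 0 → M) :
    ∑ y, f y = f () := by
  exact Fintype.sum_unique f

/-- Splitting off the last rounds in a sum over families of transcripts. -/
lemma sum_pi_tr_succ [Fintype A] {J : Type} [Fintype J] [DecidableEq J] {M : Type*}
    [AddCommMonoid M] (f : (J → Tr A (s + 1)) → M) :
    ∑ z, f z = ∑ z : J → Tr A s, ∑ o : J → A, ∑ i : J → A, f (fun j => (z j).snoc (o j) (i j)) := by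
  have h1 := (Fintype.sum_equiv
    ({ toFun := fun x j => (x.1 j).snoc (x.2.1 j) (x.2.2 j)
       invFun := fun z => (fun j => (z j).init, (fun j => (z j).out, fun j => (z j).inn))
       left_inv := fun x => rfl
       right_inv := fun z => rfl } : (J → Tr A s) × ((J → A) × (J → A)) ≃ (J → Tr A (s + 1)))
    (fun x => f (fun j => (x.1 j).snoc (x.2.1 j) (x.2.2 j))) f (fun x => rfl)).symm
  rw [h1, Fintype.sum_prod_type]
  refine Finset.sum_congr rfl fun y _ => ?_
  exact Fintype.sum_prod_type _

/-- Splitting off the first slot. -/
lemma sum_vecCons {α : Type} [Fintype α] {m : ℕ} {M : Type*} [AddCommMonoid M]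
    (f : (Fin (m + 1) → α) → M) :
    ∑ z, f z = ∑ a : α, ∑ z : Fin m → α, f (vecCons a z) := by
  rw [← (Fin.consEquiv (fun _ : Fin (m + 1) => α)).sum_comp, Fintype.sum_prod_type]
  rfl

/-- A product over all slots of sums is a sum over all families. -/
lemma prod_sum_pi {J α : Type} [Fintype J] [DecidableEq J] [Fintype α] (f : J → α → ℝ) :
    ∏ j, ∑ a, f j a = ∑ z : J → α, ∏ j, f j (z j) := by
  rw [Finset.prod_univ_sum]
  simp [Fintype.piFinset_univ]

end basic

/-! ### Node functions -/

/-- A node with slots `J`: the messages sent on all slots in round `s`, as a function of the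
transcripts of the first `s` rounds. -/
abbrev NodeFun (A J : Type) : Type := ∀ s, (J → Tr A s) → J → A

/-- A strategy on one edge. -/
abbrev Strat (A : Type) : Type := ∀ s, Tr A s → A

/-- The transcripts `y j` on the slots `j` are consistent with the node function `f`. -/
def NodeCon {A J : Type} (f : NodeFun A J) : ∀ s, (J → Tr A s) → Prop
  | 0, _ => True
  | s + 1, y => NodeCon f s (fun j => (y j).init) ∧ ∀ j, (y j).out = f s (fun j => (y j).init) j

/-- The transcript `y` is consistent with the strategy `σ`. -/
def Con {A : Type} (σ : Strat A) : ∀ s, Tr A s → Prop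
  | 0, _ => True
  | s + 1, y => Con σ s y.init ∧ y.out = σ s y.init

/-- The transcripts when strategies `σ j` are attached to all slots of the node `f`. -/
def run {A J : Type} (f : NodeFun A J) (σ : J → Strat A) : ∀ s, J → Tr A s
  | 0, _ => ()
  | s + 1, j => (run f σ s j).snoc (f s (run f σ s) j) (σ j s (swap (run f σ s j)))

section defs
variable {L A : Type} [Fintype L] [Fintype A] {k : ℕ} (F : L → NodeFun A (Fin (k + 2)))

open Classical in
/-- The universal weight: the probability that the root of a random branch sends to its parent as in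
the transcript `y` (seen from the root of the branch), if the parent sends as in `y`. -/
noncomputable def W : ∀ s, Tr A s → ℝ
  | 0, _ => 1
  | s + 1, y => (∑ b : L, ∑ z : Fin (k + 1) → Tr A s,
      if NodeCon (F b) s (vecCons y.init z) ∧ F b s (vecCons y.init z) 0 = y.out then
        ∏ j, W s (swap (z j)) else 0) / Fintype.card L

open Classical in
/-- The probability that a node with a random name and `k` hanging random branches sends on its
first two slots as in the transcripts `p`, `y`. -/
noncomputable def beta (s : ℕ) (p y : Tr A s) : ℝ :=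
  (∑ b : L, ∑ z : Fin k → Tr A s,
      if NodeCon (F b) s (vecCons p (vecCons y z)) then ∏ j, W F s (swap (z j)) else 0) /
    Fintype.card L

/-- Marginal on all rounds but the last. -/
noncomputable def marg {s : ℕ} (f : Tr A (s + 1) → ℝ) (y : Tr A s) : ℝ :=
  ∑ o : A, ∑ i : A, f (y.snoc o i)

/-- The causal strategy of the sender under the law proportional to `f`: the product over the
rounds of the conditional probabilities of the message sent, given the earlier rounds. -/
noncomputable def cf : ∀ s, (Tr A s → ℝ) → Tr A s → ℝ
  | 0, _, _ => 1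
  | s + 1, f, y => cf s (marg f) y.init * ((∑ i : A, f (y.init.snoc y.out i)) / marg f y.init)

/-- The law (unnormalised) of the transcript on the second slot given `p` on the first. -/
noncomputable def Rw (s : ℕ) (p y : Tr A s) : ℝ := beta F s p y * W F s (swap y)

/-- Bad pairs of transcripts (first slot is the special one). -/
def Bad (s : ℕ) (p y : Tr A s) : Prop :=
  W F s p * cf s (Rw F s p) y < beta F s p y / 2

/-- The law of the transcripts on two slots of a node all whose slots have random branches. -/
noncomputable def nu (s : ℕ) (p y : Tr A s) : ℝ :=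
  W F s (swap p) * beta F s p y * W F s (swap y)

open Classical in
/-- The probability of a bad pair under `nu`. -/
noncomputable def nullBad (s : ℕ) : ℝ :=
  ∑ p : Tr A s, ∑ y : Tr A s, if Bad F s p y then nu F s p y else 0

/-- The node functions commute with permutations of the slots. -/
def Equivar {L A : Type} {k : ℕ} (F : L → NodeFun A (Fin (k + 2))) : Prop :=
  ∀ b s (e : Equiv.Perm (Fin (k + 2))) (y : Fin (k + 2) → Tr A s) j,
    F b s (fun i => y (e i)) j = F b s y (e j)

/-- For every name and round at most `K` messages can be sent. -/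
def RangeLE {L A : Type} {k : ℕ} (F : L → NodeFun A (Fin (k + 2))) (K : ℕ) : Prop :=
  ∀ b s, ∃ Z : Finset A, Z.card ≤ K ∧ ∀ y j, F b s y j ∈ Z

end defs

/-! ### Probabilities on finite types -/

open Classical in
/-- The probability of `p` under the uniform law on the finite type `Ω`. -/
noncomputable def pr {Ω : Type} [Fintype Ω] (p : Ω → Prop) : ℝ :=
  (Finset.univ.filter p).card / Fintype.card Ω

/-- Expectation under the uniform law. -/
noncomputable def ex {Ω : Type} [Fintype Ω] (f : Ω → ℝ) : ℝ := (∑ ω, f ω) / Fintype.card Ω

/-- The probability of the value that the random variable `X` takes at `ω`. -/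
noncomputable def pv {Ω α : Type} [Fintype Ω] (X : Ω → α) (ω : Ω) : ℝ := pr (fun ω' => X ω' = X ω)

/-! ### Branches of trees -/

/-- Contents of a branch of height `h`: the names of its nodes; the root has `k + 1` children. -/
def Br (L : Type) (k : ℕ) : ℕ → Type
  | 0 => L
  | h + 1 => L × (Fin (k + 1) → Br L k h)

instance instFintypeBr {L : Type} [Fintype L] {k : ℕ} : ∀ h, Fintype (Br L k h)
  | 0 => inferInstanceAs (Fintype L)
  | h + 1 => by
      letI := instFintypeBr (L := L) (k := k) h
      exact inferInstanceAs (Fintype (L × (Fin (k + 1) → Br L k h)))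

instance instNonemptyBr {L : Type} [Nonempty L] {k : ℕ} : ∀ h, Nonempty (Br L k h)
  | 0 => inferInstanceAs (Nonempty L)
  | h + 1 => by
      have := instNonemptyBr (L := L) (k := k) h
      exact inferInstanceAs (Nonempty (L × (Fin (k + 1) → Br L k h)))

/-- A node with name in `L` and `m` hanging branches of height `h`. -/
abbrev Hang (L : Type) (k h m : ℕ) : Type := L × (Fin m → Br L k h)

/-- The behaviour of the nodes: inner nodes (`k + 2` slots), leaves (one slot), and predicates
telling whether they accept. -/
structure Node (L A : Type) (k : ℕ) where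
  F : L → NodeFun A (Fin (k + 2))
  F0 : L → NodeFun A (Fin 1)
  O : L → ∀ s, (Fin (k + 2) → Tr A s) → Prop
  O0 : L → ∀ s, (Fin 1 → Tr A s) → Prop

section sat
variable {L A : Type} {k : ℕ} (N : Node L A k)

/-- The branch with content `c` is consistent with the transcript `y` on the edge to its parent
(seen from the root of the branch), and all its nodes accept. -/
def Sat : ∀ h, Br L k h → ∀ s, Tr A s → Prop
  | 0, b, s, y => NodeCon (N.F0 b) s (fun _ => y) ∧ N.O0 b s (fun _ => y)
  | h + 1, c, s, y => ∃ z : Fin (k + 1) → Tr A s,
      NodeCon (N.F c.1) s (vecCons y z) ∧ N.O c.1 s (vecCons y z) ∧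
        ∀ j, Sat h (c.2 j) s (swap (z j))

/-- All nodes of the tree whose root has `k + 2` branches accept. -/
def SatT (h s : ℕ) (c : Hang L k h (k + 2)) : Prop :=
  ∃ z : Fin (k + 2) → Tr A s, NodeCon (N.F c.1) s z ∧ N.O c.1 s z ∧
    ∀ j, Sat N h (c.2 j) s (swap (z j))

/-- A node with `k` hanging branches is consistent with the transcripts `p`, `q` on its two other
slots, and it and all the nodes of its branches accept. -/
def SatY (h s : ℕ) (c : Hang L k h k) (p q : Tr A s) : Prop :=
  ∃ z : Fin k → Tr A s, NodeCon (N.F c.1) s (vecCons p (vecCons q z)) ∧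
    N.O c.1 s (vecCons p (vecCons q z)) ∧ ∀ j, Sat N h (c.2 j) s (swap (z j))

/-- All nodes of a triangle with hanging branches accept (`p i` is the transcript on the edge from
node `i` to node `i + 1`). -/
def SatTri (h s : ℕ) (x : Fin 3 → Hang L k h k) : Prop :=
  ∃ p : Fin 3 → Tr A s, ∀ i, SatY N h s (x i) (p i) (swap (p (i + 2)))

/-- The same nodes with all acceptance conditions dropped. -/
def Node.free : Node L A k := ⟨N.F, N.F0, fun _ _ _ => True, fun _ _ _ => True⟩

/-- Leaves and inner nodes send the same message in round `0` (their name). -/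
def Node.Start : Prop := ∀ b y y' j, N.F0 b 0 y 0 = N.F b 0 y' j

end sat

end Pool.Agent.CT
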