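import Pool.Agent.CT.Stmts

/-!
# Counting: label families are mostly injective; the number of positions
-/

namespace Pool.Agent.CT

open Finset Matrix

/-! ### Contents are families of names -/

/-- Hanging `m` copies below a node. -/
lemma count_pair {L X P : Type} {m : ℕ} {f : X → P → L} (hf : Function.Bijective f)
    {g : L × (Fin m → X) → (Unit ⊕ (Fin m × P)) → L} (h1 : ∀ c u, g c (Sum.inl u) = c.1)
    (h2 : ∀ c x, g c (Sum.inr x) = f (c.2 x.1) x.2) : Function.Bijective g := by
  constructor
  · intro c c' h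
    refine Prod.ext ?_ ?_
    · have := congrFun h (Sum.inl ())
      rwa [h1, h1] at this
    · funext j
      apply hf.1
      funext x
      have := congrFun h (Sum.inr (j, x))
      rwa [h2, h2] at this
  · intro w
    have h3 : ∀ j : Fin m, ∃ x, f x = fun p => w (Sum.inr (j, p)) := fun j => hf.2 _
    choose x hx using h3
    refine ⟨(w (Sum.inl ()), x), ?_⟩
    funext y
    rcases y with u | y
    · rw [h1]
    · rw [h2]
      exact congrFun (hx y.1) y.2

lemma count_labB {L : Type} {k : ℕ} :
    ∀ h, Function.Bijective (fun (c : Br L k h) => (labB c : BP k h → L))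
  | 0 => by
      constructor
      · intro c c' h
        exact congrFun h ()
      · intro w
        exact ⟨w (), rfl⟩
  | h + 1 => count_pair (f := fun (c : Br L k h) => (labB c : BP k h → L)) (count_labB h)
      (g := fun (c : Br L k (h + 1)) => (labB c : BP k (h + 1) → L))
      (fun _ _ => rfl) (fun _ _ => rfl)

lemma count_labH {L : Type} {k h m : ℕ} :
    Function.Bijective (fun (c : Hang L k h m) => (labH c : HP k h m → L)) :=
  count_pair (f := fun (c : Br L k h) => (labB c : BP k h → L)) (count_labB h)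
    (g := fun (c : Hang L k h m) => (labH c : HP k h m → L)) (fun _ _ => rfl) (fun _ _ => rfl)

lemma count_fam {L X P : Type} {m : ℕ} {f : X → P → L} (hf : Function.Bijective f) :
    Function.Bijective (fun (c : Fin m → X) (x : Fin m × P) => f (c x.1) x.2) := by
  constructor
  · intro c c' h
    funext j
    apply hf.1
    funext x
    exact congrFun h (j, x)
  · intro w
    have h3 : ∀ j : Fin m, ∃ x, f x = fun p => w (j, p) := fun j => hf.2 _
    choose x hx using h3
    refine ⟨x, ?_⟩
    funext y
    exact congrFun (hx y.1) y.2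

lemma count_lab0 {L : Type} {k h M : ℕ} :
    Function.Bijective (fun (c : Fin M → Hang L k h (k + 2)) => (lab0 c : P0 k h M → L)) :=
  count_fam (count_labH (L := L) (k := k) (h := h) (m := k + 2))

lemma count_lab1 {L : Type} {k h M : ℕ} :
    Function.Bijective (fun (c : (Fin M → Hang L k h (k + 2)) × (Fin 3 → Hang L k h k)) =>
      (lab1 c.1 c.2 : P1 k h M → L)) := by
  have hA := count_fam (m := M) (count_labH (L := L) (k := k) (h := h) (m := k + 2))
  have hB := count_fam (m := 3) (count_labH (L := L) (k := k) (h := h) (m := k))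
  constructor
  · intro c c' h
    refine Prod.ext ?_ ?_
    · apply hA.1
      funext x
      exact congrFun h (Sum.inl x)
    · apply hB.1
      funext x
      exact congrFun h (Sum.inr x)
  · intro w
    obtain ⟨a, ha⟩ := hA.2 (fun x => w (Sum.inl x))
    obtain ⟨b, hb⟩ := hB.2 (fun x => w (Sum.inr x))
    refine ⟨(a, b), ?_⟩
    funext y
    rcases y with y | y
    · exact congrFun ha y
    · exact congrFun hb y

/-! ### Families of names -/

lemma count_pr_eq {n : ℕ} (a : Fin n) : pr (fun ω : Fin n => ω = a) = (1 / n : ℝ) := by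
  rw [pr_eq_sum, Fintype.card_fin]
  congr 1
  exact (Finset.sum_eq_single a (fun b _ hb => if_neg hb)
    (fun h => absurd (Finset.mem_univ a) h)).trans (if_pos rfl)

section fam
variable {n : ℕ} {Q : Type} [Fintype Q] [DecidableEq Q]

lemma count_one (hn : 0 < n) (x : Q) (v : Fin n) :
    pr (fun g : Q → Fin n => g x = v) = (1 / n : ℝ) := by
  have : Nonempty (Fin n) := ⟨⟨0, hn⟩⟩
  have h1 : pr (fun g : Q → Fin n => g x = v) =
      pr (fun g : Q → Fin n => ∀ j, (fun (j : Q) (ω : Fin n) => j = x → ω = v) j (g j)) := by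
    refine pr_congr fun g => ⟨?_, ?_⟩
    · intro h j hj
      rw [hj]; exact h
    · intro h
      exact h x rfl
  rw [h1, pr_pi (fun (j : Q) (ω : Fin n) => j = x → ω = v), Finset.prod_eq_single x]
  · rw [← count_pr_eq v]
    exact pr_congr fun ω => ⟨fun h => h rfl, fun h _ => h⟩
  · intro j _ hj
    rw [← pr_true (Ω := Fin n)]
    exact pr_congr fun ω => ⟨fun _ => trivial, fun _ h => absurd h hj⟩
  · intro h
    exact absurd (Finset.mem_univ x) h

lemma count_two (hn : 0 < n) {x y : Q} (hxy : x ≠ y) (a : Fin n) :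
    pr (fun g : Q → Fin n => g x = a ∧ g x = g y) = (1 / n * (1 / n) : ℝ) := by
  have : Nonempty (Fin n) := ⟨⟨0, hn⟩⟩
  have h1 : pr (fun g : Q → Fin n => g x = a ∧ g x = g y) =
      pr (fun g : Q → Fin n => ∀ j, (fun (j : Q) (ω : Fin n) => (j = x ∨ j = y) → ω = a) j (g j))
      := by
    refine pr_congr fun g => ⟨?_, ?_⟩
    · rintro ⟨h, h'⟩ j hj
      rcases hj with rfl | rfl
      · exact h
      · rw [← h']; exact h
    · intro h
      have h2 : g x = a := h x (Or.inl rfl)
      have h3 : g y = a := h y (Or.inr rfl)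
      exact ⟨h2, h2.trans h3.symm⟩
  have h2 : ∀ j : Q, pr (fun ω : Fin n => (j = x ∨ j = y) → ω = a) =
      (if j = x then (1 / n : ℝ) else 1) * (if j = y then (1 / n : ℝ) else 1) := by
    intro j
    by_cases hx : j = x
    · have hy : ¬ j = y := fun h => hxy (hx.symm.trans h)
      rw [if_pos hx, if_neg hy, mul_one, ← count_pr_eq a]
      exact pr_congr fun ω => ⟨fun h => h (Or.inl hx), fun h _ => h⟩
    · by_cases hy : j = y
      · rw [if_neg hx, if_pos hy, one_mul, ← count_pr_eq a]
        exact pr_congr fun ω => ⟨fun h => h (Or.inr hy), fun h _ => h⟩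
      · rw [if_neg hx, if_neg hy, mul_one, ← pr_true (Ω := Fin n)]
        exact pr_congr fun ω => ⟨fun _ => trivial, fun _ h => absurd h (by tauto)⟩
  rw [h1, pr_pi (fun (j : Q) (ω : Fin n) => (j = x ∨ j = y) → ω = a),
    Finset.prod_congr rfl fun j _ => h2 j, Finset.prod_mul_distrib,
    Finset.prod_ite_eq' Finset.univ x, Finset.prod_ite_eq' Finset.univ y]
  simp

lemma count_coll (hn : 0 < n) {x y : Q} (hxy : x ≠ y) :
    pr (fun g : Q → Fin n => g x = g y) = (1 / n : ℝ) := by
  have hn' : (n : ℝ) ≠ 0 := by exact_mod_cast hn.ne'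
  rw [← sum_pr_and (fun g : Q → Fin n => g x), Finset.sum_congr rfl fun a _ => count_two hn hxy a,
    Finset.sum_const, Finset.card_univ, Fintype.card_fin, nsmul_eq_mul]
  field_simp

/-- Union bound. -/
lemma count_main (hn : 0 < n) (v : Fin n) :
    1 - (Fintype.card Q : ℝ) ^ 2 / n ≤
      pr (fun g : Q → Fin n => Function.Injective g ∧ ∀ x, g x ≠ v) := by
  have : Nonempty (Fin n) := ⟨⟨0, hn⟩⟩
  have h1 : pr (fun g : Q → Fin n => ¬ (Function.Injective g ∧ ∀ x, g x ≠ v)) ≤
      pr (fun g : Q → Fin n => ∃ z : Q × Q,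
        (fun (z : Q × Q) (g : Q → Fin n) => if z.1 = z.2 then g z.1 = v else g z.1 = g z.2) z g)
      := by
    refine pr_mono fun g hg => ?_
    by_cases hi : Function.Injective g
    · have h2 : ¬ ∀ x, g x ≠ v := fun h => hg ⟨hi, h⟩
      push Not at h2
      obtain ⟨x, hx⟩ := h2
      refine ⟨(x, x), ?_⟩
      change (if x = x then g x = v else g x = g x)
      rw [if_pos rfl]
      exact hx
    · simp only [Function.Injective, not_forall] at hi
      obtain ⟨x, y, hxy, hne⟩ := hi
      refine ⟨(x, y), ?_⟩
      change (if x = y then g x = v else g x = g y)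
      rw [if_neg hne]
      exact hxy
  have h3 : pr (fun g : Q → Fin n => ∃ z : Q × Q,
        (fun (z : Q × Q) (g : Q → Fin n) => if z.1 = z.2 then g z.1 = v else g z.1 = g z.2) z g) ≤
      ∑ z : Q × Q, (1 / n : ℝ) := by
    refine (pr_exists_le _).trans (le_of_eq (Finset.sum_congr rfl fun z _ => ?_))
    by_cases hz : z.1 = z.2
    · rw [← count_one (Q := Q) hn z.1 v]
      exact pr_congr fun g => by simp only [if_pos hz]
    · rw [← count_coll (Q := Q) hn hz]
      exact pr_congr fun g => by simp only [if_neg hz]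
  rw [pr_not] at h1
  have h4 : ∑ z : Q × Q, (1 / n : ℝ) = (Fintype.card Q : ℝ) ^ 2 / n := by
    rw [Finset.sum_const, Finset.card_univ, Fintype.card_prod, nsmul_eq_mul]
    push_cast
    ring
  rw [h4] at h3
  linarith

end fam

theorem count : S_COUNT := by
  classical
  intro n k h M hn
  constructor
  · intro v
    refine (count_main (Q := P0 k h M) hn v).trans (le_of_eq ?_)
    exact (pr_equiv (Equiv.ofBijective _ (count_lab0 (L := Fin n) (k := k) (h := h) (M := M)))
      (fun g : P0 k h M → Fin n => Function.Injective g ∧ ∀ x, g x ≠ v)).symm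
  · refine (count_main (Q := P1 k h M) hn ⟨0, hn⟩).trans ?_
    refine le_trans ?_ (le_of_eq
      (pr_equiv (Equiv.ofBijective _ (count_lab1 (L := Fin n) (k := k) (h := h) (M := M)))
        (fun g : P1 k h M → Fin n => Function.Injective g)).symm)
    exact pr_mono fun g hg => hg.1

/-! ### The number of positions -/

lemma count_cardBP_zero (k : ℕ) : Fintype.card (BP k 0) = 1 := rfl

lemma count_cardBP_succ (k h : ℕ) :
    Fintype.card (BP k (h + 1)) = 1 + (k + 1) * Fintype.card (BP k h) := by
  have h1 : Fintype.card (BP k (h + 1)) = Fintype.card (Unit ⊕ (Fin (k + 1) × BP k h)) := rfl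
  rw [h1, Fintype.card_sum, Fintype.card_prod, Fintype.card_fin, Fintype.card_unit]

lemma count_cardBP_pos (k : ℕ) : ∀ h, 1 ≤ Fintype.card (BP k h)
  | 0 => by rw [count_cardBP_zero]
  | h + 1 => by rw [count_cardBP_succ]; exact Nat.le_add_right _ _

lemma count_cardBP_le (k : ℕ) : ∀ h, Fintype.card (BP k h) ≤ (k + 3) ^ h
  | 0 => by rw [count_cardBP_zero, pow_zero]
  | h + 1 => by
      have ih := count_cardBP_le k h
      have h1 := count_cardBP_pos k h
      rw [count_cardBP_succ, pow_succ]
      nlinarith

theorem cardP : S_CARD := by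
  intro k h
  have h1 := count_cardBP_le k h
  have h0 := count_cardBP_pos k h
  have h2 : (k + 3) ^ (h + 1) ≤ (k + 3) ^ (h + 2) :=
    Nat.pow_le_pow_right (by omega) (by omega)
  have h3 : 1 + (k + 2) * Fintype.card (BP k h) ≤ (k + 3) ^ (h + 1) := by
    rw [pow_succ]
    nlinarith
  have h4 : 1 + k * Fintype.card (BP k h) ≤ (k + 3) ^ (h + 1) := by
    refine le_trans ?_ h3
    nlinarith
  have c0 : Fintype.card (P0 k h 111) = 111 * (1 + (k + 2) * Fintype.card (BP k h)) := by
    rw [Fintype.card_prod, Fintype.card_sum, Fintype.card_prod, Fintype.card_fin,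
      Fintype.card_fin, Fintype.card_unit]
  have c1 : Fintype.card (P1 k h 110) = 110 * (1 + (k + 2) * Fintype.card (BP k h)) +
      3 * (1 + k * Fintype.card (BP k h)) := by
    rw [Fintype.card_sum, Fintype.card_prod, Fintype.card_sum, Fintype.card_prod,
      Fintype.card_prod, Fintype.card_sum, Fintype.card_prod, Fintype.card_fin,
      Fintype.card_fin, Fintype.card_fin, Fintype.card_fin, Fintype.card_unit]
  have n0 : Fintype.card (P0 k h 111) ≤ 111 * (k + 3) ^ (h + 2) := by
    rw [c0]; omega
  have n1 : Fintype.card (P1 k h 110) ≤ 113 * (k + 3) ^ (h + 2) := by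
    rw [c1]; omega
  constructor
  · have := (Nat.cast_le (α := ℝ)).mpr n0
    push_cast at this
    exact this
  · have := (Nat.cast_le (α := ℝ)).mpr n1
    push_cast at this
    exact this

end Pool.Agent.CT
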