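import Mathlib

/-!
# Definitions for the Euclidean Yamabe quotient of solid tori
-/

namespace Pool.Agent.CT

open MeasureTheory Metric Set Filter Topology
open scoped ContDiff

/-- Euclidean 3-space. -/
abbrev E3 := EuclideanSpace ℝ (Fin 3)

/-- Euclidean plane. -/
abbrev E2 := EuclideanSpace ℝ (Fin 2)

/-- The distance of a point of `Ω` to the boundary of `Ω` (distance to the complement). -/
noncomputable def depth (Ω : Set E3) (x : E3) : ℝ := infDist x Ωᶜ

/-- For a smooth bounded domain `Ω` and `x ∈ Ω` close to the boundary this is the mean curvature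
(sum of the principal curvatures with respect to the outward normal, so `2` for the unit
sphere) at `x` of the inner parallel surface of `∂Ω` through `x`; it extends continuously up to
`∂Ω`, where it is the mean curvature `H` of `∂Ω`. -/
noncomputable def meanCurv (Ω : Set E3) (x : E3) : ℝ :=
  - Laplacian.laplacian (depth Ω) x

/-- The integral over the boundary of `Ω` with respect to the area measure, of a function which
is continuous up to the boundary: the limit as `ε → 0+` of `ε⁻¹` times the volume integral over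
the part of `Ω` at distance less than `ε` from the boundary. -/
noncomputable def bdryInt (Ω : Set E3) (f : E3 → ℝ) : ℝ :=
  limUnder (𝓝[>] (0 : ℝ)) fun ε => ε⁻¹ * ∫ x in {x | x ∈ Ω ∧ depth Ω x < ε}, f x

/-- The numerator of the Yamabe quotient for the Euclidean metric (which has `R = 0`). -/
noncomputable def energy (Ω : Set E3) (u : E3 → ℝ) : ℝ :=
  8 * (∫ x in Ω, ‖gradient u x‖ ^ 2) + 2 * bdryInt Ω fun x => meanCurv Ω x * u x ^ 2

/-- `u` is smooth on a neighbourhood of the closure of `Ω` and positive on the closure. -/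
def IsTestFn (Ω : Set E3) (u : E3 → ℝ) : Prop :=
  (∃ U : Set E3, IsOpen U ∧ closure Ω ⊆ U ∧ ContDiffOn ℝ ∞ u U) ∧ ∀ x ∈ closure Ω, 0 < u x

/-- The Yamabe quotient `Q(Ω)` of the Euclidean domain `Ω` (normalised by volume). -/
noncomputable def yamabeQ (Ω : Set E3) : EReal :=
  ⨅ (u : E3 → ℝ) (_ : IsTestFn Ω u),
    ((energy Ω u / (∫ x in Ω, u x ^ 6) ^ (1 / 3 : ℝ) : ℝ) : EReal)

/-- A smooth bounded domain of `ℝ³`. -/
structure IsSmoothBoundedDomain (Ω : Set E3) : Prop where
  bounded : Bornology.IsBounded Ω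
  connected : IsConnected Ω
  smooth : ∃ ρ : E3 → ℝ, ContDiff ℝ ∞ ρ ∧ Ω = {x | ρ x < 0} ∧ ∀ x, ρ x = 0 → fderiv ℝ ρ x ≠ 0

/-- `K` is diffeomorphic to the solid torus (closed disc times circle). -/
def IsSolidTorus (K : Set E3) : Prop :=
  ∃ (F : E2 × E2 → E3) (G : E3 → E2 × E2) (U : Set E3),
    ContDiff ℝ ∞ F ∧ IsOpen U ∧ K ⊆ U ∧ ContDiffOn ℝ ∞ G U ∧
    F '' (closedBall 0 1 ×ˢ sphere 0 1) = K ∧
    ∀ y ∈ closedBall (0 : E2) 1 ×ˢ sphere (0 : E2) 1, G (F y) = y

/-- The inverse of the stereographic projection of the unit sphere of `ℂ²` from the point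
`(0, i)`, which lies off the Clifford torus. -/
noncomputable def invStereo (p : E3) : ℂ × ℂ :=
  (⟨2 * p 0 / (1 + ‖p‖ ^ 2), 2 * p 1 / (1 + ‖p‖ ^ 2)⟩,
   ⟨2 * p 2 / (1 + ‖p‖ ^ 2), (‖p‖ ^ 2 - 1) / (1 + ‖p‖ ^ 2)⟩)

/-- The image in `ℝ³` of the Clifford torus under the stereographic projection. -/
def cliffordImage : Set E3 :=
  {p | ‖(invStereo p).1‖ = 1 / √2 ∧ ‖(invStereo p).2‖ = 1 / √2}

/-- The bounded region `C` enclosed by `cliffordImage`. -/
def cliffordRegion : Set E3 := {p | ‖(invStereo p).2‖ < ‖(invStereo p).1‖}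

end Pool.Agent.CT
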