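import Pool.Agent.CT.Geom

/-!
# Distance to the boundary of the torus
-/

namespace Pool.Agent.CT

open MeasureTheory Metric Set Filter Topology Real
open scoped ContDiff

variable {L : ℝ}

/-- distance to the core circle -/
noncomputable def rad (L : ℝ) (p : E3) : ℝ := √((√(p 0 ^ 2 + p 1 ^ 2) - L) ^ 2 + p 2 ^ 2)

lemma norm_E2 (a b : ℝ) : ‖(!₂[a, b] : E2)‖ = √(a ^ 2 + b ^ 2) := by
  rw [EuclideanSpace.norm_eq, Fin.sum_univ_two]
  simp

lemma rad_eq (p : E3) : rad L p = ‖(!₂[‖(!₂[p 0, p 1] : E2)‖ - L, p 2] : E2)‖ := by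
  rw [norm_E2, norm_E2, rad]

lemma rad_nonneg (p : E3) : 0 ≤ rad L p := Real.sqrt_nonneg _

lemma mem_torus_rad (p : E3) : p ∈ torus L ↔ rad L p < 1 := by
  simp only [torus, mem_ofPred_eq, rad]
  rw [Real.sqrt_lt' (by norm_num)]
  norm_num

lemma rad_lip (x y : E3) : rad L y ≤ rad L x + dist x y := by
  rw [rad_eq, rad_eq, dist_comm]
  have h1 : (!₂[‖(!₂[y 0, y 1] : E2)‖ - L, y 2] : E2) =
      !₂[‖(!₂[x 0, x 1] : E2)‖ - L, x 2] +
        !₂[‖(!₂[y 0, y 1] : E2)‖ - ‖(!₂[x 0, x 1] : E2)‖, y 2 - x 2] := by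
    ext i; fin_cases i <;> simp
  rw [h1]
  refine (norm_add_le _ _).trans ?_
  gcongr
  rw [EuclideanSpace.dist_eq, Fin.sum_univ_three, norm_E2]
  apply Real.sqrt_le_sqrt
  have h2 : |‖(!₂[y 0, y 1] : E2)‖ - ‖(!₂[x 0, x 1] : E2)‖| ≤
      ‖(!₂[y 0, y 1] : E2) - !₂[x 0, x 1]‖ := abs_norm_sub_norm_le _ _
  have h3 : (!₂[y 0, y 1] : E2) - !₂[x 0, x 1] = !₂[y 0 - x 0, y 1 - x 1] := by
    ext i; fin_cases i <;> simp
  rw [h3] at h2
  have h4 : (‖(!₂[y 0, y 1] : E2)‖ - ‖(!₂[x 0, x 1] : E2)‖) ^ 2 ≤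
      (y 0 - x 0) ^ 2 + (y 1 - x 1) ^ 2 := by
    rw [← sq_abs]
    have h5 := pow_le_pow_left₀ (abs_nonneg _) h2 2
    rw [norm_E2 (y 0 - x 0), Real.sq_sqrt (by positivity)] at h5
    exact h5
  rw [Real.dist_eq, Real.dist_eq, Real.dist_eq, sq_abs, sq_abs, sq_abs]
  linarith

lemma rad_Psi (hL : 1 < L) {q : (ℝ × ℝ) × ℝ} (h : q.1 ∈ Dc) :
    rad L (Psi L q) = √(q.1.1 ^ 2 + q.1.2 ^ 2) := by
  rw [rad, Psi_s q (Psi_pos hL h).le, Psi_two]
  ring_nf

lemma dist_Psi (a b a' b' t : ℝ) :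
    dist (Psi L ((a, b), t)) (Psi L ((a', b'), t)) = √((a - a') ^ 2 + (b - b') ^ 2) := by
  rw [EuclideanSpace.dist_eq, Fin.sum_univ_three]
  simp only [Psi_zero, Psi_one, Psi_two, Real.dist_eq, sq_abs]
  congr 1
  have := sin_sq_add_cos_sq t
  linear_combination (a - a') ^ 2 * this

lemma depth_torus (hL : 1 < L) {x : E3} (hx : x ∈ torus L) : depth (torus L) x = 1 - rad L x := by
  have hne : ((torus L)ᶜ : Set E3).Nonempty := by
    refine ⟨0, ?_⟩
    simp [torus]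
    exact (hL.trans_le (le_abs_self L)).le
  apply le_antisymm
  · obtain ⟨⟨⟨a, b⟩, t⟩, ⟨hq, -⟩, rfl⟩ := (image_Psi hL).symm ▸ hx
    rw [rad_Psi hL (D_subset hq)]
    simp only [D, mem_ofPred_eq] at hq
    set r := √(a ^ 2 + b ^ 2) with hr
    have hr2 : r ^ 2 = a ^ 2 + b ^ 2 := Real.sq_sqrt (by positivity)
    have hr0 : 0 ≤ r := Real.sqrt_nonneg _
    have hr1 : r < 1 := by nlinarith
    have main : ∀ a' b' : ℝ, a' ^ 2 + b' ^ 2 = 1 → (a - a') ^ 2 + (b - b') ^ 2 = (1 - r) ^ 2 →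
        depth (torus L) (Psi L ((a, b), t)) ≤ 1 - r := by
      intro a' b' h1 h2
      have h3 : Psi L ((a', b'), t) ∈ ((torus L)ᶜ : Set E3) := by
        intro h4
        rw [mem_torus_rad, rad_Psi hL (by simp [Dc, h1])] at h4
        simp only [h1] at h4
        simp at h4
      refine (infDist_le_dist_of_mem h3).trans ?_
      rw [dist_Psi, h2, Real.sqrt_sq (by linarith)]
    rcases hr0.eq_or_lt with h | h
    · refine main 1 0 (by norm_num) ?_
      rw [← h] at hr2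
      have ha : a = 0 := by nlinarith [sq_nonneg a, sq_nonneg b]
      have hb : b = 0 := by nlinarith [sq_nonneg a, sq_nonneg b]
      rw [ha, hb, ← h]; norm_num
    · refine main (a / r) (b / r) ?_ ?_
      · field_simp; linarith
      · field_simp
        have : (a * (r - 1)) ^ 2 + (b * (r - 1)) ^ 2 = r ^ 2 * (1 - r) ^ 2 := by
          rw [hr2]; ring
        linarith
  · rw [depth, le_infDist hne]
    intro y hy
    have h1 : ¬ rad L y < 1 := fun h => hy ((mem_torus_rad y).2 h)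
    have := rad_lip (L := L) x y
    linarith [not_lt.1 h1]

end Pool.Agent.CT
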