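import Pool.Agent.CT.Stmts

/-!
# The deterministic core (module DET)
-/

namespace Pool.Agent.CT

open Finset Matrix MeasureTheory

/-- No message is sent between nonadjacent nodes. -/
lemma det_tab_zero {n B : ℕ} (P : Alg n B) (G : SimpleGraph (Fin n)) {u v : Fin n}
    (h : ¬ G.Adj u v) : ∀ r s, tab P G r s u v = fun _ => false
  | 0, _ => rfl
  | r + 1, s => by
      simp only [tab, if_neg h]
      split_ifs
      · rfl
      · exact det_tab_zero P G h r s

/-- An isolated node decides without any information. -/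
lemma det_iso {n B : ℕ} (P : Alg n B) (G : SimpleGraph (Fin n)) {v : Fin n}
    (h : ∀ w, ¬ G.Adj v w) (t : ℕ) :
    rejectsAt P G t v ↔ P.rejects v ∅ (fun _ _ _ => false) = true := by
  have h1 : nbr G v = ∅ := by
    classical
    refine Finset.eq_empty_of_forall_notMem fun w hw => ?_
    simp only [nbr, Finset.mem_filter, Finset.mem_univ, true_and] at hw
    exact h w hw
  have h2 : (fun s w => tab P G t s w v) = fun _ _ _ => false := by
    funext s w
    exact det_tab_zero P G (fun h' => h w h'.symm) t s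
  unfold rejectsAt
  rw [h1, h2]

/-- The numerical core. -/
lemma det_num {a0 a1 e : ℝ} (h0 : 0 ≤ a0) (h1 : a0 ≤ 1) (he : e ≤ 1 / 10)
    (h : 1 - e - 12 * (1 - a0) ≤ a1) : a0 ^ 110 * (a0 - a1) ≤ 1 / 5 := by
  have hp0 : 0 ≤ a0 ^ 110 := pow_nonneg h0 _
  have hp1 : a0 ^ 110 ≤ 1 := pow_le_one₀ h0 h1
  have hb : 1 + (110 : ℕ) * (1 - a0) ≤ (1 + (1 - a0)) ^ 110 :=
    one_add_mul_le_pow (by linarith) 110
  have hq : (1 + (1 - a0)) ^ 110 * a0 ^ 110 ≤ 1 := by
    rw [← mul_pow]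
    apply pow_le_one₀
    · apply mul_nonneg _ h0
      linarith
    · nlinarith [sq_nonneg (1 - a0)]
  have hr : (1 + (110 : ℕ) * (1 - a0)) * a0 ^ 110 ≤ 1 :=
    (mul_le_mul_of_nonneg_right hb hp0).trans hq
  have hr' : 110 * ((1 - a0) * a0 ^ 110) ≤ 1 := by
    push_cast at hr
    nlinarith
  have hs : a0 ^ 110 * (a0 - a1) ≤ a0 ^ 110 * (e + 11 * (1 - a0)) :=
    mul_le_mul_of_nonneg_left (by linarith) hp0
  have ht : a0 ^ 110 * e ≤ a0 ^ 110 * (1 / 10) := mul_le_mul_of_nonneg_left he hp0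
  nlinarith

lemma det_and {Ω : Type} [Fintype Ω] [Nonempty Ω] (p q : Ω → Prop) :
    1 - pr (fun ω => ¬ p ω) - pr q ≤ pr (fun ω => p ω ∧ ¬ q ω) := by
  have h1 : pr (fun ω => ¬ (¬ p ω ∨ q ω)) = 1 - pr (fun ω => ¬ p ω ∨ q ω) := pr_not _
  have h2 := pr_or_le (fun ω => ¬ p ω) q
  have h3 : pr (fun ω => ¬ (¬ p ω ∨ q ω)) = pr (fun ω => p ω ∧ ¬ q ω) :=
    pr_congr fun ω => by tauto
  rw [← h3, h1]
  linarith

lemma det_and' {Ω : Type} [Fintype Ω] (p q : Ω → Prop) :
    pr q - pr (fun ω => ¬ p ω) ≤ pr (fun ω => p ω ∧ q ω) := by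
  have h2 := pr_or_le (fun ω => ¬ p ω) (fun ω => p ω ∧ q ω)
  have h3 : pr q ≤ pr (fun ω => ¬ p ω ∨ (p ω ∧ q ω)) := pr_mono fun ω h => by tauto
  linarith

theorem det (h1 : S_CONTENT) (h2 : S_LINKT) (h3 : S_LINKTRI) (h4 : S_NODE) (h5 : S_COUNT)
    (h6 : S_CARD) : S_DET := by
  intro n B t k P hn heps hN g0 g1 hg0 hg1
  have : NeZero n := ⟨hn.ne'⟩
  have hne0 : Nonempty (Fin 111 → Hang (Fin n) k t (k + 2)) := inferInstance
  have hne1 : Nonempty ((Fin 110 → Hang (Fin n) k t (k + 2)) × (Fin 3 → Hang (Fin n) k t k)) :=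
    inferInstance
  obtain ⟨hstart, heq, hran⟩ := h4 n B k P
  have hcont := h1 (Fin n) (Al n B) k (2 ^ B) (nodeOf P k) hstart heq hran Nat.one_le_two_pow
    t (t + 1) le_rfl
  push_cast at hcont
  set a0 := pr (fun c : Hang (Fin n) k t (k + 2) => SatT (nodeOf P k) t (t + 1) c) with ha0
  set a1 := pr (fun x : Fin 3 → Hang (Fin n) k t k => SatTri (nodeOf P k) t (t + 1) x) with ha1
  have ha00 : 0 ≤ a0 := pr_nonneg _
  have ha01 : a0 ≤ 1 := pr_le_one _
  have hnum := det_num ha00 ha01 heps hcont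
  obtain ⟨hc0, hc1⟩ := h6 k t
  have hnR : (0 : ℝ) < n := by exact_mod_cast hn
  set X : ℝ := (k + 3 : ℝ) ^ (t + 2) with hX
  have hX0 : 0 ≤ X := by positivity
  have hQ0 : (Fintype.card (P0 k t 111) : ℝ) ^ 2 / n ≤ 1 / 100 := by
    rw [div_le_iff₀ hnR]
    have : (Fintype.card (P0 k t 111) : ℝ) ^ 2 ≤ (113 * X) ^ 2 :=
      pow_le_pow_left₀ (Nat.cast_nonneg _) (hc0.trans (by nlinarith)) 2
    linarith
  have hQ1 : (Fintype.card (P1 k t 110) : ℝ) ^ 2 / n ≤ 1 / 100 := by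
    rw [div_le_iff₀ hnR]
    have : (Fintype.card (P1 k t 110) : ℝ) ^ 2 ≤ (113 * X) ^ 2 :=
      pow_le_pow_left₀ (Nat.cast_nonneg _) hc1 2
    linarith
  have hk0 := (h5 n k t 111 hn).1
  have hk1 := (h5 n k t 110 hn).2
  by_cases hR : ∃ v : Fin n, P.rejects v ∅ (fun _ _ _ => false) = true
  · -- an isolated node that rejects
    obtain ⟨v, hv⟩ := hR
    have e1 : pr (fun c : Fin 111 → Hang (Fin n) k t (k + 2) =>
        Function.Injective (lab0 c) ∧ ∀ x, lab0 c x ≠ v) ≤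
        pr (fun c => Function.Injective (lab0 c) ∧ Rejects P t (g0 c)) := by
      apply pr_mono
      rintro c ⟨hinj, hav⟩
      exact ⟨hinj, v, (det_iso P (g0 c) ((hg0 c hinj).2 v hav) t).mpr hv⟩
    have e2 : 0 ≤ pr (fun c => Function.Injective (lab1 c.1 c.2) ∧ ¬ Rejects P t (g1 c)) :=
      pr_nonneg _
    have e3 := hk0 v
    linarith
  · -- isolated nodes accept
    have hR' : ∀ (G : SimpleGraph (Fin n)) (v : Fin n), (∀ w, ¬ G.Adj v w) → ¬ rejectsAt P G t v :=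
      fun G v hv h => hR ⟨v, (det_iso P G hv t).mp h⟩
    -- the first family
    have i0 : pr (fun c : Fin 111 → Hang (Fin n) k t (k + 2) => ¬ Function.Injective (lab0 c)) ≤
        1 / 100 := by
      have e1 : pr (fun c : Fin 111 → Hang (Fin n) k t (k + 2) => Function.Injective (lab0 c) ∧
          ∀ x, lab0 c x ≠ 0) ≤
          pr (fun c : Fin 111 → Hang (Fin n) k t (k + 2) => Function.Injective (lab0 c)) :=
        pr_mono fun c h => h.1
      have e2 := hk0 0
      rw [pr_not]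
      linarith
    have i1 : pr (fun c : (Fin 110 → Hang (Fin n) k t (k + 2)) × (Fin 3 → Hang (Fin n) k t k) =>
        ¬ Function.Injective (lab1 c.1 c.2)) ≤ 1 / 100 := by
      rw [pr_not]
      linarith
    have p0 : pr (fun c : Fin 111 → Hang (Fin n) k t (k + 2) =>
        ∀ m, SatT (nodeOf P k) t (t + 1) (c m)) = a0 ^ 111 := by
      rw [pr_pi (fun _ c => SatT (nodeOf P k) t (t + 1) c), Finset.prod_const, Finset.card_univ,
        Fintype.card_fin]
    have p1 : pr (fun c : (Fin 110 → Hang (Fin n) k t (k + 2)) × (Fin 3 → Hang (Fin n) k t k) =>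
        (∀ m, SatT (nodeOf P k) t (t + 1) (c.1 m)) ∧ SatTri (nodeOf P k) t (t + 1) c.2) =
        a0 ^ 110 * a1 := by
      rw [pr_prod (fun c : Fin 110 → Hang (Fin n) k t (k + 2) =>
        ∀ m, SatT (nodeOf P k) t (t + 1) (c m)) (fun x => SatTri (nodeOf P k) t (t + 1) x),
        pr_pi (fun _ c => SatT (nodeOf P k) t (t + 1) c), Finset.prod_const, Finset.card_univ,
        Fintype.card_fin]
    have q0 : pr (fun c : Fin 111 → Hang (Fin n) k t (k + 2) => Function.Injective (lab0 c) ∧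
        ¬ ∀ m, SatT (nodeOf P k) t (t + 1) (c m)) ≤
        pr (fun c => Function.Injective (lab0 c) ∧ Rejects P t (g0 c)) := by
      apply pr_mono
      rintro c ⟨hinj, hns⟩
      refine ⟨hinj, ?_⟩
      by_contra hno
      apply hns
      intro m
      rw [h2 n B k t t P (g0 c) (c m) ((hg0 c hinj).1 m)]
      intro x hx
      exact hno ⟨_, hx⟩
    have q1 : pr (fun c : (Fin 110 → Hang (Fin n) k t (k + 2)) × (Fin 3 → Hang (Fin n) k t k) =>
        Function.Injective (lab1 c.1 c.2) ∧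
        ((∀ m, SatT (nodeOf P k) t (t + 1) (c.1 m)) ∧ SatTri (nodeOf P k) t (t + 1) c.2)) ≤
        pr (fun c => Function.Injective (lab1 c.1 c.2) ∧ ¬ Rejects P t (g1 c)) := by
      apply pr_mono
      rintro c ⟨hinj, hsT, hsY⟩
      refine ⟨hinj, ?_⟩
      rintro ⟨u, hu⟩
      obtain ⟨r1, r2, r3⟩ := hg1 c hinj
      by_cases hex : ∃ y, lab1 c.1 c.2 y = u
      · obtain ⟨y, rfl⟩ := hex
        rcases y with ⟨m, x⟩ | ⟨i, x⟩
        · exact (h2 n B k t t P (g1 c) (c.1 m) (r1 m)).mp (hsT m) x hu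
        · exact (h3 n B k t t P (g1 c) c.2 r2).mp hsY i x hu
      · push Not at hex
        exact hR' _ u (r3 u hex) hu
    have w0 := det_and (fun c : Fin 111 → Hang (Fin n) k t (k + 2) => Function.Injective (lab0 c))
      (fun c => ∀ m, SatT (nodeOf P k) t (t + 1) (c m))
    have w1 := det_and' (fun c : (Fin 110 → Hang (Fin n) k t (k + 2)) ×
        (Fin 3 → Hang (Fin n) k t k) => Function.Injective (lab1 c.1 c.2))
      (fun c => (∀ m, SatT (nodeOf P k) t (t + 1) (c.1 m)) ∧ SatTri (nodeOf P k) t (t + 1) c.2)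
    rw [p0] at w0
    rw [p1] at w1
    have hpow : a0 ^ 111 = a0 ^ 110 * a0 := pow_succ a0 110
    rw [hpow] at w0
    have hm : a0 ^ 110 * (a0 - a1) = a0 ^ 110 * a0 - a0 ^ 110 * a1 := by ring
    rw [hm] at hnum
    linarith

end Pool.Agent.CT
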