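import Pool.Agent.CT.Energy

/-!
# The divergence theorem on the unit disc
-/

namespace Pool.Agent.CT

open MeasureTheory Metric Set Filter Topology Real
open scoped ContDiff

lemma polar_D (h : ℝ × ℝ → ℝ) : ∫ x in D, h x =
    ∫ p in Ioo (0 : ℝ) 1 ×ˢ Ioo (-π) π, p.1 * h (p.1 * cos p.2, p.1 * sin p.2) := by
  rw [← integral_indicator measurableSet_D, ← integral_comp_polarCoord_symm]
  have hsub : Ioo (0 : ℝ) 1 ×ˢ Ioo (-π) π ⊆ polarCoord.target := by
    rw [polarCoord_target]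
    exact prod_mono (fun x hx => hx.1) Subset.rfl
  rw [← integral_indicator polarCoord.open_target.measurableSet,
    ← integral_indicator (measurableSet_Ioo.prod measurableSet_Ioo)]
  congr 1
  ext p
  by_cases hp : p ∈ Ioo (0 : ℝ) 1 ×ˢ Ioo (-π) π
  · rw [indicator_of_mem hp, indicator_of_mem (hsub hp)]
    have : polarCoord.symm p ∈ D := by
      simp only [polarCoord_symm_apply, D, mem_ofPred_eq]
      rw [mul_pow, mul_pow, ← mul_add, cos_sq_add_sin_sq, mul_one]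
      have := hp.1.1; have := hp.1.2
      nlinarith
    rw [indicator_of_mem this, polarCoord_symm_apply]
    rfl
  · rw [indicator_of_notMem hp]
    by_cases hp2 : p ∈ polarCoord.target
    · rw [indicator_of_mem hp2]
      have : polarCoord.symm p ∉ D := by
        intro h
        apply hp
        simp only [polarCoord_symm_apply, D, mem_ofPred_eq] at h
        rw [mul_pow, mul_pow, ← mul_add, cos_sq_add_sin_sq, mul_one] at h
        rw [polarCoord_target] at hp2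
        have h0 : 0 < p.1 := hp2.1
        exact ⟨⟨h0, by nlinarith⟩, hp2.2⟩
      rw [indicator_of_notMem this, smul_zero]
    · rw [indicator_of_notMem hp2]

lemma disc_div {Y1 Y2 Z : ℝ × ℝ → ℝ} {O : Set (ℝ × ℝ)} (hO : IsOpen O) (hDO : Dc ⊆ O)
    (h1 : ContDiffOn ℝ 1 Y1 O) (h2 : ContDiffOn ℝ 1 Y2 O)
    (hZ : ∀ x ∈ O, fderiv ℝ Y1 x (1, 0) + fderiv ℝ Y2 x (0, 1) = Z x) :
    ∫ x in D, Z x =
      ∫ θ in (-π)..π, (cos θ * Y1 (cos θ, sin θ) + sin θ * Y2 (cos θ, sin θ)) := by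
  rw [polar_D]
  set c : ℝ × ℝ → ℝ × ℝ := fun p => (p.1 * cos p.2, p.1 * sin p.2) with hc
  have hcc : Continuous c := by fun_prop
  have hcm : ∀ p ∈ Icc ((0 : ℝ), -π) (1, π), c p ∈ Dc := by
    intro p hp
    simp only [hc, Dc, mem_ofPred_eq]
    rw [mul_pow, mul_pow, ← mul_add, cos_sq_add_sin_sq, mul_one]
    have h3 : 0 ≤ p.1 := hp.1.1
    have h4 : p.1 ≤ 1 := hp.2.1
    nlinarith
  have hY1c : ContinuousOn (fun p => Y1 (c p)) (Icc ((0 : ℝ), -π) (1, π)) :=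
    h1.continuousOn.comp hcc.continuousOn fun p hp => hDO (hcm p hp)
  have hY2c : ContinuousOn (fun p => Y2 (c p)) (Icc ((0 : ℝ), -π) (1, π)) :=
    h2.continuousOn.comp hcc.continuousOn fun p hp => hDO (hcm p hp)
  have hd1 : ∀ x ∈ O, DifferentiableAt ℝ Y1 x := fun x hx =>
    (h1.differentiableOn (by norm_num)).differentiableAt (hO.mem_nhds hx)
  have hd2 : ∀ x ∈ O, DifferentiableAt ℝ Y2 x := fun x hx =>
    (h2.differentiableOn (by norm_num)).differentiableAt (hO.mem_nhds hx)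
  have hf1 : ContinuousOn (fun x => fderiv ℝ Y1 x (1, 0)) O :=
    (h1.continuousOn_fderiv_of_isOpen hO (by norm_num)).clm_apply continuousOn_const
  have hf2 : ContinuousOn (fun x => fderiv ℝ Y2 x (0, 1)) O :=
    (h2.continuousOn_fderiv_of_isOpen hO (by norm_num)).clm_apply continuousOn_const
  have hZc : ContinuousOn Z O := (hf1.add hf2).congr fun x hx => (hZ x hx).symm
  have hdc : ∀ p : ℝ × ℝ, HasFDerivAt c (fderivPolarCoordSymm p) p := hasFDerivAt_polarCoord_symm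
  have hc10 : ∀ p : ℝ × ℝ, fderivPolarCoordSymm p (1, 0) = (cos p.2, sin p.2) := by
    intro p
    simp [fderivPolarCoordSymm, Matrix.toLin_finTwoProd_toContinuousLinearMap]
  have hc01 : ∀ p : ℝ × ℝ, fderivPolarCoordSymm p (0, 1) = (-p.1 * sin p.2, p.1 * cos p.2) := by
    intro p
    simp [fderivPolarCoordSymm, Matrix.toLin_finTwoProd_toContinuousLinearMap]
  have hcos : ∀ p : ℝ × ℝ, HasFDerivAt (fun p : ℝ × ℝ => cos p.2)
      (-sin p.2 • ContinuousLinearMap.snd ℝ ℝ ℝ) p := fun p =>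
    (hasDerivAt_cos p.2).comp_hasFDerivAt p hasFDerivAt_snd
  have hsin : ∀ p : ℝ × ℝ, HasFDerivAt (fun p : ℝ × ℝ => sin p.2)
      (cos p.2 • ContinuousLinearMap.snd ℝ ℝ ℝ) p := fun p =>
    (hasDerivAt_sin p.2).comp_hasFDerivAt p hasFDerivAt_snd
  have hlin : ∀ (T : ℝ × ℝ →L[ℝ] ℝ) (a b : ℝ), T (a, b) = a * T (1, 0) + b * T (0, 1) := by
    intro T a b
    have : ((a, b) : ℝ × ℝ) = a • (1, 0) + b • (0, 1) := by ext <;> simp
    rw [this, map_add, map_smul, map_smul]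
    rfl
  have hcosC : ContinuousOn (fun p : ℝ × ℝ => cos p.2) (Icc ((0 : ℝ), -π) (1, π)) :=
    (continuous_cos.comp continuous_snd).continuousOn
  have hsinC : ContinuousOn (fun p : ℝ × ℝ => sin p.2) (Icc ((0 : ℝ), -π) (1, π)) :=
    (continuous_sin.comp continuous_snd).continuousOn
  have main := integral_divergence_prod_Icc_of_hasFDerivAt_off_countable_of_le
    (fun p : ℝ × ℝ => p.1 * (cos p.2 * Y1 (c p) + sin p.2 * Y2 (c p)))
    (fun p : ℝ × ℝ => -(sin p.2 * Y1 (c p)) + cos p.2 * Y2 (c p))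
    (fun p => fderiv ℝ (fun p : ℝ × ℝ => p.1 * (cos p.2 * Y1 (c p) + sin p.2 * Y2 (c p))) p)
    (fun p => fderiv ℝ (fun p : ℝ × ℝ => -(sin p.2 * Y1 (c p)) + cos p.2 * Y2 (c p)) p)
    ((0 : ℝ), -π) (1, π) ⟨by norm_num, by simp only; linarith [pi_pos]⟩ ∅ countable_empty
    (continuousOn_fst.mul ((hcosC.mul hY1c).add (hsinC.mul hY2c)))
    ((hsinC.mul hY1c).neg.add (hcosC.mul hY2c))
  have key : ∀ p ∈ Icc ((0 : ℝ), -π) (1, π),
      HasFDerivAt (fun p : ℝ × ℝ => p.1 * (cos p.2 * Y1 (c p) + sin p.2 * Y2 (c p)))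
        (fderiv ℝ (fun p : ℝ × ℝ => p.1 * (cos p.2 * Y1 (c p) + sin p.2 * Y2 (c p))) p) p ∧
      HasFDerivAt (fun p : ℝ × ℝ => -(sin p.2 * Y1 (c p)) + cos p.2 * Y2 (c p))
        (fderiv ℝ (fun p : ℝ × ℝ => -(sin p.2 * Y1 (c p)) + cos p.2 * Y2 (c p)) p) p ∧
      fderiv ℝ (fun p : ℝ × ℝ => p.1 * (cos p.2 * Y1 (c p) + sin p.2 * Y2 (c p))) p (1, 0) +
        fderiv ℝ (fun p : ℝ × ℝ => -(sin p.2 * Y1 (c p)) + cos p.2 * Y2 (c p)) p (0, 1) =
      p.1 * Z (c p) := by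
    intro p hp
    have hcO := hDO (hcm p hp)
    have e1 : HasFDerivAt (fun p => Y1 (c p)) ((fderiv ℝ Y1 (c p)).comp (fderivPolarCoordSymm p)) p :=
      (hd1 _ hcO).hasFDerivAt.comp p (hdc p)
    have e2 : HasFDerivAt (fun p => Y2 (c p)) ((fderiv ℝ Y2 (c p)).comp (fderivPolarCoordSymm p)) p :=
      (hd2 _ hcO).hasFDerivAt.comp p (hdc p)
    have e3 := (hasFDerivAt_fst (𝕜 := ℝ) (E := ℝ) (F := ℝ) (p := p)).mul
      (((hcos p).mul e1).add ((hsin p).mul e2))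
    have e4 := ((hsin p).mul e1).neg.add ((hcos p).mul e2)
    have e3' := e3.differentiableAt.hasFDerivAt
    have e4' := e4.differentiableAt.hasFDerivAt
    refine ⟨e3', e4', ?_⟩
    have e5 := e3.fderiv
    have e6 := e4.fderiv
    have e7 : fderiv ℝ (fun p : ℝ × ℝ => p.1 * (cos p.2 * Y1 (c p) + sin p.2 * Y2 (c p))) p =
      _ := e5
    have e8 : fderiv ℝ (fun p : ℝ × ℝ => -(sin p.2 * Y1 (c p)) + cos p.2 * Y2 (c p)) p =
      _ := e6
    rw [e7, e8, ← hZ _ hcO]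
    simp only [add_apply, smul_apply,
      ContinuousLinearMap.comp_apply, neg_apply, hc10, hc01]
    rw [hlin (fderiv ℝ Y1 (c p)) (cos p.2), hlin (fderiv ℝ Y1 (c p)) (-p.1 * sin p.2),
      hlin (fderiv ℝ Y2 (c p)) (cos p.2), hlin (fderiv ℝ Y2 (c p)) (-p.1 * sin p.2)]
    simp
    have hcs := sin_sq_add_cos_sq p.2
    linear_combination (p.1 * (fderiv ℝ Y1 (c p) (1, 0) + fderiv ℝ Y2 (c p) (0, 1))) * hcs
  have hint : IntegrableOn (fun p => p.1 * Z (c p)) (Icc ((0 : ℝ), -π) (1, π)) := by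
    refine ContinuousOn.integrableOn_compact isCompact_Icc ?_
    exact continuousOn_fst.mul (hZc.comp hcc.continuousOn fun p hp => hDO (hcm p hp))
  have hsubI : ∀ p ∈ Ioo (0 : ℝ) 1 ×ˢ Ioo (-π) π \ (∅ : Set (ℝ × ℝ)),
      p ∈ Icc ((0 : ℝ), -π) (1, π) := by
    rintro p ⟨⟨h3, h4⟩, -⟩
    exact ⟨⟨h3.1.le, h4.1.le⟩, ⟨h3.2.le, h4.2.le⟩⟩
  have main' := main (fun p hp => (key p (hsubI p hp)).1) (fun p hp => (key p (hsubI p hp)).2.1)
    (hint.congr_fun (fun p hp => (key p hp).2.2.symm) measurableSet_Icc)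
  have e9 : ∫ p in Icc ((0 : ℝ), -π) (1, π),
      (fderiv ℝ (fun p : ℝ × ℝ => p.1 * (cos p.2 * Y1 (c p) + sin p.2 * Y2 (c p))) p (1, 0) +
      fderiv ℝ (fun p : ℝ × ℝ => -(sin p.2 * Y1 (c p)) + cos p.2 * Y2 (c p)) p (0, 1)) =
      ∫ p in Ioo (0 : ℝ) 1 ×ˢ Ioo (-π) π, p.1 * Z (c p) := by
    have hae : (Ioo (0 : ℝ) 1 ×ˢ Ioo (-π) π : Set (ℝ × ℝ)) =ᵐ[volume]
        Icc ((0 : ℝ), -π) (1, π) := by
      rw [← Icc_prod_Icc, Measure.volume_eq_prod]
      exact Measure.set_prod_ae_eq Ioo_ae_eq_Icc Ioo_ae_eq_Icc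
    rw [setIntegral_congr_set hae]
    exact setIntegral_congr_fun measurableSet_Icc fun p hp => (key p hp).2.2
  rw [e9] at main'
  rw [main']
  simp [hc]

end Pool.Agent.CT
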