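import Pool.Agent.CT.Stmts

/-!
# The graphs of the two families have at most `n` edges

Every edge is the edge from a position to its parent (or an edge of the triangle), so there are at
most as many edges as positions.
-/

namespace Pool.Agent.CT

open Finset Matrix

/-- The name of the parent of a position of a branch whose root has parent `v`. -/
def edgePar {L : Type} {k : ℕ} : ∀ {h : ℕ}, Br L k h → L → BP k h → L
  | 0, _, v, _ => v
  | _ + 1, _, v, Sum.inl _ => v
  | _ + 1, c, _, Sum.inr x => edgePar (c.2 x.1) c.1 x.2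

/-- The edge from a position of a branch to its parent. -/
def edgeB {n k h : ℕ} (c : Br (Fin n) k h) (v : Fin n) (x : BP k h) : Sym2 (Fin n) :=
  s(labB c x, edgePar c v x)

/-- The position of the root of a branch. -/
def edgeTop (k : ℕ) : ∀ h : ℕ, BP k h
  | 0 => ()
  | _ + 1 => Sum.inl ()

lemma edge_labB_top {n k : ℕ} : ∀ {h : ℕ} (c : Br (Fin n) k h), labB c (edgeTop k h) = root c
  | 0, _ => rfl
  | _ + 1, _ => rfl

lemma edge_par_top {n k : ℕ} : ∀ {h : ℕ} (c : Br (Fin n) k h) (v : Fin n),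
    edgePar c v (edgeTop k h) = v
  | 0, _, _ => rfl
  | _ + 1, _, _ => rfl

lemma edgeB_top {n k h : ℕ} (c : Br (Fin n) k h) (v : Fin n) :
    edgeB c v (edgeTop k h) = s(root c, v) := by
  rw [edgeB, edge_labB_top, edge_par_top]

/-- All edges at the positions of a branch. -/
lemma edge_branch {n k : ℕ} (G : SimpleGraph (Fin n)) : ∀ {h : ℕ} (c : Br (Fin n) k h)
    (v : Fin n), RealB G c v → ∀ (x : BP k h) (w : Fin n), G.Adj (labB c x) w →
      ∃ x', edgeB c v x' = s(labB c x, w)
  | 0, c, v, hc, x, w, hw => by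
      refine ⟨x, ?_⟩
      have : w = v := (hc w).1 hw
      rw [this]
      rfl
  | h + 1, c, v, hc, Sum.inl u, w, hw => by
      obtain ⟨j, hj⟩ := (hc.2.1 w).1 hw
      refine Fin.cases (motive := fun j =>
        w = vecCons v (fun j => root (c.2 j)) j → ∃ x', edgeB c v x' = s(labB c (Sum.inl u), w))
        ?_ ?_ j hj
      · intro hj
        rw [cons_val_zero] at hj
        refine ⟨Sum.inl u, ?_⟩
        rw [hj]
        rfl
      · intro i hj
        rw [cons_val_succ] at hj
        refine ⟨Sum.inr (i, edgeTop k h), ?_⟩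
        rw [hj]
        refine (edgeB_top (c.2 i) c.1).trans ?_
        exact Sym2.eq_swap
  | h + 1, c, v, hc, Sum.inr x, w, hw => by
      obtain ⟨x', hx'⟩ := edge_branch G (c.2 x.1) c.1 (hc.2.2 x.1) x.2 w hw
      exact ⟨Sum.inr (x.1, x'), hx'⟩

/-- The edge from a position of a tree to its parent; the root gets an arbitrary value. -/
def edgeH {n k h m : ℕ} (c : Hang (Fin n) k h m) (e : Sym2 (Fin n)) : HP k h m → Sym2 (Fin n)
  | Sum.inl _ => e
  | Sum.inr x => edgeB (c.2 x.1) c.1 x.2

lemma edge_hang {n k h m : ℕ} (G : SimpleGraph (Fin n)) (c : Hang (Fin n) k h m)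
    (e : Sym2 (Fin n)) (hc : ∀ j, RealB G (c.2 j) c.1) (x : Fin m × BP k h) (w : Fin n)
    (hw : G.Adj (labH c (Sum.inr x)) w) : ∃ x', edgeH c e x' = s(labH c (Sum.inr x), w) := by
  obtain ⟨x', hx'⟩ := edge_branch G (c.2 x.1) c.1 (hc x.1) x.2 w hw
  exact ⟨Sum.inr (x.1, x'), hx'⟩

lemma edge_child {n k h m : ℕ} (c : Hang (Fin n) k h m) (e : Sym2 (Fin n)) (j : Fin m) :
    ∃ x', edgeH c e x' = s(c.1, root (c.2 j)) := by
  refine ⟨Sum.inr (j, edgeTop k h), ?_⟩
  refine (edgeB_top (c.2 j) c.1).trans ?_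
  exact Sym2.eq_swap

/-- All edges at the positions of a tree. -/
lemma edge_tree {n k h : ℕ} (G : SimpleGraph (Fin n)) (c : Hang (Fin n) k h (k + 2))
    (e : Sym2 (Fin n)) (hc : RealT G c) : ∀ (x : HP k h (k + 2)) (w : Fin n),
      G.Adj (labH c x) w → ∃ x', edgeH c e x' = s(labH c x, w)
  | Sum.inl _, w, hw => by
      obtain ⟨j, hj⟩ := (hc.2.1 w).1 hw
      obtain ⟨x', hx'⟩ := edge_child c e j
      refine ⟨x', hx'.trans ?_⟩
      rw [hj]
      rfl
  | Sum.inr x, w, hw => edge_hang G c e hc.2.2 x w hw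

/-- A set of edges covered by a family indexed by positions with different names. -/
lemma edge_card {n : ℕ} (G : SimpleGraph (Fin n)) {P : Type} [Fintype P] (lab : P → Fin n)
    (f : P → Sym2 (Fin n)) (hl : Function.Injective lab)
    (h1 : ∀ v, (∀ x, lab x ≠ v) → ∀ w, ¬ G.Adj v w)
    (h2 : ∀ x w, G.Adj (lab x) w → ∃ x', f x' = s(lab x, w)) : G.edgeSet.ncard ≤ n := by
  classical
  have hsub : G.edgeSet ⊆ Set.range f := by
    intro e
    refine Sym2.ind (fun v w => ?_) e
    intro he
    have hvw : G.Adj v w := he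
    by_contra hne
    refine h1 v (fun x hx => hne ?_) w hvw
    subst hx
    exact h2 x w hvw
  have hfin : (Set.range f).Finite := Set.finite_range f
  refine (Set.ncard_le_ncard hsub hfin).trans ?_
  have h3 : (Set.range f).ncard ≤ Fintype.card P := by
    rw [← Set.image_univ]
    refine (Set.ncard_image_le Set.finite_univ).trans ?_
    rw [Set.ncard_univ, Nat.card_eq_fintype_card]
  refine h3.trans ?_
  have h4 := Fintype.card_le_of_injective lab hl
  rwa [Fintype.card_fin] at h4

/-- The graph of `M` trees has at most `n` edges. -/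
theorem edge0 : S_EDGE0 := by
  intro n k h M c G hl hT hiso
  refine edge_card G (lab0 c) (fun x => edgeH (c x.1) (s((c x.1).1, (c x.1).1)) x.2) hl hiso ?_
  rintro ⟨m, x⟩ w hw
  obtain ⟨x', hx'⟩ := edge_tree G (c m) (s((c m).1, (c m).1)) (hT m) x w hw
  exact ⟨(m, x'), hx'⟩

lemma edge_add : ∀ i : Fin 3, i + 2 + 1 = i := by decide

/-- All edges at the positions of the triangle component. -/
lemma edge_tri {n k h : ℕ} (G : SimpleGraph (Fin n)) (x : Fin 3 → Hang (Fin n) k h k)
    (hx : ∀ i, RealY G (x i) (x (i + 1)).1 (x (i + 2)).1) : ∀ (y : Fin 3 × HP k h k) (w : Fin n),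
      G.Adj (labH (x y.1) y.2) w →
        ∃ y' : Fin 3 × HP k h k, edgeH (x y'.1) (s((x y'.1).1, (x (y'.1 + 1)).1)) y'.2 =
          s(labH (x y.1) y.2, w)
  | (i, Sum.inl u), w, hw => by
      obtain ⟨j, hj⟩ := ((hx i).2.1 w).1 hw
      refine Fin.cases (motive := fun j =>
        w = vecCons (x (i + 1)).1 (vecCons (x (i + 2)).1 fun j => root ((x i).2 j)) j →
          ∃ y' : Fin 3 × HP k h k, edgeH (x y'.1) (s((x y'.1).1, (x (y'.1 + 1)).1)) y'.2 =
            s(labH (x i) (Sum.inl u), w)) ?_ ?_ j hj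
      · intro hj
        rw [cons_val_zero] at hj
        refine ⟨(i, Sum.inl u), ?_⟩
        rw [hj]
        rfl
      · intro j hj
        rw [cons_val_succ] at hj
        refine Fin.cases (motive := fun j =>
          w = vecCons (x (i + 2)).1 (fun j => root ((x i).2 j)) j →
            ∃ y' : Fin 3 × HP k h k, edgeH (x y'.1) (s((x y'.1).1, (x (y'.1 + 1)).1)) y'.2 =
              s(labH (x i) (Sum.inl u), w)) ?_ ?_ j hj
        · intro hj
          rw [cons_val_zero] at hj
          refine ⟨(i + 2, Sum.inl u), ?_⟩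
          rw [hj]
          have h3 : i + 2 + 1 = i := edge_add i
          show s((x (i + 2)).1, (x (i + 2 + 1)).1) = s((x i).1, (x (i + 2)).1)
          rw [h3]
          exact Sym2.eq_swap
        · intro l hj
          rw [cons_val_succ] at hj
          obtain ⟨x', hx'⟩ := edge_child (x i) (s((x i).1, (x (i + 1)).1)) l
          refine ⟨(i, x'), hx'.trans ?_⟩
          rw [hj]
          rfl
  | (i, Sum.inr y), w, hw => by
      obtain ⟨x', hx'⟩ := edge_hang G (x i) (s((x i).1, (x (i + 1)).1)) (hx i).2.2 y w hw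
      exact ⟨(i, x'), hx'⟩

/-- The graph of `M` trees and a triangle component has at most `n` edges. -/
theorem edge1 : S_EDGE1 := by
  intro n k h M c x G hl hT hY hiso
  refine edge_card G (lab1 c x)
    (Sum.elim (fun y => edgeH (c y.1) (s((c y.1).1, (c y.1).1)) y.2)
      (fun y => edgeH (x y.1) (s((x y.1).1, (x (y.1 + 1)).1)) y.2)) hl hiso ?_
  rintro (⟨m, y⟩ | y) w hw
  · obtain ⟨x', hx'⟩ := edge_tree G (c m) (s((c m).1, (c m).1)) (hT m) y w hw
    exact ⟨Sum.inl (m, x'), hx'⟩
  · obtain ⟨y', hy'⟩ := edge_tri G x hY y w hw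
    exact ⟨Sum.inr y', hy'⟩

end Pool.Agent.CT
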