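import Pool.Agent.CT.Bdry

/-!
# The energy on the torus in coordinates
-/

namespace Pool.Agent.CT

open MeasureTheory Metric Set Filter Topology Real
open scoped ContDiff

variable {L : ℝ}

lemma hasDerivAt_E3 {f : ℝ → E3} {f' : E3} {x : ℝ}
    (h : ∀ i, HasDerivAt (fun s => f s i) (f' i) x) : HasDerivAt f f' x := by
  have h1 : HasDerivAt (fun s => (f s).ofLp) f'.ofLp x := hasDerivAt_pi.2 h
  exact (PiLp.continuousLinearEquiv 2 ℝ (fun _ : Fin 3 => ℝ)).symm.hasFDerivAt.comp_hasDerivAt x h1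

/-- derivative of `Psi` -/
lemma hasFDerivAt_Psi (q : (ℝ × ℝ) × ℝ) :
    ∃ P : (ℝ × ℝ) × ℝ →L[ℝ] E3, HasFDerivAt (Psi L) P q ∧
      P ((1, 0), 0) = !₂[cos q.2, sin q.2, 0] ∧
      P ((0, 1), 0) = !₂[0, 0, 1] ∧
      P ((0, 0), 1) = !₂[-(L + q.1.1) * sin q.2, (L + q.1.1) * cos q.2, 0] := by
  have hc : ContDiff ℝ 1 (Psi L) := by
    unfold Psi
    rw [contDiff_piLp]
    intro i
    fin_cases i <;> simp <;> fun_prop
  have hd : DifferentiableAt ℝ (Psi L) q := (hc.differentiable (by norm_num)).differentiableAt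
  refine ⟨fderiv ℝ (Psi L) q, hd.hasFDerivAt, ?_, ?_, ?_⟩
  · have h1 : HasDerivAt (fun s : ℝ => q + s • (((1, 0), 0) : (ℝ × ℝ) × ℝ)) ((1, 0), 0) 0 := by
      simpa using ((hasDerivAt_id (0 : ℝ)).smul_const (((1, 0), 0) : (ℝ × ℝ) × ℝ)).const_add q
    have h2 : HasFDerivAt (Psi L) (fderiv ℝ (Psi L) q) (q + (0 : ℝ) • ((1, 0), 0)) := by
      simpa using hd.hasFDerivAt
    have h3 := h2.comp_hasDerivAt (0 : ℝ) h1
    have h4 : HasDerivAt (Psi L ∘ fun s : ℝ => q + s • (((1, 0), 0) : (ℝ × ℝ) × ℝ))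
        (!₂[cos q.2, sin q.2, 0] : E3) 0 := by
      refine hasDerivAt_E3 fun i => ?_
      have ha : HasDerivAt (fun s : ℝ => L + (q.1.1 + s)) 1 0 := by
        simpa using ((hasDerivAt_id (0 : ℝ)).const_add q.1.1).const_add L
      fin_cases i
      · simpa using ha.mul_const (cos q.2)
      · simpa using ha.mul_const (sin q.2)
      · simpa using hasDerivAt_const (0 : ℝ) q.1.2
    exact h3.unique h4
  · have h1 : HasDerivAt (fun s : ℝ => q + s • (((0, 1), 0) : (ℝ × ℝ) × ℝ)) ((0, 1), 0) 0 := by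
      simpa using ((hasDerivAt_id (0 : ℝ)).smul_const (((0, 1), 0) : (ℝ × ℝ) × ℝ)).const_add q
    have h2 : HasFDerivAt (Psi L) (fderiv ℝ (Psi L) q) (q + (0 : ℝ) • ((0, 1), 0)) := by
      simpa using hd.hasFDerivAt
    have h3 := h2.comp_hasDerivAt (0 : ℝ) h1
    have h4 : HasDerivAt (Psi L ∘ fun s : ℝ => q + s • (((0, 1), 0) : (ℝ × ℝ) × ℝ))
        (!₂[0, 0, 1] : E3) 0 := by
      refine hasDerivAt_E3 fun i => ?_
      fin_cases i
      · simpa using hasDerivAt_const (0 : ℝ) ((L + q.1.1) * cos q.2)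
      · simpa using hasDerivAt_const (0 : ℝ) ((L + q.1.1) * sin q.2)
      · simpa using (hasDerivAt_id (0 : ℝ)).const_add q.1.2
    exact h3.unique h4
  · have h1 : HasDerivAt (fun s : ℝ => q + s • (((0, 0), 1) : (ℝ × ℝ) × ℝ)) ((0, 0), 1) 0 := by
      simpa using ((hasDerivAt_id (0 : ℝ)).smul_const (((0, 0), 1) : (ℝ × ℝ) × ℝ)).const_add q
    have h2 : HasFDerivAt (Psi L) (fderiv ℝ (Psi L) q) (q + (0 : ℝ) • ((0, 0), 1)) := by
      simpa using hd.hasFDerivAt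
    have h3 := h2.comp_hasDerivAt (0 : ℝ) h1
    have h4 : HasDerivAt (Psi L ∘ fun s : ℝ => q + s • (((0, 0), 1) : (ℝ × ℝ) × ℝ))
        (!₂[-(L + q.1.1) * sin q.2, (L + q.1.1) * cos q.2, 0] : E3) 0 := by
      refine hasDerivAt_E3 fun i => ?_
      have ha : HasDerivAt (fun s : ℝ => q.2 + s) 1 0 := by
        simpa using (hasDerivAt_id (0 : ℝ)).const_add q.2
      fin_cases i
      · have := (ha.cos).const_mul (L + q.1.1)
        simp at this ⊢
        refine this.congr_deriv ?_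
        ring
      · have := (ha.sin).const_mul (L + q.1.1)
        simpa using this
      · simpa using hasDerivAt_const (0 : ℝ) q.1.2
    exact h3.unique h4

/-- partial derivatives -/
noncomputable def dA (U : (ℝ × ℝ) × ℝ → ℝ) (q : (ℝ × ℝ) × ℝ) : ℝ := fderiv ℝ U q ((1, 0), 0)
/-- partial derivatives -/
noncomputable def dB (U : (ℝ × ℝ) × ℝ → ℝ) (q : (ℝ × ℝ) × ℝ) : ℝ := fderiv ℝ U q ((0, 1), 0)
/-- partial derivatives -/
noncomputable def dT (U : (ℝ × ℝ) × ℝ → ℝ) (q : (ℝ × ℝ) × ℝ) : ℝ := fderiv ℝ U q ((0, 0), 1)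

lemma isOpen_D : IsOpen D := isOpen_lt (by fun_prop) continuous_const

lemma grad_sq (hL : 1 < L) {u : E3 → ℝ} {U : (ℝ × ℝ) × ℝ → ℝ}
    (hUu : ∀ q : (ℝ × ℝ) × ℝ, q.1 ∈ D → U q = u (Psi L q))
    (hu : ∀ x ∈ torus L, DifferentiableAt ℝ u x) {q : (ℝ × ℝ) × ℝ} (hq : q.1 ∈ D) :
    ‖gradient u (Psi L q)‖ ^ 2 = dA U q ^ 2 + dB U q ^ 2 + dT U q ^ 2 / (L + q.1.1) ^ 2 := by
  obtain ⟨P, hP, h1, h2, h3⟩ := hasFDerivAt_Psi (L := L) q
  have hpos := Psi_pos hL (D_subset hq)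
  have hu' := hu _ (Psi_mem hL hq)
  have hU : HasFDerivAt U ((fderiv ℝ u (Psi L q)).comp P) q := by
    have := hu'.hasFDerivAt.comp q hP
    refine this.congr_of_eventuallyEq ?_
    have h4 : {q : (ℝ × ℝ) × ℝ | q.1 ∈ D} ∈ 𝓝 q :=
      (isOpen_D.preimage continuous_fst).mem_nhds hq
    filter_upwards [h4] with y hy using hUu y hy
  set g := gradient u (Psi L q) with hg
  have hgr : ∀ w : E3, fderiv ℝ u (Psi L q) w = g 0 * w 0 + g 1 * w 1 + g 2 * w 2 := by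
    intro w
    have := hu'.hasGradientAt.hasFDerivAt.fderiv
    rw [this, InnerProductSpace.toDual_apply_apply, PiLp.inner_apply, Fin.sum_univ_three]
    simp
    ring
  rw [dA, dB, dT, hU.fderiv]
  simp only [ContinuousLinearMap.comp_apply]
  rw [h1, h2, h3, hgr, hgr, hgr, norm_sq_E3]
  simp
  have hcs := sin_sq_add_cos_sq q.2
  field_simp
  have e1 : sin q.2 ^ 2 = 1 - cos q.2 ^ 2 := by linarith
  ring_nf
  rw [e1]
  ring

theorem energy_torus (hL : 1 < L) (u : E3 → ℝ) (U : (ℝ × ℝ) × ℝ → ℝ) (hU : Continuous U)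
    (hUu : ∀ q : (ℝ × ℝ) × ℝ, q.1 ∈ D → U q = u (Psi L q))
    (hu : ∀ x ∈ torus L, DifferentiableAt ℝ u x) :
    energy (torus L) u = 8 * (∫ q in D ×ˢ Ioo (-π) π,
        (L + q.1.1) * (dA U q ^ 2 + dB U q ^ 2 + dT U q ^ 2 / (L + q.1.1) ^ 2)) +
      2 * ∫ t in (-π)..π, ∫ θ in (-π)..π, (L + 2 * cos θ) * U ((cos θ, sin θ), t) ^ 2 := by
  rw [energy, bdryInt_torus hL u U hU hUu, integral_torus hL]
  congr 2
  refine setIntegral_congr_fun (measurableSet_D.prod measurableSet_Ioo) fun q hq => ?_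
  rw [grad_sq hL hUu hu hq.1]

theorem volume_torus (hL : 1 < L) (u : E3 → ℝ) (U : (ℝ × ℝ) × ℝ → ℝ)
    (hUu : ∀ q : (ℝ × ℝ) × ℝ, q.1 ∈ D → U q = u (Psi L q)) :
    ∫ x in torus L, u x ^ 6 = ∫ q in D ×ˢ Ioo (-π) π, (L + q.1.1) * U q ^ 6 := by
  rw [integral_torus hL]
  refine setIntegral_congr_fun (measurableSet_D.prod measurableSet_Ioo) fun q hq => ?_
  rw [hUu q hq.1]

end Pool.Agent.CT
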