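import Pool.Agent.CT.Wrap

/-!
# Parameters
-/

namespace Pool.Agent.CT

open MeasureTheory

theorem fin1 (h : S_RAND) : S_FIN1 := by
  refine ⟨1 / 100, by norm_num, ?_⟩
  intro n B t Ω _ μ _ P hP
  have ht0 : (0 : ℝ) ≤ t := Nat.cast_nonneg _
  have hB0 : (0 : ℝ) ≤ B := Nat.cast_nonneg _
  have hl2 : 0 < Real.log 2 := Real.log_pos (by norm_num)
  set x : ℝ := t + B + 2 with hx
  have hx2 : 2 ≤ x := by rw [hx]; linarith
  have hlx : Real.log 2 ≤ Real.log x := Real.log_le_log (by norm_num) hx2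
  rcases Nat.eq_zero_or_pos n with hn | hn
  · subst hn
    simp only [Nat.cast_zero, Real.log_zero, mul_zero]
    have : 0 ≤ Real.log x := by linarith
    positivity
  -- k + 1 = 1400 (t+1)^3 (B+1)
  obtain ⟨k, hk⟩ : ∃ k : ℕ, k + 1 = 1400 * (t + 1) ^ 3 * (B + 1) := by
    refine ⟨1400 * (t + 1) ^ 3 * (B + 1) - 1, ?_⟩
    have : 0 < 1400 * (t + 1) ^ 3 * (B + 1) := by positivity
    omega
  have hk' : (k : ℝ) + 1 = 1400 * (t + 1) ^ 3 * (B + 1) := by exact_mod_cast hk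
  have hkpos : (0 : ℝ) < (k : ℝ) + 1 := by positivity
  have hlog2 : Real.log 2 ≤ 0.7 := by
    have := Real.log_two_lt_d9
    linarith
  have hcond : 192 * (t + 1 : ℝ) ^ 3 * Real.log (2 ^ B) / (k + 1) ≤ 1 / 10 := by
    rw [div_le_iff₀ hkpos, hk', Real.log_pow]
    have h1 : (B : ℝ) * Real.log 2 ≤ (B + 1) * 0.7 := by
      calc (B : ℝ) * Real.log 2 ≤ (B + 1) * Real.log 2 := by
            exact mul_le_mul_of_nonneg_right (by linarith) hl2.le
        _ ≤ (B + 1) * 0.7 := mul_le_mul_of_nonneg_left hlog2 (by linarith)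
    have h2 : (0 : ℝ) ≤ (t + 1) ^ 3 := by positivity
    have h3 := mul_le_mul_of_nonneg_left h1 h2
    have h4 : (0 : ℝ) ≤ (t + 1) ^ 3 * (B + 1) := by positivity
    have e1 : (192 : ℝ) * ((t : ℝ) + 1) ^ 3 * ((B : ℝ) * Real.log 2) =
        192 * (((t : ℝ) + 1) ^ 3 * ((B : ℝ) * Real.log 2)) := by ring
    have e2 : ((t : ℝ) + 1) ^ 3 * (((B : ℝ) + 1) * 0.7) =
        0.7 * (((t : ℝ) + 1) ^ 3 * ((B : ℝ) + 1)) := by ring
    have e3 : (1 : ℝ) / 10 * (1400 * ((t : ℝ) + 1) ^ 3 * ((B : ℝ) + 1)) =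
        140 * (((t : ℝ) + 1) ^ 3 * ((B : ℝ) + 1)) := by ring
    rw [e1, e3]
    rw [e2] at h3
    linarith
  have hmain := h n B t k Ω μ P hP hn hcond
  have hn' : (0 : ℝ) < n := by exact_mod_cast hn
  -- bound k + 3
  have hk3 : (k : ℝ) + 3 ≤ x ^ 15 := by
    have h1 : (k : ℝ) + 3 ≤ 1402 * (t + 1) ^ 3 * (B + 1) := by
      have h2 : (1 : ℝ) ≤ (t + 1) ^ 3 * (B + 1) := by
        have h3 : (1 : ℝ) ≤ (t + 1) ^ 3 := one_le_pow₀ (by linarith)
        have h4 : (1 : ℝ) ≤ B + 1 := by linarith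
        calc (1 : ℝ) = 1 * 1 := by ring
          _ ≤ _ := mul_le_mul h3 h4 (by norm_num) (by positivity)
      have h5 : (k : ℝ) + 3 = 1400 * ((t + 1) ^ 3 * (B + 1)) + 2 := by linarith
      have h6 : (1402 : ℝ) * (t + 1) ^ 3 * (B + 1) = 1402 * ((t + 1) ^ 3 * (B + 1)) := by ring
      rw [h5, h6]
      linarith
    have h2 : ((t : ℝ) + 1) ^ 3 ≤ x ^ 3 := by
      gcongr
      rw [hx]; linarith
    have h3 : (B : ℝ) + 1 ≤ x := by rw [hx]; linarith
    have h4 : (1402 : ℝ) ≤ x ^ 11 := by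
      calc (1402 : ℝ) ≤ 2 ^ 11 := by norm_num
        _ ≤ x ^ 11 := by gcongr
    calc (k : ℝ) + 3 ≤ 1402 * (t + 1) ^ 3 * (B + 1) := h1
      _ ≤ x ^ 11 * x ^ 3 * x := by gcongr
      _ = x ^ 15 := by ring
  have hbig : (n : ℝ) ≤ x ^ 21 * (x ^ 15) ^ (2 * t + 4) := by
    have e : (x ^ 15) ^ (2 * t + 4) = ((x ^ 15) ^ (t + 2)) ^ 2 := by
      rw [← pow_mul (x ^ 15) (t + 2) 2]
      congr 1
      omega
    have hk4 : ((k : ℝ) + 3) ^ (t + 2) ≤ (x ^ 15) ^ (t + 2) := pow_le_pow_left₀ (by positivity) hk3 _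
    have hZ0 : (0 : ℝ) ≤ ((k : ℝ) + 3) ^ (t + 2) := by positivity
    have hx21 : (2 : ℝ) ^ 21 ≤ x ^ 21 := pow_le_pow_left₀ (by norm_num) hx2 21
    rw [e]
    generalize (x ^ 15) ^ (t + 2) = Y at hk4 ⊢
    generalize ((k : ℝ) + 3) ^ (t + 2) = Z at hk4 hmain hZ0 ⊢
    have hZ : (n : ℝ) ≤ 1276900 * Z ^ 2 := by
      have : (100 : ℝ) * (113 * Z) ^ 2 = 1276900 * Z ^ 2 := by ring
      linarith
    have hYZ : Z ^ 2 ≤ Y ^ 2 := pow_le_pow_left₀ hZ0 hk4 2
    have h9 : (1276900 : ℝ) ≤ x ^ 21 := le_trans (by norm_num) hx21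
    exact hZ.trans (mul_le_mul h9 hYZ (sq_nonneg _) (by positivity))
  have hlogn : Real.log n ≤ 21 * Real.log x + (2 * t + 4) * (15 * Real.log x) := by
    have h8 := Real.log_le_log hn' hbig
    have hxp : 0 < x := by linarith
    rw [Real.log_mul (by positivity) (by positivity), Real.log_pow, Real.log_pow, Real.log_pow] at h8
    push_cast at h8
    exact h8
  have hlx0 : 0 < Real.log x := by linarith
  have h9 : (21 : ℝ) * Real.log x + (2 * t + 4) * (15 * Real.log x) ≤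
      100 * ((t + 1) * Real.log x) := by
    have h10 := mul_nonneg ht0 hlx0.le
    have h11 : (21 : ℝ) * Real.log x + (2 * t + 4) * (15 * Real.log x) =
        30 * (t * Real.log x) + 81 * Real.log x := by ring
    have h12 : 100 * (((t : ℝ) + 1) * Real.log x) = 100 * (t * Real.log x) + 100 * Real.log x := by
      ring
    rw [h11, h12]
    linarith
  linarith

end Pool.Agent.CT
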