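import Pool.Agent.CT.Wrap

/-!
# The analytic lemma
-/

namespace Pool.Agent.CT

open Filter

theorem fin2 : S_FIN2 := by
  intro C c0 hc0
  set D : ℝ := |C| + 2 with hD
  have hD0 : 0 < D := by positivity
  have hε : 0 < c0 / (4 * D) := by positivity
  refine ⟨min 1 (c0 / (4 * D)), lt_min one_pos hε, ?_⟩
  have hL : Tendsto (fun s : ℕ => Real.log s) atTop atTop :=
    Real.tendsto_log_atTop.comp tendsto_natCast_atTop_atTop
  have h1 : ∀ᶠ s : ℕ in atTop, 3 ≤ Real.log s := hL.eventually_ge_atTop 3
  have h2 : ∀ᶠ s : ℕ in atTop, Real.log (Real.log s) ≤ c0 / (4 * D) * Real.log s := by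
    have h3 : ∀ᶠ x : ℝ in atTop, ‖Real.log x‖ ≤ c0 / (4 * D) * ‖x‖ :=
      Real.isLittleO_log_id_atTop.bound hε
    have h4 := hL.eventually h3
    filter_upwards [h4, h1] with s hs hs1
    have h5 : ‖Real.log (s : ℝ)‖ = Real.log s := Real.norm_of_nonneg (by linarith)
    rw [h5] at hs
    exact (le_abs_self _).trans hs
  obtain ⟨s0, hs0⟩ := eventually_atTop.mp (h1.and h2)
  refine ⟨max s0 1, ?_⟩
  intro n s B hs hns hsn hB T hT h
  obtain ⟨hL3, hll⟩ := hs0 s ((le_max_left _ _).trans hs)
  have hs1 : 1 ≤ s := (le_max_right _ _).trans hs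
  have hspos : (0 : ℝ) < s := by exact_mod_cast hs1
  set L : ℝ := Real.log s with hLdef
  have hL0 : 0 < L := by linarith
  have hl1 : 1 ≤ Real.log L := by
    have h5 : Real.exp 1 ≤ L := by
      have := Real.exp_one_lt_d9
      linarith
    calc (1 : ℝ) = Real.log (Real.exp 1) := (Real.log_exp 1).symm
      _ ≤ Real.log L := Real.log_le_log (Real.exp_pos 1) h5
  have hl0 : 0 < Real.log L := by linarith
  suffices hsuff : min 1 (c0 / (4 * D)) * L / Real.log L ≤ T by
    have e : min 1 (c0 / (4 * D)) * s * L / Real.log L =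
        min 1 (c0 / (4 * D)) * L / Real.log L * s := by ring
    rw [e]
    exact mul_le_mul_of_nonneg_right hsuff hspos.le
  rw [div_le_iff₀ hl0]
  rcases le_total L T with hLT | hTL
  · calc min 1 (c0 / (4 * D)) * L ≤ 1 * L :=
          mul_le_mul_of_nonneg_right (min_le_left _ _) hL0.le
      _ = L * 1 := by ring
      _ ≤ T * Real.log L := mul_le_mul hLT hl1 zero_le_one hT
  · have hpow : T + B + 2 ≤ L ^ D := by
      have hL1 : 1 ≤ L := by linarith
      have hC0 : 0 ≤ |C| := abs_nonneg C
      have e1 : L ^ C ≤ L ^ (|C| + 1) :=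
        Real.rpow_le_rpow_of_exponent_le hL1 (by linarith [le_abs_self C])
      have e2 : L ≤ L ^ (|C| + 1) := by
        calc L = L ^ (1 : ℝ) := (Real.rpow_one L).symm
          _ ≤ L ^ (|C| + 1) := Real.rpow_le_rpow_of_exponent_le hL1 (by linarith)
      have e3 : L ^ D = L ^ (|C| + 1) * L := by
        have : D = (|C| + 1) + 1 := by rw [hD]; ring
        rw [this, Real.rpow_add hL0 (|C| + 1) 1, Real.rpow_one]
      have e4 : 0 ≤ L ^ (|C| + 1) := by positivity
      rw [e3]
      have e5 : L ^ (|C| + 1) * 3 ≤ L ^ (|C| + 1) * L := mul_le_mul_of_nonneg_left hL3 e4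
      linarith
    have hpos : 0 < T + B + 2 := by
      have : (0 : ℝ) ≤ B := Nat.cast_nonneg _
      linarith
    have hlog : Real.log (T + B + 2) ≤ D * Real.log L := by
      rw [← Real.log_rpow hL0]
      exact Real.log_le_log hpos hpow
    have hn1 : 0 < n := by omega
    have hn0 : (0 : ℝ) < n := by exact_mod_cast hn1
    have hlogn : L / 2 ≤ Real.log n := by
      have h6 : (s : ℝ) ≤ 2 * n := by exact_mod_cast hsn
      have h7 : L ≤ Real.log 2 + Real.log n := by
        rw [← Real.log_mul (by norm_num) hn0.ne']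
        exact Real.log_le_log hspos h6
      have h8 : Real.log 2 ≤ 1 := by
        have := Real.log_two_lt_d9
        linarith
      linarith
    have h9 : c0 * (L / 2) ≤ (T + 1) * (D * Real.log L) := by
      calc c0 * (L / 2) ≤ c0 * Real.log n := mul_le_mul_of_nonneg_left hlogn hc0.le
        _ ≤ (T + 1) * Real.log (T + B + 2) := h
        _ ≤ (T + 1) * (D * Real.log L) := mul_le_mul_of_nonneg_left hlog (by linarith)
    -- multiply by 1 / D
    have h10 : c0 / (4 * D) * L * 2 ≤ (T + 1) * Real.log L := by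
      have e6 : c0 / (4 * D) * L * 2 = c0 * (L / 2) / D := by field_simp; ring
      rw [e6, div_le_iff₀ hD0]
      linarith
    have h11 : min 1 (c0 / (4 * D)) * L ≤ c0 / (4 * D) * L :=
      mul_le_mul_of_nonneg_right (min_le_right _ _) hL0.le
    linarith

end Pool.Agent.CT
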