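import Pool.Agent.CT.CDefs
import Pool.Agent.CT.Core

/-!
# From algorithms to node functions (definitions)
-/

namespace Pool.Agent.CT

open Finset Matrix

/-- The alphabet: names (in round `0`) and messages. -/
abbrev Al (n B : ℕ) : Type := Fin n ⊕ Msg B

/-- The message received in round `m` of a transcript. -/
def inAt {A : Type} : ∀ {s : ℕ}, Tr A s → ℕ → Option A
  | 0, _, _ => none
  | s + 1, y, m => if m = s then some y.inn else inAt y.init m

/-- The name of the other end of the edge. -/
def nameOf {n B s : ℕ} (y : Tr (Al n B) s) : Option (Fin n) :=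
  match inAt y 0 with
  | some (Sum.inl u) => some u
  | _ => none

/-- The message received in round `r` of the algorithm (round `r + 1` of the transcript). -/
def msgAt {n B s : ℕ} (y : Tr (Al n B) s) (r : ℕ) : Msg B :=
  match inAt y (r + 1) with
  | some (Sum.inr m) => m
  | _ => fun _ => false

section nodes
variable {n B s : ℕ} {J : Type} [Fintype J]

open Classical in
/-- The names seen by a node. -/
noncomputable def namesOf (y : J → Tr (Al n B) s) : Finset (Fin n) :=
  Finset.univ.filter (fun u => ∃ j, nameOf (y j) = some u)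

open Classical in
/-- The history of messages seen by a node. -/
noncomputable def histOf (y : J → Tr (Al n B) s) (r : ℕ) (w : Fin n) : Msg B :=
  (Finset.univ.filter (fun j => nameOf (y j) = some w)).sup (fun j => msgAt (y j) r)

/-- The node function of the algorithm `P`. -/
noncomputable def nodeFun (P : Alg n B) (b : Fin n) : NodeFun (Al n B) J :=
  fun s y j => match s, y with
    | 0, _ => Sum.inl b
    | r + 1, y => Sum.inr (P.send r b (namesOf y) (histOf y) ((nameOf (y j)).getD b))

/-- Acceptance. -/
def nodeAcc (P : Alg n B) (b : Fin n) (y : J → Tr (Al n B) s) : Prop :=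
  P.rejects b (namesOf y) (histOf y) = false

end nodes

/-- The behaviour of the nodes under the algorithm `P`. -/
noncomputable def nodeOf {n B : ℕ} (P : Alg n B) (k : ℕ) : Node (Fin n) (Al n B) k where
  F := fun b => nodeFun P b
  F0 := fun b => nodeFun P b
  O := fun b _ y => nodeAcc P b y
  O0 := fun b _ y => nodeAcc P b y

/-- The message from `u` to `v` in round `s` of the transcript of the real run. -/
noncomputable def realMsg {n B : ℕ} (P : Alg n B) (G : SimpleGraph (Fin n)) :
    ℕ → Fin n → Fin n → Al n B
  | 0, u, _ => Sum.inl u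
  | r + 1, u, v => Sum.inr (tab P G (r + 1) r u v)

/-- The transcript of the real run on the edge `u v`, seen from `u`. -/
noncomputable def realTr {n B : ℕ} (P : Alg n B) (G : SimpleGraph (Fin n)) :
    ∀ s, Fin n → Fin n → Tr (Al n B) s
  | 0, _, _ => ()
  | s + 1, u, v => (realTr P G s u v).snoc (realMsg P G s u v) (realMsg P G s v u)

/-! ### Positions and names -/

/-- The root name of a branch. -/
def root {L : Type} {k : ℕ} : ∀ {h : ℕ}, Br L k h → L
  | 0, b => b
  | _ + 1, c => c.1

/-- Positions in a branch of height `h`. -/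
def BP (k : ℕ) : ℕ → Type
  | 0 => Unit
  | h + 1 => Unit ⊕ (Fin (k + 1) × BP k h)

instance instFintypeBP {k : ℕ} : ∀ h, Fintype (BP k h)
  | 0 => inferInstanceAs (Fintype Unit)
  | h + 1 => by
      letI := instFintypeBP (k := k) h
      exact inferInstanceAs (Fintype (Unit ⊕ (Fin (k + 1) × BP k h)))

/-- Positions at a node with `m` hanging branches. -/
abbrev HP (k h m : ℕ) : Type := Unit ⊕ (Fin m × BP k h)

/-- The name at a position of a branch. -/
def labB {L : Type} {k : ℕ} : ∀ {h : ℕ}, Br L k h → BP k h → L
  | 0, b, _ => b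
  | _ + 1, c, Sum.inl _ => c.1
  | _ + 1, c, Sum.inr x => labB (c.2 x.1) x.2

/-- The name at a position. -/
def labH {L : Type} {k h m : ℕ} (c : Hang L k h m) : HP k h m → L
  | Sum.inl _ => c.1
  | Sum.inr x => labB (c.2 x.1) x.2

/-- Positions of the first family: `M` trees. -/
abbrev P0 (k h M : ℕ) : Type := Fin M × HP k h (k + 2)
/-- Positions of the second family: `M` trees and a triangle component. -/
abbrev P1 (k h M : ℕ) : Type := (Fin M × HP k h (k + 2)) ⊕ (Fin 3 × HP k h k)

/-- Names, first family. -/
def lab0 {L : Type} {k h M : ℕ} (c : Fin M → Hang L k h (k + 2)) (x : P0 k h M) : L :=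
  labH (c x.1) x.2

/-- Names, second family. -/
def lab1 {L : Type} {k h M : ℕ} (c : Fin M → Hang L k h (k + 2)) (x : Fin 3 → Hang L k h k) :
    P1 k h M → L
  | Sum.inl y => labH (c y.1) y.2
  | Sum.inr y => labH (x y.1) y.2

/-! ### Contents realised in a graph -/

/-- The branch with content `c`, whose root has parent `v`, is realised in `G`. -/
def RealB {n k : ℕ} (G : SimpleGraph (Fin n)) : ∀ {h : ℕ}, Br (Fin n) k h → Fin n → Prop
  | 0, b, v => ∀ w, G.Adj b w ↔ w = v
  | _ + 1, c, v => Function.Injective (vecCons v fun j => root (c.2 j)) ∧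
      (∀ w, G.Adj c.1 w ↔ ∃ j, w = vecCons v (fun j => root (c.2 j)) j) ∧
      ∀ j, RealB G (c.2 j) c.1

/-- The tree with content `c` is realised in `G`. -/
def RealT {n k h : ℕ} (G : SimpleGraph (Fin n)) (c : Hang (Fin n) k h (k + 2)) : Prop :=
  Function.Injective (fun j => root (c.2 j)) ∧
    (∀ w, G.Adj c.1 w ↔ ∃ j, w = root (c.2 j)) ∧ ∀ j, RealB G (c.2 j) c.1

/-- A node with two further neighbours `v`, `v'` and `k` hanging branches is realised in `G`. -/
def RealY {n k h : ℕ} (G : SimpleGraph (Fin n)) (c : Hang (Fin n) k h k) (v v' : Fin n) : Prop :=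
  Function.Injective (vecCons v (vecCons v' fun j => root (c.2 j))) ∧
    (∀ w, G.Adj c.1 w ↔ ∃ j, w = vecCons v (vecCons v' fun j => root (c.2 j)) j) ∧
    ∀ j, RealB G (c.2 j) c.1

end Pool.Agent.CT
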