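import Pool.Agent.CT.Core
import Pool.Agent.CT.Link
import Pool.Agent.CT.Basic

/-!
# Module statements
-/

namespace Pool.Agent.CT

open Finset Matrix MeasureTheory

/-! ### Weights -/

/-- Properties of the universal weights. -/
def S_WT : Prop :=
  ∀ (L A : Type) [Fintype L] [Nonempty L] [Fintype A] (k : ℕ) (F : L → NodeFun A (Fin (k + 2))),
    (∀ s y, 0 ≤ W F s y) ∧
    (∀ s (y : Tr A s) o i i', W F (s + 1) (y.snoc o i) = W F (s + 1) (y.snoc o i')) ∧
    (∀ s (y : Tr A s) i, ∑ o, W F (s + 1) (y.snoc o i) = W F s y) ∧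
    (∀ s, ∑ y : Tr A s, W F s y * W F s (swap y) = 1) ∧
    (∀ s p y, 0 ≤ beta F s p y) ∧
    (∀ s (p y : Tr A s) o i o' i' j j',
      beta F (s + 1) (p.snoc o i) (y.snoc o' i') = beta F (s + 1) (p.snoc o j) (y.snoc o' j')) ∧
    (∀ s (p y : Tr A s) i i',
      ∑ o, ∑ o', beta F (s + 1) (p.snoc o i) (y.snoc o' i') = beta F s p y) ∧
    (∀ s p, ∑ y, beta F s p y * W F s (swap y) = W F s p) ∧
    (Equivar F → ∀ s p y, beta F s p y = beta F s y p)

/-- Properties of the causal strategy. -/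
def S_CF : Prop :=
  ∀ (A : Type) [Fintype A],
    (∀ s (f : Tr A s → ℝ), (∀ y, 0 ≤ f y) → ∀ y, 0 ≤ cf s f y) ∧
    (∀ s (f : Tr A s → ℝ), (∀ y, 0 ≤ f y) → ∀ y, 0 < f y → 0 < cf s f y) ∧
    (∀ s (f g : Tr A s → ℝ), (∀ y, 0 ≤ f y) → (∀ y, 0 ≤ g y) →
      ∑ y, cf s f y * cf s g (swap y) ≤ 1) ∧
    (∀ s (f : Tr A (s + 1) → ℝ) (y : Tr A s) o i i',
      cf (s + 1) f (y.snoc o i) = cf (s + 1) f (y.snoc o i')) ∧
    (∀ s (f : Tr A s → ℝ) (a : ℝ), a ≠ 0 → ∀ y, cf s (fun z => a * f z) y = cf s f y)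

/-- Closure (section 5 of the paper). -/
def S_CLOSE : Prop :=
  ∀ (L A : Type) [Fintype L] [Nonempty L] [Fintype A] (k : ℕ) (F : L → NodeFun A (Fin (k + 2))),
    Equivar F → ∀ (s : ℕ) (η : Tr A s → Tr A s → ℝ), (∀ p y, 0 ≤ η p y) →
      (∀ p y, η p y ≤ beta F s p y) →
      1 - 24 * ∑ j ∈ range (s + 1), nullBad F j -
          12 * (1 - ∑ p : Tr A s, ∑ q : Tr A s, η p q * W F s (swap p) * W F s (swap q)) ≤
        ∑ p : Tr A s, ∑ y : Tr A s, ∑ q : Tr A s,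
          η p (swap q) * η y (swap p) * η q (swap y)

/-! ### Information -/

/-- Lemma SH: the abstract leakage inequality. -/
def S_SH : Prop :=
  ∀ (Ω P V U I J : Type) [Fintype Ω] [Nonempty Ω] [Fintype P] [Fintype V] [Fintype U] [Fintype I]
    [Fintype J] (p : Ω → P) (v : Ω → V) (u : J → V → U) (i : Ω → J → I) (c : U → I → ℝ)
    (ρ : P → V → ℝ) (C : ℝ), 0 < C → (∀ x y, 0 ≤ c x y) → (∀ x y, 0 ≤ ρ x y) →
    (∀ y, ∑ x, ρ x y ≤ 1) →
    (∀ v0 i0, pr (fun ω => v ω = v0 ∧ i ω = i0) =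
      pr (fun ω => v ω = v0) * ∏ j, c (u j v0) (i0 j)) →
    (∀ p0 v0 i0, pr (fun ω => p ω = p0 ∧ v ω = v0 ∧ i ω = i0) ≤
      C * ρ p0 v0 * pr (fun ω => v ω = v0 ∧ i ω = i0)) →
    ∑ j, ex (fun ω => Real.log (pv (fun ω' => (i ω' j, p ω', u j (v ω'))) ω /
      (pv (fun ω' => (p ω', u j (v ω'))) ω * c (u j (v ω)) (i ω j)))) ≤ Real.log C

/-- The strategies `σ x`, `x` uniform in `X`, realise the universal weights up to stage `S`. -/
def Realise {L A X : Type} [Fintype L] [Fintype A] [Fintype X] {k : ℕ}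
    (F : L → NodeFun A (Fin (k + 2))) (σ : X → Strat A) (S : ℕ) : Prop :=
  ∀ s ≤ S, ∀ y : Tr A s, W F s y = pr (fun x => Con (σ x) s y)

/-- The transcripts at a node with a random name and random branches at all slots. -/
noncomputable def rt {L A X : Type} {k : ℕ} (F : L → NodeFun A (Fin (k + 2))) (σ : X → Strat A)
    (s : ℕ) (j : Fin (k + 2)) (ω : L × (Fin (k + 2) → X)) : Tr A s :=
  run (F ω.1) (fun i => σ (ω.2 i)) s j

/-- The leakage bound for one round at a node (claims (1), (2) and exchangeability). -/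
def S_TERM : Prop :=
  ∀ (L A X : Type) [Fintype L] [Nonempty L] [Fintype A] [Fintype X] [Nonempty X] (k K S : ℕ)
    (F : L → NodeFun A (Fin (k + 2))) (σ : X → Strat A), Equivar F → RangeLE F K → 1 ≤ K →
    Realise F σ S → ∀ τ s, τ < s → s ≤ S →
      ex (fun ω => Real.log (pv (fun ω' => (rt F σ s 0 ω', rt F σ (τ + 1) 1 ω')) ω /
        (pv (fun ω' => (rt F σ s 0 ω', rt F σ τ 1 ω', (rt F σ (τ + 1) 1 ω').out)) ω *
          (W F (τ + 1) (swap (rt F σ (τ + 1) 1 ω)) / W F τ (swap (rt F σ τ 1 ω)))))) ≤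
      s * Real.log K / (k + 1)

/-- The law of the transcripts on the first two slots is `nu`. -/
def S_NU : Prop :=
  ∀ (L A X : Type) [Fintype L] [Nonempty L] [Fintype A] [Fintype X] [Nonempty X] (k S : ℕ)
    (F : L → NodeFun A (Fin (k + 2))) (σ : X → Strat A), Realise F σ S → ∀ s ≤ S,
    ∀ p y : Tr A s, pr (fun ω => rt F σ s 0 ω = p ∧ rt F σ s 1 ω = y) = nu F s p y

/-- The key inequality (section 3). -/
def S_KL : Prop :=
  ∀ (L A X : Type) [Fintype L] [Nonempty L] [Fintype A] [Fintype X] [Nonempty X] (k K S : ℕ)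
    (F : L → NodeFun A (Fin (k + 2))) (σ : X → Strat A), Equivar F → RangeLE F K → 1 ≤ K →
    Realise F σ S → ∀ s ≤ S,
      ∑ p : Tr A s, ∑ y : Tr A s, nu F s p y *
        Real.log (beta F s p y / (W F s p * cf s (Rw F s p) y)) ≤ s ^ 2 * Real.log K / (k + 1)

/-- Section 4. -/
def S_BAD : Prop :=
  ∀ (L A : Type) [Fintype L] [Nonempty L] [Fintype A] (k : ℕ) (F : L → NodeFun A (Fin (k + 2)))
    (s : ℕ) (κ : ℝ), ∑ p : Tr A s, ∑ y : Tr A s, nu F s p y *
        Real.log (beta F s p y / (W F s p * cf s (Rw F s p) y)) ≤ κ → nullBad F s ≤ 8 * κ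

/-! ### Branches -/

/-- Branches realise the universal weights. -/
def S_BR : Prop :=
  ∀ (L A : Type) [Fintype L] [Nonempty L] [Fintype A] (k : ℕ) (N : Node L A k), N.Start →
    (∀ h, ∃ σ : Br L k h → Strat A, ∀ s c y, Sat N.free h c s y ↔ Con (σ c) s y) ∧
    (∀ h s, s ≤ h + 1 → ∀ y, pr (fun c : Br L k h => Sat N.free h c s y) = W N.F s y)

/-- Sums for the events that all nodes of a component accept. -/
def S_SUM : Prop :=
  ∀ (L A : Type) [Fintype L] [Nonempty L] [Fintype A] (k : ℕ) (N : Node L A k), N.Start →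
    ∀ h s, s ≤ h + 1 →
    (∀ p q, pr (fun c : Hang L k h k => SatY N h s c p q) ≤ beta N.F s p q) ∧
    (pr (fun c : Hang L k h (k + 2) => SatT N h s c) ≤
      ∑ p : Tr A s, ∑ q : Tr A s, pr (fun c : Hang L k h k => SatY N h s c p q) *
        W N.F s (swap p) * W N.F s (swap q)) ∧
    (pr (fun x : Fin 3 → Hang L k h k => SatTri N h s x) =
      ∑ p : Tr A s, ∑ y : Tr A s, ∑ q : Tr A s,
        pr (fun c : Hang L k h k => SatY N h s c p (swap q)) *
        pr (fun c : Hang L k h k => SatY N h s c y (swap p)) *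
        pr (fun c : Hang L k h k => SatY N h s c q (swap y)))

/-- (CONTENT), section 6. -/
def S_CONTENT : Prop :=
  ∀ (L A : Type) [Fintype L] [Nonempty L] [Fintype A] (k K : ℕ) (N : Node L A k), N.Start →
    Equivar N.F → RangeLE N.F K → 1 ≤ K → ∀ h s, s ≤ h + 1 →
      1 - 192 * s ^ 3 * Real.log K / (k + 1) -
          12 * (1 - pr (fun c : Hang L k h (k + 2) => SatT N h s c)) ≤
        pr (fun x : Fin 3 → Hang L k h k => SatTri N h s x)

/-! ### From contents to graphs -/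

/-- Acceptance of a tree in the real run. -/
def S_LINKT : Prop :=
  ∀ (n B k h t : ℕ) (P : Alg n B) (G : SimpleGraph (Fin n)) (c : Hang (Fin n) k h (k + 2)),
    RealT G c → (SatT (nodeOf P k) h (t + 1) c ↔ ∀ x, ¬ rejectsAt P G t (labH c x))

/-- Acceptance of a triangle component in the real run. -/
def S_LINKTRI : Prop :=
  ∀ (n B k h t : ℕ) (P : Alg n B) (G : SimpleGraph (Fin n)) (x : Fin 3 → Hang (Fin n) k h k),
    (∀ i, RealY G (x i) (x (i + 1)).1 (x (i + 2)).1) →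
    (SatTri (nodeOf P k) h (t + 1) x ↔ ∀ i y, ¬ rejectsAt P G t (labH (x i) y))

/-- The node behaviour of an algorithm satisfies the hypotheses of (CONTENT). -/
def S_NODE : Prop :=
  ∀ (n B k : ℕ) (P : Alg n B), (nodeOf P k).Start ∧ Equivar (nodeOf P k).F ∧
    RangeLE (nodeOf P k).F (2 ^ B)

/-- The graph of `M` trees. -/
def S_G0 : Prop :=
  ∀ (n k h M : ℕ) (c : Fin M → Hang (Fin n) k h (k + 2)), Function.Injective (lab0 c) →
    ∃ G : SimpleGraph (Fin n), G.CliqueFree 3 ∧ (∀ m, RealT G (c m)) ∧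
      ∀ v, (∀ x, lab0 c x ≠ v) → ∀ w, ¬ G.Adj v w

/-- The graph of `M` trees and one triangle component. -/
def S_G1 : Prop :=
  ∀ (n k h M : ℕ) (c : Fin M → Hang (Fin n) k h (k + 2)) (x : Fin 3 → Hang (Fin n) k h k),
    Function.Injective (lab1 c x) →
    ∃ G : SimpleGraph (Fin n), ¬ G.CliqueFree 3 ∧ (∀ m, RealT G (c m)) ∧
      (∀ i, RealY G (x i) (x (i + 1)).1 (x (i + 2)).1) ∧
      ∀ v, (∀ y, lab1 c x y ≠ v) → ∀ w, ¬ G.Adj v w

/-- The graph of `M` trees has at most `n` edges (degree count). -/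
def S_EDGE0 : Prop :=
  ∀ (n k h M : ℕ) (c : Fin M → Hang (Fin n) k h (k + 2)) (G : SimpleGraph (Fin n)),
    Function.Injective (lab0 c) → (∀ m, RealT G (c m)) →
    (∀ v, (∀ x, lab0 c x ≠ v) → ∀ w, ¬ G.Adj v w) → G.edgeSet.ncard ≤ n

/-- The graph of `M` trees and a triangle component has at most `n` edges (degree count). -/
def S_EDGE1 : Prop :=
  ∀ (n k h M : ℕ) (c : Fin M → Hang (Fin n) k h (k + 2)) (x : Fin 3 → Hang (Fin n) k h k)
    (G : SimpleGraph (Fin n)), Function.Injective (lab1 c x) → (∀ m, RealT G (c m)) →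
    (∀ i, RealY G (x i) (x (i + 1)).1 (x (i + 2)).1) →
    (∀ v, (∀ y, lab1 c x y ≠ v) → ∀ w, ¬ G.Adj v w) → G.edgeSet.ncard ≤ n

/-- Most label families are injective and avoid `v`. -/
def S_COUNT : Prop :=
  ∀ (n k h M : ℕ), 0 < n →
    (∀ v : Fin n, 1 - (Fintype.card (P0 k h M) : ℝ) ^ 2 / n ≤
      pr (fun c : Fin M → Hang (Fin n) k h (k + 2) =>
        Function.Injective (lab0 c) ∧ ∀ x, lab0 c x ≠ v)) ∧
    (1 - (Fintype.card (P1 k h M) : ℝ) ^ 2 / n ≤
      pr (fun c : (Fin M → Hang (Fin n) k h (k + 2)) × (Fin 3 → Hang (Fin n) k h k) =>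
        Function.Injective (lab1 c.1 c.2)))

/-- The number of positions. -/
def S_CARD : Prop :=
  ∀ k h : ℕ, (Fintype.card (P0 k h 111) : ℝ) ≤ 111 * (k + 3) ^ (h + 2) ∧
    (Fintype.card (P1 k h 110) : ℝ) ≤ 113 * (k + 3) ^ (h + 2)

open Classical in
/-- The deterministic core: a deterministic algorithm errs a lot on the two families (`g0`, `g1` are
arbitrary choices of the graphs of `S_G0`, `S_G1`). -/
def S_DET : Prop :=
  ∀ (n B t k : ℕ) (P : Alg n B), 0 < n →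
    192 * (t + 1 : ℝ) ^ 3 * Real.log (2 ^ B) / (k + 1) ≤ 1 / 10 →
    100 * (113 * (k + 3 : ℝ) ^ (t + 2)) ^ 2 ≤ n →
    ∀ (g0 : (Fin 111 → Hang (Fin n) k t (k + 2)) → SimpleGraph (Fin n))
      (g1 : (Fin 110 → Hang (Fin n) k t (k + 2)) × (Fin 3 → Hang (Fin n) k t k) →
        SimpleGraph (Fin n)),
      (∀ c, Function.Injective (lab0 c) → (∀ m, RealT (g0 c) (c m)) ∧
        ∀ v, (∀ x, lab0 c x ≠ v) → ∀ w, ¬ (g0 c).Adj v w) →
      (∀ c, Function.Injective (lab1 c.1 c.2) → (∀ m, RealT (g1 c) (c.1 m)) ∧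
        (∀ i, RealY (g1 c) (c.2 i) (c.2 (i + 1)).1 (c.2 (i + 2)).1) ∧
        ∀ v, (∀ y, lab1 c.1 c.2 y ≠ v) → ∀ w, ¬ (g1 c).Adj v w) →
      3 / 4 ≤ pr (fun c => Function.Injective (lab0 c) ∧ Rejects P t (g0 c)) +
        pr (fun c => Function.Injective (lab1 c.1 c.2) ∧ ¬ Rejects P t (g1 c))

/-- The lower bound for given parameters. -/
def S_RAND : Prop :=
  ∀ (n B t k : ℕ) (Ω : Type) [MeasurableSpace Ω] (μ : Measure Ω) [IsProbabilityMeasure μ]
    (P : Ω → Alg n B), ErrLE μ P t → 0 < n →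
    192 * (t + 1 : ℝ) ^ 3 * Real.log (2 ^ B) / (k + 1) ≤ 1 / 10 →
    (n : ℝ) < 100 * (113 * (k + 3 : ℝ) ^ (t + 2)) ^ 2

end Pool.Agent.CT
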