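import Mathlib
import Pool.Agent.CT.Stmts

/-!
# The graph of `M` trees
-/

namespace Pool.Agent.CT

open Finset Matrix

/-! ### Positions -/

/-- The root position of a branch. -/
def gRpos {k : ℕ} : ∀ h, BP k h
  | 0 => ()
  | _ + 1 => Sum.inl ()

/-- Adjacency for a new root above `m` copies of a rooted structure. -/
def gAdjU {P : Type} {m : ℕ} (R : P → P → Prop) (r : P) :
    Unit ⊕ (Fin m × P) → Unit ⊕ (Fin m × P) → Prop
  | Sum.inl _, Sum.inl _ => False
  | Sum.inl _, Sum.inr x => x.2 = r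
  | Sum.inr x, Sum.inl _ => x.2 = r
  | Sum.inr x, Sum.inr y => x.1 = y.1 ∧ R x.2 y.2

/-- Adjacency of positions of a branch. -/
def gAdjB {k : ℕ} : ∀ h, BP k h → BP k h → Prop
  | 0 => fun _ _ => False
  | h + 1 => gAdjU (gAdjB h) (gRpos h)

/-- Adjacency of positions of a node with hanging branches. -/
def gAdjH {k h m : ℕ} : HP k h m → HP k h m → Prop := gAdjU (gAdjB h) (gRpos h)

/-- Parity of the depth. -/
def gColU {P : Type} {m : ℕ} (f : P → Bool) : Unit ⊕ (Fin m × P) → Bool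
  | Sum.inl _ => false
  | Sum.inr x => !f x.2

/-- Parity of the depth in a branch. -/
def gColB {k : ℕ} : ∀ h, BP k h → Bool
  | 0 => fun _ => false
  | h + 1 => gColU (gColB h)

theorem gColB_rpos {k : ℕ} : ∀ h, gColB (k := k) h (gRpos h) = false
  | 0 => rfl
  | _ + 1 => rfl

theorem gAdjU_symm {P : Type} {m : ℕ} {R : P → P → Prop} {r : P} (hR : ∀ x y, R x y → R y x) :
    ∀ x y : Unit ⊕ (Fin m × P), gAdjU R r x y → gAdjU R r y x
  | Sum.inl _, Sum.inl _, h => h
  | Sum.inl _, Sum.inr _, h => h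
  | Sum.inr _, Sum.inl _, h => h
  | Sum.inr _, Sum.inr _, h => ⟨h.1.symm, hR _ _ h.2⟩

theorem gAdjB_symm {k : ℕ} : ∀ h (x y : BP k h), gAdjB h x y → gAdjB h y x
  | 0, _, _, h => h
  | h + 1, x, y, hxy => gAdjU_symm (gAdjB_symm h) x y hxy

theorem gAdjU_col {P : Type} {m : ℕ} {R : P → P → Prop} {r : P} {f : P → Bool}
    (hr : f r = false) (hR : ∀ x y, R x y → f x ≠ f y) :
    ∀ x y : Unit ⊕ (Fin m × P), gAdjU R r x y → gColU f x ≠ gColU f y
  | Sum.inl _, Sum.inl _, h => h.elim
  | Sum.inl _, Sum.inr x, h => by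
      have h1 : x.2 = r := h
      simp [gColU, h1, hr]
  | Sum.inr x, Sum.inl _, h => by
      have h1 : x.2 = r := h
      simp [gColU, h1, hr]
  | Sum.inr x, Sum.inr y, h => by
      have h1 := hR _ _ h.2
      simpa [gColU] using h1

theorem gAdjB_col {k : ℕ} : ∀ h (x y : BP k h), gAdjB h x y → gColB h x ≠ gColB h y
  | 0, _, _, h => h.elim
  | h + 1, x, y, hxy => gAdjU_col (gColB_rpos h) (gAdjB_col h) x y hxy

theorem gAdjH_symm {k h m : ℕ} (x y : HP k h m) : gAdjH x y → gAdjH y x :=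
  gAdjU_symm (gAdjB_symm h) x y

theorem gAdjH_col {k h m : ℕ} (x y : HP k h m) :
    gAdjH x y → gColU (gColB h) x ≠ gColU (gColB h) y :=
  gAdjU_col (gColB_rpos h) (gAdjB_col h) x y

theorem gRoot_eq {L : Type} {k : ℕ} : ∀ {h : ℕ} (c : Br L k h), labB c (gRpos h) = root c
  | 0, _ => rfl
  | _ + 1, _ => rfl

/-! ### The graph of a labelled position graph -/

section mk

variable {P : Type} {n : ℕ}

/-- The graph on the labels. -/
def gMk (H : P → P → Prop) (hs : ∀ x y, H x y → H y x) (hi : ∀ x, ¬ H x x) (l : P → Fin n)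
    (hl : Function.Injective l) : SimpleGraph (Fin n) where
  Adj a b := ∃ x y, H x y ∧ l x = a ∧ l y = b
  symm := ⟨by
    rintro a b ⟨x, y, h, hx, hy⟩
    exact ⟨y, x, hs _ _ h, hy, hx⟩⟩
  loopless := ⟨by
    rintro a ⟨x, y, h, hx, hy⟩
    have : x = y := hl (hx.trans hy.symm)
    subst this
    exact hi x h⟩

variable {H : P → P → Prop} {hs : ∀ x y, H x y → H y x} {hi : ∀ x, ¬ H x x} {l : P → Fin n}
  {hl : Function.Injective l}

theorem gMk_adj (x : P) (w : Fin n) :
    (gMk H hs hi l hl).Adj (l x) w ↔ ∃ y, H x y ∧ l y = w := by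
  constructor
  · rintro ⟨x', y, h, hx, hy⟩
    have : x' = x := hl hx
    subst this
    exact ⟨y, h, hy⟩
  · rintro ⟨y, h, hy⟩
    exact ⟨x, y, h, rfl, hy⟩

theorem gMk_isolated (v : Fin n) (hv : ∀ x, l x ≠ v) (w : Fin n) :
    ¬ (gMk H hs hi l hl).Adj v w := by
  rintro ⟨x, y, -, hx, -⟩
  exact hv x hx

theorem gMk_cliqueFree (f : P → Bool) (hf : ∀ x y, H x y → f x ≠ f y) :
    (gMk H hs hi l hl).CliqueFree 3 := by
  intro s hsc
  obtain ⟨a, b, c, h1, h2, h3, -⟩ := SimpleGraph.is3Clique_iff.1 hsc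
  obtain ⟨x, y, hxy, rfl, rfl⟩ := h1
  obtain ⟨z, hxz, rfl⟩ := (gMk_adj _ _).1 h2
  obtain ⟨z', hyz, hz⟩ := (gMk_adj _ _).1 h3
  have : z' = z := hl hz
  subst this
  have e1 := hf _ _ hxy
  have e2 := hf _ _ hxz
  have e3 := hf _ _ hyz
  revert e1 e2 e3
  cases f x <;> cases f y <;> cases f z' <;> simp

/-- A branch is realised. -/
theorem gRealB {k : ℕ} : ∀ {h : ℕ} (c : Br (Fin n) k h) (e : BP k h → P) (p : P),
    Function.Injective e → (∀ x, e x ≠ p) → (∀ x, l (e x) = labB c x) →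
    (∀ x z, H (e x) z ↔ (∃ y, z = e y ∧ gAdjB h x y) ∨ (x = gRpos h ∧ z = p)) →
    RealB (gMk H hs hi l hl) c (l p)
  | 0, c, e, p, _, _, hlab, hadj => by
      intro w
      have h0 : l (e ()) = c := hlab ()
      rw [← h0, gMk_adj]
      constructor
      · rintro ⟨y, h, hy⟩
        rcases (hadj _ _).1 h with ⟨y', -, h1⟩ | ⟨-, h1⟩
        · exact h1.elim
        · rw [← hy, h1]
      · rintro rfl
        exact ⟨p, (hadj _ _).2 (Or.inr ⟨rfl, rfl⟩), rfl⟩
  | h + 1, c, e, p, he, hp, hlab, hadj => by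
      have h0 : l (e (Sum.inl ())) = c.1 := hlab (Sum.inl ())
      have hr : ∀ j, l (e (Sum.inr (j, gRpos h))) = root (c.2 j) := by
        intro j
        rw [← gRoot_eq]
        exact hlab (Sum.inr (j, gRpos h))
      refine ⟨?_, ?_, ?_⟩
      · have h1 : (vecCons (l p) fun j => root (c.2 j)) =
            fun j => l ((vecCons p fun j => e (Sum.inr (j, gRpos h))) j) := by
          funext j
          refine Fin.cases ?_ (fun j => ?_) j
          · rfl
          · exact (hr j).symm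
        rw [h1]
        refine hl.comp ?_
        intro a b
        refine Fin.cases ?_ (fun a => ?_) a <;> refine Fin.cases ?_ (fun b => ?_) b
        · intro _; rfl
        · intro hab
          exact absurd hab.symm (hp _)
        · intro hab
          exact absurd hab (hp _)
        · intro hab
          have h2 := he (show e (Sum.inr (a, gRpos h)) = e (Sum.inr (b, gRpos h)) from hab)
          have h3 := Sum.inr.inj h2
          rw [(Prod.mk.inj h3).1]
      · intro w
        rw [← h0, gMk_adj]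
        constructor
        · rintro ⟨y, hy, rfl⟩
          rcases (hadj _ _).1 hy with ⟨y', rfl, h1⟩ | ⟨-, rfl⟩
          · match y', h1 with
            | Sum.inl _, h1 => exact h1.elim
            | Sum.inr (j, x), h1 =>
              have h2 : x = gRpos h := h1
              subst h2
              exact ⟨j.succ, hr j⟩
          · exact ⟨0, rfl⟩
        · rintro ⟨j, rfl⟩
          refine Fin.cases ?_ (fun j => ?_) j
          · exact ⟨p, (hadj _ _).2 (Or.inr ⟨rfl, rfl⟩), rfl⟩
          · exact ⟨e (Sum.inr (j, gRpos h)), (hadj _ _).2 (Or.inl ⟨_, rfl, rfl⟩), hr j⟩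
      · intro j
        rw [← h0]
        refine gRealB (c.2 j) (fun x => e (Sum.inr (j, x))) (e (Sum.inl ())) ?_ ?_ ?_ ?_
        · intro x y hxy
          exact (Prod.mk.inj (Sum.inr.inj (he hxy))).2
        · intro x hx
          exact Sum.inr_ne_inl (he hx)
        · intro x
          exact hlab (Sum.inr (j, x))
        · intro x z
          rw [hadj]
          constructor
          · rintro (⟨y, rfl, h1⟩ | ⟨h1, -⟩)
            · match y, h1 with
              | Sum.inl _, h1 => exact Or.inr ⟨h1, rfl⟩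
              | Sum.inr (j', y), h1 =>
                obtain ⟨h2, h3⟩ := h1
                have h2' : j = j' := h2
                subst h2'
                exact Or.inl ⟨y, rfl, h3⟩
            · exact (Sum.inr_ne_inl h1).elim
          · rintro (⟨y, rfl, h1⟩ | ⟨h1, rfl⟩)
            · exact Or.inl ⟨Sum.inr (j, y), rfl, rfl, h1⟩
            · exact Or.inl ⟨Sum.inl (), rfl, h1⟩

/-- The branches hanging at a node are realised. -/
theorem gRealHang {k h m : ℕ} (c : Hang (Fin n) k h m) (e : HP k h m → P)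
    (he : Function.Injective e) (hlab : ∀ x, l (e x) = labH c x)
    (hadj : ∀ x z, H (e (Sum.inr x)) z ↔ ∃ y, z = e y ∧ gAdjH (Sum.inr x) y) (j : Fin m) :
    RealB (gMk H hs hi l hl) (c.2 j) c.1 := by
  have h0 : l (e (Sum.inl ())) = c.1 := hlab (Sum.inl ())
  rw [← h0]
  refine gRealB (c.2 j) (fun x => e (Sum.inr (j, x))) (e (Sum.inl ())) ?_ ?_ ?_ ?_
  · intro x y hxy
    exact (Prod.mk.inj (Sum.inr.inj (he hxy))).2
  · intro x hx
    exact Sum.inr_ne_inl (he hx)
  · intro x
    exact hlab (Sum.inr (j, x))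
  · intro x z
    rw [hadj]
    constructor
    · rintro ⟨y, rfl, h1⟩
      match y, h1 with
      | Sum.inl _, h1 => exact Or.inr ⟨h1, rfl⟩
      | Sum.inr (j', y), h1 =>
        obtain ⟨h2, h3⟩ := h1
        have h2' : j = j' := h2
        subst h2'
        exact Or.inl ⟨y, rfl, h3⟩
    · rintro (⟨y, rfl, h1⟩ | ⟨h1, rfl⟩)
      · exact ⟨Sum.inr (j, y), rfl, rfl, h1⟩
      · exact ⟨Sum.inl (), rfl, h1⟩

/-- The root labels of the branches hanging at a node. -/
theorem gHang_root {k h m : ℕ} (c : Hang (Fin n) k h m) (e : HP k h m → P)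
    (hlab : ∀ x, l (e x) = labH c x) (j : Fin m) :
    l (e (Sum.inr (j, gRpos h))) = root (c.2 j) := by
  rw [← gRoot_eq]
  exact hlab (Sum.inr (j, gRpos h))

/-- A tree is realised. -/
theorem gRealT {k h : ℕ} (c : Hang (Fin n) k h (k + 2)) (e : HP k h (k + 2) → P)
    (he : Function.Injective e) (hlab : ∀ x, l (e x) = labH c x)
    (hadj : ∀ x z, H (e x) z ↔ ∃ y, z = e y ∧ gAdjH x y) :
    RealT (gMk H hs hi l hl) c := by
  have h0 : l (e (Sum.inl ())) = c.1 := hlab (Sum.inl ())
  have hr := gHang_root c e hlab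
  refine ⟨?_, ?_, gRealHang c e he hlab fun x z => hadj _ _⟩
  · intro a b hab
    simp only [← hr] at hab
    exact (Prod.mk.inj (Sum.inr.inj (he (hl hab)))).1
  · intro w
    rw [← h0, gMk_adj]
    constructor
    · rintro ⟨y, hy, rfl⟩
      obtain ⟨y', rfl, h1⟩ := (hadj _ _).1 hy
      match y', h1 with
      | Sum.inl _, h1 => exact h1.elim
      | Sum.inr (j, x), h1 =>
        have h2 : x = gRpos h := h1
        subst h2
        exact ⟨j, hr j⟩
    · rintro ⟨j, rfl⟩
      exact ⟨e (Sum.inr (j, gRpos h)), (hadj _ _).2 ⟨_, rfl, rfl⟩, hr j⟩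

end mk

/-- The position graph of `M` trees. -/
def gH0 {k h M : ℕ} (x y : P0 k h M) : Prop := x.1 = y.1 ∧ gAdjH x.2 y.2

theorem g0 : S_G0 := by
  intro n k h M c hc
  have hcol : ∀ x y : P0 k h M, gH0 x y → gColU (gColB h) x.2 ≠ gColU (gColB h) y.2 :=
    fun x y hxy => gAdjH_col _ _ hxy.2
  refine ⟨gMk gH0 (fun x y hxy => ⟨hxy.1.symm, gAdjH_symm _ _ hxy.2⟩)
    (fun x hx => hcol x x hx rfl) (lab0 c) hc, gMk_cliqueFree _ hcol, ?_, ?_⟩
  · intro m
    refine gRealT (c m) (fun x => ((m, x) : P0 k h M)) ?_ (fun x => rfl) ?_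
    · intro x y hxy
      exact (Prod.mk.inj hxy).2
    · rintro x ⟨m', z⟩
      constructor
      · rintro ⟨h1, h2⟩
        have h1' : m = m' := h1
        subst h1'
        exact ⟨z, rfl, h2⟩
      · rintro ⟨y, h1, h2⟩
        obtain ⟨rfl, rfl⟩ := Prod.mk.inj h1
        exact ⟨rfl, h2⟩
  · intro v hv w
    exact gMk_isolated v hv w

end Pool.Agent.CT
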