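import Pool.Agent.CT.Stmts

/-!
# CT: the graph of `M` trees and one triangle component
-/

namespace Pool.Agent.CT

open Finset Matrix

section edges
variable {n k : ℕ}

/-- Parent to child edges inside a branch. -/
def g1EB : ∀ {h : ℕ}, Br (Fin n) k h → Fin n → Fin n → Prop
  | 0, _, _, _ => False
  | _ + 1, c, u, w => ∃ j, (u = c.1 ∧ w = root (c.2 j)) ∨ g1EB (c.2 j) u w

/-- Parent to child edges at a node with hanging branches. -/
def g1EH {h m : ℕ} (c : Hang (Fin n) k h m) (u w : Fin n) : Prop :=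
  ∃ j, (u = c.1 ∧ w = root (c.2 j)) ∨ g1EB (c.2 j) u w

/-- The name occurs in the branch. -/
def g1InB {h : ℕ} (c : Br (Fin n) k h) (u : Fin n) : Prop := ∃ x, labB c x = u

/-- The name occurs at the node or in its hanging branches. -/
def g1InH {h m : ℕ} (c : Hang (Fin n) k h m) (u : Fin n) : Prop := ∃ x, labH c x = u

lemma g1_root_mem : ∀ {h : ℕ} (c : Br (Fin n) k h), g1InB c (root c)
  | 0, _ => ⟨(), rfl⟩
  | _ + 1, _ => ⟨Sum.inl (), rfl⟩

lemma g1_inH_inl {h m : ℕ} (c : Hang (Fin n) k h m) : g1InH c c.1 := ⟨Sum.inl (), rfl⟩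

lemma g1_inH_inr {h m : ℕ} (c : Hang (Fin n) k h m) (j : Fin m) {u : Fin n}
    (hu : g1InB (c.2 j) u) : g1InH c u := by
  obtain ⟨x, hx⟩ := hu
  exact ⟨Sum.inr (j, x), hx⟩

lemma g1_inB_succ {h : ℕ} (c : Br (Fin n) k (h + 1)) (u : Fin n) :
    g1InB c u ↔ g1InH (m := k + 1) (h := h) c u := by
  constructor
  · rintro ⟨x, hx⟩
    rcases x with x | x
    · exact ⟨Sum.inl (), hx⟩
    · exact ⟨Sum.inr x, hx⟩
  · rintro ⟨x, hx⟩
    rcases x with x | x
    · exact ⟨Sum.inl (), hx⟩
    · exact ⟨Sum.inr x, hx⟩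

lemma g1_inH_cases {h m : ℕ} (c : Hang (Fin n) k h m) {u : Fin n} (hu : g1InH c u) :
    u = c.1 ∨ ∃ j, g1InB (c.2 j) u := by
  obtain ⟨x, hx⟩ := hu
  rcases x with x | x
  · exact Or.inl hx.symm
  · exact Or.inr ⟨x.1, x.2, hx⟩

lemma g1_injB_succ {h : ℕ} (c : Br (Fin n) k (h + 1)) (hc : Function.Injective (labB c)) :
    Function.Injective (labH (m := k + 1) (h := h) c) := by
  intro x y hxy
  have hx : labB c x = labH (m := k + 1) (h := h) c x := by
    rcases x with x | x <;> rfl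
  have hy : labB c y = labH (m := k + 1) (h := h) c y := by
    rcases y with y | y <;> rfl
  exact hc (hx.trans (hxy.trans hy.symm))

lemma g1_inj_sub {h m : ℕ} (c : Hang (Fin n) k h m) (hc : Function.Injective (labH c)) :
    (∀ j, ¬ g1InB (c.2 j) c.1) ∧
      (∀ j j' u, g1InB (c.2 j) u → g1InB (c.2 j') u → j = j') ∧
      (∀ j, Function.Injective (labB (c.2 j))) := by
  refine ⟨?_, ?_, ?_⟩
  · rintro j ⟨x, hx⟩
    have h1 : labH c (Sum.inr (j, x)) = labH c (Sum.inl ()) := hx
    have h2 := hc h1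
    cases h2
  · rintro j j' u ⟨x, hx⟩ ⟨x', hx'⟩
    have h1 : labH c (Sum.inr (j, x)) = labH c (Sum.inr (j', x')) := hx.trans hx'.symm
    have h2 := hc h1
    have h3 := Sum.inr.inj h2
    exact congrArg Prod.fst h3
  · intro j x y hxy
    have h1 : labH c (Sum.inr (j, x)) = labH c (Sum.inr (j, y)) := hxy
    have h2 := hc h1
    have h3 := Sum.inr.inj h2
    exact congrArg Prod.snd h3

lemma g1EB_mem : ∀ {h : ℕ} (c : Br (Fin n) k h) {u w : Fin n}, g1EB c u w →
    g1InB c u ∧ g1InB c w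
  | 0, _, _, _, h => h.elim
  | h + 1, c, u, w, hE => by
      obtain ⟨j, hj⟩ := hE
      rw [g1_inB_succ, g1_inB_succ]
      rcases hj with ⟨h1, h2⟩ | h1
      · rw [h1, h2]
        exact ⟨g1_inH_inl _, g1_inH_inr (m := k + 1) (h := h) c j (g1_root_mem _)⟩
      · have h2 := g1EB_mem (c.2 j) h1
        exact ⟨g1_inH_inr (m := k + 1) (h := h) c j h2.1,
          g1_inH_inr (m := k + 1) (h := h) c j h2.2⟩

lemma g1EH_mem {h m : ℕ} (c : Hang (Fin n) k h m) {u w : Fin n} (hE : g1EH c u w) :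
    g1InH c u ∧ g1InH c w := by
  obtain ⟨j, hj⟩ := hE
  rcases hj with ⟨h1, h2⟩ | h1
  · rw [h1, h2]
    exact ⟨g1_inH_inl _, g1_inH_inr c j (g1_root_mem _)⟩
  · have h2 := g1EB_mem (c.2 j) h1
    exact ⟨g1_inH_inr c j h2.1, g1_inH_inr c j h2.2⟩

lemma g1EB_ne : ∀ {h : ℕ} (c : Br (Fin n) k h) {u w : Fin n}, Function.Injective (labB c) →
    g1EB c u w → u ≠ w
  | 0, _, _, _, _, h => h.elim
  | h + 1, c, u, w, hc, hE => by
      have h0 := g1_inj_sub (m := k + 1) (h := h) c (g1_injB_succ c hc)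
      obtain ⟨j, hj⟩ := hE
      rcases hj with ⟨h1, h2⟩ | h1
      · intro h3
        apply h0.1 j
        rw [← h1, h3, h2]
        exact g1_root_mem _
      · exact g1EB_ne (c.2 j) (h0.2.2 j) h1

lemma g1EH_ne {h m : ℕ} (c : Hang (Fin n) k h m) (hc : Function.Injective (labH c))
    {u w : Fin n} (hE : g1EH c u w) : u ≠ w := by
  have h0 := g1_inj_sub c hc
  obtain ⟨j, hj⟩ := hE
  rcases hj with ⟨h1, h2⟩ | h1
  · intro h3
    apply h0.1 j
    rw [← h1, h3, h2]
    exact g1_root_mem _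
  · exact g1EB_ne (c.2 j) (h0.2.2 j) h1

/-- The graph `G` contains the branch as it should. -/
def g1Good (n k h : ℕ) : Prop :=
  ∀ (G : SimpleGraph (Fin n)) (c : Br (Fin n) k h) (v : Fin n), Function.Injective (labB c) →
    ¬ g1InB c v → (∀ u, g1InB c u → ∀ w, G.Adj u w ↔
      (g1EB c u w ∨ g1EB c w u ∨ (u = root c ∧ w = v))) → RealB G c v

/-- A node with hanging branches, `T` the set of its further neighbours. -/
lemma g1_hang {h m : ℕ} (ih : g1Good n k h) (G : SimpleGraph (Fin n)) (c : Hang (Fin n) k h m)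
    (T : Fin n → Prop) (hc : Function.Injective (labH c)) (hT : ∀ w, T w → ¬ g1InH c w)
    (hG : ∀ u, g1InH c u → ∀ w, G.Adj u w ↔
      (g1EH c u w ∨ g1EH c w u ∨ (u = c.1 ∧ T w))) :
    Function.Injective (fun j => root (c.2 j)) ∧ (∀ j, ¬ T (root (c.2 j))) ∧
      (∀ w, G.Adj c.1 w ↔ (T w ∨ ∃ j, w = root (c.2 j))) ∧ ∀ j, RealB G (c.2 j) c.1 := by
  obtain ⟨h1, h2, h3⟩ := g1_inj_sub c hc
  refine ⟨?_, ?_, ?_, ?_⟩
  · intro j j' hj
    have hj' : root (c.2 j) = root (c.2 j') := hj
    refine h2 j j' (root (c.2 j)) (g1_root_mem _) ?_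
    rw [hj']
    exact g1_root_mem _
  · intro j hj
    exact hT _ hj (g1_inH_inr c j (g1_root_mem _))
  · intro w
    rw [hG c.1 (g1_inH_inl c) w]
    constructor
    · rintro (h4 | h4 | h4)
      · obtain ⟨j, h5 | h5⟩ := h4
        · exact Or.inr ⟨j, h5.2⟩
        · exact absurd (g1EB_mem _ h5).1 (h1 j)
      · obtain ⟨j, h5 | h5⟩ := h4
        · exfalso
          apply h1 j
          rw [h5.2]
          exact g1_root_mem _
        · exact absurd (g1EB_mem _ h5).2 (h1 j)
      · exact Or.inl h4.2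
    · rintro (h4 | ⟨j, h4⟩)
      · exact Or.inr (Or.inr ⟨rfl, h4⟩)
      · exact Or.inl ⟨j, Or.inl ⟨rfl, h4⟩⟩
  · intro j
    refine ih G (c.2 j) c.1 (h3 j) (h1 j) ?_
    intro u hu w
    have hu1 : u ≠ c.1 := by
      intro h4
      rw [h4] at hu
      exact h1 j hu
    rw [hG u (g1_inH_inr c j hu) w]
    constructor
    · rintro (h4 | h4 | h4)
      · obtain ⟨j', h5 | h5⟩ := h4
        · exact absurd h5.1 hu1
        · have h6 := h2 j j' u hu (g1EB_mem _ h5).1
          rw [← h6] at h5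
          exact Or.inl h5
      · obtain ⟨j', h5 | h5⟩ := h4
        · have h7 : g1InB (c.2 j') u := by
            rw [h5.2]
            exact g1_root_mem _
          have h6 := h2 j j' u hu h7
          rw [← h6] at h5
          exact Or.inr (Or.inr ⟨h5.2, h5.1⟩)
        · have h6 := h2 j j' u hu (g1EB_mem _ h5).2
          rw [← h6] at h5
          exact Or.inr (Or.inl h5)
      · exact absurd h4.1 hu1
    · rintro (h4 | h4 | h4)
      · exact Or.inl ⟨j, Or.inr h4⟩
      · exact Or.inr (Or.inl ⟨j, Or.inr h4⟩)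
      · exact Or.inr (Or.inl ⟨j, Or.inl ⟨h4.2, h4.1⟩⟩)

lemma g1_good : ∀ h : ℕ, g1Good n k h
  | 0 => by
      intro G c v _ _ hG w
      have h1 := hG (root c) (g1_root_mem c) w
      constructor
      · intro h2
        rcases h1.mp h2 with h3 | h3 | h3
        · exact h3.elim
        · exact h3.elim
        · exact h3.2
      · intro h2
        exact h1.mpr (Or.inr (Or.inr ⟨rfl, h2⟩))
  | h + 1 => by
      intro G c v hc hv hG
      have h1 := g1_hang (m := k + 1) (g1_good h) G c (fun w => w = v) (g1_injB_succ c hc) ?_ ?_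
      · obtain ⟨h2, h3, h4, h5⟩ := h1
        refine ⟨?_, ?_, h5⟩
        · intro i j
          refine Fin.cases ?_ (fun i => ?_) i <;> refine Fin.cases ?_ (fun j => ?_) j
          · intro _
            rfl
          · intro h6
            exact absurd h6.symm (h3 j)
          · intro h6
            exact absurd h6 (h3 i)
          · intro h6
            exact congrArg Fin.succ (h2 h6)
        · intro w
          refine (h4 w).trans ?_
          constructor
          · rintro (h6 | ⟨j, h6⟩)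
            · exact ⟨0, h6⟩
            · exact ⟨j.succ, h6⟩
          · rintro ⟨j, h6⟩
            revert h6
            refine Fin.cases ?_ (fun j => ?_) j
            · intro h6
              exact Or.inl h6
            · intro h6
              exact Or.inr ⟨j, h6⟩
      · intro w hw
        rw [hw, ← g1_inB_succ]
        exact hv
      · intro u hu w
        exact hG u ((g1_inB_succ c u).mpr hu) w

lemma g1_fin3_1 : ∀ i : Fin 3, i ≠ i + 1 := by decide
lemma g1_fin3_2 : ∀ i : Fin 3, i ≠ i + 2 := by decide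
lemma g1_fin3_3 : ∀ i : Fin 3, i + 1 ≠ i + 2 := by decide
lemma g1_fin3_4 : ∀ i : Fin 3, i + 1 + 2 = i := by decide
lemma g1_fin3_5 : ∀ i : Fin 3, i + 2 + 1 = i := by decide

end edges

/-- The graph of `M` trees and one triangle component. -/
theorem g1 : S_G1 := by
  intro n k h M c x hinj
  -- consequences of injectivity
  have ic : ∀ m, Function.Injective (labH (c m)) := by
    intro m y y' hy
    have h1 : lab1 c x (Sum.inl (m, y)) = lab1 c x (Sum.inl (m, y')) := hy
    exact congrArg Prod.snd (Sum.inl.inj (hinj h1))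
  have ix : ∀ i, Function.Injective (labH (x i)) := by
    intro m y y' hy
    have h1 : lab1 c x (Sum.inr (m, y)) = lab1 c x (Sum.inr (m, y')) := hy
    exact congrArg Prod.snd (Sum.inr.inj (hinj h1))
  have dcc : ∀ m m' u, g1InH (c m) u → g1InH (c m') u → m = m' := by
    rintro m m' u ⟨y, hy⟩ ⟨y', hy'⟩
    have h1 : lab1 c x (Sum.inl (m, y)) = lab1 c x (Sum.inl (m', y')) := hy.trans hy'.symm
    exact congrArg Prod.fst (Sum.inl.inj (hinj h1))
  have dxx : ∀ m m' u, g1InH (x m) u → g1InH (x m') u → m = m' := by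
    rintro m m' u ⟨y, hy⟩ ⟨y', hy'⟩
    have h1 : lab1 c x (Sum.inr (m, y)) = lab1 c x (Sum.inr (m', y')) := hy.trans hy'.symm
    exact congrArg Prod.fst (Sum.inr.inj (hinj h1))
  have dcx : ∀ m i u, g1InH (c m) u → g1InH (x i) u → False := by
    rintro m i u ⟨y, hy⟩ ⟨y', hy'⟩
    have h1 : lab1 c x (Sum.inl (m, y)) = lab1 c x (Sum.inr (i, y')) := hy.trans hy'.symm
    have h2 := hinj h1
    cases h2
  -- the three nodes of the triangle are different
  have dr : ∀ i j, (x i).1 = (x j).1 → i = j := by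
    intro i j hij
    refine dxx i j (x i).1 (g1_inH_inl _) ?_
    rw [hij]
    exact g1_inH_inl _
  obtain ⟨E, hE⟩ : ∃ E : Fin n → Fin n → Prop, ∀ u w, E u w ↔
      ((∃ m, g1EH (c m) u w) ∨ (∃ i, g1EH (x i) u w) ∨
        ∃ i, u = (x i).1 ∧ w = (x (i + 1)).1) := ⟨_, fun _ _ => Iff.rfl⟩
  have hne : ∀ u w, E u w → u ≠ w := by
    intro u w huw
    rcases (hE u w).mp huw with ⟨m, h1⟩ | ⟨i, h1⟩ | ⟨i, h1, h2⟩
    · exact g1EH_ne (c m) (ic m) h1
    · exact g1EH_ne (x i) (ix i) h1
    · intro h3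
      exact g1_fin3_1 i (dr i (i + 1) (by rw [← h1, ← h2, h3]))
  have hadj : ∀ u w, (SimpleGraph.fromRel E).Adj u w ↔ (E u w ∨ E w u) := by
    intro u w
    rw [SimpleGraph.fromRel_adj]
    constructor
    · exact fun h1 => h1.2
    · intro h1
      refine ⟨?_, h1⟩
      rcases h1 with h1 | h1
      · exact hne u w h1
      · exact (hne w u h1).symm
  -- adjacency at the vertices of the trees
  have hadjc : ∀ m u, g1InH (c m) u → ∀ w, (SimpleGraph.fromRel E).Adj u w ↔
      (g1EH (c m) u w ∨ g1EH (c m) w u ∨ (u = (c m).1 ∧ False)) := by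
    intro m u hu w
    rw [hadj, hE, hE]
    constructor
    · rintro ((⟨m', h1⟩ | ⟨i, h1⟩ | ⟨i, h1, h2⟩) | (⟨m', h1⟩ | ⟨i, h1⟩ | ⟨i, h1, h2⟩))
      · rw [← dcc m m' u hu (g1EH_mem _ h1).1] at h1
        exact Or.inl h1
      · exact (dcx m i u hu (g1EH_mem _ h1).1).elim
      · rw [h1] at hu
        exact (dcx m i _ hu (g1_inH_inl _)).elim
      · rw [← dcc m m' u hu (g1EH_mem _ h1).2] at h1
        exact Or.inr (Or.inl h1)
      · exact (dcx m i u hu (g1EH_mem _ h1).2).elim
      · rw [h2] at hu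
        exact (dcx m (i + 1) _ hu (g1_inH_inl _)).elim
    · rintro (h1 | h1 | h1)
      · exact Or.inl (Or.inl ⟨m, h1⟩)
      · exact Or.inr (Or.inl ⟨m, h1⟩)
      · exact h1.2.elim
  -- adjacency at the vertices of the triangle component
  have hadjx : ∀ i u, g1InH (x i) u → ∀ w, (SimpleGraph.fromRel E).Adj u w ↔
      (g1EH (x i) u w ∨ g1EH (x i) w u ∨
        (u = (x i).1 ∧ (w = (x (i + 1)).1 ∨ w = (x (i + 2)).1))) := by
    intro i u hu w
    rw [hadj, hE, hE]
    constructor
    · rintro ((⟨m', h1⟩ | ⟨i', h1⟩ | ⟨i', h1, h2⟩) | (⟨m', h1⟩ | ⟨i', h1⟩ | ⟨i', h1, h2⟩))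
      · exact (dcx m' i u (g1EH_mem _ h1).1 hu).elim
      · rw [← dxx i i' u hu (g1EH_mem _ h1).1] at h1
        exact Or.inl h1
      · have h3 : i = i' := by
          rw [h1] at hu
          exact dxx i i' _ hu (g1_inH_inl _)
        rw [← h3] at h1 h2
        exact Or.inr (Or.inr ⟨h1, Or.inl h2⟩)
      · exact (dcx m' i u (g1EH_mem _ h1).2 hu).elim
      · rw [← dxx i i' u hu (g1EH_mem _ h1).2] at h1
        exact Or.inr (Or.inl h1)
      · have h3 : i = i' + 1 := by
          rw [h2] at hu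
          exact dxx i (i' + 1) _ hu (g1_inH_inl _)
        have h4 : i' = i + 2 := by
          rw [h3]
          exact (g1_fin3_4 i').symm
        rw [← h3] at h2
        rw [h4] at h1
        exact Or.inr (Or.inr ⟨h2, Or.inr h1⟩)
    · rintro (h1 | h1 | ⟨h1, h2 | h2⟩)
      · exact Or.inl (Or.inr (Or.inl ⟨i, h1⟩))
      · exact Or.inr (Or.inr (Or.inl ⟨i, h1⟩))
      · exact Or.inl (Or.inr (Or.inr ⟨i, h1, h2⟩))
      · refine Or.inr (Or.inr (Or.inr ⟨i + 2, h2, ?_⟩))
        rw [h1]
        rw [g1_fin3_5 i]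
  refine ⟨SimpleGraph.fromRel E, ?_, ?_, ?_, ?_⟩
  · intro hcf
    have ht : ∀ i, (SimpleGraph.fromRel E).Adj (x i).1 (x (i + 1)).1 := by
      intro i
      rw [hadj]
      exact Or.inl ((hE _ _).mpr (Or.inr (Or.inr ⟨i, rfl, rfl⟩)))
    have h1 : (SimpleGraph.fromRel E).IsNClique 3 {(x 0).1, (x 1).1, (x 2).1} := by
      rw [SimpleGraph.is3Clique_triple_iff]
      exact ⟨ht 0, (ht 2).symm, ht 1⟩
    exact hcf _ h1
  · intro m
    obtain ⟨h1, _, h3, h4⟩ := g1_hang (g1_good h) (SimpleGraph.fromRel E) (c m)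
      (fun _ => False) (ic m) (fun _ hw => hw.elim) (hadjc m)
    refine ⟨h1, ?_, h4⟩
    intro w
    rw [h3 w, false_or]
  · intro i
    have hT : ∀ w, (w = (x (i + 1)).1 ∨ w = (x (i + 2)).1) → ¬ g1InH (x i) w := by
      rintro w (h5 | h5) h6
      · rw [h5] at h6
        exact g1_fin3_1 i (dxx i (i + 1) _ h6 (g1_inH_inl _))
      · rw [h5] at h6
        exact g1_fin3_2 i (dxx i (i + 2) _ h6 (g1_inH_inl _))
    obtain ⟨h1, h2, h3, h4⟩ := g1_hang (g1_good h) (SimpleGraph.fromRel E) (x i)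
      (fun w => w = (x (i + 1)).1 ∨ w = (x (i + 2)).1) (ix i) hT (hadjx i)
    · have h12 : (x (i + 1)).1 ≠ (x (i + 2)).1 := by
        intro h5
        exact g1_fin3_3 i (dr _ _ h5)
      refine ⟨?_, ?_, h4⟩
      · intro a b
        refine Fin.cases ?_ (fun a => ?_) a <;> refine Fin.cases ?_ (fun b => ?_) b
        · intro _
          rfl
        · refine Fin.cases ?_ (fun b => ?_) b
          · intro h6
            exact absurd h6 h12
          · intro h6
            exact absurd (Or.inl h6.symm) (h2 b)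
        · refine Fin.cases ?_ (fun a => ?_) a
          · intro h6
            exact absurd h6.symm h12
          · intro h6
            exact absurd (Or.inl h6) (h2 a)
        · refine Fin.cases ?_ (fun a => ?_) a <;> refine Fin.cases ?_ (fun b => ?_) b
          · intro _
            rfl
          · intro h6
            exact absurd (Or.inr h6.symm) (h2 b)
          · intro h6
            exact absurd (Or.inr h6) (h2 a)
          · intro h6
            exact congrArg (fun j => j.succ.succ) (h1 h6)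
      · intro w
        refine (h3 w).trans ?_
        constructor
        · rintro ((h6 | h6) | ⟨j, h6⟩)
          · exact ⟨0, h6⟩
          · exact ⟨(0 : Fin (k + 1)).succ, h6⟩
          · exact ⟨j.succ.succ, h6⟩
        · rintro ⟨j, h6⟩
          revert h6
          refine Fin.cases ?_ (fun j => ?_) j
          · intro h6
            exact Or.inl (Or.inl h6)
          · refine Fin.cases ?_ (fun j => ?_) j
            · intro h6
              exact Or.inl (Or.inr h6)
            · intro h6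
              exact Or.inr ⟨j, h6⟩
  · intro v hv w hvw
    have key : ∀ u, (∀ m, ¬ g1InH (c m) u) → (∀ i, ¬ g1InH (x i) u) → ∀ w,
        ¬ (E u w ∨ E w u) := by
      intro u h1 h2 w h3
      rw [hE, hE] at h3
      rcases h3 with (⟨m', h4⟩ | ⟨i', h4⟩ | ⟨i', h4, h5⟩) | (⟨m', h4⟩ | ⟨i', h4⟩ | ⟨i', h4, h5⟩)
      · exact h1 m' (g1EH_mem _ h4).1
      · exact h2 i' (g1EH_mem _ h4).1
      · apply h2 i'
        rw [h4]
        exact g1_inH_inl _
      · exact h1 m' (g1EH_mem _ h4).2
      · exact h2 i' (g1EH_mem _ h4).2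
      · apply h2 (i' + 1)
        rw [h5]
        exact g1_inH_inl _
    rw [hadj] at hvw
    refine key v ?_ ?_ w hvw
    · rintro m ⟨y, hy⟩
      exact hv (Sum.inl (m, y)) hy
    · rintro i ⟨y, hy⟩
      exact hv (Sum.inr (i, y)) hy

end Pool.Agent.CT
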