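import Pool.Agent.CT.Stmts

/-!
# KL: the key inequality
-/

namespace Pool.Agent.CT

open Finset Matrix

set_option linter.unusedSectionVars false

section kl
variable {L A X : Type} [Fintype L] [Nonempty L] [Fintype A] [Fintype X] [Nonempty X]
  {k : ℕ} (F : L → NodeFun A (Fin (k + 2))) (σ : X → Strat A) (s : ℕ)

/-- The joint law of the transcript on slot `0` after `s` rounds and on slot `1` after `τ`
rounds. -/
noncomputable def klf (p : Tr A s) (τ : ℕ) (y : Tr A τ) : ℝ :=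
  pr (fun ω => rt F σ s 0 ω = p ∧ rt F σ τ 1 ω = y)

/-- The law of the transcript on slot `0`, the transcript on slot `1` and the next message sent. -/
noncomputable def klq (p : Tr A s) (τ : ℕ) (y : Tr A τ) (o : A) : ℝ :=
  pr (fun ω => rt F σ s 0 ω = p ∧ rt F σ τ 1 ω = y ∧ (rt F σ (τ + 1) 1 ω).out = o)

lemma kl_init (τ : ℕ) (j : Fin (k + 2)) (ω : L × (Fin (k + 2) → X)) :
    (rt F σ (τ + 1) j ω).init = rt F σ τ j ω := rfl

lemma klf_nonneg (p : Tr A s) (τ : ℕ) (y : Tr A τ) : 0 ≤ klf F σ s p τ y := pr_nonneg _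

lemma kl_sum_inn (p : Tr A s) (τ : ℕ) (y : Tr A τ) (o : A) :
    ∑ i : A, klf F σ s p (τ + 1) (y.snoc o i) = klq F σ s p τ y o := by
  unfold klf klq
  rw [← sum_pr_and (fun ω => (rt F σ (τ + 1) 1 ω).inn)]
  refine Finset.sum_congr rfl fun i _ => pr_congr fun ω => ?_
  constructor
  · rintro ⟨h1, h2⟩
    refine ⟨?_, h1, ?_, ?_⟩
    · rw [h2]; rfl
    · rw [← kl_init, h2]; rfl
    · rw [h2]; rfl
  · rintro ⟨h1, h2, h3, h4⟩
    exact ⟨h2, tr_ext h3 h4 h1⟩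

lemma kl_marg (p : Tr A s) (τ : ℕ) (y : Tr A τ) :
    marg (klf F σ s p (τ + 1)) y = klf F σ s p τ y := by
  unfold marg
  have h : ∀ o : A, ∑ i : A, klf F σ s p (τ + 1) (y.snoc o i) =
      pr (fun ω => (rt F σ (τ + 1) 1 ω).out = o ∧ (rt F σ s 0 ω = p ∧ rt F σ τ 1 ω = y)) := by
    intro o
    rw [kl_sum_inn]
    exact pr_congr fun ω => ⟨fun ⟨a, b, c⟩ => ⟨c, a, b⟩, fun ⟨c, a, b⟩ => ⟨a, b, c⟩⟩
  rw [Finset.sum_congr rfl fun o _ => h o]
  exact sum_pr_and (fun ω => (rt F σ (τ + 1) 1 ω).out) _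

lemma kl_marg' (p : Tr A s) (τ : ℕ) :
    marg (klf F σ s p (τ + 1)) = klf F σ s p τ := funext fun y => kl_marg F σ s p τ y

lemma klf_pos (τ : ℕ) (ω : L × (Fin (k + 2) → X)) :
    0 < klf F σ s (rt F σ s 0 ω) τ (rt F σ τ 1 ω) := pr_pos (ω := ω) ⟨rfl, rfl⟩

lemma klq_pos (τ : ℕ) (ω : L × (Fin (k + 2) → X)) :
    0 < klq F σ s (rt F σ s 0 ω) τ (rt F σ τ 1 ω) (rt F σ (τ + 1) 1 ω).out :=
  pr_pos (ω := ω) ⟨rfl, rfl, rfl⟩

/-- The logarithm in the leakage bound. -/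
noncomputable def klt (τ : ℕ) (ω : L × (Fin (k + 2) → X)) : ℝ :=
  Real.log (pv (fun ω' => (rt F σ s 0 ω', rt F σ (τ + 1) 1 ω')) ω /
    (pv (fun ω' => (rt F σ s 0 ω', rt F σ τ 1 ω', (rt F σ (τ + 1) 1 ω').out)) ω *
      (W F (τ + 1) (swap (rt F σ (τ + 1) 1 ω)) / W F τ (swap (rt F σ τ 1 ω)))))

lemma klt_eq (τ : ℕ) (ω : L × (Fin (k + 2) → X)) :
    klt F σ s τ ω = Real.log (klf F σ s (rt F σ s 0 ω) (τ + 1) (rt F σ (τ + 1) 1 ω) /
      (klq F σ s (rt F σ s 0 ω) τ (rt F σ τ 1 ω) (rt F σ (τ + 1) 1 ω).out *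
      (W F (τ + 1) (swap (rt F σ (τ + 1) 1 ω)) / W F τ (swap (rt F σ τ 1 ω))))) := by
  unfold klt
  have h1 : pv (fun ω' => (rt F σ s 0 ω', rt F σ (τ + 1) 1 ω')) ω =
      klf F σ s (rt F σ s 0 ω) (τ + 1) (rt F σ (τ + 1) 1 ω) :=
    pr_congr fun ω' => by simp only [Prod.mk.injEq]
  have h2 : pv (fun ω' => (rt F σ s 0 ω', rt F σ τ 1 ω', (rt F σ (τ + 1) 1 ω').out)) ω =
      klq F σ s (rt F σ s 0 ω) τ (rt F σ τ 1 ω) (rt F σ (τ + 1) 1 ω).out :=
    pr_congr fun ω' => by simp only [Prod.mk.injEq]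
  rw [h1, h2]

/-- Telescoping. -/
lemma kl_telescope (ω : L × (Fin (k + 2) → X)) (h2 : S_CF)
    (hW : ∀ τ ≤ s, 0 < W F τ (swap (rt F σ τ 1 ω))) : ∀ τ ≤ s,
    ∑ τ' ∈ range τ, klt F σ s τ' ω =
      Real.log (klf F σ s (rt F σ s 0 ω) τ (rt F σ τ 1 ω) /
        (klf F σ s (rt F σ s 0 ω) 0 () * cf τ (klf F σ s (rt F σ s 0 ω) τ) (rt F σ τ 1 ω) *
          W F τ (swap (rt F σ τ 1 ω)))) := by
  intro τ
  induction τ with
  | zero =>
    intro _
    have h0 : klf F σ s (rt F σ s 0 ω) 0 (rt F σ 0 1 ω) = klf F σ s (rt F σ s 0 ω) 0 () := rfl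
    have hp : 0 < klf F σ s (rt F σ s 0 ω) 0 () := klf_pos F σ s 0 ω
    have hW0 : W F 0 (swap (rt F σ 0 1 ω)) = 1 := rfl
    rw [Finset.sum_range_zero, h0, hW0]
    simp only [cf, mul_one]
    rw [div_self hp.ne', Real.log_one]
  | succ τ ih =>
    intro hτ
    rw [Finset.sum_range_succ, ih (by omega), klt_eq]
    have hp0 : 0 < klf F σ s (rt F σ s 0 ω) 0 () := klf_pos F σ s 0 ω
    have hp : 0 < klf F σ s (rt F σ s 0 ω) τ (rt F σ τ 1 ω) := klf_pos F σ s τ ω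
    have hp1 : 0 < klf F σ s (rt F σ s 0 ω) (τ + 1) (rt F σ (τ + 1) 1 ω) :=
      klf_pos F σ s (τ + 1) ω
    have hq := klq_pos F σ s τ ω
    have hw := hW τ (by omega)
    have hw1 := hW (τ + 1) hτ
    have hcf : 0 < cf τ (klf F σ s (rt F σ s 0 ω) τ) (rt F σ τ 1 ω) :=
      (h2 A).2.1 τ _ (fun y => klf_nonneg F σ s _ τ y) _ hp
    have hcf1 : cf (τ + 1) (klf F σ s (rt F σ s 0 ω) (τ + 1)) (rt F σ (τ + 1) 1 ω) =
        cf τ (klf F σ s (rt F σ s 0 ω) τ) (rt F σ τ 1 ω) *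
          (klq F σ s (rt F σ s 0 ω) τ (rt F σ τ 1 ω) (rt F σ (τ + 1) 1 ω).out /
            klf F σ s (rt F σ s 0 ω) τ (rt F σ τ 1 ω)) := by
      simp only [cf]
      rw [kl_marg', kl_init, kl_sum_inn]
    rw [hcf1, ← Real.log_mul (by positivity) (by positivity)]
    congr 1
    field_simp

end kl

theorem kl (h1 : S_WT) (h2 : S_CF) (h3 : S_NU) (h4 : S_TERM) : S_KL := by
  intro L A X _ _ _ _ _ k K S F σ hE hR hK hReal s hs
  obtain ⟨w0, w1, w2, w3, b0, b1, b2, b3, b4⟩ := h1 L A k F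
  have hnu := h3 L A X k S F σ hReal s hs
  -- the sum as an expectation
  have hex : ∑ p : Tr A s, ∑ y : Tr A s, nu F s p y *
        Real.log (beta F s p y / (W F s p * cf s (Rw F s p) y)) =
      ex (fun ω => Real.log (beta F s (rt F σ s 0 ω) (rt F σ s 1 ω) /
        (W F s (rt F σ s 0 ω) * cf s (Rw F s (rt F σ s 0 ω)) (rt F σ s 1 ω)))) := by
    have := ex_comp (fun ω => (rt F σ s 0 ω, rt F σ s 1 ω))
      (fun x : Tr A s × Tr A s => Real.log (beta F s x.1 x.2 /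
        (W F s x.1 * cf s (Rw F s x.1) x.2)))
    rw [Fintype.sum_prod_type] at this
    rw [this]
    refine Finset.sum_congr rfl fun p _ => Finset.sum_congr rfl fun y _ => ?_
    rw [← hnu p y]
    congr 1
    exact pr_congr fun ω => by simp only [Prod.mk.injEq]
  rw [hex]
  -- the pointwise identity
  have hpt : ∀ ω, Real.log (beta F s (rt F σ s 0 ω) (rt F σ s 1 ω) /
        (W F s (rt F σ s 0 ω) * cf s (Rw F s (rt F σ s 0 ω)) (rt F σ s 1 ω))) =
      ∑ τ ∈ range s, klt F σ s τ ω := by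
    intro ω
    have hfs : ∀ y, klf F σ s (rt F σ s 0 ω) s y = nu F s (rt F σ s 0 ω) y := fun y => hnu _ y
    have hpos := klf_pos F σ s s ω
    rw [hfs] at hpos
    unfold nu at hpos
    have hp1 : 0 < W F s (swap (rt F σ s 0 ω)) := by
      rcases (w0 s (swap (rt F σ s 0 ω))).lt_or_eq with h | h
      · exact h
      · rw [← h] at hpos; simp at hpos
    have hp2 : 0 < W F s (swap (rt F σ s 1 ω)) := by
      rcases (w0 s (swap (rt F σ s 1 ω))).lt_or_eq with h | h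
      · exact h
      · rw [← h] at hpos; simp at hpos
    have hWd : ∀ d τ, τ + d = s → 0 < W F τ (swap (rt F σ τ 1 ω)) := by
      intro d
      induction d with
      | zero =>
        intro τ hτ
        obtain rfl : τ = s := by omega
        exact hp2
      | succ d ih =>
        intro τ hτ
        have h5 := ih (τ + 1) (by omega)
        have h6 : swap (rt F σ (τ + 1) 1 ω) = (swap (rt F σ τ 1 ω)).snoc
            (rt F σ (τ + 1) 1 ω).inn (rt F σ (τ + 1) 1 ω).out := rfl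
        rw [h6] at h5
        refine lt_of_lt_of_le h5 ?_
        rw [← w2 τ (swap (rt F σ τ 1 ω)) (rt F σ (τ + 1) 1 ω).out]
        exact Finset.single_le_sum
          (f := fun o => W F (τ + 1) ((swap (rt F σ τ 1 ω)).snoc o (rt F σ (τ + 1) 1 ω).out))
          (fun o _ => w0 _ _) (Finset.mem_univ _)
    have hW : ∀ τ ≤ s, 0 < W F τ (swap (rt F σ τ 1 ω)) := fun τ hτ => hWd (s - τ) τ (by omega)
    rw [kl_telescope F σ s ω h2 hW s le_rfl]
    have hf : klf F σ s (rt F σ s 0 ω) s =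
        fun y => W F s (swap (rt F σ s 0 ω)) * Rw F s (rt F σ s 0 ω) y := by
      funext y
      rw [hfs]
      unfold nu Rw
      ring
    have hf0 : klf F σ s (rt F σ s 0 ω) 0 () =
        W F s (swap (rt F σ s 0 ω)) * W F s (rt F σ s 0 ω) := by
      have e1 : klf F σ s (rt F σ s 0 ω) 0 () = ∑ y, klf F σ s (rt F σ s 0 ω) s y := by
        have e2 : ∑ y, klf F σ s (rt F σ s 0 ω) s y =
            ∑ y, pr (fun ω' => rt F σ s 1 ω' = y ∧ rt F σ s 0 ω' = rt F σ s 0 ω) :=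
          Finset.sum_congr rfl fun y _ => pr_congr fun ω' => and_comm
        rw [e2, sum_pr_and (fun ω' => rt F σ s 1 ω')]
        exact pr_congr fun ω' => ⟨fun h => h.1, fun h => ⟨h, rfl⟩⟩
      rw [e1, hf, ← Finset.mul_sum]
      congr 1
      exact b3 s (rt F σ s 0 ω)
    have hcf : cf s (klf F σ s (rt F σ s 0 ω) s) (rt F σ s 1 ω) =
        cf s (Rw F s (rt F σ s 0 ω)) (rt F σ s 1 ω) := by
      rw [hf]
      exact (h2 A).2.2.2.2 s _ _ hp1.ne' _
    rw [hcf, hf0, hf]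
    unfold Rw
    congr 1
    field_simp
  rw [show (fun ω => Real.log (beta F s (rt F σ s 0 ω) (rt F σ s 1 ω) /
        (W F s (rt F σ s 0 ω) * cf s (Rw F s (rt F σ s 0 ω)) (rt F σ s 1 ω)))) =
      fun ω => ∑ τ ∈ range s, klt F σ s τ ω from funext hpt, ex_sum]
  calc ∑ τ ∈ range s, ex (klt F σ s τ) ≤ ∑ τ ∈ range s, (s : ℝ) * Real.log K / (k + 1) :=
        Finset.sum_le_sum fun τ hτ =>
          h4 L A X k K S F σ hE hR hK hReal τ s (Finset.mem_range.1 hτ) hs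
    _ = s ^ 2 * Real.log K / (k + 1) := by
        rw [Finset.sum_const, Finset.card_range, nsmul_eq_mul]
        ring

end Pool.Agent.CT
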