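import Pool.Agent.CT.Stmts

/-!
# Acceptance in the real run and consistency of contents
-/

namespace Pool.Agent.CT

open Finset Matrix

/-! ### The real transcripts -/

section real
variable {n B : ℕ} (P : Alg n B) (G : SimpleGraph (Fin n))

lemma LINK_swap : ∀ s u v, swap (realTr P G s u v) = realTr P G s v u
  | 0, _, _ => rfl
  | s + 1, u, v => by
      change (swap (realTr P G s u v)).snoc _ _ = _
      rw [LINK_swap s u v]
      rfl

lemma LINK_inAt : ∀ s u v m,
    inAt (realTr P G s u v) m = if m < s then some (realMsg P G m v u) else none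
  | 0, u, v, m => rfl
  | s + 1, u, v, m => by
      change (if m = s then some (realMsg P G s v u) else inAt (realTr P G s u v) m) = _
      rw [LINK_inAt s u v m]
      by_cases h : m = s
      · subst h
        rw [if_pos rfl, if_pos (Nat.lt_succ_self m)]
      · by_cases h' : m < s
        · rw [if_neg h, if_pos h', if_pos (by omega)]
        · rw [if_neg h, if_neg h', if_neg (by omega)]

lemma LINK_nameOf (s : ℕ) (u v : Fin n) : nameOf (realTr P G (s + 1) u v) = some v := by
  unfold nameOf
  rw [LINK_inAt, if_pos (Nat.succ_pos s)]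
  rfl

lemma LINK_tab_succ (r : ℕ) (u v : Fin n) (s : ℕ) (h : s ≠ r) :
    tab P G (r + 1) s u v = tab P G r s u v := by
  change (if s = r then _ else tab P G r s u v) = _
  rw [if_neg h]

lemma LINK_tab_lt : ∀ r s u v, s < r → tab P G r s u v = tab P G (s + 1) s u v
  | 0, s, u, v, h => absurd h (Nat.not_lt_zero s)
  | r + 1, s, u, v, h => by
      by_cases h' : s = r
      · subst h'
        rfl
      · rw [LINK_tab_succ P G r u v s h', LINK_tab_lt r s u v (by omega)]

lemma LINK_tab_ge : ∀ r s u v, r ≤ s → tab P G r s u v = fun _ => false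
  | 0, s, u, v, _ => rfl
  | r + 1, s, u, v, h => by
      rw [LINK_tab_succ P G r u v s (by omega), LINK_tab_ge r s u v (by omega)]

lemma LINK_tab_nadj : ∀ r s u v, ¬ G.Adj u v → tab P G r s u v = fun _ => false
  | 0, s, u, v, _ => rfl
  | r + 1, s, u, v, h => by
      by_cases h' : s = r
      · subst h'
        rw [tab]
        dsimp only
        rw [if_pos rfl, if_neg h]
      · rw [LINK_tab_succ P G r u v s h', LINK_tab_nadj r s u v h]

lemma LINK_tab_adj (r : ℕ) (u v : Fin n) (h : G.Adj u v) :
    tab P G (r + 1) r u v = P.send r u (nbr G u) (fun s' w => tab P G r s' w u) v := by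
  rw [tab]
  dsimp only
  rw [if_pos rfl, if_pos h]

lemma LINK_msgAt (r s : ℕ) (u v : Fin n) :
    msgAt (realTr P G (r + 1) u v) s = tab P G r s v u := by
  unfold msgAt
  rw [LINK_inAt]
  by_cases h : s < r
  · rw [if_pos (by omega), LINK_tab_lt P G r s v u h]
    rfl
  · rw [if_neg (by omega), LINK_tab_ge P G r s v u (by omega)]

variable {J : Type} [Fintype J] {u : Fin n} {e : J → Fin n}

lemma LINK_names (r : ℕ) (hadj : ∀ w, G.Adj u w ↔ ∃ j, w = e j) :
    namesOf (fun j => realTr P G (r + 1) u (e j)) = nbr G u := by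
  unfold namesOf nbr
  ext w
  simp only [Finset.mem_filter, Finset.mem_univ, true_and, LINK_nameOf, Option.some.injEq, hadj]
  exact exists_congr fun j => eq_comm

lemma LINK_hist (r : ℕ) (he : Function.Injective e) (hadj : ∀ w, G.Adj u w ↔ ∃ j, w = e j) :
    histOf (fun j => realTr P G (r + 1) u (e j)) = fun s w => tab P G r s w u := by
  funext s w
  unfold histOf
  simp only [LINK_nameOf, LINK_msgAt, Option.some.injEq]
  by_cases hw : ∃ j, w = e j
  · obtain ⟨j0, rfl⟩ := hw
    have h1 : (Finset.univ.filter (fun j => e j = e j0)) = {j0} := by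
      ext j
      simp only [Finset.mem_filter, Finset.mem_univ, true_and, Finset.mem_singleton]
      exact ⟨fun h => he h, fun h => by rw [h]⟩
    rw [h1, Finset.sup_singleton]
  · have h1 : (Finset.univ.filter (fun j => e j = w)) = ∅ := by
      ext j
      simp only [Finset.mem_filter, Finset.mem_univ, true_and, Finset.notMem_empty, iff_false]
      exact fun h => hw ⟨j, h.symm⟩
    have h2 : ¬ G.Adj w u := fun h => hw ((hadj w).mp h.symm)
    rw [h1, Finset.sup_empty, LINK_tab_nadj P G r s w u h2]
    rfl

/-- The real transcripts are consistent with the node function. -/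
lemma LINK_con (he : Function.Injective e) (hadj : ∀ w, G.Adj u w ↔ ∃ j, w = e j) :
    ∀ s, NodeCon (nodeFun P u) s (fun j => realTr P G s u (e j))
  | 0 => trivial
  | 1 => ⟨trivial, fun _ => rfl⟩
  | r + 2 => by
      refine ⟨LINK_con he hadj (r + 1), fun j => ?_⟩
      change Sum.inr (tab P G (r + 1) r u (e j)) =
        Sum.inr (P.send r u (namesOf (fun j => realTr P G (r + 1) u (e j)))
          (histOf (fun j => realTr P G (r + 1) u (e j)))
          ((nameOf (realTr P G (r + 1) u (e j))).getD u))
      rw [LINK_names P G r hadj, LINK_hist P G r he hadj, LINK_nameOf,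
        LINK_tab_adj P G r u (e j) ((hadj _).mpr ⟨j, rfl⟩)]
      rfl

/-- Acceptance of a node in the real run. -/
lemma LINK_acc (t : ℕ) (he : Function.Injective e) (hadj : ∀ w, G.Adj u w ↔ ∃ j, w = e j) :
    nodeAcc P u (fun j => realTr P G (t + 1) u (e j)) ↔ ¬ rejectsAt P G t u := by
  unfold nodeAcc rejectsAt
  rw [LINK_names P G t hadj, LINK_hist P G t he hadj, Bool.not_eq_true]

end real

/-! ### Uniqueness of consistent transcripts -/

lemma LINK_sat_free {L A : Type} {k : ℕ} (N : Node L A k) :
    ∀ h (c : Br L k h) s (y : Tr A s), Sat N h c s y → Sat N.free h c s y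
  | 0, _, _, _, hy => ⟨hy.1, trivial⟩
  | h + 1, _, _, _, ⟨z, h1, _, h3⟩ => ⟨z, h1, trivial, fun j => LINK_sat_free N h _ _ _ (h3 j)⟩

lemma LINK_tri_unique {A : Type} {k : ℕ} (f : Fin 3 → NodeFun A (Fin (k + 2)))
    (σ : Fin 3 → Fin k → Strat A) :
    ∀ s (p p' : Fin 3 → Tr A s) (z z' : Fin 3 → Fin k → Tr A s),
      (∀ i, NodeCon (f i) s (vecCons (p i) (vecCons (swap (p (i + 2))) (z i)))) →
      (∀ i, NodeCon (f i) s (vecCons (p' i) (vecCons (swap (p' (i + 2))) (z' i)))) →
      (∀ i j, Con (σ i j) s (swap (z i j))) → (∀ i j, Con (σ i j) s (swap (z' i j))) →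
      p = p' ∧ z = z'
  | 0, p, p', z, z', _, _, _, _ =>
      ⟨funext fun _ => Subsingleton.elim (α := Unit) _ _,
        funext fun _ => funext fun _ => Subsingleton.elim (α := Unit) _ _⟩
  | s + 1, p, p', z, z', h1, h2, h3, h4 => by
      have hinit : ∀ (a b : Tr A (s + 1)) (c : Fin k → Tr A (s + 1)),
          (fun j => (vecCons a (vecCons b c) j).init) =
            (vecCons a.init (vecCons b.init (fun j => (c j).init)) : Fin (k + 2) → Tr A s) := by
        intro a b c
        funext j
        refine Fin.cases ?_ (fun j => ?_) j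
        · rfl
        · refine Fin.cases ?_ (fun j => ?_) j
          · rfl
          · rfl
      have g1 : ∀ i, NodeCon (f i) s (vecCons (p i).init (vecCons (swap ((p (i + 2)).init))
          (fun j => (z i j).init))) := by
        intro i
        have := (h1 i).1
        rw [hinit] at this
        exact this
      have g2 : ∀ i, NodeCon (f i) s (vecCons (p' i).init (vecCons (swap ((p' (i + 2)).init))
          (fun j => (z' i j).init))) := by
        intro i
        have := (h2 i).1
        rw [hinit] at this
        exact this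
      obtain ⟨ih1, ih2⟩ := LINK_tri_unique f σ s (fun i => (p i).init) (fun i => (p' i).init)
        (fun i j => (z i j).init) (fun i j => (z' i j).init) g1 g2
        (fun i j => (h3 i j).1) (fun i j => (h4 i j).1)
      have e1 : ∀ i, (p i).init = (p' i).init := fun i => congrFun ih1 i
      have e2 : ∀ i j, (z i j).init = (z' i j).init := fun i j => congrFun (congrFun ih2 i) j
      have e3 : ∀ i, (fun j => (vecCons (p i) (vecCons (swap (p (i + 2))) (z i)) j).init) =
          fun j => (vecCons (p' i) (vecCons (swap (p' (i + 2))) (z' i)) j).init := by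
        intro i
        rw [hinit, hinit, e1 i, swap_init, swap_init, e1 (i + 2)]
        simp only [e2]
      have o1 : ∀ i j, (vecCons (p i) (vecCons (swap (p (i + 2))) (z i)) j).out =
          (vecCons (p' i) (vecCons (swap (p' (i + 2))) (z' i)) j).out := by
        intro i j
        rw [(h1 i).2 j, (h2 i).2 j, e3 i]
      refine ⟨funext fun i => tr_ext (e1 i) (o1 i 0) ?_, funext fun i => funext fun j =>
        tr_ext (e2 i j) (o1 i j.succ.succ) ?_⟩
      · have hi : i + 1 + 2 = i := by
          rw [add_assoc]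
          exact add_zero i
        have := o1 (i + 1) 1
        rw [hi] at this
        exact this
      · have a1 : (z i j).inn = σ i j s (swap ((z i j).init)) := (h3 i j).2
        have a2 : (z' i j).inn = σ i j s (swap ((z' i j).init)) := (h4 i j).2
        rw [a1, a2, e2 i j]

/-! ### Branches, trees and triangles -/

section link
variable {n B k : ℕ} (P : Alg n B) (G : SimpleGraph (Fin n))

lemma LINK_vec (s : ℕ) (u v : Fin n) {m : ℕ} (e : Fin m → Fin n) :
    (vecCons (realTr P G s u v) (fun j => realTr P G s u (e j)) : Fin (m + 1) → Tr (Al n B) s) =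
      fun j => realTr P G s u (vecCons v e j) := by
  funext j
  refine Fin.cases ?_ (fun j => ?_) j
  · rfl
  · rfl

/-- The real transcript of a realised branch is consistent. -/
lemma LINK_free : ∀ h (c : Br (Fin n) k h) (v : Fin n), RealB G c v → ∀ s,
    Sat (nodeOf P k).free h c s (realTr P G s (root c) v)
  | 0, b, v, hc, s => by
      refine ⟨?_, trivial⟩
      exact LINK_con P G (J := Fin 1) (u := b) (e := fun _ => v)
        (fun _ _ _ => Subsingleton.elim _ _) (fun w => by
          rw [hc w]
          exact ⟨fun h => ⟨0, h⟩, fun ⟨_, h⟩ => h⟩) s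
  | h + 1, c, v, hc, s => by
      refine ⟨fun j => realTr P G s c.1 (root (c.2 j)), ?_, trivial, fun j => ?_⟩
      · change NodeCon (nodeFun P c.1) s (vecCons (realTr P G s c.1 v) _)
        rw [LINK_vec]
        exact LINK_con P G hc.1 hc.2.1 s
      · rw [LINK_swap]
        exact LINK_free h (c.2 j) c.1 (hc.2.2 j) s

variable {P G} in
/-- Uniqueness of the transcripts at a node with some given slots, all other slots being hanging
branches. -/
lemma LINK_strat (h2 : S_BR) (h3 : S_NODE) (hn : Nonempty (Fin n)) (h : ℕ) :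
    ∃ σ : Br (Fin n) k h → Strat (Al n B), ∀ s c y,
      Sat (nodeOf P k).free h c s y ↔ Con (σ c) s y :=
  (h2 (Fin n) (Al n B) k (nodeOf P k) (h3 n B k P).1).1 h

/-- Acceptance of a branch in the real run. -/
lemma LINK_branch (h2 : S_BR) (h3 : S_NODE) (t : ℕ) : ∀ h (c : Br (Fin n) k h) (v : Fin n),
    RealB G c v → (Sat (nodeOf P k) h c (t + 1) (realTr P G (t + 1) (root c) v) ↔
      ∀ x, ¬ rejectsAt P G t (labB c x))
  | 0, b, v, hc => by
      have he : Function.Injective (fun _ : Fin 1 => v) := fun _ _ _ => Subsingleton.elim _ _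
      have hadj : ∀ w, G.Adj b w ↔ ∃ j : Fin 1, w = (fun _ : Fin 1 => v) j := fun w => by
        rw [hc w]
        exact ⟨fun h => ⟨0, h⟩, fun ⟨_, h⟩ => h⟩
      constructor
      · rintro ⟨_, h2⟩ _
        exact (LINK_acc P G t he hadj).mp h2
      · intro hx
        exact ⟨LINK_con P G he hadj (t + 1), (LINK_acc P G t he hadj).mpr (hx ())⟩
  | h + 1, c, v, hc => by
      have hn : Nonempty (Fin n) := ⟨v⟩
      constructor
      · rintro ⟨z, g1, g2, g3⟩
        obtain ⟨σ, hσ⟩ := LINK_strat (P := P) (k := k) h2 h3 hn h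
        have g4 : (vecCons (realTr P G (t + 1) c.1 v) z : Fin (k + 2) → Tr (Al n B) (t + 1)) =
            vecCons (realTr P G (t + 1) c.1 v)
              (fun j => realTr P G (t + 1) c.1 (root (c.2 j))) := by
          refine nodeCon_unique (nodeFun P c.1) (fun j => j = 0)
            (vecCons (fun _ _ => Sum.inl c.1) (fun j => σ (c.2 j))) (t + 1) _ _ g1 ?_ ?_ ?_
          · rw [LINK_vec]
            exact LINK_con P G hc.1 hc.2.1 (t + 1)
          · rintro j rfl
            rfl
          · intro j
            refine Fin.cases ?_ (fun j => ?_) j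
            · intro hj
              exact absurd rfl hj
            · intro _
              refine ⟨(hσ _ _ _).mp (LINK_sat_free _ _ _ _ _ (g3 j)), (hσ _ _ _).mp ?_⟩
              change Sat (nodeOf P k).free h (c.2 j) (t + 1)
                (swap (realTr P G (t + 1) c.1 (root (c.2 j))))
              rw [LINK_swap]
              exact LINK_free P G h (c.2 j) c.1 (hc.2.2 j) (t + 1)
        have g5 : z = fun j => realTr P G (t + 1) c.1 (root (c.2 j)) := by
          funext j
          exact congrFun g4 j.succ
        subst g5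
        intro x
        match x with
        | Sum.inl _ =>
          refine (LINK_acc P G t hc.1 hc.2.1).mp ?_
          rw [← LINK_vec]
          exact g2
        | Sum.inr (j, x) =>
          have g6 := g3 j
          rw [LINK_swap] at g6
          exact (LINK_branch h2 h3 t h (c.2 j) c.1 (hc.2.2 j)).mp g6 x
      · intro hx
        refine ⟨fun j => realTr P G (t + 1) c.1 (root (c.2 j)), ?_, ?_, fun j => ?_⟩
        · change NodeCon (nodeFun P c.1) (t + 1) (vecCons (realTr P G (t + 1) c.1 v) _)
          rw [LINK_vec]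
          exact LINK_con P G hc.1 hc.2.1 (t + 1)
        · change nodeAcc P c.1 (vecCons (realTr P G (t + 1) c.1 v) _)
          rw [LINK_vec]
          exact (LINK_acc P G t hc.1 hc.2.1).mpr (hx (Sum.inl ()))
        · rw [LINK_swap]
          exact (LINK_branch h2 h3 t h (c.2 j) c.1 (hc.2.2 j)).mpr
            (fun x => hx (Sum.inr (j, x)))

end link

theorem linkT (_h1 : S_WT) (h2 : S_BR) (h3 : S_NODE) : S_LINKT := by
  intro n B k h t P G c hc
  have hn : Nonempty (Fin n) := ⟨c.1⟩
  constructor
  · rintro ⟨z, g1, g2, g3⟩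
    obtain ⟨σ, hσ⟩ := LINK_strat (P := P) (k := k) h2 h3 hn h
    have g5 : z = fun j => realTr P G (t + 1) c.1 (root (c.2 j)) := by
      refine nodeCon_unique (nodeFun P c.1) (fun _ => False)
        (fun j => σ (c.2 j)) (t + 1) _ _ g1 (LINK_con P G hc.1 hc.2.1 (t + 1))
        (fun j hj => hj.elim) (fun j _ => ?_)
      refine ⟨(hσ _ _ _).mp (LINK_sat_free _ _ _ _ _ (g3 j)), (hσ _ _ _).mp ?_⟩
      rw [LINK_swap]
      exact LINK_free P G h (c.2 j) c.1 (hc.2.2 j) (t + 1)
    subst g5
    intro x
    match x with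
    | Sum.inl _ => exact (LINK_acc P G t hc.1 hc.2.1).mp g2
    | Sum.inr (j, x) =>
      have g6 := g3 j
      rw [LINK_swap] at g6
      exact (LINK_branch P G h2 h3 t h (c.2 j) c.1 (hc.2.2 j)).mp g6 x
  · intro hx
    refine ⟨fun j => realTr P G (t + 1) c.1 (root (c.2 j)), LINK_con P G hc.1 hc.2.1 (t + 1),
      (LINK_acc P G t hc.1 hc.2.1).mpr (hx (Sum.inl ())), fun j => ?_⟩
    rw [LINK_swap]
    exact (LINK_branch P G h2 h3 t h (c.2 j) c.1 (hc.2.2 j)).mpr (fun x => hx (Sum.inr (j, x)))

theorem linkTri (_h1 : S_WT) (h2 : S_BR) (h3 : S_NODE) : S_LINKTRI := by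
  intro n B k h t P G x hx
  have hn : Nonempty (Fin n) := ⟨(x 0).1⟩
  have hi : ∀ i : Fin 3, i + 2 + 1 = i := fun i => by
    rw [add_assoc]
    exact add_zero i
  -- the real transcripts
  have hvec : ∀ i : Fin 3, (vecCons (realTr P G (t + 1) (x i).1 (x (i + 1)).1)
      (vecCons (swap (realTr P G (t + 1) (x (i + 2)).1 (x (i + 2 + 1)).1))
        (fun j => realTr P G (t + 1) (x i).1 (root ((x i).2 j)))) :
          Fin (k + 2) → Tr (Al n B) (t + 1)) =
      fun j => realTr P G (t + 1) (x i).1
        (vecCons (x (i + 1)).1 (vecCons (x (i + 2)).1 fun j => root ((x i).2 j)) j) := by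
    intro i
    rw [hi i, LINK_swap, LINK_vec, LINK_vec]
  constructor
  · rintro ⟨p, hp⟩
    choose z g1 g2 g3 using hp
    obtain ⟨σ, hσ⟩ := LINK_strat (P := P) (k := k) h2 h3 hn h
    obtain ⟨e1, e2⟩ := LINK_tri_unique (fun i => nodeFun P (x i).1) (fun i j => σ ((x i).2 j))
      (t + 1) p (fun i => realTr P G (t + 1) (x i).1 (x (i + 1)).1) z
      (fun i j => realTr P G (t + 1) (x i).1 (root ((x i).2 j))) g1
      (fun i => by
        rw [hvec i]
        exact LINK_con P G (hx i).1 (hx i).2.1 (t + 1))
      (fun i j => (hσ _ _ _).mp (LINK_sat_free _ _ _ _ _ (g3 i j)))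
      (fun i j => (hσ _ _ _).mp (by
        rw [LINK_swap]
        exact LINK_free P G h ((x i).2 j) (x i).1 ((hx i).2.2 j) (t + 1)))
    subst e1 e2
    intro i y
    match y with
    | Sum.inl _ =>
      refine (LINK_acc P G t (hx i).1 (hx i).2.1).mp ?_
      have g4 := g2 i
      rw [← hvec i]
      exact g4
    | Sum.inr (j, y) =>
      have g6 := g3 i j
      rw [LINK_swap] at g6
      exact (LINK_branch P G h2 h3 t h ((x i).2 j) (x i).1 ((hx i).2.2 j)).mp g6 y
  · intro hy
    refine ⟨fun i => realTr P G (t + 1) (x i).1 (x (i + 1)).1, fun i =>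
      ⟨fun j => realTr P G (t + 1) (x i).1 (root ((x i).2 j)), ?_, ?_, fun j => ?_⟩⟩
    · change NodeCon (nodeFun P (x i).1) (t + 1) _
      rw [hvec i]
      exact LINK_con P G (hx i).1 (hx i).2.1 (t + 1)
    · change nodeAcc P (x i).1 _
      rw [hvec i]
      exact (LINK_acc P G t (hx i).1 (hx i).2.1).mpr (hy i (Sum.inl ()))
    · rw [LINK_swap]
      exact (LINK_branch P G h2 h3 t h ((x i).2 j) (x i).1 ((hx i).2.2 j)).mpr
        (fun y => hy i (Sum.inr (j, y)))

end Pool.Agent.CT
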