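import Pool.Agent.CT.Stmts

/-!
# The node behaviour of an algorithm satisfies the hypotheses of (CONTENT)
-/

namespace Pool.Agent.CT

open Finset Matrix

section
variable {n B s : ℕ} {J : Type} [Fintype J]

lemma NodeP_namesOf (e : Equiv.Perm J) (y : J → Tr (Al n B) s) :
    namesOf (fun i => y (e i)) = namesOf y := by
  classical
  ext u
  simp only [namesOf, Finset.mem_filter, Finset.mem_univ, true_and]
  constructor
  · rintro ⟨j, hj⟩
    exact ⟨e j, hj⟩
  · rintro ⟨j, hj⟩
    exact ⟨e.symm j, by rw [Equiv.apply_symm_apply]; exact hj⟩

lemma NodeP_histOf (e : Equiv.Perm J) (y : J → Tr (Al n B) s) :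
    histOf (fun i => y (e i)) = histOf y := by
  classical
  funext r w
  apply le_antisymm
  · refine Finset.sup_le fun j hj => ?_
    have h : e j ∈ Finset.univ.filter (fun j => nameOf (y j) = some w) := by
      simpa using hj
    exact Finset.le_sup (f := fun j => msgAt (y j) r) h
  · refine Finset.sup_le fun j hj => ?_
    have h : e.symm j ∈ Finset.univ.filter (fun j => nameOf (y (e j)) = some w) := by
      simpa using hj
    have h2 := Finset.le_sup (f := fun j => msgAt (y (e j)) r) h
    have h3 : msgAt (y (e (e.symm j))) r = msgAt (y j) r := by rw [Equiv.apply_symm_apply]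
    rw [← h3]
    exact h2

end

theorem nodeProps : S_NODE := by
  classical
  intro n B k P
  refine ⟨fun _ _ _ _ => rfl, ?_, ?_⟩
  · intro b s e y j
    cases s with
    | zero => rfl
    | succ r =>
      change (Sum.inr (P.send r b (namesOf fun i => y (e i)) (histOf fun i => y (e i))
          ((nameOf (y (e j))).getD b)) : Al n B) =
        Sum.inr (P.send r b (namesOf y) (histOf y) ((nameOf (y (e j))).getD b))
      rw [NodeP_namesOf, NodeP_histOf]
  · intro b s
    cases s with
    | zero =>
      refine ⟨{Sum.inl b}, ?_, fun y j => ?_⟩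
      · rw [Finset.card_singleton]
        exact Nat.one_le_two_pow
      · exact Finset.mem_singleton.mpr rfl
    | succ r =>
      refine ⟨Finset.univ.image Sum.inr, ?_, fun y j => ?_⟩
      · refine Finset.card_image_le.trans ?_
        simp [Msg]
      · exact Finset.mem_image.mpr ⟨_, Finset.mem_univ _, rfl⟩

end Pool.Agent.CT
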