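import Pool.Agent.CT.Stmts

/-!
# The law of the transcripts on the first two slots (module NU)
-/

namespace Pool.Agent.CT

open Finset Matrix

section nu
variable {L A X : Type} [Fintype L] [Fintype A] [Fintype X] {k : ℕ}

lemma nu_cons_eq_iff {s : ℕ} (w : Fin (k + 2) → Tr A s) (p y : Tr A s) (z : Fin k → Tr A s) :
    w = vecCons p (vecCons y z) ↔ w 0 = p ∧ w 1 = y ∧ (fun j : Fin k => w j.succ.succ) = z := by
  constructor
  · rintro rfl
    exact ⟨rfl, rfl, rfl⟩
  · rintro ⟨h0, h1, h2⟩
    funext j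
    refine Fin.cases ?_ (fun j => ?_) j
    · exact h0
    · refine Fin.cases ?_ (fun j => ?_) j
      · exact h1
      · exact congrFun h2 j

open Classical in
lemma nu_inner (f : NodeFun A (Fin (k + 2))) (σ : X → Strat A) (s : ℕ) (Wt : Tr A s → ℝ)
    (hW : ∀ y : Tr A s, Wt y = pr (fun x => Con (σ x) s y)) (p y : Tr A s) :
    pr (fun x : Fin (k + 2) → X =>
        run f (fun i => σ (x i)) s 0 = p ∧ run f (fun i => σ (x i)) s 1 = y) =
      ∑ z : Fin k → Tr A s, Wt (swap p) * Wt (swap y) *
        (if NodeCon f s (vecCons p (vecCons y z)) then ∏ j, Wt (swap (z j)) else 0) := by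
  have h1 : ∀ x : Fin (k + 2) → X,
      (run f (fun i => σ (x i)) s 0 = p ∧ run f (fun i => σ (x i)) s 1 = y) ↔
        ∃ z : Fin k → Tr A s, run f (fun i => σ (x i)) s = vecCons p (vecCons y z) := by
    intro x
    constructor
    · rintro ⟨h0, h1⟩
      exact ⟨_, (nu_cons_eq_iff _ _ _ _).mpr ⟨h0, h1, rfl⟩⟩
    · rintro ⟨z, hz⟩
      have h2 := (nu_cons_eq_iff _ _ _ _).mp hz
      exact ⟨h2.1, h2.2.1⟩
  rw [pr_congr h1, pr_exists_eq]
  · refine Finset.sum_congr rfl fun z _ => ?_
    by_cases hz : NodeCon f s (vecCons p (vecCons y z))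
    · rw [if_pos hz]
      have h2 : ∀ x : Fin (k + 2) → X,
          run f (fun i => σ (x i)) s = vecCons p (vecCons y z) ↔
            ∀ j, Con (σ (x j)) s (swap ((vecCons p (vecCons y z) : Fin (k + 2) → Tr A s) j)) := by
        intro x
        rw [run_eq_iff]
        exact ⟨fun h => h.2, fun h => ⟨hz, h⟩⟩
      rw [pr_congr h2, pr_pi (fun (j : Fin (k + 2)) (x : X) =>
        Con (σ x) s (swap ((vecCons p (vecCons y z) : Fin (k + 2) → Tr A s) j)))]
      rw [Fin.prod_univ_succ, Fin.prod_univ_succ, ← mul_assoc]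
      have e0 : pr (fun x : X => Con (σ x) s
          (swap ((vecCons p (vecCons y z) : Fin (k + 2) → Tr A s) 0))) = Wt (swap p) :=
        (hW (swap p)).symm
      have e1 : pr (fun x : X => Con (σ x) s
          (swap ((vecCons p (vecCons y z) : Fin (k + 2) → Tr A s) (Fin.succ 0)))) =
          Wt (swap y) := (hW (swap y)).symm
      have e2 : ∀ j : Fin k, pr (fun x : X => Con (σ x) s
          (swap ((vecCons p (vecCons y z) : Fin (k + 2) → Tr A s) j.succ.succ))) =
          Wt (swap (z j)) := fun j => (hW (swap (z j))).symm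
      rw [e0, e1, Finset.prod_congr rfl fun j _ => e2 j]
    · rw [if_neg hz, mul_zero]
      have h2 : ∀ x : Fin (k + 2) → X,
          run f (fun i => σ (x i)) s = vecCons p (vecCons y z) ↔ False := by
        intro x
        rw [run_eq_iff]
        exact ⟨fun h => hz h.1, fun h => h.elim⟩
      rw [pr_congr h2, pr_false]
  · intro x z z' hz hz'
    have h2 := ((nu_cons_eq_iff _ _ _ _).mp hz).2.2
    have h3 := ((nu_cons_eq_iff _ _ _ _).mp hz').2.2
    rw [← h2, ← h3]

end nu

/-- The law of the transcripts on the first two slots is `nu`. -/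
theorem nuLaw : S_NU := by
  intro L A X _ _ _ _ _ k S F σ hR s hs p y
  have h1 : pr (fun ω : L × (Fin (k + 2) → X) => rt F σ s 0 ω = p ∧ rt F σ s 1 ω = y) =
      (∑ b : L, pr (fun x : Fin (k + 2) → X =>
        run (F b) (fun i => σ (x i)) s 0 = p ∧ run (F b) (fun i => σ (x i)) s 1 = y)) /
        Fintype.card L :=
    pr_fst (fun (b : L) (x : Fin (k + 2) → X) =>
      run (F b) (fun i => σ (x i)) s 0 = p ∧ run (F b) (fun i => σ (x i)) s 1 = y)
  rw [h1, Finset.sum_congr rfl fun b _ => nu_inner (F b) σ s (W F s) (hR s hs) p y]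
  simp only [← Finset.mul_sum]
  unfold nu beta
  ring

end Pool.Agent.CT
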