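import Pool.Agent.CT.Stmts

/-!
# Lemma SH: the abstract leakage inequality
-/

namespace Pool.Agent.CT

open Finset

section sh
variable {Ω : Type} [Fintype Ω] [Nonempty Ω]

/-- The probabilities of the values of a random variable add up to one. -/
lemma sh_sum_pr {α : Type} [Fintype α] (X : Ω → α) : ∑ a, pr (fun ω => X ω = a) = 1 := by
  have h := sum_pr_and X (fun _ => True)
  rw [pr_true] at h
  rw [← h]
  exact Finset.sum_congr rfl fun a _ => pr_congr fun ω => ⟨fun h => ⟨h, trivial⟩, fun h => h.1⟩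

omit [Nonempty Ω] in
/-- Gibbs: `E[q(X) / P(X)]` is at most the total mass of `q`. -/
lemma sh_gibbs {α : Type} [Fintype α] (X : Ω → α) (q : α → ℝ) (hq : ∀ a, 0 ≤ q a) :
    ex (fun ω => q (X ω) / pv X ω) ≤ ∑ a, q a := by
  have h : ex (fun ω => q (X ω) / pv X ω) =
      ∑ a, pr (fun ω => X ω = a) * (q a / pr (fun ω' => X ω' = a)) :=
    ex_comp X (fun a => q a / pr (fun ω' => X ω' = a))
  rw [h]
  refine Finset.sum_le_sum fun a _ => ?_
  by_cases h0 : pr (fun ω => X ω = a) = 0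
  · rw [h0, zero_mul]
    exact hq a
  · rw [mul_div_cancel₀ _ h0]

end sh

theorem sh : S_SH := by
  classical
  intro Ω P V U I J _ _ _ _ _ _ _ p v u i c ρ C hC hc hρ hρ1 h1 h2
  -- abbreviations
  set a : Ω → ℝ := pv (fun ω => (p ω, v ω, i ω)) with ha
  set d : Ω → ℝ := pv (fun ω => (p ω, v ω)) with hd
  set m : J → Ω → ℝ := fun j => pv (fun ω' => (i ω' j, p ω', u j (v ω'))) with hm
  set n : J → Ω → ℝ := fun j => pv (fun ω' => (p ω', u j (v ω'))) with hn
  set cj : J → Ω → ℝ := fun j ω => c (u j (v ω)) (i ω j) with hcj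
  have ha0 : ∀ ω, 0 < a ω := fun ω => pv_pos _ ω
  have hd0 : ∀ ω, 0 < d ω := fun ω => pv_pos _ ω
  have hm0 : ∀ j ω, 0 < m j ω := fun j ω => pv_pos _ ω
  have hn0 : ∀ j ω, 0 < n j ω := fun j ω => pv_pos _ ω
  have he0 : ∀ ω, 0 < pv v ω := fun ω => pv_pos _ ω
  -- the law of `(v, i)`
  have hb : ∀ ω, pr (fun ω' => v ω' = v ω ∧ i ω' = i ω) = pv v ω * ∏ j, cj j ω :=
    fun ω => h1 (v ω) (i ω)
  have hb0 : ∀ ω, 0 < pr (fun ω' => v ω' = v ω ∧ i ω' = i ω) := fun ω =>
    pr_pos (ω := ω) ⟨rfl, rfl⟩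
  have hprod0 : ∀ ω, 0 < ∏ j, cj j ω := by
    intro ω
    have h := hb0 ω
    rw [hb ω] at h
    exact (mul_pos_iff_of_pos_left (he0 ω)).1 h
  have hc0 : ∀ j ω, 0 < cj j ω := by
    intro j ω
    refine lt_of_le_of_ne (hc _ _) (fun h => ?_)
    have h3 := hprod0 ω
    rw [Finset.prod_eq_zero (Finset.mem_univ j) h.symm] at h3
    exact lt_irrefl _ h3
  -- the bound for the law of `(p, v, i)`
  have hale : ∀ ω, a ω ≤ C * ρ (p ω) (v ω) * (pv v ω * ∏ j, cj j ω) := by
    intro ω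
    rw [← hb ω]
    refine le_trans (le_of_eq ?_) (h2 (p ω) (v ω) (i ω))
    exact pr_congr fun ω' => by simp only [Prod.mk.injEq]
  have hρ0 : ∀ ω, 0 < ρ (p ω) (v ω) := by
    intro ω
    refine lt_of_le_of_ne (hρ _ _) (fun h => ?_)
    have h3 := hale ω
    rw [← h, mul_zero, zero_mul] at h3
    exact absurd (ha0 ω) (not_lt.2 h3)
  -- the two ratios
  set X1 : Ω → ℝ := fun ω => ((∏ j, m j ω / n j ω) * d ω) / a ω with hX1
  set X2 : Ω → ℝ := fun ω => (ρ (p ω) (v ω) * pv v ω) / d ω with hX2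
  have hmn0 : ∀ ω, 0 < ∏ j, m j ω / n j ω := fun ω =>
    Finset.prod_pos fun j _ => div_pos (hm0 j ω) (hn0 j ω)
  have hX10 : ∀ ω, 0 < X1 ω := fun ω => div_pos (mul_pos (hmn0 ω) (hd0 ω)) (ha0 ω)
  have hX20 : ∀ ω, 0 < X2 ω := fun ω => div_pos (mul_pos (hρ0 ω) (he0 ω)) (hd0 ω)
  -- `E X2 ≤ 1`
  have hE2 : ex X2 ≤ 1 := by
    have h := sh_gibbs (fun ω => (p ω, v ω))
      (fun z : P × V => ρ z.1 z.2 * pr (fun ω => v ω = z.2))
      (fun z => mul_nonneg (hρ _ _) (pr_nonneg _))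
    refine le_trans h ?_
    rw [Fintype.sum_prod_type, Finset.sum_comm]
    calc ∑ y, ∑ x, ρ x y * pr (fun ω => v ω = y)
        = ∑ y, (∑ x, ρ x y) * pr (fun ω => v ω = y) :=
          Finset.sum_congr rfl fun y _ => (Finset.sum_mul _ _ _).symm
      _ ≤ ∑ y, 1 * pr (fun ω => v ω = y) :=
          Finset.sum_le_sum fun y _ => mul_le_mul_of_nonneg_right (hρ1 y) (pr_nonneg _)
      _ = 1 := by simp only [one_mul]; exact sh_sum_pr v
  -- `E X1 ≤ 1`
  have hE1 : ex X1 ≤ 1 := by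
    have h := sh_gibbs (fun ω => (p ω, v ω, i ω))
      (fun z : P × V × (J → I) =>
        (∏ j, pr (fun ω' => (i ω' j, p ω', u j (v ω')) = (z.2.2 j, z.1, u j z.2.1)) /
          pr (fun ω' => (p ω', u j (v ω')) = (z.1, u j z.2.1))) *
        pr (fun ω' => (p ω', v ω') = (z.1, z.2.1)))
      (fun z => mul_nonneg (Finset.prod_nonneg fun j _ => div_nonneg (pr_nonneg _) (pr_nonneg _))
        (pr_nonneg _))
    refine le_trans h ?_
    rw [Fintype.sum_prod_type]
    have h3 : ∀ x : P, ∀ y : V, ∑ z : J → I,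
        (∏ j, pr (fun ω' => (i ω' j, p ω', u j (v ω')) = (z j, x, u j y)) /
          pr (fun ω' => (p ω', u j (v ω')) = (x, u j y))) ≤ 1 := by
      intro x y
      rw [← prod_sum_pi (fun (j : J) (t : I) =>
        pr (fun ω' => (i ω' j, p ω', u j (v ω')) = (t, x, u j y)) /
          pr (fun ω' => (p ω', u j (v ω')) = (x, u j y)))]
      refine Finset.prod_le_one (fun j _ => Finset.sum_nonneg fun t _ =>
        div_nonneg (pr_nonneg _) (pr_nonneg _)) (fun j _ => ?_)
      rw [← Finset.sum_div]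
      have h4 : ∑ t : I, pr (fun ω' => (i ω' j, p ω', u j (v ω')) = (t, x, u j y)) =
          pr (fun ω' => (p ω', u j (v ω')) = (x, u j y)) := by
        rw [← sum_pr_and (fun ω' => i ω' j) (fun ω' => (p ω', u j (v ω')) = (x, u j y))]
        exact Finset.sum_congr rfl fun t _ => pr_congr fun ω' => by
          simp only [Prod.mk.injEq]
      rw [h4]
      exact div_self_le_one _
    calc ∑ x : P, ∑ z : V × (J → I),
          (∏ j, pr (fun ω' => (i ω' j, p ω', u j (v ω')) = (z.2 j, x, u j z.1)) /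
            pr (fun ω' => (p ω', u j (v ω')) = (x, u j z.1))) *
          pr (fun ω' => (p ω', v ω') = (x, z.1))
        = ∑ x : P, ∑ y : V, (∑ z : J → I,
          (∏ j, pr (fun ω' => (i ω' j, p ω', u j (v ω')) = (z j, x, u j y)) /
            pr (fun ω' => (p ω', u j (v ω')) = (x, u j y)))) *
          pr (fun ω' => (p ω', v ω') = (x, y)) := by
          refine Finset.sum_congr rfl fun x _ => ?_
          rw [Fintype.sum_prod_type]
          refine Finset.sum_congr rfl fun y _ => ?_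
          rw [Finset.sum_mul]
      _ ≤ ∑ x : P, ∑ y : V, 1 * pr (fun ω' => (p ω', v ω') = (x, y)) :=
          Finset.sum_le_sum fun x _ => Finset.sum_le_sum fun y _ =>
            mul_le_mul_of_nonneg_right (h3 x y) (pr_nonneg _)
      _ = ∑ z : P × V, pr (fun ω' => (p ω', v ω') = z) := by
          rw [Fintype.sum_prod_type]
          simp only [one_mul]
      _ = 1 := sh_sum_pr _
  -- pointwise bound
  have hpt : ∀ ω, ∑ j, Real.log (m j ω / (n j ω * cj j ω)) ≤
      (X1 ω - 1) + (X2 ω - 1) + Real.log C := by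
    intro ω
    have e1 : ∑ j, Real.log (m j ω / (n j ω * cj j ω)) =
        Real.log (∏ j, m j ω / n j ω) - Real.log (∏ j, cj j ω) := by
      rw [Real.log_prod (fun j _ => (div_pos (hm0 j ω) (hn0 j ω)).ne'),
        Real.log_prod (fun j _ => (hc0 j ω).ne'), ← Finset.sum_sub_distrib]
      refine Finset.sum_congr rfl fun j _ => ?_
      rw [← Real.log_div (div_pos (hm0 j ω) (hn0 j ω)).ne' (hc0 j ω).ne', div_div]
    have e2 : Real.log (X1 ω) = Real.log (∏ j, m j ω / n j ω) + Real.log (d ω) -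
        Real.log (a ω) := by
      rw [hX1]
      simp only
      rw [Real.log_div (mul_pos (hmn0 ω) (hd0 ω)).ne' (ha0 ω).ne',
        Real.log_mul (hmn0 ω).ne' (hd0 ω).ne']
    have e3 : Real.log (X2 ω) = Real.log (ρ (p ω) (v ω)) + Real.log (pv v ω) -
        Real.log (d ω) := by
      rw [hX2]
      simp only
      rw [Real.log_div (mul_pos (hρ0 ω) (he0 ω)).ne' (hd0 ω).ne',
        Real.log_mul (hρ0 ω).ne' (he0 ω).ne']
    have e4 : Real.log (a ω) ≤ Real.log C + Real.log (ρ (p ω) (v ω)) +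
        (Real.log (pv v ω) + Real.log (∏ j, cj j ω)) := by
      rw [← Real.log_mul hC.ne' (hρ0 ω).ne', ← Real.log_mul (he0 ω).ne' (hprod0 ω).ne',
        ← Real.log_mul (mul_pos hC (hρ0 ω)).ne' (mul_pos (he0 ω) (hprod0 ω)).ne']
      exact Real.log_le_log (ha0 ω) (hale ω)
    have e5 := Real.log_le_sub_one_of_pos (hX10 ω)
    have e6 := Real.log_le_sub_one_of_pos (hX20 ω)
    rw [e1]
    linarith
  rw [← ex_sum Finset.univ (fun j ω => Real.log (m j ω / (n j ω * cj j ω)))]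
  refine le_trans (ex_mono hpt) ?_
  have e7 : ex (fun ω => (X1 ω - 1) + (X2 ω - 1) + Real.log C) =
      (ex X1 - 1) + (ex X2 - 1) + Real.log C := by
    have h3 : ex (fun ω => (X1 ω - 1) + (X2 ω - 1) + Real.log C) =
        ex (fun ω => (X1 ω - 1) + (X2 ω - 1)) + ex (fun _ : Ω => Real.log C) :=
      ex_add _ _
    have h4 : ex (fun ω => (X1 ω - 1) + (X2 ω - 1)) = ex (fun ω => X1 ω - 1) +
        ex (fun ω => X2 ω - 1) := ex_add _ _
    have h5 : ex (fun ω => X1 ω - 1) = ex X1 - ex (fun _ : Ω => (1 : ℝ)) := ex_sub _ _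
    have h6 : ex (fun ω => X2 ω - 1) = ex X2 - ex (fun _ : Ω => (1 : ℝ)) := ex_sub _ _
    rw [h3, h4, h5, h6, ex_const, ex_const]
  rw [e7]
  linarith

end Pool.Agent.CT
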