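import Pool.Agent.CT.Stmts

/-!
# SUM: sums for the events that all nodes of a component accept
-/

namespace Pool.Agent.CT

open Finset Matrix

section sum_basic

variable {L A : Type} {k : ℕ} (N : Node L A k)

/-- Dropping the acceptance conditions. -/
lemma sum_sat_free : ∀ (h : ℕ) (c : Br L k h) (s : ℕ) (y : Tr A s), Sat N h c s y →
    Sat N.free h c s y
  | 0, _, _, _, hs => ⟨hs.1, trivial⟩
  | h + 1, _, s, _, hs => by
      obtain ⟨z, h1, _, h3⟩ := hs
      exact ⟨z, h1, trivial, fun j => sum_sat_free h _ s _ (h3 j)⟩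

lemma sum_init_cons {m s : ℕ} (y : Tr A (s + 1)) (z : Fin m → Tr A (s + 1)) :
    (fun j => (vecCons y z j).init) =
      (vecCons y.init (fun j => (z j).init) : Fin (m + 1) → Tr A s) := by
  funext j
  refine Fin.cases ?_ (fun j => ?_) j
  · rfl
  · rfl

lemma sum_init_cons2 {m s : ℕ} (p q : Tr A (s + 1)) (z : Fin m → Tr A (s + 1)) :
    (fun j => (vecCons p (vecCons q z) j).init) =
      (vecCons p.init (vecCons q.init (fun j => (z j).init)) : Fin (m + 2) → Tr A s) := by
  rw [sum_init_cons]
  congr 1
  exact sum_init_cons q z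

/-- Uniqueness of the transcripts of the triangle. -/
lemma sum_tri_unique {X : Type} (σ : X → Strat A) (b : Fin 3 → L) (x : Fin 3 → Fin k → X) :
    ∀ (s : ℕ) (p p' : Fin 3 → Tr A s) (z z' : Fin 3 → Fin k → Tr A s),
      (∀ i, NodeCon (N.F (b i)) s (vecCons (p i) (vecCons (swap (p (i + 2))) (z i))) ∧
        ∀ j, Con (σ (x i j)) s (swap (z i j))) →
      (∀ i, NodeCon (N.F (b i)) s (vecCons (p' i) (vecCons (swap (p' (i + 2))) (z' i))) ∧
        ∀ j, Con (σ (x i j)) s (swap (z' i j))) → p = p' ∧ z = z'
  | 0, _, _, _, _, _, _ => by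
      constructor
      · funext j
        exact Subsingleton.elim (α := Unit) _ _
      · funext i j
        exact Subsingleton.elim (α := Unit) _ _
  | s + 1, p, p', z, z', h, h' => by
      have ih := sum_tri_unique σ b x s (fun i => (p i).init) (fun i => (p' i).init)
        (fun i j => (z i j).init) (fun i j => (z' i j).init)
        (fun i => by
          obtain ⟨⟨h1, _⟩, h3⟩ := h i
          rw [sum_init_cons2] at h1
          exact ⟨h1, fun j => (h3 j).1⟩)
        (fun i => by
          obtain ⟨⟨h1, _⟩, h3⟩ := h' i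
          rw [sum_init_cons2] at h1
          exact ⟨h1, fun j => (h3 j).1⟩)
      obtain ⟨ih1, ih2⟩ := ih
      have ep : ∀ i, (p i).init = (p' i).init := fun i => congrFun ih1 i
      have ez : ∀ i j, (z i j).init = (z' i j).init := fun i j => congrFun (congrFun ih2 i) j
      have hfam : ∀ i, (fun j => (vecCons (p i) (vecCons (swap (p (i + 2))) (z i)) j).init) =
          fun j => (vecCons (p' i) (vecCons (swap (p' (i + 2))) (z' i)) j).init := by
        intro i
        rw [sum_init_cons2, sum_init_cons2, swap_init, swap_init, ep i, ep (i + 2)]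
        congr 2
        funext j
        exact ez i j
      have hout : ∀ i j, (vecCons (p i) (vecCons (swap (p (i + 2))) (z i)) j).out =
          (vecCons (p' i) (vecCons (swap (p' (i + 2))) (z' i)) j).out := by
        intro i j
        rw [(h i).1.2 j, (h' i).1.2 j, hfam i]
      have hp : p = p' := by
        funext i
        refine tr_ext (ep i) (hout i 0) ?_
        have h2 := hout (i + 1) 1
        have e3 : i + 1 + 2 = i := by
          rw [add_assoc]
          have : (1 + 2 : Fin 3) = 0 := rfl
          rw [this, add_zero]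
        change (swap (p (i + 1 + 2))).out = (swap (p' (i + 1 + 2))).out at h2
        rw [e3] at h2
        exact h2
      refine ⟨hp, ?_⟩
      funext i j
      refine tr_ext (ez i j) ?_ ?_
      · exact hout i j.succ.succ
      · have a1 : (z i j).inn = σ (x i j) s (swap ((z i j).init)) := ((h i).2 j).2
        have a2 : (z' i j).inn = σ (x i j) s (swap ((z' i j).init)) := ((h' i).2 j).2
        rw [a1, a2, ez i j]

end sum_basic

/-- The probability of an event implied by a family of product events at a node. -/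
lemma sum_hang {L A : Type} [Fintype L] [Fintype A] {k m : ℕ} (N : Node L A k) (h s : ℕ)
    (hW : ∀ y, pr (fun c : Br L k h => Sat N.free h c s y) = W N.F s y)
    (C : L → (Fin m → Tr A s) → Prop) [∀ b z, Decidable (C b z)] :
    pr (fun c : Hang L k h m => ∃ z : Fin m → Tr A s, C c.1 z ∧
        ∀ j, Sat N.free h (c.2 j) s (swap (z j))) ≤
      (∑ b : L, ∑ z : Fin m → Tr A s, if C b z then ∏ j, W N.F s (swap (z j)) else 0) /
        Fintype.card L := by
  have h1 := pr_fst (Ω := L) (Ω' := Fin m → Br L k h)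
    (fun b x => ∃ z : Fin m → Tr A s, C b z ∧ ∀ j, Sat N.free h (x j) s (swap (z j)))
  refine h1.le.trans ?_
  refine div_le_div_of_nonneg_right (Finset.sum_le_sum fun b _ => ?_) (Nat.cast_nonneg _)
  refine (pr_exists_le _).trans (Finset.sum_le_sum fun z _ => ?_)
  by_cases hC : C b z
  · rw [if_pos hC]
    have h2 : pr (fun x : Fin m → Br L k h => C b z ∧ ∀ j, Sat N.free h (x j) s (swap (z j))) =
        pr (fun x : Fin m → Br L k h => ∀ j, Sat N.free h (x j) s (swap (z j))) :=
      pr_congr fun x => ⟨fun h => h.2, fun h => ⟨hC, h⟩⟩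
    rw [h2, pr_pi (Ω := Br L k h) (fun j c => Sat N.free h c s (swap (z j)))]
    refine le_of_eq (Finset.prod_congr rfl fun j _ => hW _)
  · rw [if_neg hC]
    have h2 : pr (fun x : Fin m → Br L k h => C b z ∧ ∀ j, Sat N.free h (x j) s (swap (z j))) =
        pr (fun _ : Fin m → Br L k h => False) :=
      pr_congr fun x => ⟨fun h => hC h.1, fun h => h.elim⟩
    rw [h2, pr_false]

/-- Splitting off the first two branches. -/
def sumSplit (L : Type) (k h : ℕ) :
    Hang L k h (k + 2) ≃ Hang L k h k × (Br L k h × Br L k h) where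
  toFun c := ((c.1, fun j => c.2 j.succ.succ), (c.2 0, c.2 1))
  invFun x := (x.1.1, vecCons x.2.1 (vecCons x.2.2 x.1.2))
  left_inv c := by
    refine Prod.ext rfl ?_
    funext j
    refine Fin.cases rfl (fun j => ?_) j
    exact Fin.cases rfl (fun j => rfl) j
  right_inv x := rfl

theorem sums (_h1 : S_WT) (h2 : S_BR) : S_SUM := by
  classical
  intro L A _ _ _ k N hN h s hs
  obtain ⟨hσ, hW⟩ := h2 L A k N hN
  have hW' := hW h s hs
  refine ⟨?_, ?_, ?_⟩
  · intro p q
    have h3 : pr (fun c : Hang L k h k => SatY N h s c p q) ≤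
        pr (fun c : Hang L k h k => ∃ z : Fin k → Tr A s,
          NodeCon (N.F c.1) s (vecCons p (vecCons q z)) ∧
            ∀ j, Sat N.free h (c.2 j) s (swap (z j))) := by
      refine pr_mono fun c hc => ?_
      obtain ⟨z, a1, _, a3⟩ := hc
      exact ⟨z, a1, fun j => sum_sat_free N h _ s _ (a3 j)⟩
    refine h3.trans ?_
    refine (sum_hang N h s hW' (fun b z => NodeCon (N.F b) s (vecCons p (vecCons q z)))).trans ?_
    exact le_of_eq rfl
  · have h3 : pr (fun c : Hang L k h (k + 2) => SatT N h s c) ≤
        pr (fun c : Hang L k h (k + 2) => ∃ pq : Tr A s × Tr A s,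
          SatY N h s (c.1, fun j => c.2 j.succ.succ) pq.1 pq.2 ∧
            (Sat N.free h (c.2 0) s (swap pq.1) ∧ Sat N.free h (c.2 1) s (swap pq.2))) := by
      refine pr_mono fun c hc => ?_
      obtain ⟨z, a1, a2, a3⟩ := hc
      have hz : (vecCons (z 0) (vecCons (z 1) (fun j => z j.succ.succ)) : Fin (k + 2) → Tr A s) =
          z := by
        funext j
        refine Fin.cases rfl (fun j => ?_) j
        exact Fin.cases rfl (fun j => rfl) j
      refine ⟨(z 0, z 1), ⟨fun j => z j.succ.succ, ?_, ?_, fun j => a3 j.succ.succ⟩,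
        sum_sat_free N h _ s _ (a3 0), sum_sat_free N h _ s _ (a3 1)⟩
      · show NodeCon (N.F c.1) s (vecCons (z 0) (vecCons (z 1) (fun j => z j.succ.succ)))
        rw [hz]; exact a1
      · show N.O c.1 s (vecCons (z 0) (vecCons (z 1) (fun j => z j.succ.succ)))
        rw [hz]; exact a2
    refine h3.trans ((pr_exists_le _).trans ?_)
    rw [Fintype.sum_prod_type]
    refine Finset.sum_le_sum fun p _ => Finset.sum_le_sum fun q _ => ?_
    have h4 := pr_equiv (sumSplit L k h) (fun x : Hang L k h k × (Br L k h × Br L k h) =>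
      SatY N h s x.1 p q ∧ (Sat N.free h x.2.1 s (swap p) ∧ Sat N.free h x.2.2 s (swap q)))
    refine h4.le.trans ?_
    rw [pr_prod (Ω := Hang L k h k) (Ω' := Br L k h × Br L k h) (fun c => SatY N h s c p q)
        (fun x => Sat N.free h x.1 s (swap p) ∧ Sat N.free h x.2 s (swap q)),
      pr_prod (Ω := Br L k h) (Ω' := Br L k h) (fun c => Sat N.free h c s (swap p))
        (fun c => Sat N.free h c s (swap q)), hW', hW', mul_assoc]
  · obtain ⟨σ, hσ'⟩ := hσ h
    have h3 := pr_exists_eq (Ω := Fin 3 → Hang L k h k) (ι := Fin 3 → Tr A s)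
      (fun p x => ∀ i, SatY N h s (x i) (p i) (swap (p (i + 2)))) (by
        intro x p p' hp hp'
        choose z hz using hp
        choose z' hz' using hp'
        exact (sum_tri_unique N σ (fun i => (x i).1) (fun i => (x i).2) s p p' z z'
          (fun i => ⟨(hz i).1, fun j => (hσ' s _ _).1 (sum_sat_free N h _ s _ ((hz i).2.2 j))⟩)
          (fun i => ⟨(hz' i).1, fun j => (hσ' s _ _).1 (sum_sat_free N h _ s _ ((hz' i).2.2 j))⟩)).1)
    refine h3.trans ?_
    have h4 : ∀ p : Fin 3 → Tr A s, pr (fun x : Fin 3 → Hang L k h k =>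
        ∀ i, SatY N h s (x i) (p i) (swap (p (i + 2)))) =
        ∏ i, pr (fun c : Hang L k h k => SatY N h s c (p i) (swap (p (i + 2)))) := fun p =>
      pr_pi (Ω := Hang L k h k) (fun i c => SatY N h s c (p i) (swap (p (i + 2))))
    rw [Finset.sum_congr rfl fun p _ => h4 p]
    rw [sum_vecCons]
    refine Finset.sum_congr rfl fun p _ => ?_
    rw [sum_vecCons]
    refine Finset.sum_congr rfl fun y _ => ?_
    rw [sum_vecCons]
    refine Finset.sum_congr rfl fun q _ => ?_
    rw [Fintype.sum_unique, Fin.prod_univ_three]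
    rfl

end Pool.Agent.CT
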