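import Pool.Agent.CT.Stmts

/-!
# The leakage bound for one round at a node
-/

namespace Pool.Agent.CT

open Finset Matrix

section term
variable {L A X : Type} {k : ℕ} (F : L → NodeFun A (Fin (k + 2))) (σ : X → Strat A)

/-- permuting the branches permutes the transcripts -/
lemma term_perm (hE : Equivar F) (e : Equiv.Perm (Fin (k + 2))) (b : L) (x : Fin (k + 2) → X) :
    ∀ s, run (F b) (fun i => σ (x (e i))) s = fun j => run (F b) (fun i => σ (x i)) s (e j)
  | 0 => by
      funext j
      rfl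
  | s + 1 => by
      have ih := term_perm hE e b x s
      funext j
      refine tr_ext ?_ ?_ ?_
      · exact congrFun ih j
      · change F b s (run (F b) (fun i => σ (x (e i))) s) j =
          F b s (run (F b) (fun i => σ (x i)) s) (e j)
        rw [ih, hE b s e]
      · change σ (x (e j)) s (swap (run (F b) (fun i => σ (x (e i))) s j)) =
          σ (x (e j)) s (swap (run (F b) (fun i => σ (x i)) s (e j)))
        rw [ih]

/-- the name and the transcripts up to stage `τ` -/
noncomputable def termV (τ : ℕ) (ω : L × (Fin (k + 2) → X)) : L × (Fin (k + 2) → Tr A τ) :=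
  (ω.1, fun j => rt F σ τ j ω)

/-- the messages received in round `τ` on the slots but the first -/
noncomputable def termI (τ : ℕ) (ω : L × (Fin (k + 2) → X)) (j : Fin (k + 1)) : A :=
  (rt F σ (τ + 1) j.succ ω).inn

/-- the transcript on a slot and the next message sent on it -/
def termU (τ : ℕ) (j : Fin (k + 1)) (v : L × (Fin (k + 2) → Tr A τ)) : Tr A τ × A :=
  (v.2 j.succ, F v.1 τ v.2 j.succ)

/-- the conditional probability of the next message received -/
noncomputable def termC [Fintype L] [Fintype A] (τ : ℕ) (u : Tr A τ × A) (a : A) : ℝ :=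
  W F (τ + 1) ((swap u.1).snoc a u.2) / W F τ (swap u.1)

/-- the transcript `p` on the first slot is possible, given the value `v0` of `termV` -/
def termR (τ s : ℕ) (v0 : L × (Fin (k + 2) → Tr A τ)) (p : Tr A s) : Prop :=
  ∃ ω : L × (Fin (k + 2) → X), termV F σ τ ω = v0 ∧ rt F σ s 0 ω = p

lemma termV_eq_iff (τ : ℕ) (ω : L × (Fin (k + 2) → X)) (v0 : L × (Fin (k + 2) → Tr A τ)) :
    termV F σ τ ω = v0 ↔
      NodeCon (F v0.1) τ v0.2 ∧ ω.1 = v0.1 ∧ ∀ j, Con (σ (ω.2 j)) τ (swap (v0.2 j)) := by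
  constructor
  · intro h
    have h1 : ω.1 = v0.1 := congrArg Prod.fst h
    have h2 : run (F ω.1) (fun i => σ (ω.2 i)) τ = v0.2 := congrArg Prod.snd h
    obtain ⟨h3, h4⟩ := (run_eq_iff _ _ τ _).1 h2
    rw [h1] at h3
    exact ⟨h3, h1, h4⟩
  · rintro ⟨h1, h2, h3⟩
    rw [← h2] at h1
    exact Prod.ext h2 ((run_eq_iff _ _ τ _).2 ⟨h1, h3⟩)

/-- independence -/
lemma term_pr_prod [Fintype L] [Fintype X] (b0 : L) (q : Fin (k + 2) → X → Prop) :
    pr (fun ω : L × (Fin (k + 2) → X) => ω.1 = b0 ∧ ∀ j, q j (ω.2 j)) =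
      1 / Fintype.card L * (pr (q 0) * ∏ j : Fin (k + 1), pr (q j.succ)) := by
  classical
  rw [pr_prod (fun b => b = b0) (fun x : Fin (k + 2) → X => ∀ j, q j (x j)), pr_pi,
    Fin.prod_univ_succ]
  congr 1
  rw [pr_eq_sum]
  simp

/-- the probability of a value of `termV` -/
lemma term_prV [Fintype L] [Fintype A] [Fintype X] {S : ℕ} (hR : Realise F σ S) {τ : ℕ}
    (hτ : τ ≤ S) (v0 : L × (Fin (k + 2) → Tr A τ)) (hN : NodeCon (F v0.1) τ v0.2) :
    pr (fun ω : L × (Fin (k + 2) → X) => termV F σ τ ω = v0) =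
      1 / Fintype.card L * (W F τ (swap (v0.2 0)) *
        ∏ j : Fin (k + 1), W F τ (swap (v0.2 j.succ))) := by
  have h1 := term_pr_prod (L := L) v0.1 (fun (j : Fin (k + 2)) (x : X) =>
    Con (σ x) τ (swap (v0.2 j)))
  simp only [← hR τ hτ] at h1
  rw [← h1]
  apply pr_congr
  intro ω
  rw [termV_eq_iff]
  exact ⟨fun h => h.2, fun h => ⟨hN, h⟩⟩

lemma termVI_iff (τ : ℕ) (ω : L × (Fin (k + 2) → X)) (v0 : L × (Fin (k + 2) → Tr A τ))
    (i0 : Fin (k + 1) → A) :
    (termV F σ τ ω = v0 ∧ termI F σ τ ω = i0) ↔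
      NodeCon (F v0.1) τ v0.2 ∧ ω.1 = v0.1 ∧ Con (σ (ω.2 0)) τ (swap (v0.2 0)) ∧
        ∀ j : Fin (k + 1), Con (σ (ω.2 j.succ)) (τ + 1)
          ((swap (v0.2 j.succ)).snoc (i0 j) (F v0.1 τ v0.2 j.succ)) := by
  constructor
  · rintro ⟨h, hi⟩
    obtain ⟨h1, h2, h3⟩ := (termV_eq_iff F σ τ ω v0).1 h
    refine ⟨h1, h2, h3 0, fun j => ⟨h3 j.succ, ?_⟩⟩
    have h4 := congrFun hi j
    have h5 : rt F σ τ j.succ ω = v0.2 j.succ := congrFun (congrArg Prod.snd h) j.succ
    change σ (ω.2 j.succ) τ (swap (rt F σ τ j.succ ω)) = i0 j at h4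
    rw [h5] at h4
    exact h4.symm
  · rintro ⟨h1, h2, h3, h4⟩
    have h : termV F σ τ ω = v0 :=
      (termV_eq_iff F σ τ ω v0).2 ⟨h1, h2, Fin.forall_fin_succ.2 ⟨h3, fun j => (h4 j).1⟩⟩
    refine ⟨h, funext fun j => ?_⟩
    have h5 : rt F σ τ j.succ ω = v0.2 j.succ := congrFun (congrArg Prod.snd h) j.succ
    change σ (ω.2 j.succ) τ (swap (rt F σ τ j.succ ω)) = i0 j
    rw [h5]
    exact (h4 j).2.symm

/-- the probability of a value of `(termV, termI)` -/
lemma term_prVI [Fintype L] [Fintype A] [Fintype X] {S : ℕ} (hR : Realise F σ S) {τ : ℕ}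
    (hτ : τ + 1 ≤ S) (v0 : L × (Fin (k + 2) → Tr A τ)) (i0 : Fin (k + 1) → A)
    (hN : NodeCon (F v0.1) τ v0.2) :
    pr (fun ω : L × (Fin (k + 2) → X) => termV F σ τ ω = v0 ∧ termI F σ τ ω = i0) =
      1 / Fintype.card L * (W F τ (swap (v0.2 0)) *
        ∏ j : Fin (k + 1), W F (τ + 1)
          ((swap (v0.2 j.succ)).snoc (i0 j) (F v0.1 τ v0.2 j.succ))) := by
  have h1 := term_pr_prod (L := L) v0.1 (fun (j : Fin (k + 2)) (x : X) =>
    (Fin.cases (Con (σ x) τ (swap (v0.2 0))) (fun j => Con (σ x) (τ + 1)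
      ((swap (v0.2 j.succ)).snoc (i0 j) (F v0.1 τ v0.2 j.succ))) j : Prop))
  simp only [Fin.cases_zero, Fin.cases_succ, ← hR τ (Nat.le_of_succ_le hτ), ← hR (τ + 1) hτ] at h1
  rw [← h1]
  apply pr_congr
  intro ω
  rw [termVI_iff]
  constructor
  · rintro ⟨_, h2, h3, h4⟩
    exact ⟨h2, Fin.forall_fin_succ.2 ⟨h3, h4⟩⟩
  · rintro ⟨h2, h3⟩
    exact ⟨hN, h2, h3 0, fun j => h3 j.succ⟩

/-- the bound for the probability of a value of `(rt s 0, termV, termI)` -/
lemma term_prPVI [Fintype L] [Fintype A] [Fintype X] {S : ℕ} (hR : Realise F σ S) {τ s : ℕ}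
    (hτ : τ + 1 ≤ S) (hs : s ≤ S) (p0 : Tr A s) (v0 : L × (Fin (k + 2) → Tr A τ))
    (i0 : Fin (k + 1) → A) :
    pr (fun ω : L × (Fin (k + 2) → X) => rt F σ s 0 ω = p0 ∧ termV F σ τ ω = v0 ∧
      termI F σ τ ω = i0) ≤
      1 / Fintype.card L * (W F s (swap p0) *
        ∏ j : Fin (k + 1), W F (τ + 1)
          ((swap (v0.2 j.succ)).snoc (i0 j) (F v0.1 τ v0.2 j.succ))) := by
  have h1 := term_pr_prod (L := L) v0.1 (fun (j : Fin (k + 2)) (x : X) =>
    (Fin.cases (Con (σ x) s (swap p0)) (fun j => Con (σ x) (τ + 1)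
      ((swap (v0.2 j.succ)).snoc (i0 j) (F v0.1 τ v0.2 j.succ))) j : Prop))
  simp only [Fin.cases_zero, Fin.cases_succ, ← hR s hs, ← hR (τ + 1) hτ] at h1
  rw [← h1]
  apply pr_mono
  rintro ω ⟨hp, hvi⟩
  obtain ⟨_, h2, _, h4⟩ := (termVI_iff F σ τ ω v0 i0).1 hvi
  rw [Fin.forall_fin_succ]
  refine ⟨h2, ?_, h4⟩
  have h5 := ((run_eq_iff (F ω.1) (fun i => σ (ω.2 i)) s _).1 rfl).2 0
  change Con (σ (ω.2 0)) s (swap (rt F σ s 0 ω)) at h5
  rw [hp] at h5
  exact h5

open Classical in
/-- the sum over the possible transcripts on the first slot -/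
lemma term_sum [Fintype L] [Nonempty L] [Fintype A] (h1 : S_WT) {K : ℕ} (hK : RangeLE F K)
    (τ : ℕ) (v0 : L × (Fin (k + 2) → Tr A τ)) : ∀ n : ℕ,
    ∑ p : Tr A (τ + n), (if termR F σ τ (τ + n) v0 p then W F (τ + n) (swap p) else 0) ≤
      (K : ℝ) ^ n * W F τ (swap (v0.2 0))
  | 0 => by
      obtain ⟨hW0, _⟩ := h1 L A k F
      rw [pow_zero, one_mul]
      calc ∑ p : Tr A (τ + 0), (if termR F σ τ (τ + 0) v0 p then W F (τ + 0) (swap p) else 0)
          ≤ ∑ p : Tr A τ, (if p = v0.2 0 then W F τ (swap p) else 0) := by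
            refine Finset.sum_le_sum fun p _ => ?_
            change (if termR F σ τ τ v0 p then W F τ (swap p) else 0) ≤ _
            by_cases hr : termR F σ τ τ v0 p
            · have : p = v0.2 0 := by
                obtain ⟨ω, hv, hp⟩ := hr
                rw [← hp, ← hv]
                rfl
              rw [if_pos hr, if_pos this]
            · rw [if_neg hr]
              split_ifs
              · exact hW0 τ _
              · exact le_rfl
        _ = W F τ (swap (v0.2 0)) := by simp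
  | n + 1 => by
      obtain ⟨hW0, _, hW3, _⟩ := h1 L A k F
      have ih := term_sum h1 hK τ v0 n
      obtain ⟨Z, hZ, hZm⟩ := hK v0.1 (τ + n)
      have hsplit := sum_tr_succ (A := A) (s := τ + n) (fun p : Tr A (τ + n + 1) =>
        if termR F σ τ (τ + n + 1) v0 p then W F (τ + n + 1) (swap p) else 0)
      calc ∑ p : Tr A (τ + n + 1),
            (if termR F σ τ (τ + n + 1) v0 p then W F (τ + n + 1) (swap p) else 0)
          = ∑ p : Tr A (τ + n), ∑ o : A, ∑ i : A,
              (if termR F σ τ (τ + n + 1) v0 (p.snoc o i) then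
                W F (τ + n + 1) (swap (p.snoc o i)) else 0) := hsplit
        _ ≤ ∑ p : Tr A (τ + n), ∑ o : A, ∑ i : A,
              (if termR F σ τ (τ + n) v0 p then
                (if o ∈ Z then W F (τ + n + 1) ((swap p).snoc i o) else 0) else 0) := by
            refine Finset.sum_le_sum fun p _ => Finset.sum_le_sum fun o _ =>
              Finset.sum_le_sum fun i _ => ?_
            by_cases hr : termR F σ τ (τ + n + 1) v0 (p.snoc o i)
            · obtain ⟨ω, hv, hp⟩ := hr
              have hp1 : rt F σ (τ + n) 0 ω = p := congrArg Tr.init hp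
              have hp2 : F ω.1 (τ + n) (run (F ω.1) (fun i => σ (ω.2 i)) (τ + n)) 0 = o :=
                congrArg Tr.out hp
              have hb : ω.1 = v0.1 := congrArg Prod.fst hv
              have ho : o ∈ Z := by
                rw [← hp2, hb]
                exact hZm _ _
              rw [if_pos ⟨ω, hv, hp⟩, if_pos (show termR F σ τ (τ + n) v0 p from ⟨ω, hv, hp1⟩),
                if_pos ho, swap_snoc]
            · rw [if_neg hr]
              split_ifs
              · exact hW0 _ _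
              · exact le_rfl
              · exact le_rfl
        _ = ∑ p : Tr A (τ + n), (if termR F σ τ (τ + n) v0 p then
              (Z.card : ℝ) * W F (τ + n) (swap p) else 0) := by
            refine Finset.sum_congr rfl fun p _ => ?_
            by_cases hr : termR F σ τ (τ + n) v0 p
            · simp only [if_pos hr]
              have h5 : ∀ o : A, ∑ i : A,
                  (if o ∈ Z then W F (τ + n + 1) ((swap p).snoc i o) else 0) =
                  if o ∈ Z then W F (τ + n) (swap p) else 0 := by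
                intro o
                by_cases ho : o ∈ Z
                · simp only [if_pos ho]
                  exact hW3 _ _ _
                · simp only [if_neg ho]
                  exact Finset.sum_const_zero
              rw [Finset.sum_congr rfl fun o _ => h5 o, Finset.sum_ite_mem, Finset.univ_inter,
                Finset.sum_const, nsmul_eq_mul]
            · simp only [if_neg hr]
              simp
        _ ≤ ∑ p : Tr A (τ + n), (K : ℝ) * (if termR F σ τ (τ + n) v0 p then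
              W F (τ + n) (swap p) else 0) := by
            refine Finset.sum_le_sum fun p _ => ?_
            split_ifs
            · exact mul_le_mul_of_nonneg_right (by exact_mod_cast hZ) (hW0 _ _)
            · simp
        _ = (K : ℝ) * ∑ p : Tr A (τ + n), (if termR F σ τ (τ + n) v0 p then
              W F (τ + n) (swap p) else 0) := (Finset.mul_sum _ _ _).symm
        _ ≤ (K : ℝ) * ((K : ℝ) ^ n * W F τ (swap (v0.2 0))) :=
            mul_le_mul_of_nonneg_left ih (Nat.cast_nonneg _)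
        _ = (K : ℝ) ^ (n + 1) * W F τ (swap (v0.2 0)) := by ring

/-- one summand of the leakage inequality -/
noncomputable def termT [Fintype L] [Fintype A] [Fintype X] (τ s : ℕ) (j : Fin (k + 1))
    (ω : L × (Fin (k + 2) → X)) : ℝ :=
  Real.log (pv (fun ω' => (termI F σ τ ω' j, rt F σ s 0 ω', termU F τ j (termV F σ τ ω'))) ω /
    (pv (fun ω' => (rt F σ s 0 ω', termU F τ j (termV F σ τ ω'))) ω *
      termC F τ (termU F τ j (termV F σ τ ω)) (termI F σ τ ω j)))

lemma term_pv_equiv {Ω α : Type} [Fintype Ω] (e : Ω ≃ Ω) (G : Ω → α) (ω : Ω) :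
    pv (fun ω' => G (e ω')) ω = pv G (e ω) :=
  pr_equiv e (fun ω' => G ω' = G (e ω))

/-- permuting the branches as a bijection -/
def termE (e : Equiv.Perm (Fin (k + 2))) : L × (Fin (k + 2) → X) ≃ L × (Fin (k + 2) → X) where
  toFun ω := (ω.1, fun i => ω.2 (e i))
  invFun ω := (ω.1, fun i => ω.2 (e.symm i))
  left_inv ω := by
    refine Prod.ext rfl (funext fun i => ?_)
    simp
  right_inv ω := by
    refine Prod.ext rfl (funext fun i => ?_)
    simp

lemma term_rtE (hE : Equivar F) (e : Equiv.Perm (Fin (k + 2))) (s : ℕ) (i : Fin (k + 2))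
    (ω : L × (Fin (k + 2) → X)) : rt F σ s i (termE e ω) = rt F σ s (e i) ω :=
  congrFun (term_perm F σ hE e ω.1 ω.2 s) i

/-- all summands are equal -/
lemma term_exch [Fintype L] [Fintype A] [Fintype X] (hE : Equivar F) (τ s : ℕ)
    (j : Fin (k + 1)) : ex (termT F σ τ s j) = ex (termT F σ τ s 0) := by
  set e : Equiv.Perm (Fin (k + 2)) := Equiv.swap (Fin.succ 0) j.succ with he
  have he0 : e 0 = 0 :=
    Equiv.swap_apply_of_ne_of_ne (Fin.succ_ne_zero _).symm (Fin.succ_ne_zero _).symm
  have he1 : e (Fin.succ 0) = j.succ := Equiv.swap_apply_left _ _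
  rw [← ex_equiv (termE e) (termT F σ τ s 0)]
  have hI : ∀ ω, termI F σ τ (termE e ω) 0 = termI F σ τ ω j := by
    intro ω
    unfold termI
    rw [term_rtE F σ hE, he1]
  have hP : ∀ ω, rt F σ s 0 (termE e ω) = rt F σ s 0 ω := by
    intro ω
    rw [term_rtE F σ hE, he0]
  have hU : ∀ ω, termU F τ 0 (termV F σ τ (termE e ω)) = termU F τ j (termV F σ τ ω) := by
    intro ω
    change ((rt F σ (τ + 1) (Fin.succ 0) (termE e ω)).init,
      (rt F σ (τ + 1) (Fin.succ 0) (termE e ω)).out) = ((rt F σ (τ + 1) j.succ ω).init,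
      (rt F σ (τ + 1) j.succ ω).out)
    rw [term_rtE F σ hE, he1]
  have h3 : ∀ ω, termT F σ τ s j ω = termT F σ τ s 0 (termE e ω) := by
    intro ω
    unfold termT
    rw [← term_pv_equiv (termE e), ← term_pv_equiv (termE e), hI, hU]
    simp only [hI, hP, hU]
  exact congrArg ex (funext h3)

end term

theorem term (h1 : S_WT) (h2 : S_SH) : S_TERM := by
  intro L A X _ _ _ _ _ k K S F σ hE hK hK1 hR τ s hτs hsS
  classical
  obtain ⟨n, rfl⟩ := Nat.exists_eq_add_of_le hτs.le
  obtain ⟨hW0, _, hW3, _⟩ := h1 L A k F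
  have hK1' : (1 : ℝ) ≤ K := by exact_mod_cast hK1
  have hKpos : (0 : ℝ) < K := by linarith
  have hCpos : (0 : ℝ) < (K : ℝ) ^ n := by positivity
  have hWle : ∀ (t : ℕ) (y : Tr A t) (o i : A), W F (t + 1) (y.snoc o i) ≤ W F t y := by
    intro t y o i
    rw [← hW3 t y i]
    exact Finset.single_le_sum (f := fun o => W F (t + 1) (y.snoc o i)) (fun o _ => hW0 _ _)
      (Finset.mem_univ o)
  have key := h2 (L × (Fin (k + 2) → X)) (Tr A (τ + n)) (L × (Fin (k + 2) → Tr A τ))
    (Tr A τ × A) A (Fin (k + 1)) (rt F σ (τ + n) 0) (termV F σ τ) (termU F τ) (termI F σ τ)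
    (termC F τ) (fun p v => if termR F σ τ (τ + n) v p then
      W F (τ + n) (swap p) / W F τ (swap (v.2 0)) / (K : ℝ) ^ n else 0) ((K : ℝ) ^ n) hCpos
    (fun u a => div_nonneg (hW0 _ _) (hW0 _ _)) ?_ ?_ ?_ ?_
  · -- conclusion
    have hsum : ∑ j : Fin (k + 1), ex (termT F σ τ (τ + n) j) ≤ Real.log ((K : ℝ) ^ n) := key
    rw [Finset.sum_congr rfl fun j _ => term_exch F σ hE τ (τ + n) j, Finset.sum_const,
      Finset.card_univ, Fintype.card_fin, nsmul_eq_mul, Real.log_pow] at hsum
    have hlog : 0 ≤ Real.log K := Real.log_nonneg hK1'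
    have hk : (0 : ℝ) < k + 1 := by positivity
    have hgoal : ex (termT F σ τ (τ + n) 0) ≤ ((τ + n : ℕ) : ℝ) * Real.log K / (k + 1) := by
      rw [le_div_iff₀ hk]
      push_cast at hsum ⊢
      nlinarith [mul_nonneg (Nat.cast_nonneg (α := ℝ) τ) hlog]
    refine le_trans (le_of_eq ?_) hgoal
    apply congrArg ex
    funext ω
    unfold termT
    have e1 : pv (fun ω' => (rt F σ (τ + n) 0 ω', rt F σ (τ + 1) 1 ω')) ω =
        pv (fun ω' => (termI F σ τ ω' 0, rt F σ (τ + n) 0 ω',
          termU F τ 0 (termV F σ τ ω'))) ω := by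
      apply pr_congr
      intro ω'
      constructor
      · intro h
        have h3 : rt F σ (τ + n) 0 ω' = rt F σ (τ + n) 0 ω := congrArg Prod.fst h
        have h4 : rt F σ (τ + 1) 1 ω' = rt F σ (τ + 1) 1 ω := congrArg Prod.snd h
        exact Prod.ext (congrArg Tr.inn h4)
          (Prod.ext h3 (Prod.ext (congrArg Tr.init h4) (congrArg Tr.out h4)))
      · intro h
        have h3 : (rt F σ (τ + 1) 1 ω').inn = (rt F σ (τ + 1) 1 ω).inn := congrArg Prod.fst h
        have h4 : rt F σ (τ + n) 0 ω' = rt F σ (τ + n) 0 ω :=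
          congrArg Prod.fst (congrArg Prod.snd h)
        have h7 : termU F τ 0 (termV F σ τ ω') = termU F τ 0 (termV F σ τ ω) :=
          congrArg Prod.snd (congrArg Prod.snd h)
        obtain ⟨h8, h9⟩ := Prod.mk.inj h7
        have h5 : (rt F σ (τ + 1) 1 ω').init = (rt F σ (τ + 1) 1 ω).init := h8
        have h6 : (rt F σ (τ + 1) 1 ω').out = (rt F σ (τ + 1) 1 ω).out := h9
        exact Prod.ext h4 (tr_ext h5 h6 h3)
    rw [e1]
    rfl
  · intro p v
    split_ifs
    · exact div_nonneg (div_nonneg (hW0 _ _) (hW0 _ _)) hCpos.le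
    · exact le_rfl
  · intro v
    by_cases hw : W F τ (swap (v.2 0)) = 0
    · rw [hw]
      simp
    · have hwpos : 0 < W F τ (swap (v.2 0)) := lt_of_le_of_ne (hW0 _ _) (Ne.symm hw)
      have h3 := term_sum F σ h1 hK τ v n
      have h4 : ∑ p : Tr A (τ + n), (if termR F σ τ (τ + n) v p then
          W F (τ + n) (swap p) / W F τ (swap (v.2 0)) / (K : ℝ) ^ n else 0) =
          (∑ p : Tr A (τ + n), (if termR F σ τ (τ + n) v p then W F (τ + n) (swap p) else 0)) /
            W F τ (swap (v.2 0)) / (K : ℝ) ^ n := by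
        rw [Finset.sum_div, Finset.sum_div]
        refine Finset.sum_congr rfl fun p _ => ?_
        split_ifs
        · rfl
        · simp
      rw [h4, div_div, div_le_one (mul_pos hwpos hCpos)]
      linarith
  · intro v0 i0
    by_cases hN : NodeCon (F v0.1) τ v0.2
    · have h3 : pr (fun ω : L × (Fin (k + 2) → X) => termV F σ τ ω = v0 ∧ termI F σ τ ω = i0) =
          _ := term_prVI F σ hR (by omega) v0 i0 hN
      have h4 : pr (fun ω : L × (Fin (k + 2) → X) => termV F σ τ ω = v0) = _ :=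
        term_prV F σ hR (by omega) v0 hN
      rw [h3, h4, mul_assoc, mul_assoc, ← Finset.prod_mul_distrib]
      congr 2
      refine Finset.prod_congr rfl fun j _ => ?_
      unfold termC termU
      by_cases hw : W F τ (swap (v0.2 j.succ)) = 0
      · have h5 := hWle τ (swap (v0.2 j.succ)) (i0 j) (F v0.1 τ v0.2 j.succ)
        rw [hw] at h5 ⊢
        rw [le_antisymm h5 (hW0 _ _)]
        simp
      · rw [mul_div_cancel₀ _ hw]
    · have h3 : ∀ ω : L × (Fin (k + 2) → X), termV F σ τ ω ≠ v0 := fun ω h =>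
        hN ((termV_eq_iff F σ τ ω v0).1 h).1
      have h4 : pr (fun ω : L × (Fin (k + 2) → X) => termV F σ τ ω = v0) = 0 := by
        rw [pr_congr (q := fun _ => False) fun ω => ⟨fun h => h3 ω h, False.elim⟩]
        exact pr_false
      have h5 : pr (fun ω : L × (Fin (k + 2) → X) => termV F σ τ ω = v0 ∧
          termI F σ τ ω = i0) = 0 := by
        rw [pr_congr (q := fun _ => False) fun ω => ⟨fun h => h3 ω h.1, False.elim⟩]
        exact pr_false
      rw [h5, h4, zero_mul]
  · intro p0 v0 i0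
    by_cases hr : termR F σ τ (τ + n) v0 p0
    · rw [if_pos hr]
      obtain ⟨ω, hv, hp⟩ := hr
      obtain ⟨hN, h3, h4⟩ := (termV_eq_iff F σ τ ω v0).1 hv
      have hwpos : 0 < W F τ (swap (v0.2 0)) := by
        rw [hR τ (by omega)]
        exact pr_pos (ω := ω.2 0) (h4 0)
      refine (term_prPVI F σ hR (by omega) hsS p0 v0 i0).trans (le_of_eq ?_)
      rw [term_prVI F σ hR (by omega) v0 i0 hN]
      field_simp
    · rw [if_neg hr, mul_zero, zero_mul]
      apply le_of_eq
      rw [pr_congr (q := fun _ => False) fun ω => ⟨fun h => hr ⟨ω, h.2.1, h.1⟩, False.elim⟩]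
      exact pr_false

end Pool.Agent.CT
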