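import Pool.Agent.CT.Stmts

/-!
# Properties of the universal weights
-/

namespace Pool.Agent.CT

open Finset Matrix

section wtgen
variable {A : Type} [Fintype A]

open Classical in
/-- Summing out the last round of the hanging slots `H` of a node. -/
lemma wt_step {J H : Type} [Fintype H] [DecidableEq H] {s : ℕ} (f : NodeFun A J)
    (g : (H → Tr A s) → J → Tr A s) (g' : (H → Tr A (s + 1)) → J → Tr A (s + 1))
    (ι : H → J) (E : J → Prop) (o : J → A) (w : Tr A s → ℝ) (w' : Tr A (s + 1) → ℝ)
    (hinit : ∀ z', (fun j => (g' z' j).init) = g (fun h => (z' h).init))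
    (hout : ∀ z' h, (g' z' (ι h)).out = (z' h).out)
    (hE : ∀ j, E j → ∀ z', (g' z' j).out = o j)
    (hcov : ∀ j, E j ∨ ∃ h, ι h = j)
    (hw : ∀ (y : Tr A s) (i : A), ∑ a, w' (y.snoc a i) = w y) :
    (∑ z' : H → Tr A (s + 1), if NodeCon f (s + 1) (g' z') then ∏ h, w' (swap (z' h)) else 0) =
      ∑ z : H → Tr A s, if NodeCon f s (g z) ∧ ∀ j, E j → f s (g z) j = o j then
        ∏ h, w (swap (z h)) else 0 := by
  rw [sum_pi_tr_succ]
  refine Finset.sum_congr rfl fun z _ => ?_
  have key : ∀ (a i : H → A), NodeCon f (s + 1) (g' (fun h => (z h).snoc (a h) (i h))) ↔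
      (NodeCon f s (g z) ∧ ∀ j, E j → f s (g z) j = o j) ∧ a = fun h => f s (g z) (ι h) := by
    intro a i
    have h1 : (fun j => (g' (fun h => (z h).snoc (a h) (i h)) j).init) = g z := hinit _
    constructor
    · rintro ⟨h2, h3⟩
      rw [h1] at h2 h3
      refine ⟨⟨h2, fun j hj => ?_⟩, ?_⟩
      · rw [← h3 j, hE j hj]
      · funext h
        have h4 := h3 (ι h)
        rw [hout] at h4
        exact h4
    · rintro ⟨⟨h2, h3⟩, h4⟩
      refine ⟨?_, ?_⟩
      · rw [h1]; exact h2
      · intro j
        rw [h1]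
        rcases hcov j with hj | ⟨h, rfl⟩
        · rw [hE j hj, h3 j hj]
        · rw [hout]
          exact congrFun h4 h
  by_cases hP : NodeCon f s (g z) ∧ ∀ j, E j → f s (g z) j = o j
  · rw [if_pos hP]
    rw [Finset.sum_eq_single (fun h => f s (g z) (ι h))]
    · have h5 : ∀ i : H → A, (if NodeCon f (s + 1)
          (g' (fun h => (z h).snoc (f s (g z) (ι h)) (i h))) then
            ∏ h, w' (swap ((z h).snoc (f s (g z) (ι h)) (i h))) else 0) =
          ∏ h, w' ((swap (z h)).snoc (i h) (f s (g z) (ι h))) := by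
        intro i
        rw [if_pos ((key (fun h => f s (g z) (ι h)) i).2 ⟨hP, rfl⟩)]
        rfl
      rw [Finset.sum_congr rfl fun i _ => h5 i]
      rw [← prod_sum_pi (fun (h : H) (a : A) => w' ((swap (z h)).snoc a (f s (g z) (ι h))))]
      exact Finset.prod_congr rfl fun h _ => hw _ _
    · intro a _ ha
      refine Finset.sum_eq_zero fun i _ => ?_
      rw [if_neg]
      intro h6
      exact ha ((key a i).1 h6).2
    · intro h; exact absurd (Finset.mem_univ _) h
  · rw [if_neg hP]
    refine Finset.sum_eq_zero fun a _ => Finset.sum_eq_zero fun i _ => ?_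
    rw [if_neg]
    intro h6
    exact hP ((key a i).1 h6).1

end wtgen

set_option linter.unusedSectionVars false

section wt
variable {L A : Type} [Fintype L] [Nonempty L] [Fintype A] {k : ℕ}
  (F : L → NodeFun A (Fin (k + 2)))

omit [Nonempty L] in
lemma wt_nonneg : ∀ s (y : Tr A s), 0 ≤ W F s y
  | 0, _ => zero_le_one
  | s + 1, y => by
      unfold W
      refine div_nonneg (Finset.sum_nonneg fun b _ => Finset.sum_nonneg fun z _ => ?_)
        (Nat.cast_nonneg _)
      split_ifs
      · exact Finset.prod_nonneg fun j _ => wt_nonneg s _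
      · exact le_refl _

omit [Nonempty L] in
lemma wt_indep (s : ℕ) (y : Tr A s) (o i i' : A) :
    W F (s + 1) (y.snoc o i) = W F (s + 1) (y.snoc o i') := by
  unfold W
  rfl

open Classical in
/-- First slot given, the others hanging. -/
lemma wt_step1 {s : ℕ} (hw : ∀ (y : Tr A s) (i : A), ∑ a, W F (s + 1) (y.snoc a i) = W F s y)
    (b : L) (p : Tr A s) (o i : A) :
    (∑ z' : Fin (k + 1) → Tr A (s + 1), if NodeCon (F b) (s + 1) (vecCons (p.snoc o i) z') then
        ∏ h, W F (s + 1) (swap (z' h)) else 0) =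
      ∑ z : Fin (k + 1) → Tr A s, if NodeCon (F b) s (vecCons p z) ∧
        F b s (vecCons p z) 0 = o then ∏ h, W F s (swap (z h)) else 0 := by
  classical
  have h := wt_step (F b) (fun z => vecCons p z) (fun z' => vecCons (p.snoc o i) z')
    Fin.succ (fun j => j = 0) (fun _ => o) (W F s) (W F (s + 1))
    (fun z' => by
      funext j
      refine Fin.cases ?_ (fun j => ?_) j
      · rfl
      · rfl)
    (fun z' h => rfl)
    (fun j hj z' => by subst hj; rfl)
    (fun j => by
      refine Fin.cases ?_ (fun j => ?_) j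
      · exact Or.inl rfl
      · exact Or.inr ⟨j, rfl⟩)
    hw
  refine Eq.trans ?_ (h.trans ?_)
  · refine Finset.sum_congr rfl fun z _ => ?_
    by_cases hc : NodeCon (F b) (s + 1) (vecCons (p.snoc o i) z)
    · simp only [if_pos hc]
    · simp only [if_neg hc]
  · refine Finset.sum_congr rfl fun z _ => ?_
    by_cases hc : NodeCon (F b) s (vecCons p z) ∧ F b s (vecCons p z) 0 = o
    · rw [if_pos hc, if_pos ⟨hc.1, fun j hj => by rw [hj]; exact hc.2⟩]
    · rw [if_neg hc, if_neg (fun h' => hc ⟨h'.1, h'.2 0 rfl⟩)]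

open Classical in
/-- First two slots given, the others hanging. -/
lemma wt_step2 {s : ℕ} (hw : ∀ (y : Tr A s) (i : A), ∑ a, W F (s + 1) (y.snoc a i) = W F s y)
    (b : L) (p y : Tr A s) (o i o' i' : A) :
    (∑ z' : Fin k → Tr A (s + 1), if NodeCon (F b) (s + 1)
        (vecCons (p.snoc o i) (vecCons (y.snoc o' i') z')) then
        ∏ h, W F (s + 1) (swap (z' h)) else 0) =
      ∑ z : Fin k → Tr A s, if NodeCon (F b) s (vecCons p (vecCons y z)) ∧
        F b s (vecCons p (vecCons y z)) 0 = o ∧ F b s (vecCons p (vecCons y z)) 1 = o' then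
        ∏ h, W F s (swap (z h)) else 0 := by
  classical
  have h := wt_step (F b) (fun z => vecCons p (vecCons y z))
    (fun z' => vecCons (p.snoc o i) (vecCons (y.snoc o' i') z'))
    (fun j : Fin k => j.succ.succ) (fun j => j = 0 ∨ j = 1) (fun j => if j = 0 then o else o')
    (W F s) (W F (s + 1))
    (fun z' => by
      funext j
      refine Fin.cases ?_ (fun j => ?_) j
      · rfl
      · refine Fin.cases ?_ (fun j => ?_) j
        · rfl
        · rfl)
    (fun z' h => rfl)
    (fun j hj z' => by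
      rcases hj with rfl | rfl
      · rfl
      · rfl)
    (fun j => by
      refine Fin.cases ?_ (fun j => ?_) j
      · exact Or.inl (Or.inl rfl)
      · refine Fin.cases ?_ (fun j => ?_) j
        · exact Or.inl (Or.inr rfl)
        · exact Or.inr ⟨j, rfl⟩)
    hw
  refine Eq.trans ?_ (h.trans ?_)
  · refine Finset.sum_congr rfl fun z _ => ?_
    by_cases hc : NodeCon (F b) (s + 1) (vecCons (p.snoc o i) (vecCons (y.snoc o' i') z))
    · simp only [if_pos hc]
    · simp only [if_neg hc]
  · refine Finset.sum_congr rfl fun z _ => ?_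
    by_cases hc : NodeCon (F b) s (vecCons p (vecCons y z)) ∧
        F b s (vecCons p (vecCons y z)) 0 = o ∧ F b s (vecCons p (vecCons y z)) 1 = o'
    · rw [if_pos hc, if_pos ⟨hc.1, fun j hj => by
        rcases hj with rfl | rfl
        · exact hc.2.1
        · exact hc.2.2⟩]
    · rw [if_neg hc, if_neg (fun h' => hc ⟨h'.1, h'.2 0 (Or.inl rfl), h'.2 1 (Or.inr rfl)⟩)]

open Classical in
/-- `(U_s)` gives `(w3)_s`. -/
lemma wt_w3_of_U {s : ℕ}
    (hU : ∀ p : Tr A s, W F s p =
      (∑ b : L, ∑ z : Fin (k + 1) → Tr A s, if NodeCon (F b) s (vecCons p z) then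
        ∏ j, W F s (swap (z j)) else 0) / Fintype.card L) (y : Tr A s) (i : A) :
    ∑ a, W F (s + 1) (y.snoc a i) = W F s y := by
  classical
  rw [hU y]
  have h1 : ∀ a, W F (s + 1) (y.snoc a i) = (∑ b : L, ∑ z : Fin (k + 1) → Tr A s,
      if NodeCon (F b) s (vecCons y z) ∧ F b s (vecCons y z) 0 = a then
        ∏ j, W F s (swap (z j)) else 0) / Fintype.card L := by
    intro a
    rw [W]
    refine congrArg (· / (Fintype.card L : ℝ)) ?_
    refine Finset.sum_congr rfl fun b _ => Finset.sum_congr rfl fun z _ => ?_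
    rw [init_snoc, out_snoc]
  rw [Finset.sum_congr rfl fun a _ => h1 a, ← Finset.sum_div, Finset.sum_comm]
  refine congrArg (· / (Fintype.card L : ℝ)) ?_
  refine Finset.sum_congr rfl fun b _ => ?_
  rw [Finset.sum_comm]
  refine Finset.sum_congr rfl fun z _ => ?_
  by_cases hc : NodeCon (F b) s (vecCons y z)
  · rw [if_pos hc, Finset.sum_eq_single (F b s (vecCons y z) 0)]
    · rw [if_pos ⟨hc, rfl⟩]
    · intro a _ ha
      rw [if_neg (fun h => ha h.2.symm)]
    · intro h; exact absurd (Finset.mem_univ _) h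
  · simp only [if_neg hc]
    refine Finset.sum_eq_zero fun a _ => ?_
    rw [if_neg (fun h => hc h.1)]

open Classical in
lemma wt_U : ∀ (s : ℕ) (p : Tr A s), W F s p =
      (∑ b : L, ∑ z : Fin (k + 1) → Tr A s, if NodeCon (F b) s (vecCons p z) then
        ∏ j, W F s (swap (z j)) else 0) / Fintype.card L
  | 0, p => by
      classical
      have hL : (Fintype.card L : ℝ) ≠ 0 := by
        have := Fintype.card_pos (α := L)
        positivity
      have h1 : ∀ b : L, ∀ z : Fin (k + 1) → Tr A 0, (if NodeCon (F b) 0 (vecCons p z) then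
        ∏ j, W F 0 (swap (z j)) else 0) = 1 := by
        intro b z
        rw [if_pos (show NodeCon (F b) 0 (vecCons p z) from trivial)]
        exact Finset.prod_eq_one fun j _ => rfl
      have h2 : (∑ b : L, ∑ z : Fin (k + 1) → Tr A 0, if NodeCon (F b) 0 (vecCons p z) then
        ∏ j, W F 0 (swap (z j)) else 0) = (Fintype.card L : ℝ) := by
        have h3 : ∀ b : L, (∑ z : Fin (k + 1) → Tr A 0, if NodeCon (F b) 0 (vecCons p z) then
          ∏ j, W F 0 (swap (z j)) else 0) = 1 := by
          intro b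
          rw [Fintype.sum_unique, h1]
        rw [Finset.sum_congr rfl fun b _ => h3 b, Finset.sum_const, Finset.card_univ,
          nsmul_eq_mul, mul_one]
      refine Eq.trans ?_ (congrArg (· / (Fintype.card L : ℝ)) h2.symm)
      exact (div_self hL).symm
  | s + 1, p => by
      classical
      have hw := wt_w3_of_U F (wt_U s)
      rw [W]
      refine congrArg (· / (Fintype.card L : ℝ)) ?_
      refine Finset.sum_congr rfl fun b _ => ?_
      have h := wt_step1 F hw b p.init p.out p.inn
      rw [snoc_eta] at h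
      refine Eq.trans ?_ h.symm
      refine Finset.sum_congr rfl fun z _ => ?_
      by_cases hc : NodeCon (F b) s (vecCons p.init z) ∧ F b s (vecCons p.init z) 0 = p.out
      · simp only [if_pos hc]
      · simp only [if_neg hc]

lemma wt_w3 (s : ℕ) (y : Tr A s) (i : A) : ∑ a, W F (s + 1) (y.snoc a i) = W F s y :=
  wt_w3_of_U F (wt_U F s) y i

lemma wt_norm : ∀ s, ∑ y : Tr A s, W F s y * W F s (swap y) = 1
  | 0 => by
      rw [sum_tr_zero]
      exact mul_one _
  | s + 1 => by
      rw [sum_tr_succ, ← wt_norm s]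
      refine Finset.sum_congr rfl fun y _ => ?_
      obtain ⟨b⟩ := ‹Nonempty L›
      let a0 : A := F b 0 (fun _ => ()) 0
      have h1 : ∀ o i, W F (s + 1) (y.snoc o i) * W F (s + 1) (swap (y.snoc o i)) =
          W F (s + 1) (y.snoc o a0) * W F (s + 1) ((swap y).snoc i a0) := by
        intro o i
        rw [wt_indep F s y o i a0, swap_snoc, wt_indep F s (swap y) i o a0]
      rw [Finset.sum_congr rfl fun o _ => Finset.sum_congr rfl fun i _ => h1 o i]
      rw [← Finset.sum_mul_sum, wt_w3, wt_w3]

lemma wt_beta_nonneg (s : ℕ) (p y : Tr A s) : 0 ≤ beta F s p y := by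
  unfold beta
  refine div_nonneg (Finset.sum_nonneg fun b _ => Finset.sum_nonneg fun z _ => ?_)
    (Nat.cast_nonneg _)
  split_ifs
  · exact Finset.prod_nonneg fun j _ => wt_nonneg F s _
  · exact le_refl _

open Classical in
lemma wt_beta_succ (s : ℕ) (p y : Tr A s) (o i o' i' : A) :
    beta F (s + 1) (p.snoc o i) (y.snoc o' i') =
      (∑ b : L, ∑ z : Fin k → Tr A s, if NodeCon (F b) s (vecCons p (vecCons y z)) ∧
        F b s (vecCons p (vecCons y z)) 0 = o ∧ F b s (vecCons p (vecCons y z)) 1 = o' then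
        ∏ h, W F s (swap (z h)) else 0) / Fintype.card L := by
  classical
  unfold beta
  refine congrArg (· / (Fintype.card L : ℝ)) ?_
  refine Finset.sum_congr rfl fun b _ => ?_
  refine Eq.trans ?_ (wt_step2 F (wt_w3 F s) b p y o i o' i')
  refine Finset.sum_congr rfl fun z _ => ?_
  by_cases hc : NodeCon (F b) (s + 1) (vecCons (p.snoc o i) (vecCons (y.snoc o' i') z))
  · simp only [if_pos hc]
  · simp only [if_neg hc]

lemma wt_beta_sum (s : ℕ) (p y : Tr A s) (i i' : A) :
    ∑ o, ∑ o', beta F (s + 1) (p.snoc o i) (y.snoc o' i') = beta F s p y := by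
  classical
  have h0 : ∀ o o', beta F (s + 1) (p.snoc o i) (y.snoc o' i') =
      (∑ b : L, ∑ z : Fin k → Tr A s, if NodeCon (F b) s (vecCons p (vecCons y z)) ∧
        F b s (vecCons p (vecCons y z)) 0 = o ∧ F b s (vecCons p (vecCons y z)) 1 = o' then
        ∏ h, W F s (swap (z h)) else 0) / Fintype.card L := by
    intro o o'
    rw [wt_beta_succ]
  have h1 : ∀ o, ∑ o', beta F (s + 1) (p.snoc o i) (y.snoc o' i') =
      (∑ b : L, ∑ z : Fin k → Tr A s, if NodeCon (F b) s (vecCons p (vecCons y z)) ∧
        F b s (vecCons p (vecCons y z)) 0 = o then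
        ∏ h, W F s (swap (z h)) else 0) / Fintype.card L := by
    intro o
    rw [Finset.sum_congr rfl fun o' _ => h0 o o', ← Finset.sum_div, Finset.sum_comm]
    refine congrArg (· / (Fintype.card L : ℝ)) ?_
    refine Finset.sum_congr rfl fun b _ => ?_
    rw [Finset.sum_comm]
    refine Finset.sum_congr rfl fun z _ => ?_
    by_cases hc : NodeCon (F b) s (vecCons p (vecCons y z)) ∧
        F b s (vecCons p (vecCons y z)) 0 = o
    · rw [if_pos hc, Finset.sum_eq_single (F b s (vecCons p (vecCons y z)) 1)]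
      · rw [if_pos ⟨hc.1, hc.2, rfl⟩]
      · intro a _ ha
        rw [if_neg (fun h => ha h.2.2.symm)]
      · intro h; exact absurd (Finset.mem_univ _) h
    · simp only [if_neg hc]
      refine Finset.sum_eq_zero fun a _ => ?_
      rw [if_neg (fun h => hc ⟨h.1, h.2.1⟩)]
  rw [Finset.sum_congr rfl fun o _ => h1 o, ← Finset.sum_div, Finset.sum_comm]
  unfold beta
  refine congrArg (· / (Fintype.card L : ℝ)) ?_
  refine Finset.sum_congr rfl fun b _ => ?_
  rw [Finset.sum_comm]
  refine Finset.sum_congr rfl fun z _ => ?_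
  by_cases hc : NodeCon (F b) s (vecCons p (vecCons y z))
  · rw [if_pos hc, Finset.sum_eq_single (F b s (vecCons p (vecCons y z)) 0)]
    · rw [if_pos ⟨hc, rfl⟩]
    · intro a _ ha
      rw [if_neg (fun h => ha h.2.symm)]
    · intro h; exact absurd (Finset.mem_univ _) h
  · simp only [if_neg hc]
    refine Finset.sum_eq_zero fun a _ => ?_
    rw [if_neg (fun h => hc h.1)]

lemma wt_beta_W (s : ℕ) (p : Tr A s) : ∑ y, beta F s p y * W F s (swap y) = W F s p := by
  classical
  rw [wt_U F s p]
  unfold beta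
  have h1 : ∀ y : Tr A s, (∑ b : L, ∑ z : Fin k → Tr A s,
      if NodeCon (F b) s (vecCons p (vecCons y z)) then ∏ j, W F s (swap (z j)) else 0) /
      Fintype.card L * W F s (swap y) = (∑ b : L, ∑ z : Fin k → Tr A s,
      if NodeCon (F b) s (vecCons p (vecCons y z)) then
        ∏ j, W F s (swap (vecCons y z j)) else 0) / Fintype.card L := by
    intro y
    rw [div_mul_eq_mul_div, Finset.sum_mul]
    refine congrArg (· / (Fintype.card L : ℝ)) ?_
    refine Finset.sum_congr rfl fun b _ => ?_
    rw [Finset.sum_mul]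
    refine Finset.sum_congr rfl fun z _ => ?_
    by_cases hc : NodeCon (F b) s (vecCons p (vecCons y z))
    · rw [if_pos hc, if_pos hc, Fin.prod_univ_succ, mul_comm]
      rfl
    · rw [if_neg hc, if_neg hc, zero_mul]
  rw [Finset.sum_congr rfl fun y _ => h1 y, ← Finset.sum_div, Finset.sum_comm]
  refine congrArg (· / (Fintype.card L : ℝ)) ?_
  refine Finset.sum_congr rfl fun b _ => ?_
  rw [sum_vecCons]

lemma wt_nodeCon_perm (hF : Equivar F) (b : L) (e : Equiv.Perm (Fin (k + 2))) :
    ∀ (s : ℕ) (y : Fin (k + 2) → Tr A s),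
      NodeCon (F b) s (fun i => y (e i)) ↔ NodeCon (F b) s y
  | 0, _ => Iff.rfl
  | s + 1, y => by
      have ih := wt_nodeCon_perm hF b e s (fun j => (y j).init)
      constructor
      · rintro ⟨h1, h2⟩
        refine ⟨ih.1 h1, fun j => ?_⟩
        have h3 := h2 (e.symm j)
        have h4 := hF b s e (fun j => (y j).init) (e.symm j)
        rw [Equiv.apply_symm_apply] at h4
        refine Eq.trans ?_ (h3.trans h4)
        exact congrArg (fun i => (y i).out) (e.apply_symm_apply j).symm
      · rintro ⟨h1, h2⟩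
        refine ⟨ih.2 h1, fun j => ?_⟩
        exact (h2 (e j)).trans (hF b s e (fun j => (y j).init) j).symm

lemma wt_beta_symm (hF : Equivar F) (s : ℕ) (p y : Tr A s) : beta F s p y = beta F s y p := by
  classical
  unfold beta
  refine congrArg (· / (Fintype.card L : ℝ)) ?_
  refine Finset.sum_congr rfl fun b _ => Finset.sum_congr rfl fun z _ => ?_
  have h1 : (fun i => (vecCons y (vecCons p z) : Fin (k + 2) → Tr A s)
      (Equiv.swap (0 : Fin (k + 2)) 1 i)) = vecCons p (vecCons y z) := by
    funext i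
    refine Fin.cases ?_ (fun i => ?_) i
    · rw [Equiv.swap_apply_left]; rfl
    · refine Fin.cases ?_ (fun i => ?_) i
      · have h2 : Equiv.swap (0 : Fin (k + 2)) 1 (Fin.succ 0) = 0 :=
          Equiv.swap_apply_right (0 : Fin (k + 2)) 1
        rw [h2]; rfl
      · rw [Equiv.swap_apply_of_ne_of_ne]
        · rfl
        · exact Fin.succ_ne_zero _
        · intro h
          have h3 : i.succ = 0 := Fin.succ_injective _ h
          exact Fin.succ_ne_zero _ h3
  have h2 := wt_nodeCon_perm F hF b (Equiv.swap (0 : Fin (k + 2)) 1) s (vecCons y (vecCons p z))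
  rw [h1] at h2
  by_cases hc : NodeCon (F b) s (vecCons y (vecCons p z))
  · rw [if_pos hc, if_pos (h2.2 hc)]
  · rw [if_neg hc, if_neg (fun h => hc (h2.1 h))]

end wt

theorem wt : S_WT := by
  intro L A _ _ _ k F
  refine ⟨wt_nonneg F, wt_indep F, wt_w3 F, wt_norm F, wt_beta_nonneg F, ?_, wt_beta_sum F,
    wt_beta_W F, wt_beta_symm F⟩
  intro s p y o i o' i' j j'
  rw [wt_beta_succ, wt_beta_succ]

end Pool.Agent.CT
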