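import Pool.Agent.CT.Wrap
import Pool.Agent.CT.Wt
import Pool.Agent.CT.Cf
import Pool.Agent.CT.Close
import Pool.Agent.CT.Sh
import Pool.Agent.CT.Term
import Pool.Agent.CT.Nu
import Pool.Agent.CT.Kl
import Pool.Agent.CT.BadP
import Pool.Agent.CT.BrP
import Pool.Agent.CT.SumP
import Pool.Agent.CT.Content
import Pool.Agent.CT.NodeP
import Pool.Agent.CT.LinkP
import Pool.Agent.CT.G0
import Pool.Agent.CT.G1
import Pool.Agent.CT.Edge
import Pool.Agent.CT.Count
import Pool.Agent.CT.Det
import Pool.Agent.CT.Rand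
import Pool.Agent.CT.Fin1

/-!
# Assembly
-/

namespace Pool.Agent.CT

open MeasureTheory

theorem s_content : S_CONTENT :=
  content wt (close wt cfp) (kl wt cfp nuLaw (term wt sh)) (bad wt cfp) (br wt) (sums wt (br wt))

theorem s_det : S_DET :=
  det s_content (linkT wt (br wt) nodeProps) (linkTri wt (br wt) nodeProps) nodeProps count cardP

theorem s_rand : S_RAND := rand s_det g0 g1 edge0 edge1

/-- The bound for the expected time, where a pass over a graph with `n` vertices and `m` edges takes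
time `n + m`. -/
theorem time_bound : ∃ c : ℝ, 0 < c ∧ ∃ s₀ : ℕ, ∀ (n s B : ℕ), s₀ ≤ s → n ≤ s →
    s ≤ 2 * n → ∀ (Ω : Type) [MeasurableSpace Ω] (μ : Measure Ω)
    [IsProbabilityMeasure μ] (M : Ω → Machine n B) (T : ℝ),
    DetectsTriangles μ M → ExpectedTimeLE μ M T →
      c * (s * Real.log s / Real.log (B + Real.log s)) ≤ T := by
  obtain ⟨c0, hc0, h⟩ := machine_bound (fin1 s_rand)
  obtain ⟨n0, hn0⟩ := machine_pass (fin1 s_rand)
  obtain ⟨s1, hs1⟩ := exists_nat_gt (Real.exp 3)
  refine ⟨min (1 / 2) (c0 / 248), lt_min (by norm_num) (by positivity), max (2 * n0) s1, ?_⟩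
  intro n s B hs hns hsn Ω _ μ _ M T hM hT
  have hs1' : s1 ≤ s := le_trans (le_max_right _ _) hs
  have hsn0 : 2 * n0 ≤ s := le_trans (le_max_left _ _) hs
  have hse : Real.exp 3 < s := lt_of_lt_of_le hs1 (by exact_mod_cast hs1')
  have hspos : (0 : ℝ) < s := lt_trans (Real.exp_pos _) hse
  have hn : 0 < n := by
    rcases Nat.eq_zero_or_pos n with h0 | h0
    · subst h0
      have : s = 0 := by omega
      rw [this] at hspos
      simp at hspos
    · exact h0
  have hn' : (0 : ℝ) < n := by exact_mod_cast hn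
  have hP : ExpectedPassesLE μ M (T / n) := by
    intro G hG m
    have h2 := hT G hG m
    rw [le_div_iff₀ hn']
    have h3 : 0 ≤ ∑ r ∈ Finset.range m, (μ {ω | ¬ Halted (M ω) G r}).toReal :=
      Finset.sum_nonneg fun r _ => ENNReal.toReal_nonneg
    have h4 : (0 : ℝ) ≤ G.edgeSet.ncard := Nat.cast_nonneg _
    nlinarith
  obtain ⟨hP0, h5⟩ := h n B Ω μ M (T / n) hM hP
  have h6 := hn0 n B (by omega) Ω μ M (T / n) hM hP
  have hT0 : 0 ≤ T := by
    have := mul_nonneg hP0 hn'.le
    rwa [div_mul_cancel₀ _ hn'.ne'] at this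
  have hTn : T / n * n = T := div_mul_cancel₀ _ hn'.ne'
  generalize hPdef : T / n = P at h5 h6 hP0 hTn
  have hB : (0 : ℝ) ≤ B := Nat.cast_nonneg _
  have hL3 : 3 < Real.log s := by
    rw [Real.lt_log_iff_exp_lt hspos]
    exact hse
  set L : ℝ := Real.log s with hLdef
  have hX1 : 1 ≤ Real.log (B + L) := by
    have he : Real.exp 1 ≤ B + L := by
      have := Real.exp_one_lt_d9
      linarith
    calc (1 : ℝ) = Real.log (Real.exp 1) := (Real.log_exp 1).symm
      _ ≤ Real.log (B + L) := Real.log_le_log (Real.exp_pos 1) he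
  have hX0 : 0 < Real.log (B + L) := by linarith
  set X : ℝ := Real.log (B + L) with hXdef
  have hc1 : min (1 / 2) (c0 / 248) ≤ 1 / 2 := min_le_left _ _
  have hc2 : min (1 / 2) (c0 / 248) ≤ c0 / 248 := min_le_right _ _
  have hcpos : 0 < min (1 / 2) (c0 / 248) := lt_min (by norm_num) (by positivity)
  set c : ℝ := min (1 / 2) (c0 / 248) with hcdef
  -- the claim reduces to `2 c L ≤ P X`
  suffices hkey : 2 * c * L ≤ P * X by
    have h7 : c * (s * L / X) = (2 * c * L) * (s / 2) / X := by ring
    rw [h7, div_le_iff₀ hX0]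
    have h8 : (s : ℝ) / 2 ≤ n := by
      have : (s : ℝ) ≤ 2 * n := by exact_mod_cast hsn
      linarith
    calc 2 * c * L * (s / 2) ≤ P * X * (s / 2) :=
          mul_le_mul_of_nonneg_right hkey (by positivity)
      _ ≤ P * X * n := mul_le_mul_of_nonneg_left h8 (by positivity)
      _ = T * X := by rw [← hTn]; ring
  rcases le_total L P with hLP | hPL
  · calc 2 * c * L ≤ 1 * L := mul_le_mul_of_nonneg_right (by linarith) (by linarith)
      _ = L * 1 := by ring
      _ ≤ P * X := mul_le_mul hLP hX1 zero_le_one hP0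
  · have h9 : Real.log (P + B + 2) ≤ 2 * X := by
      have e1 : 2 * X = Real.log ((B + L) ^ 2) := by
        rw [Real.log_pow, ← hXdef]
        norm_num
      rw [e1]
      refine Real.log_le_log (by linarith) ?_
      nlinarith
    have h10 : L / 2 ≤ Real.log n := by
      have h11 : L ≤ Real.log 2 + Real.log n := by
        rw [← Real.log_mul (by norm_num) hn'.ne']
        exact Real.log_le_log hspos (by exact_mod_cast hsn)
      have h12 : Real.log 2 ≤ 1 := by
        have := Real.log_two_lt_d9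
        linarith
      linarith
    have h13 : c0 * (L / 2) ≤ (31 * P) * (2 * X) := by
      calc c0 * (L / 2) ≤ c0 * Real.log n := mul_le_mul_of_nonneg_left h10 hc0.le
        _ ≤ (P + 1) * Real.log (P + B + 2) := h5
        _ ≤ (P + 1) * (2 * X) := mul_le_mul_of_nonneg_left h9 (by linarith)
        _ ≤ (31 * P) * (2 * X) := mul_le_mul_of_nonneg_right (by linarith) (by linarith)
    have h14 : 2 * c * L ≤ 2 * (c0 / 248) * L := by
      refine mul_le_mul_of_nonneg_right ?_ (by linarith)
      linarith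
    have h15 : 2 * (c0 / 248) * L = c0 * (L / 2) / 62 := by ring
    have h16 : (31 * P) * (2 * X) = 62 * (P * X) := by ring
    rw [h16] at h13
    linarith

end Pool.Agent.CT
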