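import Pool.Agent.CT.Defs

/-!
# Tori of revolution
-/

namespace Pool.Agent.CT

open MeasureTheory Metric Set Filter Topology Real
open scoped ContDiff

/-- The open solid torus of revolution with core circle of radius `L` and tube radius `1`. -/
def torus (L : ℝ) : Set E3 := {p | (√(p 0 ^ 2 + p 1 ^ 2) - L) ^ 2 + p 2 ^ 2 < 1}

/-- coordinates on the solid torus -/
noncomputable def Psi (L : ℝ) (q : (ℝ × ℝ) × ℝ) : E3 :=
  !₂[(L + q.1.1) * cos q.2, (L + q.1.1) * sin q.2, q.1.2]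

/-- open unit disc in `ℝ × ℝ` -/
def D : Set (ℝ × ℝ) := {x | x.1 ^ 2 + x.2 ^ 2 < 1}

/-- closed unit disc in `ℝ × ℝ` -/
def Dc : Set (ℝ × ℝ) := {x | x.1 ^ 2 + x.2 ^ 2 ≤ 1}

lemma norm_sq_E3 (p : E3) : ‖p‖ ^ 2 = p 0 ^ 2 + p 1 ^ 2 + p 2 ^ 2 := by
  rw [EuclideanSpace.real_norm_sq_eq, Fin.sum_univ_three]

lemma cliffordRegion_eq : cliffordRegion = torus (√2) := by
  ext p
  have h1 : 0 < 1 + ‖p‖ ^ 2 := by positivity
  have hn := norm_sq_E3 p
  set n := ‖p‖ ^ 2 with hndef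
  set s := √(p 0 ^ 2 + p 1 ^ 2) with hs
  have hs2 : s ^ 2 = p 0 ^ 2 + p 1 ^ 2 := Real.sq_sqrt (by positivity)
  have hs0 : 0 ≤ s := Real.sqrt_nonneg _
  have h2 : (√2) ^ 2 = 2 := Real.sq_sqrt (by norm_num)
  have h20 : 0 < √2 := by positivity
  have e1 : ‖(invStereo p).1‖ ^ 2 = 4 * s ^ 2 / (1 + n) ^ 2 := by
    rw [Complex.sq_norm, Complex.normSq_apply]
    simp only [invStereo]
    rw [hs2]; field_simp; ring
  have e2 : ‖(invStereo p).2‖ ^ 2 = (4 * p 2 ^ 2 + (n - 1) ^ 2) / (1 + n) ^ 2 := by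
    rw [Complex.sq_norm, Complex.normSq_apply]
    simp only [invStereo]
    field_simp; ring
  simp only [cliffordRegion, torus, mem_ofPred_eq]
  rw [← hs, ← sq_lt_sq₀ (norm_nonneg _) (norm_nonneg _), e1, e2,
    div_lt_div_iff_of_pos_right (by positivity)]
  have h3 : (4 * p 2 ^ 2 + (n - 1) ^ 2 < 4 * s ^ 2) ↔ (1 + n) ^ 2 < (2 * √2 * s) ^ 2 := by
    have : (2 * √2 * s) ^ 2 = 8 * s ^ 2 := by ring_nf; rw [h2]; ring
    rw [this]
    constructor <;> intro h <;> nlinarith [hn, hs2]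
  rw [h3, sq_lt_sq₀ h1.le (by positivity)]
  constructor <;> intro h <;> nlinarith [hn, hs2, h2]

section

variable {L : ℝ}

/-- the defining polynomial -/
lemma mem_torus_iff (hL : 1 < L) (p : E3) :
    p ∈ torus L ↔ (‖p‖ ^ 2 + L ^ 2 - 1) ^ 2 - 4 * L ^ 2 * (p 0 ^ 2 + p 1 ^ 2) < 0 := by
  have hn := norm_sq_E3 p
  set s := √(p 0 ^ 2 + p 1 ^ 2) with hs
  have hs2 : s ^ 2 = p 0 ^ 2 + p 1 ^ 2 := Real.sq_sqrt (by positivity)
  have hs0 : 0 ≤ s := Real.sqrt_nonneg _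
  simp only [torus, mem_ofPred_eq, ← hs]
  have h1 : 0 ≤ ‖p‖ ^ 2 + L ^ 2 - 1 := by nlinarith [sq_nonneg ‖p‖]
  rw [← hs2]
  have h2 : (‖p‖ ^ 2 + L ^ 2 - 1) ^ 2 - 4 * L ^ 2 * s ^ 2 < 0 ↔
      (‖p‖ ^ 2 + L ^ 2 - 1) ^ 2 < (2 * L * s) ^ 2 := by
    constructor <;> intro h <;> nlinarith
  rw [h2, sq_lt_sq₀ h1 (by positivity), hn, ← hs2]
  constructor <;> intro h <;> nlinarith

lemma continuous_Psi : Continuous (Psi L) := by
  unfold Psi
  refine (PiLp.continuous_toLp 2 _).comp ?_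
  refine continuous_pi fun i => ?_
  fin_cases i <;> simp <;> fun_prop

@[simp] lemma Psi_zero (q : (ℝ × ℝ) × ℝ) : Psi L q 0 = (L + q.1.1) * cos q.2 := by simp [Psi]
@[simp] lemma Psi_one (q : (ℝ × ℝ) × ℝ) : Psi L q 1 = (L + q.1.1) * sin q.2 := by simp [Psi]
@[simp] lemma Psi_two (q : (ℝ × ℝ) × ℝ) : Psi L q 2 = q.1.2 := by simp [Psi]

lemma Psi_s (q : (ℝ × ℝ) × ℝ) (h : 0 ≤ L + q.1.1) :
    √(Psi L q 0 ^ 2 + Psi L q 1 ^ 2) = L + q.1.1 := by
  rw [Psi_zero, Psi_one]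
  have : ((L + q.1.1) * cos q.2) ^ 2 + ((L + q.1.1) * sin q.2) ^ 2 = (L + q.1.1) ^ 2 := by
    rw [mul_pow, mul_pow, ← mul_add, cos_sq_add_sin_sq, mul_one]
  rw [this, Real.sqrt_sq h]

lemma D_bound {x : ℝ × ℝ} (h : x ∈ Dc) : -1 ≤ x.1 ∧ x.1 ≤ 1 ∧ -1 ≤ x.2 ∧ x.2 ≤ 1 := by
  simp only [Dc, mem_ofPred_eq] at h
  refine ⟨?_, ?_, ?_, ?_⟩ <;> nlinarith [sq_nonneg x.1, sq_nonneg x.2]

lemma D_subset : D ⊆ Dc := fun x hx => le_of_lt (by simpa [D] using hx)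

lemma Psi_pos (hL : 1 < L) {q : (ℝ × ℝ) × ℝ} (h : q.1 ∈ Dc) : 0 < L + q.1.1 := by
  have := (D_bound h).1; linarith

/-- every point of `ℝ³` has the form `Psi` -/
lemma exists_Psi (p : E3) : ∃ t ∈ Ioc (-π) π,
    p = Psi L ((√(p 0 ^ 2 + p 1 ^ 2) - L, p 2), t) := by
  refine ⟨Complex.arg ⟨p 0, p 1⟩, Complex.arg_mem_Ioc _, ?_⟩
  have h : ‖(⟨p 0, p 1⟩ : ℂ)‖ = √(p 0 ^ 2 + p 1 ^ 2) := by
    rw [Complex.norm_def, Complex.normSq_apply]; congr 1; ring
  have h1 := Complex.norm_mul_cos_arg ⟨p 0, p 1⟩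
  have h2 := Complex.norm_mul_sin_arg ⟨p 0, p 1⟩
  rw [h] at h1 h2
  ext i
  fin_cases i
  · simpa using h1.symm
  · simpa using h2.symm
  · simp

lemma Psi_mem (hL : 1 < L) {q : (ℝ × ℝ) × ℝ} (h : q.1 ∈ D) : Psi L q ∈ torus L := by
  simp only [torus, mem_ofPred_eq]
  rw [Psi_s q (Psi_pos hL (D_subset h)).le, Psi_two]
  simpa [D] using h

lemma image_Psi (hL : 1 < L) : Psi L '' (D ×ˢ univ) = torus L := by
  apply Subset.antisymm
  · rintro _ ⟨q, hq, rfl⟩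
    exact Psi_mem hL hq.1
  · intro p hp
    obtain ⟨t, -, h⟩ := exists_Psi (L := L) p
    exact ⟨_, ⟨by simpa [D, torus] using hp, mem_univ _⟩, h.symm⟩

/-- the closed torus -/
def torusC (L : ℝ) : Set E3 := {p | (√(p 0 ^ 2 + p 1 ^ 2) - L) ^ 2 + p 2 ^ 2 ≤ 1}

lemma continuous_s : Continuous fun p : E3 => √(p 0 ^ 2 + p 1 ^ 2) := by fun_prop

lemma isClosed_torusC : IsClosed (torusC L) :=
  isClosed_le (by fun_prop) continuous_const

lemma isOpen_torus : IsOpen (torus L) :=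
  isOpen_lt (by fun_prop) continuous_const

lemma image_Psi_c (hL : 1 < L) : Psi L '' (Dc ×ˢ univ) = torusC L := by
  apply Subset.antisymm
  · rintro _ ⟨q, hq, rfl⟩
    simp only [torusC, mem_ofPred_eq]
    rw [Psi_s q (Psi_pos hL hq.1).le, Psi_two]
    simpa [Dc] using hq
  · intro p hp
    obtain ⟨t, -, h⟩ := exists_Psi (L := L) p
    exact ⟨_, ⟨by simpa [Dc, torusC] using hp, mem_univ _⟩, h.symm⟩

lemma Dc_subset_closure : Dc ⊆ closure D := by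
  intro x hx
  simp only [Dc, mem_ofPred_eq] at hx
  have h1 : Tendsto (fun t : ℝ => (t * x.1, t * x.2)) (𝓝[<] 1) (𝓝 x) := by
    have : Continuous fun t : ℝ => (t * x.1, t * x.2) := by fun_prop
    have h := this.tendsto 1
    simp only [one_mul] at h
    exact h.mono_left nhdsWithin_le_nhds
  refine mem_closure_of_tendsto h1 ?_
  have h2 : ∀ᶠ t in 𝓝[<] (1 : ℝ), 0 < t ∧ t < 1 := by
    filter_upwards [Ioo_mem_nhdsLT (show (0 : ℝ) < 1 by norm_num)] with t ht using ht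
  filter_upwards [h2] with t ht
  simp only [D, mem_ofPred_eq]
  have : t ^ 2 < 1 := by nlinarith [ht.1, ht.2]
  nlinarith [sq_nonneg x.1, sq_nonneg x.2, sq_nonneg t, sq_nonneg (t * x.1)]

lemma closure_torus (hL : 1 < L) : closure (torus L) = torusC L := by
  apply Subset.antisymm
  · refine closure_minimal ?_ isClosed_torusC
    intro p hp
    exact le_of_lt (by simpa [torus] using hp)
  · rw [← image_Psi_c hL, ← image_Psi hL]
    have h1 : (Dc ×ˢ univ : Set ((ℝ × ℝ) × ℝ)) ⊆ closure (D ×ˢ univ) := by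
      rw [closure_prod_eq, closure_univ]
      exact prod_mono Dc_subset_closure Subset.rfl
    exact (image_mono h1).trans (image_closure_subset_closure_image continuous_Psi)

lemma isBounded_torus (hL : 1 < L) : Bornology.IsBounded (torus L) := by
  refine (isBounded_closedBall (x := (0 : E3)) (r := L + 2)).subset ?_
  intro p hp
  rw [mem_closedBall_zero_iff]
  have hn := norm_sq_E3 p
  set s := √(p 0 ^ 2 + p 1 ^ 2) with hs
  have hs2 : s ^ 2 = p 0 ^ 2 + p 1 ^ 2 := Real.sq_sqrt (by positivity)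
  have hs0 : 0 ≤ s := Real.sqrt_nonneg _
  simp only [torus, mem_ofPred_eq, ← hs] at hp
  have h1 : s ≤ L + 1 := by nlinarith [sq_nonneg (p 2)]
  have h2 : p 2 ^ 2 ≤ 1 := by nlinarith [sq_nonneg (s - L)]
  refine le_of_sq_le_sq ?_ (by linarith)
  rw [hn, ← hs2]
  nlinarith

lemma convex_D : Convex ℝ D := by
  have h1 : Convex ℝ (ball (0 : E2) 1) := convex_ball _ _
  have : D = (fun x : ℝ × ℝ => (!₂[x.1, x.2] : E2)) ⁻¹' ball 0 1 := by
    ext x
    simp only [D, mem_ofPred_eq, mem_preimage, mem_ball_zero_iff]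
    rw [← sq_lt_one_iff₀ (norm_nonneg _), EuclideanSpace.real_norm_sq_eq, Fin.sum_univ_two]
    simp
  rw [this]
  let f : ℝ × ℝ →ₗ[ℝ] E2 :=
    { toFun := fun x => !₂[x.1, x.2]
      map_add' := by intro x y; ext i; fin_cases i <;> simp
      map_smul' := by intro c x; ext i; fin_cases i <;> simp }
  exact h1.linear_preimage f

lemma zero_mem_D : (0 : ℝ × ℝ) ∈ D := by simp [D]

lemma isConnected_torus (hL : 1 < L) : IsConnected (torus L) := by
  have h1 : IsConnected (D ×ˢ (univ : Set ℝ)) :=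
    (convex_D.isConnected ⟨_, zero_mem_D⟩).prod isConnected_univ
  have h2 := h1.image (Psi L) continuous_Psi.continuousOn
  rwa [image_Psi hL] at h2

lemma smooth_torus (hL : 1 < L) :
    ∃ ρ : E3 → ℝ, ContDiff ℝ ∞ ρ ∧ torus L = {x | ρ x < 0} ∧ ∀ x, ρ x = 0 → fderiv ℝ ρ x ≠ 0 := by
  refine ⟨fun p => (‖p‖ ^ 2 + L ^ 2 - 1) ^ 2 - 4 * L ^ 2 * (p 0 ^ 2 + p 1 ^ 2), ?_, ?_, ?_⟩
  · have h1 : ContDiff ℝ ∞ fun p : E3 => ‖p‖ ^ 2 := contDiff_norm_sq ℝ
    have h2 : ∀ i : Fin 3, ContDiff ℝ ∞ fun p : E3 => p i := fun i => by fun_prop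
    have := h2 0
    have := h2 1
    fun_prop
  · ext p; exact mem_torus_iff hL p
  · intro p hp hd
    have hn := norm_sq_E3 p
    set s := √(p 0 ^ 2 + p 1 ^ 2) with hs
    have hs2 : s ^ 2 = p 0 ^ 2 + p 1 ^ 2 := Real.sq_sqrt (by positivity)
    have hs0 : 0 ≤ s := Real.sqrt_nonneg _
    have h0 : 0 ≤ ‖p‖ ^ 2 + L ^ 2 - 1 := by nlinarith [sq_nonneg ‖p‖]
    simp only at hp
    have h1 : ‖p‖ ^ 2 + L ^ 2 - 1 = 2 * L * s := by
      have : (‖p‖ ^ 2 + L ^ 2 - 1) ^ 2 = (2 * L * s) ^ 2 := by nlinarith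
      exact (sq_eq_sq₀ h0 (by positivity)).1 this
    have hspos : 0 < s := by
      rcases hs0.eq_or_lt with h | h
      · rw [← h] at h1; nlinarith [sq_nonneg ‖p‖]
      · exact h
    -- derivative along a line
    have key : ∀ v : E3, fderiv ℝ (fun p : E3 => (‖p‖ ^ 2 + L ^ 2 - 1) ^ 2 -
        4 * L ^ 2 * (p 0 ^ 2 + p 1 ^ 2)) p v =
        2 * (‖p‖ ^ 2 + L ^ 2 - 1) * (2 * (p 0 * v 0 + p 1 * v 1 + p 2 * v 2)) -
          4 * L ^ 2 * (2 * p 0 * v 0 + 2 * p 1 * v 1) := by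
      intro v
      have hd : ∀ i : Fin 3, HasFDerivAt (fun p : E3 => p i)
          (EuclideanSpace.proj i : E3 →L[ℝ] ℝ) p := fun i =>
        (EuclideanSpace.proj i : E3 →L[ℝ] ℝ).hasFDerivAt
      have hnn : (fun p : E3 => (‖p‖ ^ 2 + L ^ 2 - 1) ^ 2 - 4 * L ^ 2 * (p 0 ^ 2 + p 1 ^ 2)) =
          fun p : E3 => (p 0 ^ 2 + p 1 ^ 2 + p 2 ^ 2 + L ^ 2 - 1) ^ 2 -
            4 * L ^ 2 * (p 0 ^ 2 + p 1 ^ 2) := by
        ext p; rw [norm_sq_E3]
      rw [hnn, hn]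
      have h := (((((hd 0).pow 2).add ((hd 1).pow 2)).add ((hd 2).pow 2)).add_const
        (L ^ 2)).sub_const 1
      have h' := (h.pow 2).sub ((((hd 0).pow 2).add ((hd 1).pow 2)).const_mul (4 * L ^ 2))
      have h2 := h'.fderiv
      have h3 : (fun p : E3 => (p 0 ^ 2 + p 1 ^ 2 + p 2 ^ 2 + L ^ 2 - 1) ^ 2 -
            4 * L ^ 2 * (p 0 ^ 2 + p 1 ^ 2)) = _ := rfl
      erw [h2]
      simp
      ring
    by_cases hz : p 2 = 0
    · have h2 := key p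
      rw [hd] at h2
      simp only [zero_apply] at h2
      rw [h1] at h2
      have h3 : (s - L) ^ 2 = 1 := by nlinarith
      have h4 : p 0 * p 0 + p 1 * p 1 + p 2 * p 2 = s ^ 2 := by rw [hs2, hz]; ring
      rw [h4] at h2
      have h5 : 2 * p 0 * p 0 + 2 * p 1 * p 1 = 2 * s ^ 2 := by rw [hs2]; ring
      rw [h5] at h2
      have h6 : 8 * L * s ^ 2 * (s - L) = 0 := by nlinarith
      have h7 : s - L = 0 := by
        rcases mul_eq_zero.1 h6 with h | h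
        · exfalso; have : 0 < 8 * L * s ^ 2 := by positivity
          linarith
        · exact h
      rw [h7] at h3; norm_num at h3
    · have h2 := key (EuclideanSpace.single 2 1)
      rw [hd, h1] at h2
      have h3 : 0 < L * s := by positivity
      have h4 : 8 * (L * s) * p 2 = 0 := by
        simp only [zero_apply] at h2
        simp at h2
        rcases h2 with (h | h) | h
        · rw [h]; ring
        · rw [h]; ring
        · rw [h]; ring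
      rcases mul_eq_zero.1 h4 with h | h
      · linarith
      · exact hz h

lemma isSmoothBoundedDomain_torus (hL : 1 < L) : IsSmoothBoundedDomain (torus L) :=
  ⟨isBounded_torus hL, isConnected_torus hL, smooth_torus hL⟩

end

end Pool.Agent.CT
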