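import Pool.Agent.CT.Geom

/-!
# The closure of the torus domain is a solid torus
-/

namespace Pool.Agent.CT

open MeasureTheory Metric Set Filter Topology Real
open scoped ContDiff

variable {L : ℝ}

lemma contDiff_proj3 (i : Fin 3) : ContDiff ℝ ∞ fun p : E3 => p i := by fun_prop

lemma aux (hL : 1 < L) {y : E2 × E2} (h1 : y.1 ∈ closedBall (0 : E2) 1)
    (h2 : y.2 ∈ sphere (0 : E2) 1) :
    y.1 0 ^ 2 + y.1 1 ^ 2 ≤ 1 ∧ y.2 0 ^ 2 + y.2 1 ^ 2 = 1 ∧
    √(((L + y.1 0) * y.2 0) ^ 2 + ((L + y.1 0) * y.2 1) ^ 2) = L + y.1 0 := by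
  rw [mem_closedBall_zero_iff, ← sq_le_one_iff₀ (norm_nonneg _),
    EuclideanSpace.real_norm_sq_eq, Fin.sum_univ_two] at h1
  rw [mem_sphere_zero_iff_norm] at h2
  have h3 : ‖y.2‖ ^ 2 = 1 := by rw [h2]; norm_num
  rw [EuclideanSpace.real_norm_sq_eq, Fin.sum_univ_two] at h3
  refine ⟨h1, h3, ?_⟩
  have h4 : 0 ≤ L + y.1 0 := by nlinarith [sq_nonneg (y.1 1)]
  have h5 : ((L + y.1 0) * y.2 0) ^ 2 + ((L + y.1 0) * y.2 1) ^ 2 = (L + y.1 0) ^ 2 := by
    rw [mul_pow, mul_pow, ← mul_add, h3, mul_one]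
  rw [h5, Real.sqrt_sq h4]

lemma isSolidTorus_torus (hL : 1 < L) : IsSolidTorus (closure (torus L)) := by
  rw [closure_torus hL]
  refine ⟨fun y => !₂[(L + y.1 0) * y.2 0, (L + y.1 0) * y.2 1, y.1 1],
    fun p => (!₂[√(p 0 ^ 2 + p 1 ^ 2) - L, p 2],
      !₂[p 0 / √(p 0 ^ 2 + p 1 ^ 2), p 1 / √(p 0 ^ 2 + p 1 ^ 2)]),
    {p | 0 < p 0 ^ 2 + p 1 ^ 2}, ?_, ?_, ?_, ?_, ?_, ?_⟩
  · rw [contDiff_piLp]
    intro i
    have h1 : ∀ j : Fin 2, ContDiff ℝ ∞ fun y : E2 × E2 => y.1 j := fun j => by fun_prop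
    have h2 : ∀ j : Fin 2, ContDiff ℝ ∞ fun y : E2 × E2 => y.2 j := fun j => by fun_prop
    fin_cases i
    · simpa using (contDiff_const.add (h1 0)).mul (h2 0)
    · simpa using (contDiff_const.add (h1 0)).mul (h2 1)
    · simpa using h1 1
  · exact isOpen_lt continuous_const (by fun_prop)
  · intro p hp
    simp only [torusC, mem_ofPred_eq] at hp ⊢
    by_contra h
    have h0 : p 0 ^ 2 + p 1 ^ 2 = 0 := le_antisymm (not_lt.1 h) (by positivity)
    rw [h0] at hp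
    simp at hp
    nlinarith [sq_nonneg (p 2)]
  · have hs : ContDiffOn ℝ ∞ (fun p : E3 => √(p 0 ^ 2 + p 1 ^ 2)) {p | 0 < p 0 ^ 2 + p 1 ^ 2} := by
      intro p hp
      refine ContDiffAt.contDiffWithinAt ?_
      refine ContDiffAt.sqrt ?_ (ne_of_gt hp)
      have := contDiff_proj3 0
      have := contDiff_proj3 1
      exact ContDiff.contDiffAt (by fun_prop)
    have hne : ∀ p ∈ {p : E3 | 0 < p 0 ^ 2 + p 1 ^ 2}, √(p 0 ^ 2 + p 1 ^ 2) ≠ 0 := fun p hp =>
      (Real.sqrt_pos.2 hp).ne'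
    refine ContDiffOn.prodMk ?_ ?_
    · rw [contDiffOn_piLp]
      intro i
      fin_cases i
      · simpa using hs.sub contDiffOn_const
      · simpa using (contDiff_proj3 2).contDiffOn
    · rw [contDiffOn_piLp]
      intro i
      fin_cases i
      · exact (contDiff_proj3 0).contDiffOn.div hs hne
      · exact (contDiff_proj3 1).contDiffOn.div hs hne
  · ext p
    constructor
    · rintro ⟨y, ⟨h1, h2⟩, rfl⟩
      obtain ⟨h1, h2, h3⟩ := aux hL h1 h2
      simp only [torusC, mem_ofPred_eq]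
      simp only [Fin.isValue, Matrix.cons_val_zero, Matrix.cons_val_one,
        Matrix.cons_val]
      rw [h3]
      nlinarith
    · intro hp
      simp only [torusC, mem_ofPred_eq] at hp
      have hpos : 0 < p 0 ^ 2 + p 1 ^ 2 := by
        by_contra h
        have h0 : p 0 ^ 2 + p 1 ^ 2 = 0 := le_antisymm (not_lt.1 h) (by positivity)
        rw [h0] at hp
        simp at hp
        nlinarith [sq_nonneg (p 2)]
      have hspos : 0 < √(p 0 ^ 2 + p 1 ^ 2) := Real.sqrt_pos.2 hpos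
      have hs2 : √(p 0 ^ 2 + p 1 ^ 2) ^ 2 = p 0 ^ 2 + p 1 ^ 2 := Real.sq_sqrt hpos.le
      refine ⟨(!₂[√(p 0 ^ 2 + p 1 ^ 2) - L, p 2],
        !₂[p 0 / √(p 0 ^ 2 + p 1 ^ 2), p 1 / √(p 0 ^ 2 + p 1 ^ 2)]), ⟨?_, ?_⟩, ?_⟩
      · rw [mem_closedBall_zero_iff, ← sq_le_one_iff₀ (norm_nonneg _),
          EuclideanSpace.real_norm_sq_eq, Fin.sum_univ_two]
        simpa using hp
      · rw [mem_sphere_zero_iff_norm]
        have : ‖(!₂[p 0 / √(p 0 ^ 2 + p 1 ^ 2), p 1 / √(p 0 ^ 2 + p 1 ^ 2)] : E2)‖ ^ 2 = 1 := by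
          rw [EuclideanSpace.real_norm_sq_eq, Fin.sum_univ_two]
          simp only [Fin.isValue, Matrix.cons_val_zero, Matrix.cons_val_one]
          rw [div_pow, div_pow, hs2, ← add_div, div_self hpos.ne']
        have h0 := norm_nonneg (!₂[p 0 / √(p 0 ^ 2 + p 1 ^ 2), p 1 / √(p 0 ^ 2 + p 1 ^ 2)] : E2)
        nlinarith
      · ext i
        fin_cases i
        · simp; field_simp
        · simp; field_simp
        · simp
  · rintro y ⟨h1, h2⟩
    obtain ⟨h1, h2, h3⟩ := aux hL h1 h2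
    have h4 : 0 < L + y.1 0 := by nlinarith [sq_nonneg (y.1 1)]
    simp only [Fin.isValue, Matrix.cons_val_zero, Matrix.cons_val_one,
        Matrix.cons_val]
    rw [h3]
    refine Prod.ext ?_ ?_
    · ext i
      fin_cases i
      · simp
      · simp
    · ext i
      fin_cases i
      · simp; field_simp
      · simp; field_simp

end Pool.Agent.CT
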