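import Pool.Agent.CT.Upper3
import Pool.Agent.CT.Solid

/-!
# Reduction of the lower bound for thin tori to an inequality on disc times circle
-/

namespace Pool.Agent.CT

open MeasureTheory Metric Set Filter Topology Real
open scoped ContDiff Manifold

variable {L : ℝ}

/-- The inequality on the disc times a long circle, in the form proved in `Cyl`. -/
def CylIneq (K : ℝ) : Prop :=
  ∀ ε : ℝ, 0 < ε → ∃ l0 : ℝ, ∀ l : ℝ, l0 ≤ l → ∀ U : ℝ × ℝ × ℝ → ℝ, ContDiff ℝ 1 U →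
    (∀ a b p, U (a, b, p + 2 * π) = U (a, b, p)) → (∀ x, 0 ≤ U x) →
    (K - ε) * l ^ (-(2 / 3) : ℝ) *
      (∫ p in (-π)..π, ∫ x in {x : ℝ × ℝ | x.1 ^ 2 + x.2 ^ 2 < 1}, U (x.1, x.2, p) ^ 6)
        ^ (1 / 3 : ℝ) ≤
    ∫ p in (-π)..π, (8 * (∫ x in {x : ℝ × ℝ | x.1 ^ 2 + x.2 ^ 2 < 1},
        ((fderiv ℝ U (x.1, x.2, p) (1, 0, 0)) ^ 2 + (fderiv ℝ U (x.1, x.2, p) (0, 1, 0)) ^ 2)) +
      2 * (∫ th in (-π)..π, U (cos th, sin th, p) ^ 2) +
      8 / l ^ 2 * (∫ x in {x : ℝ × ℝ | x.1 ^ 2 + x.2 ^ 2 < 1},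
        (fderiv ℝ U (x.1, x.2, p) (0, 0, 1)) ^ 2))

lemma exists_cutoff {K : Set E3} (hK : IsClosed K) {V : Set E3} (hV : IsOpen V) (hKV : K ⊆ V)
    {u : E3 → ℝ} (hu : ContDiffOn ℝ ∞ u V) (hpos : ∀ x ∈ K, 0 < u x) :
    ∃ w : E3 → ℝ, ContDiff ℝ ∞ w ∧ (∀ x ∈ K, w x = u x) ∧ (∀ x, 0 ≤ w x) ∧
      ∀ x ∈ K, w =ᶠ[𝓝 x] u := by
  set V' : Set E3 := {x | x ∈ V ∧ 0 < u x} with hV'
  have hV'o : IsOpen V' := by
    have : V' = V ∩ u ⁻¹' (Ioi 0) := by ext x; rfl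
    rw [this]
    exact hu.continuousOn.isOpen_inter_preimage hV isOpen_Ioi
  have hKV' : K ⊆ V' := fun x hx => ⟨hKV hx, hpos x hx⟩
  obtain ⟨f, h0, h1, hf⟩ := exists_contMDiffMap_zero_one_nhds_of_isClosed (𝓘(ℝ, E3)) (n := ⊤)
    (s := V'ᶜ) (t := K) hV'o.isClosed_compl hK (disjoint_compl_left_iff_subset.2 hKV')
  have hfs : ContDiff ℝ ∞ f := f.contMDiff.contDiff
  refine ⟨fun x => f x * u x, ?_, ?_, ?_, ?_⟩
  · rw [contDiff_iff_contDiffAt]
    intro x
    by_cases hx : x ∈ V'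
    · exact hfs.contDiffAt.mul (hu.contDiffAt (hV.mem_nhds hx.1))
    · have h2 : ∀ᶠ y in 𝓝 x, f y = 0 := (eventually_nhdsSet_iff_forall.1 h0) x hx
      have h3 : (fun y => f y * u y) =ᶠ[𝓝 x] fun _ => (0 : ℝ) := by
        filter_upwards [h2] with y hy
        rw [hy, zero_mul]
      exact contDiffAt_const.congr_of_eventuallyEq h3
  · intro x hx
    have h2 : ∀ᶠ y in 𝓝 x, f y = 1 := (eventually_nhdsSet_iff_forall.1 h1) x hx
    have h3 : f x = 1 := h2.self_of_nhds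
    simp only [h3, one_mul]
  · intro x
    by_cases hx : x ∈ V'
    · exact mul_nonneg (hf x).1 hx.2.le
    · have h2 : ∀ᶠ y in 𝓝 x, f y = 0 := (eventually_nhdsSet_iff_forall.1 h0) x hx
      have h3 : f x = 0 := h2.self_of_nhds
      simp only [h3, zero_mul, le_refl]
  · intro x hx
    have h2 : ∀ᶠ y in 𝓝 x, f y = 1 := (eventually_nhdsSet_iff_forall.1 h1) x hx
    filter_upwards [h2] with y hy
    rw [hy, one_mul]

lemma fubD {f : (ℝ × ℝ) × ℝ → ℝ} (hf : Continuous f) :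
    ∫ q in D ×ˢ Ioo (-π) π, f q = ∫ t in (-π)..π, ∫ x in D, f (x, t) := by
  have hpi : -π ≤ π := by linarith [pi_pos]
  have h1 : IntegrableOn f (D ×ˢ Ioo (-π) π) :=
    (hf.continuousOn.integrableOn_compact (isCompact_Dc.prod isCompact_Icc)).mono_set
      (prod_mono D_subset Ioo_subset_Icc_self)
  rw [intervalIntegral.integral_of_le hpi, integral_Ioc_eq_integral_Ioo]
  rw [Measure.volume_eq_prod] at h1 ⊢
  have h2 : IntegrableOn (fun z : ℝ × (ℝ × ℝ) => f z.swap) (Ioo (-π) π ×ˢ D)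
      (volume.prod volume) := h1.swap
  rw [← setIntegral_prod_swap, setIntegral_prod _ h2]
  rfl

lemma integrable_D {f : (ℝ × ℝ) × ℝ → ℝ} (hf : Continuous f) :
    IntegrableOn f (D ×ˢ Ioo (-π) π) :=
  (hf.continuousOn.integrableOn_compact (isCompact_Dc.prod isCompact_Icc)).mono_set
      (prod_mono D_subset Ioo_subset_Icc_self)

lemma intervalIntegrable_fub {f : (ℝ × ℝ) × ℝ → ℝ} (hf : Continuous f) :
    IntervalIntegrable (fun p => ∫ x in D, f (x, p)) volume (-π) π := by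
  have hpi : -π ≤ π := by linarith [pi_pos]
  rw [intervalIntegrable_iff_integrableOn_Ioo_of_le hpi]
  have h1 : IntegrableOn f (D ×ˢ Ioo (-π) π) (volume.prod volume) := integrable_D hf
  rw [IntegrableOn, ← Measure.prod_restrict] at h1
  exact h1.integral_prod_right

/-- reassociation -/
noncomputable def asc : ℝ × ℝ × ℝ →L[ℝ] (ℝ × ℝ) × ℝ :=
  ((ContinuousLinearMap.fst ℝ ℝ (ℝ × ℝ)).prod
    ((ContinuousLinearMap.fst ℝ ℝ ℝ).comp (ContinuousLinearMap.snd ℝ ℝ (ℝ × ℝ)))).prod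
    ((ContinuousLinearMap.snd ℝ ℝ ℝ).comp (ContinuousLinearMap.snd ℝ ℝ (ℝ × ℝ)))

lemma asc_apply (a b c : ℝ) : asc (a, b, c) = ((a, b), c) := rfl

lemma fderiv_asc {U : (ℝ × ℝ) × ℝ → ℝ} (hU : Differentiable ℝ U) (x v : ℝ × ℝ × ℝ) :
    fderiv ℝ (fun y => U (asc y)) x v = fderiv ℝ U (asc x) (asc v) := by
  have h1 : HasFDerivAt (fun y => U (asc y)) ((fderiv ℝ U (asc x)).comp asc) x :=
    (hU (asc x)).hasFDerivAt.comp x asc.hasFDerivAt
  rw [h1.fderiv]
  rfl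

/-- The main estimate for one test function. -/
lemma energy_lower {K : ℝ} (hL : 2 < L) {δ : ℝ}
    (hcyl : ∀ U : ℝ × ℝ × ℝ → ℝ, ContDiff ℝ 1 U →
      (∀ a b p, U (a, b, p + 2 * π) = U (a, b, p)) → (∀ x, 0 ≤ U x) →
      (K - δ) * √((L - 2) * (L + 1)) ^ (-(2 / 3) : ℝ) *
        (∫ p in (-π)..π, ∫ x in {x : ℝ × ℝ | x.1 ^ 2 + x.2 ^ 2 < 1}, U (x.1, x.2, p) ^ 6)
          ^ (1 / 3 : ℝ) ≤
      ∫ p in (-π)..π, (8 * (∫ x in {x : ℝ × ℝ | x.1 ^ 2 + x.2 ^ 2 < 1},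
          ((fderiv ℝ U (x.1, x.2, p) (1, 0, 0)) ^ 2 + (fderiv ℝ U (x.1, x.2, p) (0, 1, 0)) ^ 2)) +
        2 * (∫ th in (-π)..π, U (cos th, sin th, p) ^ 2) +
        8 / √((L - 2) * (L + 1)) ^ 2 * (∫ x in {x : ℝ × ℝ | x.1 ^ 2 + x.2 ^ 2 < 1},
          (fderiv ℝ U (x.1, x.2, p) (0, 0, 1)) ^ 2)))
    (hK : 0 ≤ K - δ) {u : E3 → ℝ} (hu : IsTestFn (torus L) u) :
    (K - δ) * ((L - 2) / (L + 1)) ^ (2 / 3 : ℝ) ≤
      energy (torus L) u / (∫ x in torus L, u x ^ 6) ^ (1 / 3 : ℝ) := by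
  have hL1 : 1 < L := by linarith
  obtain ⟨⟨V, hV, hcV, huV⟩, hpos⟩ := hu
  obtain ⟨w, hw, hwu, hw0, hwe⟩ := exists_cutoff isClosed_closure hV hcV huV hpos
  have hsub : torus L ⊆ closure (torus L) := subset_closure
  have hPsi : ContDiff ℝ ∞ (Psi L) := by
    unfold Psi
    rw [contDiff_piLp]
    intro i
    fin_cases i <;> simp <;> fun_prop
  set U : (ℝ × ℝ) × ℝ → ℝ := fun q => w (Psi L q) with hU
  have hUs : ContDiff ℝ ∞ U := hw.comp hPsi
  have hUs1 : ContDiff ℝ 1 U := hUs.of_le (by exact_mod_cast le_top)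
  have hUu : ∀ q : (ℝ × ℝ) × ℝ, q.1 ∈ D → U q = u (Psi L q) := fun q hq =>
    hwu _ (hsub (Psi_mem hL1 hq))
  have hud : ∀ x ∈ torus L, DifferentiableAt ℝ u x := fun x hx =>
    (huV.differentiableOn (by norm_num)).differentiableAt (hV.mem_nhds (hcV (hsub hx)))
  have hUc : Continuous U := hUs.continuous
  have hfd : Continuous (fderiv ℝ U) := hUs1.continuous_fderiv (by norm_num)
  have hA : Continuous (dA U) := hfd.clm_apply continuous_const
  have hB : Continuous (dB U) := hfd.clm_apply continuous_const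
  have hT : Continuous (dT U) := hfd.clm_apply continuous_const
  rw [energy_torus hL1 u U hUc hUu hud, volume_torus hL1 u U hUu]
  set l2 : ℝ := (L - 2) * (L + 1) with hl2
  have hl2pos : 0 < l2 := by rw [hl2]; exact mul_pos (by linarith) (by linarith)
  have hsq : √l2 ^ 2 = l2 := Real.sq_sqrt hl2pos.le
  -- the inequality on the disc times the circle
  have hc := hcyl (fun y => U (asc y)) (hUs1.comp asc.contDiff) ?_ ?_
  rotate_left
  · intro a b p
    simp only [asc_apply, hU]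
    congr 1
    simp [Psi, cos_add_two_pi, sin_add_two_pi]
  · intro x; exact hw0 _
  have hUd : Differentiable ℝ U := hUs1.differentiable (by norm_num)
  simp only [fderiv_asc hUd, asc_apply] at hc
  rw [hsq] at hc
  change (K - δ) * √l2 ^ (-(2 / 3) : ℝ) * (∫ p in (-π)..π, ∫ x in D, U (x, p) ^ 6) ^ (1 / 3 : ℝ) ≤
    ∫ p in (-π)..π, (8 * (∫ x in D, (dA U (x, p) ^ 2 + dB U (x, p) ^ 2)) +
      2 * (∫ th in (-π)..π, U ((cos th, sin th), p) ^ 2) +
      8 / l2 * ∫ x in D, dT U (x, p) ^ 2) at hc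
  -- integrability in `p`
  have i1 : IntervalIntegrable (fun p => 8 * ∫ x in D, (dA U (x, p) ^ 2 + dB U (x, p) ^ 2))
      volume (-π) π :=
    (intervalIntegrable_fub (f := fun q => dA U q ^ 2 + dB U q ^ 2) (by fun_prop)).const_mul 8
  have hpi : -π ≤ π := by linarith [pi_pos]
  have hI2c : Continuous fun p : ℝ => ∫ th in (-π)..π, U ((cos th, sin th), p) ^ 2 := by
    apply intervalIntegral.continuous_parametric_intervalIntegral_of_continuous'
    simp only [Function.uncurry_def]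
    fun_prop
  have i2 : IntervalIntegrable (fun p => 2 * ∫ th in (-π)..π, U ((cos th, sin th), p) ^ 2)
      volume (-π) π := (hI2c.const_mul 2).intervalIntegrable _ _
  have i3 : IntervalIntegrable (fun p => 8 / l2 * ∫ x in D, dT U (x, p) ^ 2) volume (-π) π :=
    (intervalIntegrable_fub (f := fun q => dT U q ^ 2) (by fun_prop)).const_mul _
  rw [intervalIntegral.integral_add (i1.add i2) i3, intervalIntegral.integral_add i1 i2,
    intervalIntegral.integral_const_mul, intervalIntegral.integral_const_mul,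
    intervalIntegral.integral_const_mul, ← fubD (f := fun q => dA U q ^ 2 + dB U q ^ 2)
      (by fun_prop), ← fubD (f := fun q => dT U q ^ 2) (by fun_prop),
    ← fubD (f := fun q => U q ^ 6) (by fun_prop)] at hc
  set I1 := ∫ q in D ×ˢ Ioo (-π) π, (dA U q ^ 2 + dB U q ^ 2) with hI1
  set I3 := ∫ q in D ×ˢ Ioo (-π) π, dT U q ^ 2 with hI3
  set I2 := ∫ p in (-π)..π, ∫ th in (-π)..π, U ((cos th, sin th), p) ^ 2 with hI2
  set N := ∫ q in D ×ˢ Ioo (-π) π, U q ^ 6 with hN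
  -- comparison
  have hmeas : MeasurableSet (D ×ˢ Ioo (-π) π : Set ((ℝ × ℝ) × ℝ)) :=
    measurableSet_D.prod measurableSet_Ioo
  have hposD : ∀ q ∈ (Dc ×ˢ Icc (-π) π : Set ((ℝ × ℝ) × ℝ)), 0 < L + q.1.1 := fun q hq =>
    Psi_pos hL1 hq.1
  have e1 : (L - 2) * I1 + (L - 2) / l2 * I3 ≤ ∫ q in D ×ˢ Ioo (-π) π,
      (L + q.1.1) * (dA U q ^ 2 + dB U q ^ 2 + dT U q ^ 2 / (L + q.1.1) ^ 2) := by
    rw [hI1, hI3, ← integral_const_mul, ← integral_const_mul, ← integral_add]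
    · refine setIntegral_mono_on ?_ ?_ hmeas fun q hq => ?_
      · exact integrable_D (by fun_prop)
      · refine (ContinuousOn.integrableOn_compact (isCompact_Dc.prod isCompact_Icc)
          (?_ : ContinuousOn _ (Dc ×ˢ Icc (-π) π))).mono_set
          (prod_mono D_subset Ioo_subset_Icc_self)
        have c1 : ContinuousOn (fun q : (ℝ × ℝ) × ℝ => dT U q ^ 2 / (L + q.1.1) ^ 2)
            (Dc ×ˢ Icc (-π) π) :=
          ContinuousOn.div (by fun_prop) (by fun_prop) fun q hq => (pow_pos (hposD q hq) 2).ne'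
        have c2 : Continuous fun q : (ℝ × ℝ) × ℝ => dA U q ^ 2 + dB U q ^ 2 := by fun_prop
        have c3 : Continuous fun q : (ℝ × ℝ) × ℝ => L + q.1.1 := by fun_prop
        exact c3.continuousOn.mul (c2.continuousOn.add c1)
      · have h1 := D_bound (D_subset hq.1)
        have h2 : 0 < L + q.1.1 := by linarith [h1.1]
        have h3 : (L + q.1.1) * (dA U q ^ 2 + dB U q ^ 2 + dT U q ^ 2 / (L + q.1.1) ^ 2) =
            (L + q.1.1) * (dA U q ^ 2 + dB U q ^ 2) + dT U q ^ 2 / (L + q.1.1) := by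
          field_simp
        have h4 : (L - 2) / l2 = 1 / (L + 1) := by
          rw [hl2]
          have : L - 2 ≠ 0 := by linarith
          have : L + 1 ≠ 0 := by linarith
          field_simp
        rw [h3, h4]
        have h5 : 1 / (L + 1) * dT U q ^ 2 ≤ dT U q ^ 2 / (L + q.1.1) := by
          rw [one_div, inv_mul_eq_div]
          exact div_le_div_of_nonneg_left (sq_nonneg _) h2 (by linarith [h1.2.1])
        have h6 : (L - 2) * (dA U q ^ 2 + dB U q ^ 2) ≤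
            (L + q.1.1) * (dA U q ^ 2 + dB U q ^ 2) :=
          mul_le_mul_of_nonneg_right (by linarith [h1.1]) (by positivity)
        linarith
    · exact integrable_D (by fun_prop)
    · exact integrable_D (by fun_prop)
  have e2 : (L - 2) * I2 ≤
      ∫ t in (-π)..π, ∫ θ in (-π)..π, (L + 2 * cos θ) * U ((cos θ, sin θ), t) ^ 2 := by
    rw [hI2, ← intervalIntegral.integral_const_mul]
    have c1 : Continuous fun p : ℝ => ∫ θ in (-π)..π, (L + 2 * cos θ) *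
        U ((cos θ, sin θ), p) ^ 2 := by
      apply intervalIntegral.continuous_parametric_intervalIntegral_of_continuous'
      simp only [Function.uncurry_def]
      fun_prop
    refine intervalIntegral.integral_mono_on hpi ((hI2c.const_mul _).intervalIntegrable _ _)
      (c1.intervalIntegrable _ _) fun t _ => ?_
    rw [← intervalIntegral.integral_const_mul]
    refine intervalIntegral.integral_mono_on hpi (Continuous.intervalIntegrable (by fun_prop) _ _)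
      (Continuous.intervalIntegrable (by fun_prop) _ _) fun θ _ => ?_
    exact mul_le_mul_of_nonneg_right (by linarith [neg_one_le_cos θ]) (sq_nonneg _)
  have hcU : Continuous fun q : (ℝ × ℝ) × ℝ => (L + q.1.1) * U q ^ 6 := by fun_prop
  have e3 : ∫ q in D ×ˢ Ioo (-π) π, (L + q.1.1) * U q ^ 6 ≤ (L + 1) * N := by
    rw [hN, ← integral_const_mul]
    refine setIntegral_mono_on (integrable_D hcU) (integrable_D (by fun_prop)) hmeas
      fun q hq => ?_
    have h1 := D_bound (D_subset hq.1)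
    exact mul_le_mul_of_nonneg_right (by linarith [h1.2.1]) (by positivity)
  have e4 : 0 < ∫ q in D ×ˢ Ioo (-π) π, (L + q.1.1) * U q ^ 6 := by
    have hpt : ∀ q ∈ (D ×ˢ Ioo (-π) π : Set ((ℝ × ℝ) × ℝ)), 0 < (L + q.1.1) * U q ^ 6 := by
      intro q hq
      have h1 := D_bound (D_subset hq.1)
      have h2 : 0 < L + q.1.1 := by linarith [h1.1]
      have h3 : 0 < U q := by rw [hUu q hq.1]; exact hpos _ (hsub (Psi_mem hL1 hq.1))
      positivity
    rw [setIntegral_pos_iff_support_of_nonneg_ae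
      ((ae_restrict_iff' hmeas).2 (Eventually.of_forall fun q hq => (hpt q hq).le))
      (integrable_D hcU)]
    have hopen : IsOpen (D ×ˢ Ioo (-π) π : Set ((ℝ × ℝ) × ℝ)) := isOpen_D.prod isOpen_Ioo
    have hne : (D ×ˢ Ioo (-π) π : Set ((ℝ × ℝ) × ℝ)).Nonempty :=
      ⟨(0, 0), zero_mem_D, by simp [pi_pos], by simp [pi_pos]⟩
    have hle : (D ×ˢ Ioo (-π) π : Set ((ℝ × ℝ) × ℝ)) ⊆
        Function.support (fun q : (ℝ × ℝ) × ℝ => (L + q.1.1) * U q ^ 6) ∩
          (D ×ˢ Ioo (-π) π) := fun q hq => ⟨(hpt q hq).ne', hq⟩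
    rw [Measure.volume_eq_prod] at *
    exact (hopen.measure_pos _ hne).trans_le (measure_mono hle)
  have hL2 : 0 < L - 2 := by linarith
  have hL3 : 0 < L + 1 := by linarith
  have hNpos : 0 < N := by
    have := e4.trans_le e3
    exact (mul_pos_iff_of_pos_left hL3).1 this
  set E := ∫ q in D ×ˢ Ioo (-π) π,
      (L + q.1.1) * (dA U q ^ 2 + dB U q ^ 2 + dT U q ^ 2 / (L + q.1.1) ^ 2) with hE
  set B := ∫ t in (-π)..π, ∫ θ in (-π)..π, (L + 2 * cos θ) * U ((cos θ, sin θ), t) ^ 2 with hB'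
  set V6 := ∫ q in D ×ˢ Ioo (-π) π, (L + q.1.1) * U q ^ 6 with hV6
  have f1 : (L - 2) * ((K - δ) * √l2 ^ (-(2 / 3) : ℝ) * N ^ (1 / 3 : ℝ)) ≤ 8 * E + 2 * B := by
    have := mul_le_mul_of_nonneg_left hc hL2.le
    have g1 : (L - 2) * (8 * I1 + 2 * I2 + 8 / l2 * I3) =
        8 * ((L - 2) * I1 + (L - 2) / l2 * I3) + 2 * ((L - 2) * I2) := by ring
    rw [g1] at this
    linarith
  have f2 : V6 ^ (1 / 3 : ℝ) ≤ ((L + 1) * N) ^ (1 / 3 : ℝ) :=
    Real.rpow_le_rpow e4.le e3 (by norm_num)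
  have f3 : 0 < V6 ^ (1 / 3 : ℝ) := Real.rpow_pos_of_pos e4 _
  rw [le_div_iff₀ f3]
  refine le_trans (mul_le_mul_of_nonneg_left f2 (mul_nonneg hK (by positivity))) (le_trans ?_ f1)
  have r1 : √l2 ^ (-(2 / 3) : ℝ) = (L - 2) ^ (-(1 / 3) : ℝ) * (L + 1) ^ (-(1 / 3) : ℝ) := by
    rw [Real.sqrt_eq_rpow, ← Real.rpow_mul hl2pos.le, hl2, Real.mul_rpow hL2.le hL3.le]
    norm_num
  have r2 : ((L + 1) * N) ^ (1 / 3 : ℝ) = (L + 1) ^ (1 / 3 : ℝ) * N ^ (1 / 3 : ℝ) :=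
    Real.mul_rpow hL3.le hNpos.le
  have r3 : ((L - 2) / (L + 1)) ^ (2 / 3 : ℝ) = (L - 2) ^ (2 / 3 : ℝ) * (L + 1) ^ (-(2 / 3) : ℝ) := by
    rw [Real.div_rpow hL2.le hL3.le, Real.rpow_neg hL3.le, div_eq_mul_inv]
  have r4 : (L - 2) * (L - 2) ^ (-(1 / 3) : ℝ) = (L - 2) ^ (2 / 3 : ℝ) := by
    nth_rewrite 1 [← Real.rpow_one (L - 2)]
    rw [← Real.rpow_add hL2]; norm_num
  have r5 : (L + 1) ^ (-(2 / 3) : ℝ) * (L + 1) ^ (1 / 3 : ℝ) = (L + 1) ^ (-(1 / 3) : ℝ) := by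
    rw [← Real.rpow_add hL3]; norm_num
  rw [r1, r2, r3]
  apply le_of_eq
  calc (K - δ) * ((L - 2) ^ (2 / 3 : ℝ) * (L + 1) ^ (-(2 / 3) : ℝ)) *
      ((L + 1) ^ (1 / 3 : ℝ) * N ^ (1 / 3 : ℝ))
      = (K - δ) * (L - 2) ^ (2 / 3 : ℝ) *
        ((L + 1) ^ (-(2 / 3) : ℝ) * (L + 1) ^ (1 / 3 : ℝ)) * N ^ (1 / 3 : ℝ) := by ring
    _ = (L - 2) * ((K - δ) * ((L - 2) ^ (-(1 / 3) : ℝ) * (L + 1) ^ (-(1 / 3) : ℝ)) *
        N ^ (1 / 3 : ℝ)) := by rw [r5, ← r4]; ring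

lemma tendsto_ratio : Tendsto (fun L : ℝ => ((L - 2) / (L + 1)) ^ (2 / 3 : ℝ)) atTop (𝓝 1) := by
  have h1 : Tendsto (fun L : ℝ => (L - 2) / (L + 1)) atTop (𝓝 1) := by
    have h2 : Tendsto (fun L : ℝ => 1 - 3 / (L + 1)) atTop (𝓝 (1 - 0)) := by
      refine tendsto_const_nhds.sub ?_
      exact (tendsto_atTop_add_const_right atTop 1 tendsto_id).const_div_atTop 3
    rw [sub_zero] at h2
    refine h2.congr' ?_
    filter_upwards [eventually_gt_atTop (0 : ℝ)] with L hL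
    field_simp
    ring
  have h3 := h1.rpow_const (p := (2 / 3 : ℝ)) (Or.inl one_ne_zero)
  simpa using h3

lemma tendsto_len : Tendsto (fun L : ℝ => √((L - 2) * (L + 1))) atTop atTop := by
  refine tendsto_sqrt_atTop.comp ?_
  exact (tendsto_atTop_add_const_right atTop (-2) tendsto_id).atTop_mul_atTop₀
    (tendsto_atTop_add_const_right atTop 1 tendsto_id)

theorem lower_torus {K : ℝ} (h : CylIneq K) {q : ℝ} (hq0 : 0 ≤ q) (hq : q < K) :
    ∃ L : ℝ, 2 < L ∧ ∀ u, IsTestFn (torus L) u →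
      q ≤ energy (torus L) u / (∫ x in torus L, u x ^ 6) ^ (1 / 3 : ℝ) := by
  have hδ : 0 < (K - q) / 2 := by linarith
  obtain ⟨l0, hl0⟩ := h ((K - q) / 2) hδ
  have hK : 0 ≤ K - (K - q) / 2 := by linarith
  have h1 : ∀ᶠ L : ℝ in atTop, q < (K - (K - q) / 2) * ((L - 2) / (L + 1)) ^ (2 / 3 : ℝ) := by
    have h2 := tendsto_ratio.const_mul (K - (K - q) / 2)
    rw [mul_one] at h2
    exact h2.eventually (lt_mem_nhds (by linarith))
  obtain ⟨L, hL1, hL2, hL3⟩ := (h1.and ((eventually_gt_atTop (2 : ℝ)).and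
    (tendsto_len.eventually (eventually_ge_atTop l0)))).exists
  refine ⟨L, hL2, fun u hu => ?_⟩
  exact hL1.le.trans (energy_lower hL2 (hl0 _ hL3) hK hu)

/-- assembly, given the cylinder inequality -/
theorem main_of_cyl {K : ℝ} (h : CylIneq K) {q : ℝ} (hq0 : 0 ≤ q) (hq : q < K)
    (hC : yamabeQ cliffordRegion < (q : EReal)) :
    ∃ Ω : Set E3, IsSmoothBoundedDomain Ω ∧ IsSolidTorus (closure Ω) ∧
      yamabeQ cliffordRegion < yamabeQ Ω := by
  obtain ⟨L, hL, hu⟩ := lower_torus h hq0 hq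
  have hL1 : 1 < L := by linarith
  refine ⟨torus L, isSmoothBoundedDomain_torus hL1, isSolidTorus_torus hL1, hC.trans_le ?_⟩
  exact le_iInf₂ fun u hu' => by exact_mod_cast hu u hu'

end Pool.Agent.CT
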