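import Mathlib

/-!
# Vertex-centric machines (the model of the final theorem)

The input is a graph `G` on the vertex set `Fin n`.  Information moves only along the edges of `G`:
in each pass every vertex sends `B` bits along each of its edges.  A vertex knows its name and the
names of its neighbours and remembers everything it has received; the message sent by a vertex is an
arbitrary function of what it knows (and of the random seed).  After each pass a vertex may decide to
accept or to reject; a decision is final.  The machine halts as soon as all vertices have decided,
and its answer is `triangle` if some vertex has rejected.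
-/

namespace Pool.Agent.CT

open MeasureTheory

/-- A message of `B` bits. -/
abbrev Msg (B : ℕ) : Type := Fin B → Bool

/-- The set of neighbours of `u`. -/
noncomputable def nbr {n : ℕ} (G : SimpleGraph (Fin n)) (u : Fin n) : Finset (Fin n) := by
  classical exact Finset.univ.filter (fun v => G.Adj u v)

/-- A deterministic vertex-centric machine. `send r u N h v` is the message sent by the vertex `u`
with neighbour set `N` to `v` in pass `r`, where `h s w` is the message received from `w` in pass
`s`; `decide r u N h` is the decision (if any) after `r` passes (`true` = reject). -/
structure Machine (n B : ℕ) where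
  send : ℕ → Fin n → Finset (Fin n) → (ℕ → Fin n → Msg B) → Fin n → Msg B
  decide : ℕ → Fin n → Finset (Fin n) → (ℕ → Fin n → Msg B) → Option Bool

open Classical in
/-- The messages of the first `r` passes: `msgs M G r s u v` is the message from `u` to `v` in pass
`s` if `s < r` and `u`, `v` are adjacent (and the all-zero message otherwise). -/
noncomputable def msgs {n B : ℕ} (M : Machine n B) (G : SimpleGraph (Fin n)) :
    ℕ → ℕ → Fin n → Fin n → Msg B
  | 0 => fun _ _ _ _ => false
  | r + 1 => fun s u v =>
      if s = r then
        if G.Adj u v then M.send r u (nbr G u) (fun s' w => msgs M G r s' w u) v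
        else fun _ => false
      else msgs M G r s u v

/-- The decision of the vertex `u` within the first `r` passes (`none`: not yet decided). -/
noncomputable def status {n B : ℕ} (M : Machine n B) (G : SimpleGraph (Fin n)) :
    ℕ → Fin n → Option Bool
  | 0, u => M.decide 0 u (nbr G u) (fun s w => msgs M G 0 s w u)
  | r + 1, u => match status M G r u with
      | some b => some b
      | none => M.decide (r + 1) u (nbr G u) (fun s w => msgs M G (r + 1) s w u)

/-- All vertices have decided within `r` passes. -/
def Halted {n B : ℕ} (M : Machine n B) (G : SimpleGraph (Fin n)) (r : ℕ) : Prop :=
  ∀ u, status M G r u ≠ none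

/-- The machine halts with the right answer: some vertex rejects if and only if there is a
triangle. -/
def Correct {n B : ℕ} (M : Machine n B) (G : SimpleGraph (Fin n)) : Prop :=
  ∃ r, Halted M G r ∧ ((∃ u, status M G r u = some true) ↔ ¬ G.CliqueFree 3)

/-- The random machine `M ω` answers correctly with probability at least `2/3` on every graph with
`n` vertices and at most `n` edges. -/
def DetectsTriangles {n B : ℕ} {Ω : Type*} [MeasurableSpace Ω] (μ : Measure Ω)
    (M : Ω → Machine n B) : Prop :=
  ∀ G : SimpleGraph (Fin n), G.edgeSet.ncard ≤ n →
    (∀ r u x, MeasurableSet {ω | status (M ω) G r u = x}) ∧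
    2 / 3 ≤ μ {ω | Correct (M ω) G}

/-- A pass over a graph with `n` vertices and `m` edges takes time `n + m`; the expected number of
passes is the sum over `r` of the probabilities that the machine has not halted within `r` passes.
The expected time is at most `T` on every graph with `n` vertices and at most `n` edges. -/
def ExpectedTimeLE {n B : ℕ} {Ω : Type*} [MeasurableSpace Ω] (μ : Measure Ω)
    (M : Ω → Machine n B) (T : ℝ) : Prop :=
  ∀ G : SimpleGraph (Fin n), G.edgeSet.ncard ≤ n →
    ∀ m, (n + G.edgeSet.ncard) * ∑ r ∈ Finset.range m, (μ {ω | ¬ Halted (M ω) G r}).toReal ≤ T

end Pool.Agent.CT
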