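import Pool.Agent.CT.Lower

/-!
# Numerical comparison and assembly
-/

namespace Pool.Agent.CT

open MeasureTheory Metric Set Filter Topology Real
open scoped ContDiff

/-- the constant of the lower bound -/
noncomputable def Kc : ℝ := 6 * (2 * π ^ 2 * (839 / 2000)) ^ (2 / 3 : ℝ)

lemma Vc_bounds : 0 ≤ Vc ∧ Vc ≤ 0.3466565 := by
  have h1 : 1.4142135 ≤ √2 := Real.le_sqrt_of_sq_le (by norm_num)
  have h2 : √2 ≤ 1.4142136 := by rw [Real.sqrt_le_left (by norm_num)]; norm_num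
  have h0 : 0 < √2 := by linarith
  have h3 : 3269 / 5000 / √2 ≤ 3269 / 5000 / 1.4142135 :=
    div_le_div_of_nonneg_left (by norm_num) (by norm_num) h1
  have h4 : 3269 / 5000 / 1.4142136 ≤ 3269 / 5000 / √2 :=
    div_le_div_of_nonneg_left (by norm_num) h0 h2
  unfold Vc
  constructor
  · have : (0 : ℝ) ≤ 3269 / 5000 / 1.4142136 - 389 / 5000 - 757 / 20000 := by norm_num
    linarith
  · have : (3269 : ℝ) / 5000 / 1.4142135 - 389 / 5000 - 757 / 20000 ≤ 0.3466565 := by norm_num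
    linarith

lemma numeric : 2 * π ^ 2 * (3 * (38307 / 128) + 16 * Vc * (435 / 8)) /
      (π ^ 2 * (380862133135239 / 4194304)) ^ (1 / 3 : ℝ) < Kc := by
  obtain ⟨hV0, hV⟩ := Vc_bounds
  have hpi := pi_pos
  set e0 : ℝ := 3 * (38307 / 128) + 16 * Vc * (435 / 8) with he0
  have he1 : 0 < e0 := by rw [he0]; positivity
  have he2 : e0 ≤ 3 * (38307 / 128) + 16 * 0.3466565 * (435 / 8) := by rw [he0]; linarith
  have hn : (0 : ℝ) < π ^ 2 * (380862133135239 / 4194304) := by positivity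
  have hA : 0 < 2 * π ^ 2 * e0 / (π ^ 2 * (380862133135239 / 4194304)) ^ (1 / 3 : ℝ) := by
    positivity
  have hB : 0 < Kc := by unfold Kc; positivity
  have hA3 : (2 * π ^ 2 * e0 / (π ^ 2 * (380862133135239 / 4194304)) ^ (1 / 3 : ℝ)) ^ 3 =
      8 * π ^ 4 * e0 ^ 3 / (380862133135239 / 4194304) := by
    rw [div_pow, ← Real.rpow_natCast ((π ^ 2 * (380862133135239 / 4194304)) ^ (1 / 3 : ℝ)) 3,
      ← Real.rpow_mul hn.le]
    norm_num
    field_simp
    ring
  have hB3 : Kc ^ 3 = 216 * (2 * π ^ 2 * (839 / 2000)) ^ 2 := by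
    unfold Kc
    rw [mul_pow, ← Real.rpow_natCast ((2 * π ^ 2 * (839 / 2000)) ^ (2 / 3 : ℝ)) 3,
      ← Real.rpow_mul (by positivity)]
    norm_num
  refine lt_of_pow_lt_pow_left₀ 3 hB.le ?_
  rw [hA3, hB3, div_lt_iff₀ (by norm_num)]
  have he3 : e0 ^ 3 ≤ (3 * (38307 / 128) + 16 * 0.3466565 * (435 / 8)) ^ 3 :=
    pow_le_pow_left₀ he1.le he2 3
  have h4 : (0 : ℝ) < π ^ 4 := by positivity
  have key : 8 * e0 ^ 3 < 216 * (2 * (839 / 2000)) ^ 2 * (380862133135239 / 4194304) := by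
    refine lt_of_le_of_lt (mul_le_mul_of_nonneg_left he3 (by norm_num)) ?_
    norm_num
  have := mul_lt_mul_of_pos_left key h4
  nlinarith

theorem main_of_cylK (h : CylIneq Kc) :
    ∃ Ω : Set E3, IsSmoothBoundedDomain Ω ∧ IsSolidTorus (closure Ω) ∧
      yamabeQ cliffordRegion < yamabeQ Ω := by
  set A : ℝ := 2 * π ^ 2 * (3 * (38307 / 128) + 16 * Vc * (435 / 8)) /
      (π ^ 2 * (380862133135239 / 4194304)) ^ (1 / 3 : ℝ) with hA
  have hA0 : 0 < A := by
    have := Vc_bounds.1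
    have := pi_pos
    rw [hA]; positivity
  have hAK : A < Kc := numeric
  refine main_of_cyl h (q := (A + Kc) / 2) (by linarith) (by linarith) ?_
  refine upper_C.trans_lt ?_
  rw [EReal.coe_lt_coe_iff]
  linarith

end Pool.Agent.CT
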