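import Pool.Agent.CT.Geom

/-!
# Volume integrals over the torus in coordinates
-/

namespace Pool.Agent.CT

open MeasureTheory Metric Set Filter Topology Real
open scoped ContDiff

variable {L : ℝ}

/-- coordinates `((x, y), z)` on `ℝ³` -/
noncomputable def eqv : E3 ≃ᵐ (ℝ × ℝ) × ℝ :=
  (MeasurableEquiv.toLp 2 (Fin 3 → ℝ)).symm.trans
    ((MeasurableEquiv.piFinSuccAbove (fun _ => ℝ) 2).trans
      (((MeasurableEquiv.refl ℝ).prodCongr MeasurableEquiv.finTwoArrow).trans
        MeasurableEquiv.prodComm))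

lemma eqv_apply (x : E3) : eqv x = ((x 0, x 1), x 2) := rfl

lemma eqv_mp : MeasurePreserving eqv volume volume := by
  have h1 := EuclideanSpace.volume_preserving_symm_measurableEquiv_toLp (Fin 3)
  have h2 := volume_preserving_piFinSuccAbove (fun _ : Fin 3 => ℝ) 2
  have h3 : MeasurePreserving
      ((MeasurableEquiv.refl ℝ).prodCongr (MeasurableEquiv.finTwoArrow (α := ℝ)))
      volume volume := (MeasurePreserving.id volume).prod (volume_preserving_finTwoArrow ℝ)
  have h4 : MeasurePreserving (MeasurableEquiv.prodComm : ℝ × (ℝ × ℝ) ≃ᵐ (ℝ × ℝ) × ℝ)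
      volume volume := Measure.measurePreserving_swap
  exact h4.comp (h3.comp (h2.comp h1))

/-- cylindrical coordinates -/
lemma integral_cyl (T : Set ((ℝ × ℝ) × ℝ)) (hT : MeasurableSet T) (G : (ℝ × ℝ) × ℝ → ℝ) :
    ∫ p in T, G p = ∫ p in {p : (ℝ × ℝ) × ℝ | p.1 ∈ polarCoord.target ∧
      (polarCoord.symm p.1, p.2) ∈ T}, p.1.1 * G (polarCoord.symm p.1, p.2) := by
  set S : Set ((ℝ × ℝ) × ℝ) := {p : (ℝ × ℝ) × ℝ | p.1 ∈ polarCoord.target ∧
      (polarCoord.symm p.1, p.2) ∈ T} with hS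
  set f : (ℝ × ℝ) × ℝ → (ℝ × ℝ) × ℝ := fun p => (polarCoord.symm p.1, p.2) with hf
  have hfc : Continuous f := by
    exact (continuous_polarCoord_symm.comp continuous_fst).prodMk continuous_snd
  have hSm : MeasurableSet S := by
    refine MeasurableSet.inter ?_ ?_
    · exact measurable_fst polarCoord.open_target.measurableSet
    · exact hfc.measurable hT
  have hinj : InjOn f S := by
    intro p hp q hq h
    simp only [hf, Prod.mk.injEq] at h
    have := polarCoord.symm.injOn (by simpa using hp.1) (by simpa using hq.1) h.1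
    exact Prod.ext this h.2
  have hder : ∀ p ∈ S, HasFDerivWithinAt f
      ((fderivPolarCoordSymm p.1).prodMap (ContinuousLinearMap.id ℝ ℝ)) S p := by
    intro p _
    have h1 : HasFDerivAt f
      ((fderivPolarCoordSymm p.1).prodMap (ContinuousLinearMap.id ℝ ℝ)) p :=
      HasFDerivAt.prodMap p (hasFDerivAt_polarCoord_symm p.1) (hasFDerivAt_id p.2)
    exact h1.hasFDerivWithinAt
  have hdet : ∀ p : (ℝ × ℝ) × ℝ,
      ((fderivPolarCoordSymm p.1).prodMap (ContinuousLinearMap.id ℝ ℝ)).det = p.1.1 := by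
    intro p
    rw [← det_fderivPolarCoordSymm p.1, ContinuousLinearMap.det, ContinuousLinearMap.det]
    have : (((fderivPolarCoordSymm p.1).prodMap (ContinuousLinearMap.id ℝ ℝ) :
        (ℝ × ℝ) × ℝ →L[ℝ] (ℝ × ℝ) × ℝ) : (ℝ × ℝ) × ℝ →ₗ[ℝ] (ℝ × ℝ) × ℝ) =
        ((fderivPolarCoordSymm p.1 : ℝ × ℝ →L[ℝ] ℝ × ℝ) : ℝ × ℝ →ₗ[ℝ] ℝ × ℝ).prodMap
          LinearMap.id := rfl
    rw [this, LinearMap.det_prodMap, LinearMap.det_id, mul_one]
  have : Measure.IsAddHaarMeasure (volume : Measure ((ℝ × ℝ) × ℝ)) :=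
    Measure.prod.instIsAddHaarMeasure _ _
  have h1 := integral_image_eq_integral_abs_det_fderiv_smul volume hSm hder hinj G
  have himg : f '' S =ᵐ[volume] T := by
    have hsub : f '' S ⊆ T := by
      rintro _ ⟨p, hp, rfl⟩; exact hp.2
    have h2 : T \ f '' S ⊆ {p : (ℝ × ℝ) × ℝ | p.1 ∈ polarCoord.sourceᶜ} := by
      rintro p ⟨hp, hp'⟩ hps
      apply hp'
      refine ⟨(polarCoord p.1, p.2), ⟨polarCoord.map_source hps, ?_⟩, ?_⟩
      · simp only [polarCoord.left_inv hps]; exact hp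
      · simp only [hf, polarCoord.left_inv hps]
    have h3 : volume ({p : (ℝ × ℝ) × ℝ | p.1 ∈ polarCoord.sourceᶜ}) = 0 := by
      have h4 : ({p : (ℝ × ℝ) × ℝ | p.1 ∈ polarCoord.sourceᶜ}) =
        polarCoord.sourceᶜ ×ˢ (univ : Set ℝ) := by ext p; simp
      have h5 : volume (polarCoord.sourceᶜ) = 0 := by
        have := polarCoord_source_ae_eq_univ
        rwa [ae_eq_univ] at this
      rw [h4, Measure.volume_eq_prod, Measure.prod_prod, h5, zero_mul]
    refine (ae_le_set.2 ?_).antisymm (ae_le_set.2 ?_)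
    · rw [sdiff_eq_empty.2 hsub]; simp
    · exact measure_mono_null h2 h3
  rw [← setIntegral_congr_set himg, h1]
  refine setIntegral_congr_fun hSm fun p hp => ?_
  simp only [hdet, smul_eq_mul]
  rw [abs_of_pos]
  exact hp.1.1

/-- a permutation and shift of coordinates -/
noncomputable def perm (L : ℝ) : (ℝ × ℝ) × ℝ ≃ᵐ (ℝ × ℝ) × ℝ :=
  (((MeasurableEquiv.addLeft L).prodCongr (MeasurableEquiv.refl ℝ)).prodCongr
    (MeasurableEquiv.refl ℝ)).trans (MeasurableEquiv.prodAssoc.trans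
      (((MeasurableEquiv.refl ℝ).prodCongr MeasurableEquiv.prodComm).trans
        MeasurableEquiv.prodAssoc.symm))

lemma perm_apply (p : (ℝ × ℝ) × ℝ) : perm L p = ((L + p.1.1, p.2), p.1.2) := rfl

lemma perm_mp : MeasurePreserving (perm L) volume volume := by
  have h1 : MeasurePreserving (MeasurableEquiv.addLeft L) volume volume :=
    measurePreserving_add_left volume L
  have h2 : MeasurePreserving (((MeasurableEquiv.addLeft L).prodCongr
    (MeasurableEquiv.refl ℝ)).prodCongr (MeasurableEquiv.refl ℝ)) volume volume :=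
    (h1.prod (MeasurePreserving.id volume)).prod (MeasurePreserving.id volume)
  have h3 : MeasurePreserving (MeasurableEquiv.prodAssoc : (ℝ × ℝ) × ℝ ≃ᵐ ℝ × ℝ × ℝ)
      volume volume := measurePreserving_prodAssoc volume volume volume
  have h4 : MeasurePreserving ((MeasurableEquiv.refl ℝ).prodCongr
    (MeasurableEquiv.prodComm : ℝ × ℝ ≃ᵐ ℝ × ℝ)) volume volume :=
    (MeasurePreserving.id volume).prod Measure.measurePreserving_swap
  exact h3.symm.comp (h4.comp (h3.comp h2))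

theorem setIntegral_Psi (hL : 1 < L) (A : Set (ℝ × ℝ)) (hA : MeasurableSet A) (hAD : A ⊆ D)
    (F : E3 → ℝ) :
    ∫ x in {x : E3 | (√(x 0 ^ 2 + x 1 ^ 2) - L, x 2) ∈ A}, F x =
      ∫ q in A ×ˢ Ioo (-π) π, (L + q.1.1) * F (Psi L q) := by
  set G : (ℝ × ℝ) × ℝ → ℝ := fun p => F !₂[p.1.1, p.1.2, p.2] with hG
  set T : Set ((ℝ × ℝ) × ℝ) := {p | (√(p.1.1 ^ 2 + p.1.2 ^ 2) - L, p.2) ∈ A} with hT
  have hTm : MeasurableSet T := by
    have : Measurable fun p : (ℝ × ℝ) × ℝ => (√(p.1.1 ^ 2 + p.1.2 ^ 2) - L, p.2) := by fun_prop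
    exact this hA
  have h1 : ∫ x in {x : E3 | (√(x 0 ^ 2 + x 1 ^ 2) - L, x 2) ∈ A}, F x = ∫ p in T, G p := by
    have := eqv_mp.setIntegral_preimage_emb eqv.measurableEmbedding G T
    rw [← this]
    have h2 : ∀ x : E3, G (eqv x) = F x := by
      intro x
      have h3 : (!₂[x 0, x 1, x 2] : E3) = x := by ext i; fin_cases i <;> simp
      rw [hG, eqv_apply]
      simp only
      rw [h3]
    simp only [h2]
    rfl
  rw [h1, integral_cyl T hTm G]
  rw [← perm_mp (L := L) |>.setIntegral_preimage_emb (perm L).measurableEmbedding]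
  have hset : (perm L ⁻¹' {p : (ℝ × ℝ) × ℝ | p.1 ∈ polarCoord.target ∧
      (polarCoord.symm p.1, p.2) ∈ T}) = A ×ˢ Ioo (-π) π := by
    ext p
    simp only [mem_preimage, perm_apply, mem_ofPred_eq, polarCoord_target, mem_prod, mem_Ioi,
      polarCoord_symm_apply, hT]
    have e1 : ((L + p.1.1) * cos p.2) ^ 2 + ((L + p.1.1) * sin p.2) ^ 2 = (L + p.1.1) ^ 2 := by
      rw [mul_pow, mul_pow, ← mul_add, cos_sq_add_sin_sq, mul_one]
    rw [e1]
    constructor
    · rintro ⟨⟨h1, h2⟩, h3⟩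
      rw [Real.sqrt_sq h1.le] at h3
      exact ⟨by simpa using h3, h2⟩
    · rintro ⟨h1, h2⟩
      have h3 := Psi_pos (q := p) hL (D_subset (hAD h1))
      refine ⟨⟨h3, h2⟩, ?_⟩
      rw [Real.sqrt_sq h3.le]
      simpa using h1
  rw [hset]
  refine setIntegral_congr_fun (hA.prod measurableSet_Ioo) fun p _ => ?_
  simp only [perm_apply, hG, polarCoord_symm_apply]
  rfl

lemma measurableSet_D : MeasurableSet D := by
  have : Measurable fun x : ℝ × ℝ => x.1 ^ 2 + x.2 ^ 2 := by fun_prop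
  exact this measurableSet_Iio

theorem integral_torus (hL : 1 < L) (F : E3 → ℝ) :
    ∫ x in torus L, F x = ∫ q in D ×ˢ Ioo (-π) π, (L + q.1.1) * F (Psi L q) :=
  setIntegral_Psi hL D measurableSet_D Subset.rfl F

end Pool.Agent.CT
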