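import Pool.Agent.CT.Stmts

/-!
# Averaging over the random seed

`S_DET`, `S_G0`, `S_G1` imply `S_RAND`: the inequality of `S_DET` holds for every value of the
seed; integrate it and use that the error on every graph is at most `11/30`.
-/

namespace Pool.Agent.CT

open Finset Matrix MeasureTheory

/-- Averages of events of small measure. -/
lemma rand_avg {Ω C : Type} [MeasurableSpace Ω] (μ : Measure Ω) [IsProbabilityMeasure μ]
    [Fintype C] (Q : Ω → C → Prop) {a : ℝ} (ha : 0 ≤ a)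
    (hm : ∀ c, MeasurableSet {ω | Q ω c}) (hq : ∀ c, μ.real {ω | Q ω c} ≤ a) :
    Integrable (fun ω => pr (Q ω)) μ ∧ ∫ ω, pr (Q ω) ∂μ ≤ a := by
  classical
  have e : (fun ω => pr (Q ω)) =
      fun ω => (∑ c, ({ω | Q ω c} : Set Ω).indicator (fun _ => (1 : ℝ)) ω) / Fintype.card C := by
    funext ω
    have e1 : ∀ c, (if Q ω c then (1 : ℝ) else 0) =
        ({ω | Q ω c} : Set Ω).indicator (fun _ => (1 : ℝ)) ω := by
      intro c
      by_cases h : Q ω c
      · rw [if_pos h, Set.indicator_of_mem (s := {ω | Q ω c}) h]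
      · rw [if_neg h, Set.indicator_of_notMem (s := {ω | Q ω c}) h]
    rw [pr_eq_sum, Finset.sum_congr rfl fun c _ => e1 c]
  have hi : ∀ c ∈ (Finset.univ : Finset C),
      Integrable (({ω | Q ω c} : Set Ω).indicator (fun _ => (1 : ℝ))) μ := fun c _ =>
    (integrable_const (1 : ℝ)).indicator (hm c)
  rw [e]
  refine ⟨(integrable_finsetSum _ hi).div_const _, ?_⟩
  rw [integral_div, integral_finsetSum _ hi]
  have h1 : ∀ c ∈ (Finset.univ : Finset C),
      ∫ ω, ({ω | Q ω c} : Set Ω).indicator (fun _ => (1 : ℝ)) ω ∂μ ≤ a := by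
    intro c _
    rw [integral_indicator_const _ (hm c)]
    simpa using hq c
  have h2 := Finset.sum_le_sum h1
  rw [Finset.sum_const, nsmul_eq_mul, Finset.card_univ] at h2
  rcases Nat.eq_zero_or_pos (Fintype.card C) with h | h
  · rw [h, Nat.cast_zero, div_zero]
    exact ha
  · have h' : (0 : ℝ) < Fintype.card C := by exact_mod_cast h
    rw [div_le_iff₀ h', mul_comm a]
    exact h2

/-- From measures to real measures. -/
lemma rand_real {Ω : Type} [MeasurableSpace Ω] (μ : Measure Ω) [IsProbabilityMeasure μ]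
    {s : Set Ω} (h : μ s ≤ 11 / 30) : μ.real s ≤ 11 / 30 := by
  have h3 : ((11 : ENNReal) / 30).toReal = 11 / 30 := by
    rw [ENNReal.toReal_div]
    norm_num
  rw [← h3]
  refine ENNReal.toReal_mono ?_ h
  exact (ENNReal.div_lt_top (by norm_num) (by norm_num)).ne

/-- The lower bound for randomised algorithms. -/
theorem rand (h1 : S_DET) (h2 : S_G0) (h3 : S_G1) (h4 : S_EDGE0) (h5 : S_EDGE1) :
    S_RAND := by
  classical
  intro n B t k Ω _ μ _ P hD hn hK
  by_contra hc
  have hc' : 100 * (113 * (k + 3 : ℝ) ^ (t + 2)) ^ 2 ≤ n := not_lt.mp hc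
  -- the graphs
  have e0 : ∀ c : Fin 111 → Hang (Fin n) k t (k + 2), ∃ G : SimpleGraph (Fin n),
      (G.CliqueFree 3 ∧ G.edgeSet.ncard ≤ n) ∧
      (Function.Injective (lab0 c) → (∀ m, RealT G (c m)) ∧
        ∀ v, (∀ x, lab0 c x ≠ v) → ∀ w, ¬ G.Adj v w) := by
    intro c
    by_cases h : Function.Injective (lab0 c)
    · obtain ⟨G, hG, hG'⟩ := h2 n k t 111 c h
      exact ⟨G, ⟨hG, h4 n k t 111 c G h hG'.1 hG'.2⟩, fun _ => hG'⟩
    · refine ⟨⊥, ⟨?_, ?_⟩, fun h' => absurd h' h⟩
      · exact SimpleGraph.cliqueFree_bot (by norm_num)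
      · simp
  have e1 : ∀ c : (Fin 110 → Hang (Fin n) k t (k + 2)) × (Fin 3 → Hang (Fin n) k t k),
      ∃ G : SimpleGraph (Fin n), G.edgeSet.ncard ≤ n ∧
        (Function.Injective (lab1 c.1 c.2) → ¬ G.CliqueFree 3 ∧
        (∀ m, RealT G (c.1 m)) ∧
        (∀ i, RealY G (c.2 i) (c.2 (i + 1)).1 (c.2 (i + 2)).1) ∧
        ∀ v, (∀ y, lab1 c.1 c.2 y ≠ v) → ∀ w, ¬ G.Adj v w) := by
    intro c
    by_cases h : Function.Injective (lab1 c.1 c.2)
    · obtain ⟨G, hG⟩ := h3 n k t 110 c.1 c.2 h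
      exact ⟨G, h5 n k t 110 c.1 c.2 G h hG.2.1 hG.2.2.1 hG.2.2.2, fun _ => hG⟩
    · exact ⟨⊥, by simp, fun h' => absurd h' h⟩
  choose g0 hg0 using e0
  choose g1 hg1 using e1
  -- the inequality for every seed
  have key : ∀ ω, 3 / 4 ≤ pr (fun c => Function.Injective (lab0 c) ∧ Rejects (P ω) t (g0 c)) +
      pr (fun c => Function.Injective (lab1 c.1 c.2) ∧ ¬ Rejects (P ω) t (g1 c)) := fun ω =>
    h1 n B t k (P ω) hn hK hc' g0 g1 (fun c h => (hg0 c).2 h) (fun c h => ((hg1 c).2 h).2)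
  have a0 := rand_avg μ (fun ω c => Function.Injective (lab0 c) ∧ Rejects (P ω) t (g0 c))
    (a := 11 / 30) (by norm_num)
    (by
      intro c
      by_cases h : Function.Injective (lab0 c)
      · have e : {ω | Function.Injective (lab0 c) ∧ Rejects (P ω) t (g0 c)} =
            {ω | Rejects (P ω) t (g0 c)} := by
          ext ω
          exact ⟨fun hx => hx.2, fun hx => ⟨h, hx⟩⟩
        rw [e]
        exact (hD (g0 c) (hg0 c).1.2).1
      · have e : {ω | Function.Injective (lab0 c) ∧ Rejects (P ω) t (g0 c)} = ∅ := by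
          ext ω
          exact ⟨fun hx => absurd hx.1 h, fun hx => absurd hx (Set.notMem_empty ω)⟩
        rw [e]
        exact MeasurableSet.empty)
    (by
      intro c
      refine (measureReal_mono (s₂ := {ω | Rejects (P ω) t (g0 c)}) (fun ω hω => hω.2)).trans ?_
      exact rand_real μ ((hD (g0 c) (hg0 c).1.2).2.2 (hg0 c).1.1))
  have a1 := rand_avg μ
    (fun ω c => Function.Injective (lab1 c.1 c.2) ∧ ¬ Rejects (P ω) t (g1 c))
    (a := 11 / 30) (by norm_num)
    (by
      intro c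
      by_cases h : Function.Injective (lab1 c.1 c.2)
      · have e : {ω | Function.Injective (lab1 c.1 c.2) ∧ ¬ Rejects (P ω) t (g1 c)} =
            {ω | Rejects (P ω) t (g1 c)}ᶜ := by
          ext ω
          exact ⟨fun hx => hx.2, fun hx => ⟨h, hx⟩⟩
        rw [e]
        exact (hD (g1 c) (hg1 c).1).1.compl
      · have e : {ω | Function.Injective (lab1 c.1 c.2) ∧ ¬ Rejects (P ω) t (g1 c)} = ∅ := by
          ext ω
          exact ⟨fun hx => absurd hx.1 h, fun hx => absurd hx (Set.notMem_empty ω)⟩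
        rw [e]
        exact MeasurableSet.empty)
    (by
      intro c
      by_cases h : Function.Injective (lab1 c.1 c.2)
      · refine (measureReal_mono (s₂ := {ω | ¬ Rejects (P ω) t (g1 c)})
          (fun ω hω => hω.2)).trans ?_
        exact rand_real μ ((hD (g1 c) (hg1 c).1).2.1 ((hg1 c).2 h).1)
      · have e : {ω | Function.Injective (lab1 c.1 c.2) ∧ ¬ Rejects (P ω) t (g1 c)} = ∅ := by
          ext ω
          exact ⟨fun hx => absurd hx.1 h, fun hx => absurd hx (Set.notMem_empty ω)⟩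
        rw [e, measureReal_empty]
        norm_num)
  have hi := integral_mono (μ := μ) (integrable_const (3 / 4 : ℝ)) (a0.1.add a1.1) key
  have hs : ∫ ω, ((fun ω => pr (fun c => Function.Injective (lab0 c) ∧
        Rejects (P ω) t (g0 c))) + fun ω => pr (fun c => Function.Injective (lab1 c.1 c.2) ∧
        ¬ Rejects (P ω) t (g1 c))) ω ∂μ = _ := integral_add' a0.1 a1.1
  have hi2 : (3 / 4 : ℝ) ≤ 11 / 30 + 11 / 30 := by
    have h4 : ∫ _ω, (3 / 4 : ℝ) ∂μ = 3 / 4 := by simp
    rw [h4] at hi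
    refine hi.trans ?_
    refine (le_of_eq hs).trans ?_
    exact add_le_add a0.2 a1.2
  norm_num at hi2

end Pool.Agent.CT
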