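import Mathlib

/-!
# One-dimensional integrals
-/

namespace Pool.Agent.CT

open MeasureTheory Set Filter Topology Real

/-- normalised moments of the cosine -/
noncomputable def mc : ℕ → ℝ
  | 0 => 1
  | 1 => 0
  | (n + 2) => (n + 1) / (n + 2) * mc n

lemma integral_cos_pow_pi : ∀ n : ℕ, ∫ t in (-π)..π, cos t ^ n = 2 * π * mc n
  | 0 => by simp [mc]; ring
  | 1 => by simp [mc]
  | (n + 2) => by
      rw [integral_cos_pow, integral_cos_pow_pi n]
      simp [mc]
      ring

/-- the trigonometric polynomial of the test function, as a polynomial in the cosine -/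
def Pc (c : ℝ) : ℝ := 14 + 8 * c + 3 * c ^ 2 + 2 * c ^ 3 + c ^ 4

/-- derivative of `Pc` -/
def Pd (c : ℝ) : ℝ := 8 + 6 * c + 6 * c ^ 2 + 4 * c ^ 3

/-- coefficients of `Pc ^ 2` -/
def q2 : List ℝ := [196, 224, 148, 104, 69, 28, 10, 4, 1]

/-- coefficients of `Pd ^ 2 * (1 - c ^ 2)` -/
def q1 : List ℝ := [64, 96, 68, 40, -48, -88, -68, -48, -16]

/-- coefficients of `Pc ^ 6` -/
def q6 : List ℝ := [7529536, 25815552, 46560192, 62211968, 70505904, 69878592, 61212544, 48449664,
  35189196, 23496128, 14472012, 8284344, 4413189, 2181396, 1002198, 428428, 169251, 61416, 20464,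
  6192, 1659, 388, 78, 12, 1]

/-- evaluation of a coefficient list -/
noncomputable def ev (l : List ℝ) (c : ℝ) : ℝ := l.foldr (fun a r => a + c * r) 0

/-- integral of a coefficient list, shifted by `k` -/
noncomputable def iv : List ℝ → ℕ → ℝ
  | [], _ => 0
  | (a :: l), k => a * mc k + iv l (k + 1)

lemma integral_ev_aux (l : List ℝ) : ∀ k : ℕ,
    ∫ t in (-π)..π, cos t ^ k * ev l (cos t) = 2 * π * iv l k := by
  induction l with
  | nil => intro k; simp [ev, iv]
  | cons a l ih =>
    intro k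
    have h1 : (fun t : ℝ => cos t ^ k * ev (a :: l) (cos t)) =
        fun t => a * cos t ^ k + cos t ^ (k + 1) * ev l (cos t) := by
      ext t; simp only [ev, List.foldr_cons]; ring
    have hc : ∀ l : List ℝ, Continuous fun t : ℝ => ev l (cos t) := by
      intro l
      induction l with
      | nil => simpa [ev] using continuous_const
      | cons b l ih =>
        simp only [ev, List.foldr_cons] at ih ⊢
        exact continuous_const.add (continuous_cos.mul ih)
    rw [h1, intervalIntegral.integral_add, ih (k + 1), intervalIntegral.integral_const_mul,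
      integral_cos_pow_pi, iv]
    · ring
    · exact (Continuous.intervalIntegrable (by fun_prop) _ _)
    · exact ((continuous_cos.pow _).mul (hc l)).intervalIntegrable _ _

lemma integral_ev (l : List ℝ) : ∫ t in (-π)..π, ev l (cos t) = 2 * π * iv l 0 := by
  have := integral_ev_aux l 0
  simpa using this

lemma int_P2 : ∫ t in (-π)..π, Pc (cos t) ^ 2 = 2 * π * (38307 / 128) := by
  have h : ∀ c : ℝ, Pc c ^ 2 = ev q2 c := by
    intro c; simp only [Pc, ev, q2, List.foldr_cons, List.foldr_nil]; ring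
  simp only [h]
  rw [integral_ev]
  congr 1
  simp only [iv, q2, mc]
  norm_num

lemma int_P1 : ∫ t in (-π)..π, (Pd (cos t) * sin t) ^ 2 = 2 * π * (435 / 8) := by
  have h : ∀ t : ℝ, (Pd (cos t) * sin t) ^ 2 = ev q1 (cos t) := by
    intro t
    rw [mul_pow, sin_sq]
    simp only [Pd, ev, q1, List.foldr_cons, List.foldr_nil]; ring
  simp only [h]
  rw [integral_ev]
  congr 1
  simp only [iv, q1, mc]
  norm_num

lemma int_P6 : ∫ t in (-π)..π, Pc (cos t) ^ 6 = 2 * π * (380862133135239 / 4194304) := by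
  have h : ∀ c : ℝ, Pc c ^ 6 = ev q6 c := by
    intro c; simp only [Pc, ev, q6, List.foldr_cons, List.foldr_nil]; ring
  simp only [h]
  rw [integral_ev]
  congr 1
  simp only [iv, q6, mc]
  norm_num

lemma Pc_pos {c : ℝ} (h1 : -1 ≤ c) (h2 : c ≤ 1) : 0 < Pc c := by
  unfold Pc
  nlinarith [sq_nonneg c, sq_nonneg (c + 1), sq_nonneg (c * (c + 1)), sq_nonneg (c ^ 2)]

/-- the Poisson-type integral -/
lemma int_J0 : ∫ θ in (-π)..π, 1 / (√2 + cos θ) = 2 * π := by
  set k : ℝ := √2 - 1 with hk
  have h2 : √2 ^ 2 = 2 := Real.sq_sqrt (by norm_num)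
  have h2' : √2 * √2 = 2 := Real.mul_self_sqrt (by norm_num)
  have h1 : 1 < √2 := by nlinarith [Real.sqrt_nonneg 2]
  have h3 : √2 < 2 := by nlinarith [Real.sqrt_nonneg 2]
  have hpos : ∀ θ : ℝ, 0 < 1 + k * cos θ := by
    intro θ; nlinarith [neg_one_le_cos θ, cos_le_one θ]
  have hpos2 : ∀ θ : ℝ, 0 < √2 + cos θ := by
    intro θ; nlinarith [neg_one_le_cos θ, cos_le_one θ]
  have hder : ∀ θ ∈ uIcc (-π) π, HasDerivAt
      (fun θ : ℝ => θ - 2 * arctan (k * sin θ / (1 + k * cos θ))) (1 / (√2 + cos θ)) θ := by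
    intro θ _
    have e1 : HasDerivAt (fun θ : ℝ => k * sin θ / (1 + k * cos θ))
        ((k * cos θ * (1 + k * cos θ) - k * sin θ * (k * -sin θ)) / (1 + k * cos θ) ^ 2) θ := by
      have ha := (hasDerivAt_sin θ).const_mul k
      have hb := ((hasDerivAt_cos θ).const_mul k).const_add 1
      exact ha.div hb (hpos θ).ne'
    have e2 := (hasDerivAt_id θ).sub ((e1.arctan).const_mul 2)
    refine e2.congr_deriv ?_
    have hp := hpos θ
    have hp2 := hpos2 θ
    have hs : sin θ ^ 2 = 1 - cos θ ^ 2 := by rw [sin_sq]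
    have e3 : (1 + k * cos θ) ^ 2 + (k * sin θ) ^ 2 = 2 * k * (√2 + cos θ) := by
      rw [mul_pow, hs, hk]; ring_nf
      rw [h2]; ring
    have e4 : 0 < 2 * k * (√2 + cos θ) := by
      have : 0 < k := by rw [hk]; linarith
      positivity
    have e5 : 1 + (k * sin θ / (1 + k * cos θ)) ^ 2 =
        2 * k * (√2 + cos θ) / (1 + k * cos θ) ^ 2 := by
      rw [← e3]; field_simp
    rw [e5]
    have hk0 : 0 < k := by rw [hk]; linarith
    field_simp
    have e6 : k * cos θ * (1 + k * cos θ) - k * sin θ * (k * -sin θ) = k * cos θ + k ^ 2 := by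
      have : k * sin θ * (k * -sin θ) = - (k ^ 2 * sin θ ^ 2) := by ring
      rw [this, hs]; ring
    have e7 : k ^ 2 = 1 - 2 * k := by rw [hk]; ring_nf; rw [h2]; ring
    nlinarith [e6, e7, hs]
  rw [intervalIntegral.integral_eq_sub_of_hasDerivAt hder]
  · simp; ring
  · refine Continuous.intervalIntegrable ?_ _ _
    exact continuous_const.div (by fun_prop) fun θ => (hpos2 θ).ne'

end Pool.Agent.CT
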