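import Pool.Agent.CT.Disc
import Pool.Agent.CT.Trig

/-!
# The three integrals over the cross-section of the Clifford region
-/

namespace Pool.Agent.CT

open MeasureTheory Metric Set Filter Topology Real
open scoped ContDiff

/-- half plane -/
def Oc : Set (ℝ × ℝ) := {x | 0 < √2 + x.1}

lemma one_lt_sqrt2 : 1 < √2 := by
  have h2 : √2 ^ 2 = 2 := Real.sq_sqrt (by norm_num)
  nlinarith [Real.sqrt_nonneg 2]

lemma isOpen_Oc : IsOpen Oc := isOpen_lt continuous_const (by fun_prop)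

lemma Dc_sub_Oc : Dc ⊆ Oc := by
  intro x hx
  have := (D_bound hx).1
  simp only [Oc, mem_ofPred_eq]
  linarith [one_lt_sqrt2]

/-- the function `1 + |x|²` in coordinates -/
noncomputable def nn (x : ℝ × ℝ) : ℝ := 1 + (√2 + x.1) ^ 2 + x.2 ^ 2

lemma nn_pos (x : ℝ × ℝ) : 0 < nn x := by unfold nn; positivity

lemma fderiv_one {Y : ℝ × ℝ → ℝ} {x : ℝ × ℝ} {c : ℝ} (hd : DifferentiableAt ℝ Y x)
    (h : HasDerivAt (fun t => Y (t, x.2)) c x.1) : fderiv ℝ Y x (1, 0) = c := by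
  have h1 : HasDerivAt (fun t : ℝ => (t, x.2)) ((1, 0) : ℝ × ℝ) x.1 :=
    (hasDerivAt_id x.1).prodMk (hasDerivAt_const x.1 x.2)
  have h2 : HasFDerivAt Y (fderiv ℝ Y x) (x.1, x.2) := hd.hasFDerivAt
  exact (h2.comp_hasDerivAt x.1 h1).unique h

lemma fderiv_two {Y : ℝ × ℝ → ℝ} {x : ℝ × ℝ} {c : ℝ} (hd : DifferentiableAt ℝ Y x)
    (h : HasDerivAt (fun t => Y (x.1, t)) c x.2) : fderiv ℝ Y x (0, 1) = c := by
  have h1 : HasDerivAt (fun t : ℝ => (x.1, t)) ((0, 1) : ℝ × ℝ) x.2 :=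
    (hasDerivAt_const x.2 x.1).prodMk (hasDerivAt_id x.2)
  have h2 : HasFDerivAt Y (fderiv ℝ Y x) (x.1, x.2) := hd.hasFDerivAt
  exact (h2.comp_hasDerivAt x.2 h1).unique h

lemma hs1 (x : ℝ × ℝ) : HasDerivAt (fun t : ℝ => √2 + t) 1 x.1 := by
  simpa using (hasDerivAt_id x.1).const_add (√2)

lemma hn1 (x : ℝ × ℝ) : HasDerivAt (fun t : ℝ => nn (t, x.2)) (2 * (√2 + x.1)) x.1 := by
  have h := ((((hs1 x).pow 2).const_add 1).add_const (x.2 ^ 2))
  refine h.congr_deriv ?_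
  simp

lemma hn2 (x : ℝ × ℝ) : HasDerivAt (fun t : ℝ => nn (x.1, t)) (2 * x.2) x.2 := by
  have h := ((hasDerivAt_id x.2).pow 2).const_add (1 + (√2 + x.1) ^ 2)
  refine h.congr_deriv ?_
  simp

lemma contDiff_nn : ContDiff ℝ ∞ nn := by unfold nn; fun_prop

lemma bdry_nn (θ : ℝ) : nn (cos θ, sin θ) = 2 * √2 * (√2 + cos θ) := by
  have h2 : √2 ^ 2 = 2 := Real.sq_sqrt (by norm_num)
  have := sin_sq_add_cos_sq θ
  simp only [nn]
  nlinarith

lemma hposθ (θ : ℝ) : 0 < √2 + cos θ := by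
  nlinarith [neg_one_le_cos θ, cos_le_one θ, one_lt_sqrt2]

/-- integral (iii) -/
lemma int_I3 : ∫ x in D, 8 * (√2 + x.1) / nn x ^ 3 = π / 2 := by
  have hc1 : ContDiff ℝ 1 fun x : ℝ × ℝ => (2 * (√2 + x.1) ^ 2 - nn x) / nn x ^ 2 := by
    have := contDiff_nn.of_le (m := 1) (by exact_mod_cast le_top)
    exact ContDiff.div (by fun_prop) (by fun_prop) fun x => (pow_pos (nn_pos x) 2).ne'
  have hc2 : ContDiff ℝ 1 fun x : ℝ × ℝ => (2 * (√2 + x.1) * x.2) / nn x ^ 2 := by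
    have := contDiff_nn.of_le (m := 1) (by exact_mod_cast le_top)
    exact ContDiff.div (by fun_prop) (by fun_prop) fun x => (pow_pos (nn_pos x) 2).ne'
  have h := disc_div (Y1 := fun x : ℝ × ℝ => (2 * (√2 + x.1) ^ 2 - nn x) / nn x ^ 2)
    (Y2 := fun x : ℝ × ℝ => (2 * (√2 + x.1) * x.2) / nn x ^ 2)
    (Z := fun x => 8 * (√2 + x.1) / nn x ^ 3) isOpen_Oc Dc_sub_Oc hc1.contDiffOn hc2.contDiffOn ?_
  · rw [h]
    have : ∀ θ : ℝ, cos θ * ((2 * (√2 + cos θ) ^ 2 - nn (cos θ, sin θ)) / nn (cos θ, sin θ) ^ 2) +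
        sin θ * ((2 * (√2 + cos θ) * sin θ) / nn (cos θ, sin θ) ^ 2) =
        (1 / 4) * (1 / (√2 + cos θ)) := by
      intro θ
      rw [bdry_nn]
      have hp := hposθ θ
      have h2 : √2 ^ 2 = 2 := Real.sq_sqrt (by norm_num)
      have hs := sin_sq_add_cos_sq θ
      have e1 : (2 * √2 * (√2 + cos θ)) ^ 2 = 8 * (√2 + cos θ) ^ 2 := by
        rw [mul_pow, mul_pow, h2]; ring
      rw [e1]
      field_simp
      have e2 : sin θ ^ 2 = 1 - cos θ ^ 2 := by linarith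
      rw [e2]
      ring_nf
      try rw [h2]
      try ring
    simp only [this]
    rw [intervalIntegral.integral_const_mul, int_J0]
    ring
  · intro x _
    have hn := nn_pos x
    have hn' : nn (x.1, x.2) ≠ 0 := hn.ne'
    rw [fderiv_one (hc1.differentiable (by norm_num)).differentiableAt
      (((((hs1 x).pow 2).const_mul 2).sub (hn1 x)).div ((hn1 x).pow 2) (pow_ne_zero 2 hn')),
      fderiv_two (hc2.differentiable (by norm_num)).differentiableAt
      (((hasDerivAt_id x.2).const_mul (2 * (√2 + x.1))).div ((hn2 x).pow 2) (pow_ne_zero 2 hn'))]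
    simp
    have e : nn x = 1 + (√2 + x.1) ^ 2 + x.2 ^ 2 := rfl
    field_simp
    rw [e]
    ring

/-- integral (i) -/
lemma int_I1 : ∫ x in D, (16 * (√2 + x.1) * nn x - 64 * (√2 + x.1)) / nn x ^ 3 =
    ∫ θ in (-π)..π, -(2 * (√2 + 2 * cos θ) * (2 / nn (cos θ, sin θ))) := by
  have hc1 : ContDiff ℝ 1 fun x : ℝ × ℝ => (-16 * (√2 + x.1) ^ 2) / nn x ^ 2 := by
    have := contDiff_nn.of_le (m := 1) (by exact_mod_cast le_top)
    exact ContDiff.div (by fun_prop) (by fun_prop) fun x => (pow_pos (nn_pos x) 2).ne'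
  have hc2 : ContDiff ℝ 1 fun x : ℝ × ℝ => (-16 * (√2 + x.1) * x.2) / nn x ^ 2 := by
    have := contDiff_nn.of_le (m := 1) (by exact_mod_cast le_top)
    exact ContDiff.div (by fun_prop) (by fun_prop) fun x => (pow_pos (nn_pos x) 2).ne'
  have h := disc_div (Y1 := fun x : ℝ × ℝ => (-16 * (√2 + x.1) ^ 2) / nn x ^ 2)
    (Y2 := fun x : ℝ × ℝ => (-16 * (√2 + x.1) * x.2) / nn x ^ 2)
    (Z := fun x => (16 * (√2 + x.1) * nn x - 64 * (√2 + x.1)) / nn x ^ 3)
    isOpen_Oc Dc_sub_Oc hc1.contDiffOn hc2.contDiffOn ?_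
  · rw [h]
    refine intervalIntegral.integral_congr fun θ _ => ?_
    simp only
    rw [bdry_nn]
    have hp := hposθ θ
    have h2 : √2 ^ 2 = 2 := Real.sq_sqrt (by norm_num)
    have hs := sin_sq_add_cos_sq θ
    have e1 : (2 * √2 * (√2 + cos θ)) ^ 2 = 8 * (√2 + cos θ) ^ 2 := by
      rw [mul_pow, mul_pow, h2]; ring
    rw [e1]
    have e3 : 0 < √2 := by linarith [one_lt_sqrt2]
    field_simp
    have e2 : sin θ ^ 2 = 1 - cos θ ^ 2 := by linarith
    rw [e2]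
    ring_nf
    try rw [h2]
    try ring
  · intro x _
    have hn := nn_pos x
    have hn' : nn (x.1, x.2) ≠ 0 := hn.ne'
    rw [fderiv_one (hc1.differentiable (by norm_num)).differentiableAt
      (((((hs1 x).pow 2).const_mul (-16))).div ((hn1 x).pow 2) (pow_ne_zero 2 hn')),
      fderiv_two (hc2.differentiable (by norm_num)).differentiableAt
      (((hasDerivAt_id x.2).const_mul (-16 * (√2 + x.1))).div ((hn2 x).pow 2) (pow_ne_zero 2 hn'))]
    simp
    have e : nn x = 1 + (√2 + x.1) ^ 2 + x.2 ^ 2 := rfl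
    field_simp
    rw [e]
    ring

end Pool.Agent.CT
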