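import Pool.Agent.CT.Upper1

/-!
# The integral (ii)
-/

namespace Pool.Agent.CT

open MeasureTheory Metric Set Filter Topology Real
open scoped ContDiff

/-- comparison function -/
noncomputable def Zc (x : ℝ × ℝ) : ℝ :=
  (3269 / 5000 * (1 + 4 * (√2 + x.1) ^ 2 / nn x ^ 2) - 389 / 5000 * (nn x / (√2 + x.1)) -
    757 / 625 * ((√2 + x.1) ^ 3 / nn x ^ 3)) / (√2 + x.1) ^ 2

lemma poly_ineq {τ : ℝ} (h1 : 1 ≤ τ) (h2 : τ ≤ 1.4142136) :
    0 ≤ 3269 / 5000 * (τ ^ 3 + τ) - 2 * (389 / 5000) * τ ^ 4 - 2 * (757 / 10000) - τ ^ 2 := by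
  have h3 : 0 ≤ (1.4142136 - τ) := by linarith
  have h4 : 0 ≤ τ - 0.5676 := by linarith
  have h5 : 0 ≤ τ - 1 := by linarith
  nlinarith [mul_nonneg h3 (mul_nonneg (sq_nonneg (τ - 1.11)) h4), mul_nonneg h3 h5,
    mul_nonneg h3 (mul_nonneg h5 h5), mul_nonneg h3 (sq_nonneg (τ - 1.11))]

lemma integrand_le {x : ℝ × ℝ} (hx : x ∈ D) : 2 / (nn x * (√2 + x.1)) ≤ Zc x := by
  have hs : 0 < √2 + x.1 := Dc_sub_Oc (D_subset hx)
  have hn := nn_pos x
  have h2 : √2 ^ 2 = 2 := Real.sq_sqrt (by norm_num)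
  set s := √2 + x.1 with hsdef
  have hx1 : x.1 = s - √2 := by rw [hsdef]; ring
  have hD : x.1 ^ 2 + x.2 ^ 2 < 1 := hx
  have e : nn x = 1 + s ^ 2 + x.2 ^ 2 := rfl
  have hlow : 2 * s ≤ nn x := by rw [e]; nlinarith [sq_nonneg (s - 1), sq_nonneg x.2]
  have hup : nn x ≤ 2 * √2 * s := by
    rw [e]; rw [hx1] at hD; nlinarith
  have h14 : √2 ≤ 1.4142136 := by
    rw [Real.sqrt_le_left (by norm_num)]; norm_num
  set τ := nn x / (2 * s) with hτ
  have hn2 : nn x = 2 * s * τ := by rw [hτ]; field_simp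
  have t1 : 1 ≤ τ := by rw [hτ, le_div_iff₀ (by positivity)]; linarith
  have t2 : τ ≤ 1.4142136 := by
    rw [hτ, div_le_iff₀ (by positivity)]
    nlinarith
  have hτ0 : 0 < τ := by linarith
  have key := poly_ineq t1 t2
  unfold Zc
  rw [← hsdef, hn2]
  have e1 : (3269 / 5000 * (1 + 4 * s ^ 2 / (2 * s * τ) ^ 2) - 389 / 5000 * (2 * s * τ / s) -
    757 / 625 * (s ^ 3 / (2 * s * τ) ^ 3)) / s ^ 2 - 2 / (2 * s * τ * s) =
    (3269 / 5000 * (τ ^ 3 + τ) - 2 * (389 / 5000) * τ ^ 4 - 2 * (757 / 10000) - τ ^ 2) /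
      (s ^ 2 * τ ^ 3) := by
    field_simp
    ring
  have e2 : 0 ≤ (3269 / 5000 * (τ ^ 3 + τ) - 2 * (389 / 5000) * τ ^ 4 - 2 * (757 / 10000) - τ ^ 2) /
      (s ^ 2 * τ ^ 3) := by positivity
  linarith

/-- the constant -/
noncomputable def Vc : ℝ := 3269 / 5000 / √2 - 389 / 5000 - 757 / 20000

lemma contDiffOn_s : ContDiffOn ℝ 1 (fun x : ℝ × ℝ => (√2 + x.1)) Oc :=
  ContDiff.contDiffOn (by fun_prop)

lemma int_Zc : ∫ x in D, Zc x = 2 * π * Vc := by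
  have hnC : ContDiffOn ℝ 1 nn Oc :=
    (contDiff_nn.of_le (m := 1) (by exact_mod_cast le_top)).contDiffOn
  have hs0 : ∀ x ∈ Oc, (√2 + x.1) ≠ 0 := fun x hx => ne_of_gt hx
  have hF : ContDiffOn ℝ 1 (fun x : ℝ × ℝ => 3269 / 5000 * (2 * (√2 + x.1) / nn x) - 389 / 5000 -
      757 / 10000 * (4 * (√2 + x.1) ^ 2 / nn x ^ 2)) Oc := by
    refine ContDiffOn.sub (ContDiffOn.sub ?_ contDiffOn_const) ?_
    · exact contDiffOn_const.mul ((contDiffOn_const.mul contDiffOn_s).div hnC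
        fun x _ => (nn_pos x).ne')
    · exact contDiffOn_const.mul ((contDiffOn_const.mul (contDiffOn_s.pow 2)).div (hnC.pow 2)
        fun x _ => (pow_pos (nn_pos x) 2).ne')
  have hc1 : ContDiffOn ℝ 1 (fun x : ℝ × ℝ =>
      (3269 / 5000 * (2 * (√2 + x.1) / nn x) - 389 / 5000 -
      757 / 10000 * (4 * (√2 + x.1) ^ 2 / nn x ^ 2)) *
        ((2 * (√2 + x.1) ^ 2 - nn x) / (2 * (√2 + x.1) ^ 2))) Oc := by
    refine hF.mul (ContDiffOn.div ?_ ?_ ?_)
    · exact (contDiffOn_const.mul (contDiffOn_s.pow 2)).sub hnC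
    · exact contDiffOn_const.mul (contDiffOn_s.pow 2)
    · intro x hx; have := hs0 x hx; positivity
  have hc2 : ContDiffOn ℝ 1 (fun x : ℝ × ℝ =>
      (3269 / 5000 * (2 * (√2 + x.1) / nn x) - 389 / 5000 -
      757 / 10000 * (4 * (√2 + x.1) ^ 2 / nn x ^ 2)) * (x.2 / (√2 + x.1))) Oc := by
    refine hF.mul (ContDiffOn.div (ContDiff.contDiffOn (by fun_prop)) contDiffOn_s hs0)
  have h := disc_div (Z := Zc) isOpen_Oc Dc_sub_Oc hc1 hc2 ?_
  · rw [h]
    have : ∀ θ : ℝ, cos θ * ((3269 / 5000 * (2 * (√2 + cos θ) / nn (cos θ, sin θ)) - 389 / 5000 -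
      757 / 10000 * (4 * (√2 + cos θ) ^ 2 / nn (cos θ, sin θ) ^ 2)) *
        ((2 * (√2 + cos θ) ^ 2 - nn (cos θ, sin θ)) / (2 * (√2 + cos θ) ^ 2))) +
        sin θ * ((3269 / 5000 * (2 * (√2 + cos θ) / nn (cos θ, sin θ)) - 389 / 5000 -
      757 / 10000 * (4 * (√2 + cos θ) ^ 2 / nn (cos θ, sin θ) ^ 2)) * (sin θ / (√2 + cos θ))) =
        Vc * (1 / (√2 + cos θ)) := by
      intro θ
      rw [bdry_nn]
      have hp := hposθ θ
      have h2 : √2 ^ 2 = 2 := Real.sq_sqrt (by norm_num)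
      have hs := sin_sq_add_cos_sq θ
      have e3 : 0 < √2 := by linarith [one_lt_sqrt2]
      have e1 : (2 * √2 * (√2 + cos θ)) ^ 2 = 8 * (√2 + cos θ) ^ 2 := by
        rw [mul_pow, mul_pow, h2]; ring
      have e4 : 3269 / 5000 * (2 * (√2 + cos θ) / (2 * √2 * (√2 + cos θ))) - 389 / 5000 -
          757 / 10000 * (4 * (√2 + cos θ) ^ 2 / (2 * √2 * (√2 + cos θ)) ^ 2) = Vc := by
        rw [e1, Vc]; field_simp; ring
      rw [e4]
      have e5 : cos θ * (Vc * ((2 * (√2 + cos θ) ^ 2 - 2 * √2 * (√2 + cos θ)) /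
          (2 * (√2 + cos θ) ^ 2))) + sin θ * (Vc * (sin θ / (√2 + cos θ))) =
          Vc * ((sin θ ^ 2 + cos θ ^ 2) / (√2 + cos θ)) := by
        field_simp
        ring
      rw [e5, hs]
    simp only [this]
    rw [intervalIntegral.integral_const_mul, int_J0]
    ring
  · intro x hx
    have hn := nn_pos x
    have hn' : nn (x.1, x.2) ≠ 0 := hn.ne'
    have hs : 0 < √2 + x.1 := hx
    have dF1 := (((((hs1 x).const_mul 2).div (hn1 x) hn').const_mul (3269 / 5000)).sub_const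
      (389 / 5000)).sub (((((hs1 x).pow 2).const_mul 4).div ((hn1 x).pow 2)
        (pow_ne_zero 2 hn')).const_mul (757 / 10000))
    have dY1 := dF1.mul (((((hs1 x).pow 2).const_mul 2).sub (hn1 x)).div
      (((hs1 x).pow 2).const_mul 2) (mul_ne_zero two_ne_zero (pow_ne_zero 2 hs.ne')))
    have dF2 := ((((hasDerivAt_const x.2 (2 * (√2 + x.1))).div (hn2 x) hn').const_mul
      (3269 / 5000)).sub_const (389 / 5000)).sub
      (((hasDerivAt_const x.2 (4 * (√2 + x.1) ^ 2)).div ((hn2 x).pow 2)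
        (pow_ne_zero 2 hn')).const_mul (757 / 10000))
    have dY2 := dF2.mul ((hasDerivAt_id x.2).div_const (√2 + x.1))
    rw [fderiv_one ((hc1.differentiableOn (by norm_num)).differentiableAt (isOpen_Oc.mem_nhds hx))
      dY1, fderiv_two ((hc2.differentiableOn (by norm_num)).differentiableAt
      (isOpen_Oc.mem_nhds hx)) dY2]
    have e : nn x = 1 + (√2 + x.1) ^ 2 + x.2 ^ 2 := rfl
    simp [Zc]
    field_simp
    rw [e]
    ring

end Pool.Agent.CT
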