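import Pool.Agent.CT.Upper2

/-!
# Upper bound for the Yamabe quotient of the Clifford region
-/

namespace Pool.Agent.CT

open MeasureTheory Metric Set Filter Topology Real
open scoped ContDiff

/-- conformal factor in coordinates -/
noncomputable def Wf (x : ℝ × ℝ) : ℝ := √(2 / nn x)

/-- the test function in coordinates -/
noncomputable def Uc (q : (ℝ × ℝ) × ℝ) : ℝ := Wf q.1 * Pc (cos q.2)

/-- the test function -/
noncomputable def uc (x : E3) : ℝ := √(2 / (1 + ‖x‖ ^ 2)) * Pc (x 0 / ax x)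

lemma Wf_sq (x : ℝ × ℝ) : Wf x ^ 2 = 2 / nn x := by
  have := nn_pos x
  exact Real.sq_sqrt (by positivity)

lemma Wf_pos (x : ℝ × ℝ) : 0 < Wf x := by
  have := nn_pos x
  exact Real.sqrt_pos.2 (by positivity)

lemma contDiff_Wf : ContDiff ℝ ∞ Wf := by
  rw [contDiff_iff_contDiffAt]
  intro x
  have h0 := nn_pos x
  refine ContDiffAt.sqrt ?_ (by positivity)
  exact ContDiffAt.div contDiffAt_const contDiff_nn.contDiffAt h0.ne'

lemma contDiff_Pc : ContDiff ℝ ∞ Pc := by unfold Pc; fun_prop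

lemma contDiff_Uc : ContDiff ℝ ∞ Uc := by
  unfold Uc
  have h1 : ContDiff ℝ ∞ fun q : (ℝ × ℝ) × ℝ => cos q.2 := contDiff_cos.comp contDiff_snd
  exact (contDiff_Wf.comp contDiff_fst).mul (contDiff_Pc.comp h1)

lemma Uc_eq (q : (ℝ × ℝ) × ℝ) (hq : q.1 ∈ D) : Uc q = uc (Psi (√2) q) := by
  have hpos := Psi_pos one_lt_sqrt2 (D_subset hq)
  have hax : ax (Psi (√2) q) = √2 + q.1.1 := Psi_s q hpos.le
  have hn : 1 + ‖Psi (√2) q‖ ^ 2 = nn q.1 := by
    rw [norm_sq_E3, Psi_zero, Psi_one, Psi_two, nn]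
    have := sin_sq_add_cos_sq q.2
    linear_combination (√2 + q.1.1) ^ 2 * this
  rw [uc, hax, hn, Psi_zero, Uc, Wf]
  congr 2
  field_simp

lemma contDiffOn_uc : ContDiffOn ℝ ∞ uc {x : E3 | 0 < ax x} := by
  intro x hx
  have hx' : 0 < ax x := hx
  refine ContDiffAt.contDiffWithinAt ?_
  unfold uc
  refine ContDiffAt.mul ?_ ?_
  · refine ContDiffAt.sqrt ?_ (by positivity)
    refine ContDiffAt.div contDiffAt_const ?_ (by positivity)
    exact contDiffAt_const.add (contDiff_norm_sq ℝ).contDiffAt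
  · refine contDiff_Pc.contDiffAt.comp x ?_
    exact ContDiffAt.div (ContDiff.contDiffAt (by fun_prop)) (contDiffAt_ax hx') hx'.ne'

lemma isOpen_ax : IsOpen {x : E3 | 0 < ax x} := isOpen_lt continuous_const continuous_ax

lemma torusC_sub_ax {L : ℝ} (hL : 1 < L) : torusC L ⊆ {x : E3 | 0 < ax x} := by
  intro x hx
  have : (ax x - L) ^ 2 + x 2 ^ 2 ≤ 1 := hx
  simp only [mem_ofPred_eq]
  nlinarith [sq_nonneg (x 2)]

lemma isTestFn_uc : IsTestFn (torus (√2)) uc := by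
  rw [IsTestFn, closure_torus one_lt_sqrt2]
  refine ⟨⟨_, isOpen_ax, torusC_sub_ax one_lt_sqrt2, contDiffOn_uc⟩, ?_⟩
  intro x hx
  have h0 : 0 < ax x := torusC_sub_ax one_lt_sqrt2 hx
  have hs2 : ax x ^ 2 = x 0 ^ 2 + x 1 ^ 2 := Real.sq_sqrt (by positivity)
  have h1 : |x 0 / ax x| ≤ 1 := by
    rw [abs_div, abs_of_pos h0, div_le_one h0]
    apply abs_le_of_sq_le_sq _ h0.le
    rw [hs2]; nlinarith [sq_nonneg (x 1)]
  unfold uc
  exact mul_pos (Real.sqrt_pos.2 (by positivity)) (Pc_pos (abs_le.1 h1).1 (abs_le.1 h1).2)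

lemma hW1 (x : ℝ × ℝ) : HasDerivAt (fun t : ℝ => Wf (t, x.2))
    (-((√2 + x.1) / nn x * Wf x)) x.1 := by
  have hn := nn_pos x
  have hn' : nn (x.1, x.2) ≠ 0 := hn.ne'
  have h0 : HasDerivAt (fun t : ℝ => 2 / nn (t, x.2)) (-(4 * (√2 + x.1)) / nn x ^ 2) x.1 := by
    refine ((hasDerivAt_const x.1 (2 : ℝ)).div (hn1 x) hn').congr_deriv ?_
    simp
    ring
  have hpos : (0 : ℝ) < 2 / nn (x.1, x.2) := by positivity
  refine (h0.sqrt hpos.ne').congr_deriv ?_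
  have hw := Wf_pos x
  have e : √(2 / nn (x.1, x.2)) = Wf x := rfl
  rw [e, div_eq_iff (by positivity)]
  have e2 : -((√2 + x.1) / nn x * Wf x) * (2 * Wf x) = -((√2 + x.1) / nn x * 2) * Wf x ^ 2 := by
    ring
  rw [e2, Wf_sq]
  field_simp
  ring

lemma hW2 (x : ℝ × ℝ) : HasDerivAt (fun t : ℝ => Wf (x.1, t))
    (-(x.2 / nn x * Wf x)) x.2 := by
  have hn := nn_pos x
  have hn' : nn (x.1, x.2) ≠ 0 := hn.ne'
  have h0 : HasDerivAt (fun t : ℝ => 2 / nn (x.1, t)) (-(4 * x.2) / nn x ^ 2) x.2 := by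
    refine ((hasDerivAt_const x.2 (2 : ℝ)).div (hn2 x) hn').congr_deriv ?_
    simp
    ring
  have hpos : (0 : ℝ) < 2 / nn (x.1, x.2) := by positivity
  refine (h0.sqrt hpos.ne').congr_deriv ?_
  have hw := Wf_pos x
  have e : √(2 / nn (x.1, x.2)) = Wf x := rfl
  rw [e, div_eq_iff (by positivity)]
  have e2 : -(x.2 / nn x * Wf x) * (2 * Wf x) = -(x.2 / nn x * 2) * Wf x ^ 2 := by
    ring
  rw [e2, Wf_sq]
  field_simp
  ring

lemma line_deriv {U : (ℝ × ℝ) × ℝ → ℝ} {q v : (ℝ × ℝ) × ℝ} {c : ℝ} (hd : DifferentiableAt ℝ U q)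
    {g : ℝ → ℝ} {t₀ : ℝ} (γ : ℝ → (ℝ × ℝ) × ℝ) (hγ : HasDerivAt γ v t₀) (hq : γ t₀ = q)
    (hg : ∀ t, U (γ t) = g t) (h : HasDerivAt g c t₀) : fderiv ℝ U q v = c := by
  have h2 : HasFDerivAt U (fderiv ℝ U q) (γ t₀) := by rw [hq]; exact hd.hasFDerivAt
  have h3 := h2.comp_hasDerivAt t₀ hγ
  have h4 : U ∘ γ = g := by ext t; exact hg t
  rw [h4] at h3
  exact h3.unique h

lemma diff_Uc (q : (ℝ × ℝ) × ℝ) : DifferentiableAt ℝ Uc q :=
  (contDiff_Uc.differentiable (by norm_num)).differentiableAt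

lemma dA_Uc (q : (ℝ × ℝ) × ℝ) : dA Uc q = -((√2 + q.1.1) / nn q.1 * Wf q.1) * Pc (cos q.2) := by
  refine line_deriv (diff_Uc q) (t₀ := q.1.1) (fun t => ((t, q.1.2), q.2)) ?_ rfl
    (fun t => rfl) ((hW1 q.1).mul_const (Pc (cos q.2)))
  exact ((hasDerivAt_id q.1.1).prodMk (hasDerivAt_const q.1.1 q.1.2)).prodMk
    (hasDerivAt_const q.1.1 q.2)

lemma dB_Uc (q : (ℝ × ℝ) × ℝ) : dB Uc q = -(q.1.2 / nn q.1 * Wf q.1) * Pc (cos q.2) := by
  refine line_deriv (diff_Uc q) (t₀ := q.1.2) (fun t => ((q.1.1, t), q.2)) ?_ rfl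
    (fun t => rfl) ((hW2 q.1).mul_const (Pc (cos q.2)))
  exact ((hasDerivAt_const q.1.2 q.1.1).prodMk (hasDerivAt_id q.1.2)).prodMk
    (hasDerivAt_const q.1.2 q.2)

lemma hasDerivAt_Pc (c : ℝ) : HasDerivAt Pc (Pd c) c := by
  have h := (((((hasDerivAt_id c).const_mul 8).const_add 14).add
    (((hasDerivAt_id c).pow 2).const_mul 3)).add (((hasDerivAt_id c).pow 3).const_mul 2)).add
    ((hasDerivAt_id c).pow 4)
  refine h.congr_deriv ?_
  simp [Pd]
  ring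

lemma dT_Uc (q : (ℝ × ℝ) × ℝ) : dT Uc q = Wf q.1 * (Pd (cos q.2) * -sin q.2) := by
  refine line_deriv (diff_Uc q) (t₀ := q.2) (fun t => (q.1, t)) ?_ rfl
    (fun t => rfl) (((hasDerivAt_Pc (cos q.2)).comp q.2 (hasDerivAt_cos q.2)).const_mul (Wf q.1))
  exact (hasDerivAt_const q.2 q.1).prodMk (hasDerivAt_id q.2)

lemma integrand_C {q : (ℝ × ℝ) × ℝ} (hq : q.1 ∈ D) :
    (√2 + q.1.1) * (dA Uc q ^ 2 + dB Uc q ^ 2 + dT Uc q ^ 2 / (√2 + q.1.1) ^ 2) =
      (2 * (√2 + q.1.1) * (nn q.1 - 1) / nn q.1 ^ 3) * Pc (cos q.2) ^ 2 +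
      (2 / (nn q.1 * (√2 + q.1.1))) * (Pd (cos q.2) * sin q.2) ^ 2 := by
  have hs : 0 < √2 + q.1.1 := Dc_sub_Oc (D_subset hq)
  have hn := nn_pos q.1
  rw [dA_Uc, dB_Uc, dT_Uc]
  have hw := Wf_sq q.1
  have e1 : (-((√2 + q.1.1) / nn q.1 * Wf q.1) * Pc (cos q.2)) ^ 2 =
      (√2 + q.1.1) ^ 2 / nn q.1 ^ 2 * (2 / nn q.1) * Pc (cos q.2) ^ 2 := by rw [← hw]; ring
  have e2 : (-(q.1.2 / nn q.1 * Wf q.1) * Pc (cos q.2)) ^ 2 =
      q.1.2 ^ 2 / nn q.1 ^ 2 * (2 / nn q.1) * Pc (cos q.2) ^ 2 := by rw [← hw]; ring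
  have e3 : (Wf q.1 * (Pd (cos q.2) * -sin q.2)) ^ 2 =
      (2 / nn q.1) * (Pd (cos q.2) * sin q.2) ^ 2 := by rw [← hw]; ring
  rw [e1, e2, e3]
  have e4 : nn q.1 - 1 = (√2 + q.1.1) ^ 2 + q.1.2 ^ 2 := by rw [nn]; ring
  rw [e4]
  field_simp

lemma isCompact_Dc : IsCompact Dc := by
  have h1 : IsClosed Dc := isClosed_le (by fun_prop) continuous_const
  have h2 : Dc ⊆ Icc (-1 : ℝ) 1 ×ˢ Icc (-1 : ℝ) 1 := fun x hx => by
    have := D_bound hx
    exact ⟨⟨this.1, this.2.1⟩, ⟨this.2.2.1, this.2.2.2⟩⟩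
  exact (isCompact_Icc.prod isCompact_Icc).of_isClosed_subset h1 h2

lemma prod_integral {g : ℝ × ℝ → ℝ} {h : ℝ → ℝ} :
    ∫ q in D ×ˢ Ioo (-π) π, g q.1 * h q.2 = (∫ x in D, g x) * ∫ t in (-π)..π, h t := by
  have hpi : -π ≤ π := by linarith [pi_pos]
  rw [intervalIntegral.integral_of_le hpi, integral_Ioc_eq_integral_Ioo]
  exact setIntegral_prod_mul g h D (Ioo (-π) π)

lemma prod_integrable {g : ℝ × ℝ → ℝ} {h : ℝ → ℝ} (hg : ContinuousOn g Dc) (hh : Continuous h) :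
    IntegrableOn (fun q : (ℝ × ℝ) × ℝ => g q.1 * h q.2) (D ×ˢ Ioo (-π) π) := by
  have h1 : ContinuousOn (fun q : (ℝ × ℝ) × ℝ => g q.1 * h q.2) (Dc ×ˢ Icc (-π) π) :=
    (hg.comp continuousOn_fst fun q hq => hq.1).mul (hh.comp continuous_snd).continuousOn
  exact (h1.integrableOn_compact (isCompact_Dc.prod isCompact_Icc)).mono_set
    (prod_mono D_subset Ioo_subset_Icc_self)

lemma continuous_nn : Continuous nn := contDiff_nn.continuous

theorem energy_C : energy (torus (√2)) uc ≤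
    2 * π ^ 2 * (3 * (38307 / 128) + 16 * Vc * (435 / 8)) := by
  rw [energy_torus one_lt_sqrt2 uc Uc contDiff_Uc.continuous Uc_eq]
  swap
  · intro x hx
    have : x ∈ {x : E3 | 0 < ax x} :=
      torusC_sub_ax one_lt_sqrt2 (le_of_lt (by simpa [torus] using hx))
    exact (contDiffOn_uc.differentiableOn (by norm_num)).differentiableAt (isOpen_ax.mem_nhds this)
  have hs0 : ContinuousOn (fun x : ℝ × ℝ => √2 + x.1) Dc := by fun_prop
  have hcnn := continuous_nn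
  have c1 : ContinuousOn (fun x : ℝ × ℝ => 2 * (√2 + x.1) * (nn x - 1) / nn x ^ 3) Dc :=
    ContinuousOn.div (by fun_prop) (by fun_prop) fun x _ => (pow_pos (nn_pos x) 3).ne'
  have c2 : ContinuousOn (fun x : ℝ × ℝ => 2 / (nn x * (√2 + x.1))) Dc :=
    ContinuousOn.div (by fun_prop) (by fun_prop) fun x hx =>
      (mul_pos (nn_pos x) (Dc_sub_Oc hx)).ne'
  have hPc : Continuous Pc := contDiff_Pc.continuous
  have hPd : Continuous Pd := by unfold Pd; fun_prop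
  have p1 : Continuous fun t => Pc (cos t) ^ 2 := by fun_prop
  have p2 : Continuous fun t => (Pd (cos t) * sin t) ^ 2 := by fun_prop
  have E1 : ∫ q in D ×ˢ Ioo (-π) π,
      (√2 + q.1.1) * (dA Uc q ^ 2 + dB Uc q ^ 2 + dT Uc q ^ 2 / (√2 + q.1.1) ^ 2) =
      (∫ x in D, 2 * (√2 + x.1) * (nn x - 1) / nn x ^ 3) * (2 * π * (38307 / 128)) +
      (∫ x in D, 2 / (nn x * (√2 + x.1))) * (2 * π * (435 / 8)) := by
    rw [← int_P2, ← int_P1, ← prod_integral, ← prod_integral, ← integral_add]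
    · exact setIntegral_congr_fun (measurableSet_D.prod measurableSet_Ioo) fun q hq =>
        integrand_C hq.1
    · exact prod_integrable c1 p1
    · exact prod_integrable c2 p2
  have E2 : ∫ t in (-π)..π, ∫ θ in (-π)..π, (√2 + 2 * cos θ) * Uc ((cos θ, sin θ), t) ^ 2 =
      (∫ θ in (-π)..π, (√2 + 2 * cos θ) * (2 / nn (cos θ, sin θ))) *
        (2 * π * (38307 / 128)) := by
    have e : ∀ t θ : ℝ, (√2 + 2 * cos θ) * Uc ((cos θ, sin θ), t) ^ 2 =
        ((√2 + 2 * cos θ) * (2 / nn (cos θ, sin θ))) * Pc (cos t) ^ 2 := by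
      intro t θ
      rw [Uc, mul_pow, Wf_sq]; ring
    simp only [e, intervalIntegral.integral_mul_const, intervalIntegral.integral_const_mul]
    rw [int_P2]
  rw [E1, E2]
  -- (i)
  have I1 : 8 * (∫ x in D, 2 * (√2 + x.1) * (nn x - 1) / nn x ^ 3) =
      (∫ x in D, (16 * (√2 + x.1) * nn x - 64 * (√2 + x.1)) / nn x ^ 3) + 3 * π := by
    have e : (3 : ℝ) * π = 6 * ∫ x in D, 8 * (√2 + x.1) / nn x ^ 3 := by rw [int_I3]; ring
    rw [e, ← integral_const_mul, ← integral_const_mul, ← integral_add]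
    · refine setIntegral_congr_fun measurableSet_D fun x _ => ?_
      have := nn_pos x
      field_simp
      ring
    · refine (ContinuousOn.integrableOn_compact isCompact_Dc ?_).mono_set D_subset
      exact ContinuousOn.div (by fun_prop) (by fun_prop) fun x _ => (pow_pos (nn_pos x) 3).ne'
    · refine (ContinuousOn.integrableOn_compact isCompact_Dc ?_).mono_set D_subset
      refine continuousOn_const.mul ?_
      exact ContinuousOn.div (by fun_prop) (by fun_prop) fun x _ => (pow_pos (nn_pos x) 3).ne'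
  have I2 : ∫ x in D, 2 / (nn x * (√2 + x.1)) ≤ 2 * π * Vc := by
    rw [← int_Zc]
    refine setIntegral_mono_on ?_ ?_ measurableSet_D fun x hx => integrand_le hx
    · exact (c2.integrableOn_compact isCompact_Dc).mono_set D_subset
    · refine (ContinuousOn.integrableOn_compact isCompact_Dc ?_).mono_set D_subset
      unfold Zc
      have h1 : ContinuousOn (fun x : ℝ × ℝ => nn x / (√2 + x.1)) Dc :=
        ContinuousOn.div (by fun_prop) (by fun_prop) fun x hx => (ne_of_gt (Dc_sub_Oc hx))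
      have h2 : ContinuousOn (fun x : ℝ × ℝ => 4 * (√2 + x.1) ^ 2 / nn x ^ 2) Dc :=
        ContinuousOn.div (by fun_prop) (by fun_prop) fun x _ => (pow_pos (nn_pos x) 2).ne'
      have h3 : ContinuousOn (fun x : ℝ × ℝ => (√2 + x.1) ^ 3 / nn x ^ 3) Dc :=
        ContinuousOn.div (by fun_prop) (by fun_prop) fun x _ => (pow_pos (nn_pos x) 3).ne'
      exact ContinuousOn.div (by fun_prop) (by fun_prop) fun x hx =>
        (pow_pos (Dc_sub_Oc hx) 2).ne'
  have I3 : (∫ x in D, (16 * (√2 + x.1) * nn x - 64 * (√2 + x.1)) / nn x ^ 3) =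
      -(2 * ∫ θ in (-π)..π, (√2 + 2 * cos θ) * (2 / nn (cos θ, sin θ))) := by
    rw [int_I1, ← intervalIntegral.integral_const_mul, ← intervalIntegral.integral_neg]
    refine intervalIntegral.integral_congr fun θ _ => ?_
    ring
  have hpi := pi_pos
  rw [I3] at I1
  nlinarith [mul_le_mul_of_nonneg_right I2 hpi.le]

theorem volume_C : ∫ x in torus (√2), uc x ^ 6 = π ^ 2 * (380862133135239 / 4194304) := by
  rw [volume_torus one_lt_sqrt2 uc Uc Uc_eq]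
  have e : ∀ q : (ℝ × ℝ) × ℝ, (√2 + q.1.1) * Uc q ^ 6 =
      (8 * (√2 + q.1.1) / nn q.1 ^ 3) * Pc (cos q.2) ^ 6 := by
    intro q
    have h1 : Uc q ^ 6 = (Wf q.1 ^ 2) ^ 3 * Pc (cos q.2) ^ 6 := by rw [Uc]; ring
    rw [h1, Wf_sq]
    have := nn_pos q.1
    field_simp
    ring
  simp only [e]
  rw [prod_integral (g := fun x => 8 * (√2 + x.1) / nn x ^ 3) (h := fun t => Pc (cos t) ^ 6),
    int_I3, int_P6]
  ring

theorem upper_C : yamabeQ cliffordRegion ≤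
    ((2 * π ^ 2 * (3 * (38307 / 128) + 16 * Vc * (435 / 8)) /
      (π ^ 2 * (380862133135239 / 4194304)) ^ (1 / 3 : ℝ) : ℝ) : EReal) := by
  rw [cliffordRegion_eq, yamabeQ]
  refine (iInf₂_le uc isTestFn_uc).trans ?_
  rw [EReal.coe_le_coe_iff, volume_C]
  exact div_le_div_of_nonneg_right energy_C (by positivity)

end Pool.Agent.CT
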