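import Pool.Agent.CT.Model
import Pool.Agent.CT.Stmts

/-!
# From algorithms with a fixed number of rounds to vertex-centric machines
-/

namespace Pool.Agent.CT

open MeasureTheory

/-- The expected number of passes on `G` is the sum over `r` of the probabilities that the machine
has not halted within `r` passes; it is at most `T` on every graph with at most `n` edges. -/
def ExpectedPassesLE {n B : ℕ} {Ω : Type*} [MeasurableSpace Ω] (μ : Measure Ω)
    (M : Ω → Machine n B) (T : ℝ) : Prop :=
  ∀ G : SimpleGraph (Fin n), G.edgeSet.ncard ≤ n →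
    ∀ m, ∑ r ∈ Finset.range m, (μ {ω | ¬ Halted (M ω) G r}).toReal ≤ T

/-- First form (from `S_RAND`). -/
def S_FIN1 : Prop :=
  ∃ c : ℝ, 0 < c ∧ ∀ (n B t : ℕ) (Ω : Type) [MeasurableSpace Ω] (μ : Measure Ω)
    [IsProbabilityMeasure μ] (P : Ω → Alg n B), ErrLE μ P t →
      c * Real.log n ≤ (t + 1) * Real.log (t + B + 2)

/-- Analytic lemma. -/
def S_FIN2 : Prop :=
  ∀ C c0 : ℝ, 0 < c0 → ∃ c1 : ℝ, 0 < c1 ∧ ∃ s0 : ℕ, ∀ n s B : ℕ, s0 ≤ s → n ≤ s → s ≤ 2 * n →
    (B : ℝ) ≤ (Real.log s) ^ C → ∀ T : ℝ, 0 ≤ T →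
      c0 * Real.log n ≤ (T + 1) * Real.log (T + B + 2) →
        c1 * s * Real.log s / Real.log (Real.log s) ≤ T * s

/-- The history restricted to the first `r` passes. -/
def trunc {n B : ℕ} (r : ℕ) (h : ℕ → Fin n → Msg B) : ℕ → Fin n → Msg B :=
  fun s w => if s < r then h s w else fun _ => false

/-- The decision within `r` passes as a function of the history. -/
def statusOf {n B : ℕ} (M : Machine n B) (u : Fin n) (N : Finset (Fin n))
    (h : ℕ → Fin n → Msg B) : ℕ → Option Bool
  | 0 => M.decide 0 u N (trunc 0 h)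
  | r + 1 => match statusOf M u N h r with
      | some b => some b
      | none => M.decide (r + 1) u N (trunc (r + 1) h)

/-- The algorithm that stops the machine after `t` passes; undecided vertices accept. -/
def toAlg {n B : ℕ} (t : ℕ) (M : Machine n B) : Alg n B where
  send := M.send
  rejects := fun u N h => decide (statusOf M u N h t = some true)

section
variable {n B : ℕ} (M : Machine n B) (G : SimpleGraph (Fin n)) (t : ℕ)

lemma tab_toAlg (r : ℕ) : tab (toAlg t M) G r = msgs M G r := by
  induction r with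
  | zero => rfl
  | succ r ih =>
      funext s u v
      unfold tab msgs
      rw [ih]
      rfl

lemma msgs_stable (r s : ℕ) (u v : Fin n) (h : s < r) : ∀ t, r ≤ t → msgs M G t s u v = msgs M G r s u v := by
  intro t ht
  induction t, ht using Nat.le_induction with
  | base => rfl
  | succ t ht ih =>
      rw [← ih]
      conv_lhs => unfold msgs
      have : s ≠ t := by omega
      simp [this]

lemma msgs_ge (r : ℕ) : ∀ s, r ≤ s → ∀ u v : Fin n, msgs M G r s u v = fun _ => false := by
  induction r with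
  | zero => intro s _ u v; rfl
  | succ r ih =>
      intro s hs u v
      unfold msgs
      have : s ≠ r := by omega
      simp only [this, if_false]
      exact ih s (by omega) u v

lemma trunc_msgs (r : ℕ) (hr : r ≤ t) (u : Fin n) :
    trunc r (fun s w => msgs M G t s w u) = fun s w => msgs M G r s w u := by
  funext s w
  unfold trunc
  split_ifs with h
  · exact msgs_stable M G r s w u h t hr
  · exact (msgs_ge M G r s (by omega) w u).symm

lemma statusOf_msgs (u : Fin n) : ∀ r, r ≤ t →
    statusOf M u (nbr G u) (fun s w => msgs M G t s w u) r = status M G r u := by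
  intro r
  induction r with
  | zero =>
      intro _
      unfold statusOf status
      rw [trunc_msgs M G t 0 (Nat.zero_le _) u]
  | succ r ih =>
      intro hr
      unfold statusOf status
      rw [ih (by omega), trunc_msgs M G t (r + 1) hr u]
      cases status M G r u <;> rfl

lemma rejectsAt_toAlg (u : Fin n) :
    rejectsAt (toAlg t M) G t u ↔ status M G t u = some true := by
  unfold rejectsAt
  rw [tab_toAlg M G t t]
  change decide (statusOf M u (nbr G u) (fun s w => msgs M G t s w u) t = some true) = true ↔ _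
  rw [statusOf_msgs M G t u t le_rfl, decide_eq_true_iff]

lemma rejects_toAlg : Rejects (toAlg t M) t G ↔ ∃ u, status M G t u = some true := by
  unfold Rejects
  exact exists_congr fun u => rejectsAt_toAlg M G t u

lemma status_succ {r : ℕ} {u : Fin n} {b : Bool} (h : status M G r u = some b) :
    status M G (r + 1) u = some b := by
  rw [status, h]

lemma status_mono {r r' : ℕ} (hr : r ≤ r') {u : Fin n} {b : Bool} (h : status M G r u = some b) :
    status M G r' u = some b := by
  induction r', hr using Nat.le_induction with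
  | base => exact h
  | succ r' _ ih => exact status_succ M G ih

lemma halted_mono {r r' : ℕ} (hr : r ≤ r') (h : Halted M G r) : Halted M G r' := by
  intro u
  obtain ⟨b, hb⟩ := Option.ne_none_iff_exists'.mp (h u)
  rw [status_mono M G hr hb]
  simp

/-- If the machine has halted within `r` passes, the decisions do not change any more. -/
lemma status_eq_of_halted {r r' : ℕ} (hr : r ≤ r') (h : Halted M G r) (u : Fin n) :
    status M G r' u = status M G r u := by
  obtain ⟨b, hb⟩ := Option.ne_none_iff_exists'.mp (h u)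
  rw [status_mono M G hr hb, hb]

lemma correct_halted (h : Correct M G) (ht : Halted M G t) :
    (∃ u, status M G t u = some true) ↔ ¬ G.CliqueFree 3 := by
  obtain ⟨r, hr, hc⟩ := h
  rw [← hc]
  rcases le_total r t with h1 | h1
  · exact exists_congr fun u => by rw [status_eq_of_halted M G h1 hr u]
  · exact exists_congr fun u => by rw [status_eq_of_halted M G h1 ht u]

end

section meas
variable {n B : ℕ} {Ω : Type*} [MeasurableSpace Ω] (μ : Measure Ω)
  (M : Ω → Machine n B) (G : SimpleGraph (Fin n))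

lemma meas_reject (hm : ∀ r u x, MeasurableSet {ω | status (M ω) G r u = x}) (r : ℕ) :
    MeasurableSet {ω | ∃ u, status (M ω) G r u = some true} := by
  have : {ω | ∃ u, status (M ω) G r u = some true} =
      ⋃ u, {ω | status (M ω) G r u = some true} := by
    ext ω; simp
  rw [this]
  exact MeasurableSet.iUnion fun u => hm r u _

lemma meas_halted (hm : ∀ r u x, MeasurableSet {ω | status (M ω) G r u = x}) (r : ℕ) :
    MeasurableSet {ω | Halted (M ω) G r} := by
  have : {ω | Halted (M ω) G r} = ⋂ u, {ω | status (M ω) G r u = none}ᶜ := by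
    ext ω; simp [Halted]
  rw [this]
  exact MeasurableSet.iInter fun u => (hm r u _).compl

lemma meas_correct (hm : ∀ r u x, MeasurableSet {ω | status (M ω) G r u = x}) :
    MeasurableSet {ω | Correct (M ω) G} := by
  have : {ω | Correct (M ω) G} = ⋃ r, ({ω | Halted (M ω) G r} ∩
      {ω | (∃ u, status (M ω) G r u = some true) ↔ ¬ G.CliqueFree 3}) := by
    ext ω; simp [Correct]
  rw [this]
  refine MeasurableSet.iUnion fun r => (meas_halted M G hm r).inter ?_
  by_cases h : G.CliqueFree 3
  · have : {ω | (∃ u, status (M ω) G r u = some true) ↔ ¬ G.CliqueFree 3} =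
        {ω | ∃ u, status (M ω) G r u = some true}ᶜ := by
      ext ω; simp [h]
    rw [this]
    exact (meas_reject M G hm r).compl
  · have : {ω | (∃ u, status (M ω) G r u = some true) ↔ ¬ G.CliqueFree 3} =
        {ω | ∃ u, status (M ω) G r u = some true} := by
      ext ω; simp [h]
    rw [this]
    exact meas_reject M G hm r

variable [IsProbabilityMeasure μ]

/-- Probability of not having halted within `t` passes. -/
lemma not_halted_le {T : ℝ} (t : ℕ)
    (hT : ∀ m, ∑ r ∈ Finset.range m, (μ {ω | ¬ Halted (M ω) G r}).toReal ≤ T) :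
    (t + 1) * (μ {ω | ¬ Halted (M ω) G t}).toReal ≤ T := by
  have h := hT (t + 1)
  have h2 : ∑ r ∈ Finset.range (t + 1), (μ {ω | ¬ Halted (M ω) G t}).toReal ≤
      ∑ r ∈ Finset.range (t + 1), (μ {ω | ¬ Halted (M ω) G r}).toReal := by
    refine Finset.sum_le_sum fun r hr => ?_
    refine ENNReal.toReal_mono (measure_ne_top _ _) (measure_mono ?_)
    intro ω hω hh
    exact hω (halted_mono (M ω) G (by simpa [Nat.lt_succ_iff] using hr) hh)
  rw [Finset.sum_const, Finset.card_range, nsmul_eq_mul] at h2
  push_cast at h2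
  linarith

lemma errLE_of_machine {T : ℝ} (t : ℕ) (hM : DetectsTriangles μ M) (hT : ExpectedPassesLE μ M T)
    (ht : 30 * T ≤ t + 1) : ErrLE μ (fun ω => toAlg t (M ω)) t := by
  intro G hG
  obtain ⟨hm, hc⟩ := hM G hG
  have hT' := hT G hG
  have hT0 : 0 ≤ T := by simpa using hT' 0
  have hmr : MeasurableSet {ω | Rejects (toAlg t (M ω)) t G} := by
    have : {ω | Rejects (toAlg t (M ω)) t G} = {ω | ∃ u, status (M ω) G t u = some true} := by
      ext ω; exact rejects_toAlg (M ω) G t
    rw [this]
    exact meas_reject M G hm t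
  have h1 : (μ {ω | ¬ Halted (M ω) G t}).toReal ≤ 1 / 30 := by
    have h := not_halted_le μ M G t hT'
    have h0 : 0 ≤ (μ {ω | ¬ Halted (M ω) G t}).toReal := ENNReal.toReal_nonneg
    have ht0 : (0 : ℝ) ≤ t := Nat.cast_nonneg _
    by_contra hcon
    push Not at hcon
    nlinarith
  have h2 : (μ {ω | ¬ Correct (M ω) G}).toReal ≤ 1 / 3 := by
    have hcomp : {ω | ¬ Correct (M ω) G} = {ω | Correct (M ω) G}ᶜ := rfl
    rw [hcomp, prob_compl_eq_one_sub (meas_correct M G hm),
      ENNReal.toReal_sub_of_le prob_le_one ENNReal.one_ne_top]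
    have h3 : (2 / 3 : ENNReal).toReal ≤ (μ {ω | Correct (M ω) G}).toReal :=
      ENNReal.toReal_mono (measure_ne_top _ _) hc
    have h4 : (2 / 3 : ENNReal).toReal = 2 / 3 := by
      rw [ENNReal.toReal_div]; norm_num
    rw [h4] at h3
    rw [ENNReal.toReal_one]
    linarith
  have key : ∀ S : Set Ω, (∀ ω ∈ S, ¬ Halted (M ω) G t ∨ ¬ Correct (M ω) G) →
      μ S ≤ 11 / 30 := by
    intro S hS
    have hsub : S ⊆ {ω | ¬ Halted (M ω) G t} ∪ {ω | ¬ Correct (M ω) G} := fun ω hω => hS ω hω
    have h5 : (μ S).toReal ≤ 11 / 30 := by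
      calc (μ S).toReal ≤ (μ ({ω | ¬ Halted (M ω) G t} ∪ {ω | ¬ Correct (M ω) G})).toReal :=
            ENNReal.toReal_mono (measure_ne_top _ _) (measure_mono hsub)
        _ ≤ (μ {ω | ¬ Halted (M ω) G t} + μ {ω | ¬ Correct (M ω) G}).toReal :=
            ENNReal.toReal_mono (by finiteness) (measure_union_le _ _)
        _ = (μ {ω | ¬ Halted (M ω) G t}).toReal + (μ {ω | ¬ Correct (M ω) G}).toReal :=
            ENNReal.toReal_add (measure_ne_top _ _) (measure_ne_top _ _)
        _ ≤ 1 / 30 + 1 / 3 := add_le_add h1 h2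
        _ = 11 / 30 := by norm_num
    have h6 : (11 / 30 : ENNReal).toReal = 11 / 30 := by
      rw [ENNReal.toReal_div]; norm_num
    rw [← h6] at h5
    exact (ENNReal.toReal_le_toReal (measure_ne_top _ _)
      (ENNReal.div_ne_top (by norm_num) (by norm_num))).mp h5
  refine ⟨hmr, fun hG3 => key _ ?_, fun hG3 => key _ ?_⟩
  · intro ω hω
    by_contra hcon
    push Not at hcon
    refine hω ((rejects_toAlg (M ω) G t).mpr ?_)
    exact (correct_halted (M ω) G t hcon.2 hcon.1).mpr hG3
  · intro ω hω
    by_contra hcon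
    push Not at hcon
    exact (correct_halted (M ω) G t hcon.2 hcon.1).mp ((rejects_toAlg (M ω) G t).mp hω) hG3

end meas

/-- The bound for machines, first form. -/
theorem machine_bound (h : S_FIN1) : ∃ c : ℝ, 0 < c ∧ ∀ (n B : ℕ) (Ω : Type) [MeasurableSpace Ω]
    (μ : Measure Ω) [IsProbabilityMeasure μ] (M : Ω → Machine n B) (T : ℝ),
    DetectsTriangles μ M → ExpectedPassesLE μ M T →
      0 ≤ T ∧ c * Real.log n ≤ (T + 1) * Real.log (T + B + 2) := by
  obtain ⟨c, hc, h⟩ := h
  refine ⟨c / 180, by positivity, ?_⟩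
  intro n B Ω _ μ _ M T hM hT
  have hT0 : 0 ≤ T := by
    have := hT ⊥ (by simp) 0
    simpa using this
  refine ⟨hT0, ?_⟩
  obtain ⟨t, ht1, ht2⟩ : ∃ t : ℕ, 30 * T ≤ t ∧ (t : ℝ) ≤ 30 * T + 1 :=
    ⟨⌈30 * T⌉₊, Nat.le_ceil _, (Nat.ceil_lt_add_one (by positivity)).le⟩
  have h1 := h n B t Ω μ _ (errLE_of_machine μ M t hM hT (by linarith))
  have hB : (0 : ℝ) ≤ B := Nat.cast_nonneg _
  have hx : 0 < T + B + 2 := by linarith
  have h2 : Real.log (t + B + 2) ≤ Real.log 30 + Real.log (T + B + 2) := by
    rw [← Real.log_mul (by norm_num) hx.ne']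
    exact Real.log_le_log (by positivity) (by linarith)
  have h3 : Real.log 2 ≤ Real.log (T + B + 2) := Real.log_le_log (by norm_num) (by linarith)
  have h4 : Real.log 30 ≤ 5 * Real.log 2 := by
    have : (5 : ℝ) * Real.log 2 = Real.log (2 ^ 5) := by
      rw [Real.log_pow]; norm_num
    rw [this]
    exact Real.log_le_log (by norm_num) (by norm_num)
  have h5 : 0 < Real.log 2 := Real.log_pos (by norm_num)
  have h6 : Real.log (t + B + 2) ≤ 6 * Real.log (T + B + 2) := by linarith
  have h7 : ((t : ℝ) + 1) * Real.log (t + B + 2) ≤ (30 * (T + 1)) * (6 * Real.log (T + B + 2)) := by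
    refine mul_le_mul (by linarith) h6 ?_ (by positivity)
    refine Real.log_nonneg ?_
    have : (0 : ℝ) ≤ t := Nat.cast_nonneg _
    linarith
  linarith

/-- Algorithms without communication: the length of the messages is irrelevant. -/
lemma errLE_zero {n B : ℕ} {Ω : Type*} [MeasurableSpace Ω] (μ : Measure Ω)
    (P : Ω → Alg n B) (h : ErrLE μ P 0) :
    ErrLE μ (fun ω => (⟨fun _ _ _ _ _ => fun _ => false,
      fun u N _ => (P ω).rejects u N (fun _ _ _ => false)⟩ : Alg n 0)) 0 := by
  have e : ∀ ω G, Rejects (⟨fun _ _ _ _ _ => fun _ => false,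
      fun u N _ => (P ω).rejects u N (fun _ _ _ => false)⟩ : Alg n 0) 0 G ↔
      Rejects (P ω) 0 G := fun ω G => Iff.rfl
  exact h

/-- At least `1 / 30` passes are needed. -/
theorem machine_pass (h : S_FIN1) : ∃ n₀ : ℕ, ∀ (n B : ℕ), n₀ ≤ n → ∀ (Ω : Type)
    [MeasurableSpace Ω] (μ : Measure Ω) [IsProbabilityMeasure μ] (M : Ω → Machine n B) (T : ℝ),
    DetectsTriangles μ M → ExpectedPassesLE μ M T → 1 / 30 ≤ T := by
  obtain ⟨c, hc, h⟩ := h
  obtain ⟨n₀, hn₀⟩ := exists_nat_gt (Real.exp (Real.log 2 / c))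
  refine ⟨n₀, ?_⟩
  intro n B hn Ω _ μ _ M T hM hT
  by_contra hcon
  push Not at hcon
  have h0 := errLE_of_machine μ M 0 hM hT (by push_cast; linarith)
  have h1 := h n 0 0 Ω μ _ (errLE_zero μ _ h0)
  have h2 : Real.log 2 / c < Real.log n := by
    rw [Real.lt_log_iff_exp_lt]
    · exact lt_of_lt_of_le hn₀ (by exact_mod_cast hn)
    · exact lt_trans (Real.exp_pos _) (lt_of_lt_of_le hn₀ (by exact_mod_cast hn))
  rw [div_lt_iff₀ hc] at h2
  norm_num at h1
  linarith

end Pool.Agent.CT
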